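import Pool.Agent.Y124.EllInd
import Pool.Agent.TH659.AQ.Leg

/-!
# Legendre's relation for complex modulus
-/

set_option autoImplicit false

open Filter Topology Complex

namespace Pool.Agent.Y124.GE

open Pool.Agent.Y124

theorem legendre_C {m : ℂ} (hm : m ∈ Dom) :
    ellI (-(1 / 2)) m * ellI (1 / 2) (1 - m) + ellI (1 / 2) m * ellI (-(1 / 2)) (1 - m) -
      ellI (-(1 / 2)) m * ellI (-(1 / 2)) (1 - m) = (Real.pi : ℂ) / 2 := by
  have hsub : ∀ s m, m ∈ Dom → AnalyticAt ℂ (fun m => ellI s (1 - m)) m := by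
    intro s m hm
    have h1 : AnalyticAt ℂ (ellI s) (1 - m) := by
      apply ellI_analyticAt
      have : (1 : ℂ) - (1 - m) = m := by ring
      rw [this]
      exact hm.1
    exact AnalyticAt.fun_comp (f := fun m : ℂ => 1 - m) h1 (analyticAt_const.sub analyticAt_id)
  have han : AnalyticOnNhd ℂ (fun m => ellI (-(1 / 2)) m * ellI (1 / 2) (1 - m) + ellI (1 / 2) m * ellI (-(1 / 2)) (1 - m) -
      ellI (-(1 / 2)) m * ellI (-(1 / 2)) (1 - m)) Dom := by
    intro m hm
    have k1 := ellI_analyticAt (-(1 / 2)) m hm.2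
    have k2 := ellI_analyticAt (1 / 2) m hm.2
    exact ((k1.mul (hsub _ m hm)).add (k2.mul (hsub _ m hm))).sub (k1.mul (hsub _ m hm))
  have hconst : AnalyticOnNhd ℂ (fun _ : ℂ => (Real.pi : ℂ) / 2) Dom := fun _ _ => analyticAt_const
  refine han.eqOn_of_preconnected_of_frequently_eq hconst isPreconnected_Dom half_mem_Dom ?_ hm
  have hreal : ∀ t : ℝ, 0 < t → t < 1 → ellI (-(1 / 2)) (t : ℂ) * ellI (1 / 2) (1 - (t : ℂ)) + ellI (1 / 2) (t : ℂ) * ellI (-(1 / 2)) (1 - (t : ℂ)) -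
      ellI (-(1 / 2)) (t : ℂ) * ellI (-(1 / 2)) (1 - (t : ℂ)) = (Real.pi : ℂ) / 2 := by
    intro t h0 h1
    have h2 : (1 : ℂ) - (t : ℂ) = ((1 - t : ℝ) : ℂ) := by push_cast; ring
    rw [h2, ellK_ofReal t h1, ellE_ofReal t h1, ellK_ofReal (1 - t) (by linarith), ellE_ofReal (1 - t) (by linarith)]
    exact_mod_cast TH659.AQ.legHalf t h0 h1
  have hseq : Tendsto (fun n : ℕ => (((1 / 2 + 1 / ((n : ℝ) + 3) : ℝ)) : ℂ)) atTop (𝓝[≠] (((1 / 2 : ℝ)) : ℂ)) := by
    rw [tendsto_nhdsWithin_iff]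
    constructor
    · have h1 : Tendsto (fun n : ℕ => (1 / 2 + 1 / ((n : ℝ) + 3) : ℝ)) atTop (𝓝 (1 / 2 + 0)) := by
        refine tendsto_const_nhds.add ?_
        have h2 : Tendsto (fun n : ℕ => ((n : ℝ) + 3)) atTop atTop :=
          tendsto_atTop_add_const_right _ _ tendsto_natCast_atTop_atTop
        have h3 := h2.inv_tendsto_atTop
        simp only [one_div]
        exact h3
      rw [add_zero] at h1
      exact (Complex.continuous_ofReal.tendsto _).comp h1
    · filter_upwards with n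
      intro h
      have h1 := Complex.ofReal_injective h
      have h2 : (0 : ℝ) < 1 / ((n : ℝ) + 3) := by positivity
      linarith
  refine hseq.frequently (Frequently.of_forall fun n => ?_)
  refine hreal _ (by positivity) ?_
  have h2 : 1 / ((n : ℝ) + 3) ≤ 1 / 3 := by
    apply one_div_le_one_div_of_le (by norm_num)
    have : (0 : ℝ) ≤ n := Nat.cast_nonneg n
    linarith
  linarith

end Pool.Agent.Y124.GE
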