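import Pool.Agent.Y124.GE.Tor
import Pool.Agent.H340R2.LW

/-!
# Relations over number fields hold for all tuples of matrices with the same determinant
-/

set_option autoImplicit false

open Complex Module

namespace Pool.Agent.Y124.GE

/-- the transformed polynomial over a ring -/
noncomputable def QTs {R : Type} [CommRing R] (τ : R) {k : ℕ} (δ : ℕ) (s : Finset (Fin k × Fin 2 × Fin 2 →₀ ℕ))
    (c : (Fin k × Fin 2 × Fin 2 →₀ ℕ) → R) : MvPolynomial (Fin k × Fin 3) R :=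
  ∑ m ∈ s, MvPolynomial.C (c m) * ∏ j, (MvPolynomial.X (j, (0 : Fin 3)) ^ (m (j, 0, 0) + (δ - m (j, 1, 1))) *
    MvPolynomial.X (j, (1 : Fin 3)) ^ m (j, 1, 0) * MvPolynomial.X (j, (2 : Fin 3)) ^ m (j, 0, 1) *
    (MvPolynomial.C τ + MvPolynomial.X (j, (1 : Fin 3)) * MvPolynomial.X (j, (2 : Fin 3))) ^ m (j, 1, 1))

lemma map_QTs {R S : Type} [CommRing R] [CommRing S] (φ : R →+* S) (τ : R) {k : ℕ} (δ : ℕ) (s : Finset (Fin k × Fin 2 × Fin 2 →₀ ℕ))
    (c : (Fin k × Fin 2 × Fin 2 →₀ ℕ) → R) : MvPolynomial.map φ (QTs τ δ s c) = QTs (φ τ) δ s fun m => φ (c m) := by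
  simp only [QTs, map_sum, map_mul, map_prod, map_pow, map_add, MvPolynomial.map_C, MvPolynomial.map_X]

/-- points at which the polynomial does not vanish -/
lemma exists_torsor_point {τ : ℂ} {k δ : ℕ} {P : MvPolynomial (Fin k × Fin 2 × Fin 2) ℂ} (hP : P.totalDegree ≤ δ) (h : QT τ δ P ≠ 0) :
    ∃ g : Fin k → Matrix (Fin 2) (Fin 2) ℂ, (∀ j, (g j).det = τ) ∧ MvPolynomial.aeval (fun x : Fin k × Fin 2 × Fin 2 => g x.1 x.2.1 x.2.2) P ≠ 0 := by
  classical
  have h1 : QT τ δ P * ∏ j : Fin k, MvPolynomial.X (j, (0 : Fin 3)) ≠ 0 :=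
    mul_ne_zero h (Finset.prod_ne_zero_iff.2 fun j _ => MvPolynomial.X_ne_zero _)
  obtain ⟨x, hx⟩ : ∃ x, MvPolynomial.eval x (QT τ δ P * ∏ j : Fin k, MvPolynomial.X (j, (0 : Fin 3))) ≠ 0 := by
    by_contra hno
    push Not at hno
    exact h1 (MvPolynomial.funext fun x => by rw [hno x, map_zero])
  rw [map_mul, map_prod] at hx
  have hx0 : ∀ j, x (j, 0) ≠ 0 := by
    intro j h0
    apply right_ne_zero_of_mul hx
    refine Finset.prod_eq_zero (Finset.mem_univ j) ?_
    rw [MvPolynomial.eval_X, h0]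
  set g : Fin k → Matrix (Fin 2) (Fin 2) ℂ := fun j => !![x (j, 0), x (j, 2); x (j, 1), (τ + x (j, 1) * x (j, 2)) / x (j, 0)] with hg
  have hdet : ∀ j, (g j).det = τ := by
    intro j
    rw [hg, Matrix.det_fin_two_of, mul_div_cancel₀ _ (hx0 j)]
    ring
  have he : e3 g = x := by
    funext y
    obtain ⟨j, i⟩ := y
    fin_cases i <;> rfl
  refine ⟨g, hdet, fun h0 => ?_⟩
  have h2 := eval_QT hP hdet
  rw [he] at h2
  have h3 : MvPolynomial.eval (fun x : Fin k × Fin 2 × Fin 2 => g x.1 x.2.1 x.2.2) P = 0 := h0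
  rw [h3, mul_zero] at h2
  exact left_ne_zero_of_mul hx h2

/-- **The whole torsor.** -/
theorem torsor_all {k δ : ℕ} {L : IntermediateField ℚ ℂ} (hL : FiniteDimensional ℚ L) {P : MvPolynomial (Fin k × Fin 2 × Fin 2) L}
    (hP : P.totalDegree ≤ δ) {τ : ℂ} (hτ : Transcendental ℚ τ)
    (h : ∀ g : Fin k → Matrix (Fin 2) (Fin 2) ℂ, (∀ j, (g j).det = τ) →
      MvPolynomial.aeval (fun x : Fin k × Fin 2 × Fin 2 => g x.1 x.2.1 x.2.2) P = 0)
    {z : ℂ} (hz : z ≠ 0) (g : Fin k → Matrix (Fin 2) (Fin 2) ℂ) (hg : ∀ j, (g j).det = z) :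
    MvPolynomial.aeval (fun x : Fin k × Fin 2 × Fin 2 => g x.1 x.2.1 x.2.2) P = 0 := by
  classical
  set PC : MvPolynomial (Fin k × Fin 2 × Fin 2) ℂ := MvPolynomial.map (algebraMap L ℂ) P with hPC
  have hev : ∀ y : Fin k × Fin 2 × Fin 2 → ℂ, MvPolynomial.aeval y PC = MvPolynomial.aeval y P := fun y =>
    MvPolynomial.aeval_map_algebraMap _ _ _
  have hsupp : PC.support = P.support := MvPolynomial.support_map_of_injective _ (algebraMap L ℂ).injective
  have hPCd : PC.totalDegree ≤ δ := by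
    rw [MvPolynomial.totalDegree, hsupp]
    exact hP
  have h0 : QT τ δ PC = 0 := by
    by_contra hne
    obtain ⟨g', hg', hgv⟩ := exists_torsor_point hPCd hne
    rw [hev] at hgv
    exact hgv (h g' hg')
  set F : MvPolynomial (Fin k × Fin 3) (Polynomial L) := QTs Polynomial.X δ P.support fun m => Polynomial.C (P.coeff m) with hF
  have hmap : ∀ w : ℂ, MvPolynomial.map (Polynomial.eval₂RingHom (algebraMap L ℂ) w) F = QT w δ PC := by
    intro w
    rw [hF, map_QTs]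
    have h1 : QT w δ PC = QTs w δ PC.support fun m => PC.coeff m := rfl
    rw [h1, hsupp]
    congr 1
    · simp
    · funext m
      rw [hPC, MvPolynomial.coeff_map]
      simp
  have hτL : Transcendental L τ := fun ha => hτ (ha.restrictScalars ℚ)
  have hF0 : F = 0 := by
    ext1 s
    rw [MvPolynomial.coeff_zero]
    have h1 := congrArg (MvPolynomial.coeff s) (hmap τ)
    rw [h0, MvPolynomial.coeff_zero, MvPolynomial.coeff_map] at h1
    by_contra hne
    exact hτL ⟨F.coeff s, hne, h1⟩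
  have hz0 : QT z δ PC = 0 := by
    rw [← hmap z, hF0, map_zero]
  by_contra hne
  rw [← hev] at hne
  exact QT_ne hz hPCd hg hne hz0

end Pool.Agent.Y124.GE
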