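import Pool.Agent.Y124.GE.Qt

/-!
# Local data for every family of elliptic curves
-/

set_option autoImplicit false

namespace Pool.Agent.Y124.GE

open PowerSeries Finset Pool.Agent.Y113 Pool.Agent.Y113.HGG Pool.Agent.Y655.HG

lemma xp_coe (p : Polynomial ℚ) : xp (p : ℚ⟦X⟧) = ((Polynomial.expand ℚ 12 p : Polynomial ℚ) : ℚ⟦X⟧) := by
  ext n
  rw [coeff_expand, Polynomial.coeff_coe, Polynomial.coeff_coe, Polynomial.coeff_expand (by norm_num)]

lemma sig_even {w : ℕ} (h : 6 ∣ w) : (w : ZMod 12) = -(w : ZMod 12) := by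
  obtain ⟨c, rfl⟩ := h
  have h12 : ((12 : ℕ) : ZMod 12) = 0 := by rfl
  push_cast at h12 ⊢
  linear_combination (c : ZMod 12) * h12

/-- **The general construction.** -/
theorem ld_mk {a b A B : Polynomial ℚ} (w : ℕ) (hA : xp (a : ℚ⟦X⟧) = X ^ (4 * w) * (A : ℚ⟦X⟧))
    (hB : xp (b : ℚ⟦X⟧) = X ^ (6 * w) * (B : ℚ⟦X⟧)) (hA0 : A ≠ 0) (k : ℕ) (D1 : Polynomial ℚ) (hD1 : De A B = Polynomial.X ^ k * D1)
    (hD10 : D1.eval 0 ≠ 0) (W1 : ℚ⟦X⟧) (hW1 : (X * (Wr A B : ℚ⟦X⟧)) = X ^ k * W1)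
    (hN : (k : ℚ) ^ 2 / 144 + 3 / 4 * A.eval 0 * (constantCoeff W1 / D1.eval 0) ^ 2 = 0)
    (hcase : (k = 0 ∧ constantCoeff W1 = 0) ∨ 6 ∣ w) : Nonempty (LD a b) := by
  have hD1c : constantCoeff (D1 : ℚ⟦X⟧) = D1.eval 0 := by
    rw [Polynomial.constantCoeff_coe, Polynomial.coeff_zero_eq_eval_zero]
  have hA0c : constantCoeff (A : ℚ⟦X⟧) = A.eval 0 := by
    rw [Polynomial.constantCoeff_coe, Polynomial.coeff_zero_eq_eval_zero]
  have hD1' : constantCoeff (D1 : ℚ⟦X⟧) ≠ 0 := by rwa [hD1c]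
  have hDne : De A B ≠ 0 := by
    rw [hD1]
    refine mul_ne_zero (pow_ne_zero _ Polynomial.X_ne_zero) ?_
    rintro rfl
    simp at hD10
  set Dp : ℚ⟦X⟧ := (D1 : ℚ⟦X⟧) with hDp
  have hDe : (De A B : ℚ⟦X⟧) = X ^ k * Dp := by
    rw [hD1]
    simp only [Polynomial.coe_mul, Polynomial.coe_pow, Polynomial.coe_X]
    rfl
  have hinv : Dp * Dp⁻¹ = 1 := PowerSeries.mul_inv_cancel _ hD1'
  -- gradings
  set g : Fin 2 → ZMod 12 := ![(w : ZMod 12), -(w : ZMod 12)] with hg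
  have h12 : ((12 : ℕ) : ZMod 12) = 0 := by rfl
  have h12' : (12 : ZMod 12) = 0 := h12
  have gA : Gr (-4 * (w : ZMod 12)) (A : ℚ⟦X⟧) := by
    have h1 : Gr 0 (X ^ (4 * w) * (A : ℚ⟦X⟧)) := hA ▸ Gr.xp _
    have h2 := h1.of_X_pow_mul
    have h3 : (0 : ZMod 12) - ((4 * w : ℕ) : ZMod 12) = -4 * (w : ZMod 12) := by
      push_cast; ring
    rwa [h3] at h2
  have gD : Gr 0 (De A B : ℚ⟦X⟧) := by
    have h1 : Gr 0 (X ^ (12 * w) * (De A B : ℚ⟦X⟧)) := xp_De hA hB ▸ Gr.xp _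
    have h2 := h1.of_X_pow_mul
    have h3 : (0 : ZMod 12) - ((12 * w : ℕ) : ZMod 12) = 0 := by
      push_cast
      linear_combination (-(w : ZMod 12)) * h12'
    rwa [h3] at h2
  have hk : (k : ZMod 12) = 0 := by
    refine gD k ?_
    rw [hDe, coeff_X_pow_mul', if_pos le_rfl, Nat.sub_self, coeff_zero_eq_constantCoeff_apply]
    exact hD1'
  have gD1 : Gr 0 Dp := by
    have h1 : Gr 0 (X ^ k * Dp) := hDe ▸ gD
    have h2 := h1.of_X_pow_mul
    rwa [hk, sub_zero] at h2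
  have gW : Gr (2 * (w : ZMod 12)) W1 := by
    have h1 : Gr 0 (X ^ (10 * w) * (X * (Wr A B : ℚ⟦X⟧))) := by
      rw [← xp_Wr hA hB]
      have h5 : Gr 0 (PowerSeries.C 12 * (X ^ 12 * xp (Wr a b : ℚ⟦X⟧))) := by
        have h6 := (Gr.C 12).mul ((Gr.X_pow 12).mul (Gr.xp (Wr a b : ℚ⟦X⟧)))
        rwa [h12, add_zero, add_zero] at h6
      exact h5
    have h2 := h1.of_X_pow_mul
    rw [hW1] at h2
    have h3 := h2.of_X_pow_mul
    have h4 : (0 : ZMod 12) - ((10 * w : ℕ) : ZMod 12) - (k : ZMod 12) = 2 * (w : ZMod 12) := by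
      rw [hk]
      push_cast
      linear_combination (-(w : ZMod 12)) * h12'
    rwa [h4] at h3
  have gDi : Gr 0 Dp⁻¹ := gD1.inv hD1'
  -- the matrix
  set B0 : ℚ⟦X⟧ := -(PowerSeries.C (1 / 12) * (PowerSeries.C (k : ℚ) + (X * d⁄dX ℚ Dp) * Dp⁻¹)) with hB0
  set B1 : ℚ⟦X⟧ := -(PowerSeries.C (1 / 2) * ((A : ℚ⟦X⟧) * (W1 * Dp⁻¹))) with hB1
  set B2 : ℚ⟦X⟧ := -(PowerSeries.C (3 / 2) * (W1 * Dp⁻¹)) with hB2
  set Bf : Fin 2 → Fin 2 → ℚ⟦X⟧ := ![![B0, B1], ![B2, -B0]] with hBf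
  have g0 : Gr 0 B0 := by
    have h1 := ((Gr.C (1 / 12)).mul ((Gr.C (k : ℚ)).add (by
      have h2 := gD1.theta.mul gDi
      rwa [add_zero] at h2 : Gr 0 ((X * d⁄dX ℚ Dp) * Dp⁻¹)))).neg
    rwa [add_zero] at h1
  have g1 : Gr (-2 * (w : ZMod 12)) B1 := by
    have h1 := ((Gr.C (1 / 2)).mul (gA.mul (gW.mul gDi))).neg
    have h2 : (0 : ZMod 12) + (-4 * (w : ZMod 12) + (2 * (w : ZMod 12) + 0)) = -2 * (w : ZMod 12) := by ring
    rwa [h2] at h1
  have g2 : Gr (2 * (w : ZMod 12)) B2 := by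
    have h1 := ((Gr.C (3 / 2)).mul (gW.mul gDi)).neg
    have h2 : (0 : ZMod 12) + (2 * (w : ZMod 12) + 0) = 2 * (w : ZMod 12) := by ring
    rwa [h2] at h1
  have gB : ∀ i j, Gr (g j - g i) (Bf i j) := by
    intro i j
    fin_cases i <;> fin_cases j
    · show Gr ((w : ZMod 12) - (w : ZMod 12)) B0
      rwa [sub_self]
    · show Gr (-(w : ZMod 12) - (w : ZMod 12)) B1
      have : -(w : ZMod 12) - (w : ZMod 12) = -2 * (w : ZMod 12) := by ring
      rwa [this]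
    · show Gr ((w : ZMod 12) - -(w : ZMod 12)) B2
      have : (w : ZMod 12) - -(w : ZMod 12) = 2 * (w : ZMod 12) := by ring
      rwa [this]
    · show Gr (-(w : ZMod 12) - -(w : ZMod 12)) (-B0)
      rw [sub_self]
      exact g0.neg
  -- the equations
  have hdD : X * d⁄dX ℚ (De A B : ℚ⟦X⟧) = X ^ k * (PowerSeries.C (k : ℚ) * Dp + X * d⁄dX ℚ Dp) := by
    rw [hDe, Derivation.leibniz, Derivation.leibniz_pow, derivative_X]
    simp only [smul_eq_mul, nsmul_eq_mul, mul_one, map_natCast]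
    rcases k with _ | k
    · simp
    · rw [Nat.add_sub_cancel]
      push_cast
      ring
  have hDB : ∀ i j, (De A B : ℚ⟦X⟧) * Bf i j = X * (AE A B i j : ℚ⟦X⟧) := by
    obtain ⟨d00, d01, d10, d11⟩ := coe_AE A B
    intro i j
    have e0 : (De A B : ℚ⟦X⟧) * B0 = -(PowerSeries.C (1 / 12) * (X * d⁄dX ℚ (De A B : ℚ⟦X⟧))) := by
      rw [hdD, hDe, hB0]
      linear_combination (-(PowerSeries.C (1 / 12)) * X ^ k * (X * d⁄dX ℚ Dp)) * hinv
    fin_cases i <;> fin_cases j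
    · show (De A B : ℚ⟦X⟧) * B0 = X * (AE A B 0 0 : ℚ⟦X⟧)
      rw [e0, d00]
      ring
    · show (De A B : ℚ⟦X⟧) * B1 = X * (AE A B 0 1 : ℚ⟦X⟧)
      rw [d01, hDe, hB1]
      linear_combination (-(PowerSeries.C (1 / 2)) * X ^ k * (A : ℚ⟦X⟧) * W1) * hinv + (PowerSeries.C (1 / 2) * (A : ℚ⟦X⟧)) * hW1
    · show (De A B : ℚ⟦X⟧) * B2 = X * (AE A B 1 0 : ℚ⟦X⟧)
      rw [d10, hDe, hB2]
      linear_combination (-(PowerSeries.C (3 / 2)) * X ^ k * W1) * hinv + (PowerSeries.C (3 / 2)) * hW1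
    · show (De A B : ℚ⟦X⟧) * -B0 = X * (AE A B 1 1 : ℚ⟦X⟧)
      rw [mul_neg, e0, d11]
      ring
  -- the residue
  set ν : ℚ := constantCoeff W1 / D1.eval 0 with hν
  have hWi : constantCoeff (W1 * Dp⁻¹) = ν := by
    rw [map_mul, PowerSeries.constantCoeff_inv, hDp, hD1c, hν, div_eq_mul_inv]
  set N : M2 := fun i j => constantCoeff (Bf i j) with hNdef
  have n0 : constantCoeff B0 = -(k : ℚ) / 12 := by
    rw [hB0]
    simp only [map_neg, map_mul, map_add, constantCoeff_C, constantCoeff_X, zero_mul, add_zero]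
    ring
  have n1 : constantCoeff B1 = -(1 / 2) * (A.eval 0 * ν) := by
    rw [hB1, map_neg, map_mul, map_mul, constantCoeff_C, hWi, hA0c]
    ring
  have n2 : constantCoeff B2 = -(3 / 2) * ν := by
    rw [hB2, map_neg, map_mul, constantCoeff_C, hWi]
    ring
  have N00 : N 0 0 = -(k : ℚ) / 12 := n0
  have N01 : N 0 1 = -(1 / 2) * (A.eval 0 * ν) := n1
  have N10 : N 1 0 = -(3 / 2) * ν := n2
  have N11 : N 1 1 = (k : ℚ) / 12 := by
    show constantCoeff (-B0) = _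
    rw [map_neg, n0]
    ring
  have hNN : N * N = 0 := by
    ext i j
    rw [Matrix.mul_apply, Fin.sum_univ_two, Matrix.zero_apply]
    fin_cases i <;> fin_cases j <;> simp only [Fin.zero_eta, Fin.mk_one, N00, N01, N10, N11]
    · linear_combination hN
    · ring
    · ring
    · linear_combination hN
  obtain ⟨S, hS, hSg⟩ := frob A B N Bf hDB (fun i j => rfl) hNN g fun i j n hn => gB i j n hn
  have hSD := fun i j => sd_frob hA0 hDne hNN hS i j
  rcases hcase with ⟨hk0, hW0⟩ | h6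
  · have hN0 : ∀ i j, N i j = 0 := by
      have hν0 : ν = 0 := by rw [hν, hW0, zero_div]
      have hk0' : (k : ℚ) = 0 := by rw [hk0]; rfl
      intro i j
      fin_cases i <;> fin_cases j
      · show N 0 0 = 0
        rw [N00, hk0']; norm_num
      · show N 0 1 = 0
        rw [N01, hν0]; ring
      · show N 1 0 = 0
        rw [N10, hν0]; ring
      · show N 1 1 = 0
        rw [N11, hk0']; norm_num
    refine ld_of w hA hB hS hNN ![w, 11 * w] (fun i k h => absurd (hN0 i k) h) (fun i => ?_) g rfl rfl (fun i => ?_) hSg hSD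
    · fin_cases i
      · exact le_rfl
      · show w ≤ 11 * w
        omega
    · fin_cases i
      · rfl
      · show ((11 * w : ℕ) : ZMod 12) = -(w : ZMod 12)
        push_cast
        linear_combination (w : ZMod 12) * h12'
  · refine ld_of w hA hB hS hNN (fun _ => w) (fun i k h => rfl) (fun i => le_rfl) g rfl rfl (fun i => ?_) hSg hSD
    fin_cases i
    · rfl
    · exact sig_even h6

/-- **Every family has local data.** -/
theorem ld_all {a b : Polynomial ℚ} (ha : a ≠ 0) (hb : b ≠ 0) (hD : De a b ≠ 0) : Nonempty (LD a b) := by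
  obtain ⟨va, a1, ha1, ha10⟩ := exists_D1 ha
  obtain ⟨vb, b1, hb1, hb10⟩ := exists_D1 hb
  set w := min (3 * va) (2 * vb) with hw
  have hwa : 4 * w ≤ 12 * va := by
    have := min_le_left (3 * va) (2 * vb)
    omega
  have hwb : 6 * w ≤ 12 * vb := by
    have := min_le_right (3 * va) (2 * vb)
    omega
  set A : Polynomial ℚ := Polynomial.X ^ (12 * va - 4 * w) * Polynomial.expand ℚ 12 a1 with hAd
  set B : Polynomial ℚ := Polynomial.X ^ (12 * vb - 6 * w) * Polynomial.expand ℚ 12 b1 with hBd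
  have hA : xp (a : ℚ⟦X⟧) = X ^ (4 * w) * (A : ℚ⟦X⟧) := by
    rw [xp_coe, ha1, map_mul, map_pow, Polynomial.expand_X, hAd]
    simp only [Polynomial.coe_mul, Polynomial.coe_pow, Polynomial.coe_X]
    rw [← mul_assoc, ← pow_add, ← pow_mul]
    congr 2
    omega
  have hB : xp (b : ℚ⟦X⟧) = X ^ (6 * w) * (B : ℚ⟦X⟧) := by
    rw [xp_coe, hb1, map_mul, map_pow, Polynomial.expand_X, hBd]
    simp only [Polynomial.coe_mul, Polynomial.coe_pow, Polynomial.coe_X]
    rw [← mul_assoc, ← pow_add, ← pow_mul]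
    congr 2
    omega
  have ev : ∀ p : Polynomial ℚ, (Polynomial.expand ℚ 12 p).eval 0 = p.eval 0 := by
    intro p
    rw [Polynomial.expand_eval]
    norm_num
  have ha1ne : a1 ≠ 0 := by
    rintro rfl
    simp at ha10
  have hA0 : A ≠ 0 := by
    refine mul_ne_zero (pow_ne_zero _ Polynomial.X_ne_zero) ?_
    exact (Polynomial.expand_ne_zero (by norm_num)).2 ha1ne
  have hDne : De A B ≠ 0 := by
    intro h0
    have h1 := xp_De hA hB
    rw [h0] at h1
    simp only [Polynomial.coe_zero, mul_zero] at h1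
    have h2 : (De a b : ℚ⟦X⟧) = 0 := xp_inj (by rw [h1, map_zero])
    exact hD (by exact_mod_cast h2)
  by_cases hc : (De A B).eval 0 = 0
  · -- multiplicative reduction
    have hva : 12 * va - 4 * w = 0 := by
      by_contra h
      have h1 : A.eval 0 = 0 := by
        rw [hAd, Polynomial.eval_mul, Polynomial.eval_pow, Polynomial.eval_X, zero_pow h, zero_mul]
      have h2 : 12 * vb - 6 * w = 0 := by
        rcases min_choice (3 * va) (2 * vb) with h3 | h3 <;> omega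
      have h3 : B.eval 0 = b1.eval 0 := by
        rw [hBd, h2, pow_zero, one_mul, ev]
      have h4 : (De A B).eval 0 = 27 * (b1.eval 0) ^ 2 := by
        rw [De]
        simp [h1, h3]
      rw [h4] at hc
      exact hb10 (by simpa using hc)
    have hvb : 12 * vb - 6 * w = 0 := by
      by_contra h
      have h1 : B.eval 0 = 0 := by
        rw [hBd, Polynomial.eval_mul, Polynomial.eval_pow, Polynomial.eval_X, zero_pow h, zero_mul]
      have h3 : A.eval 0 = a1.eval 0 := by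
        rw [hAd, hva, pow_zero, one_mul, ev]
      have h4 : (De A B).eval 0 = 4 * (a1.eval 0) ^ 3 := by
        rw [De]
        simp [h1, h3]
      rw [h4] at hc
      exact ha10 (by simpa using hc)
    have h6 : 6 ∣ w := by omega
    have hAe : A.eval 0 = a1.eval 0 := by rw [hAd, hva, pow_zero, one_mul, ev]
    have hBe : B.eval 0 = b1.eval 0 := by rw [hBd, hvb, pow_zero, one_mul, ev]
    obtain ⟨k, D1, hD1, hD10⟩ := exists_D1 hDne
    have hBc : constantCoeff (B : ℚ⟦X⟧) = B.eval 0 := by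
      rw [Polynomial.constantCoeff_coe, Polynomial.coeff_zero_eq_eval_zero]
    have hB0 : B.eval 0 ≠ 0 := by rw [hBe]; exact hb10
    have h54 : constantCoeff (PowerSeries.C (54 : ℚ) * (B : ℚ⟦X⟧)) ≠ 0 := by
      rw [map_mul, constantCoeff_C, hBc]
      exact mul_ne_zero (by norm_num) hB0
    have hD1c : constantCoeff (D1 : ℚ⟦X⟧) = D1.eval 0 := by
      rw [Polynomial.constantCoeff_coe, Polynomial.coeff_zero_eq_eval_zero]
    have hA0c : constantCoeff (A : ℚ⟦X⟧) = A.eval 0 := by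
      rw [Polynomial.constantCoeff_coe, Polynomial.coeff_zero_eq_eval_zero]
    have hDe : (De A B : ℚ⟦X⟧) = X ^ k * (D1 : ℚ⟦X⟧) := by
      rw [hD1]
      simp only [Polynomial.coe_mul, Polynomial.coe_pow, Polynomial.coe_X]
    have hdD : X * d⁄dX ℚ (De A B : ℚ⟦X⟧) = X ^ k * (PowerSeries.C (k : ℚ) * (D1 : ℚ⟦X⟧) + X * d⁄dX ℚ (D1 : ℚ⟦X⟧)) := by
      rw [hDe, Derivation.leibniz, Derivation.leibniz_pow, derivative_X]
      simp only [smul_eq_mul, nsmul_eq_mul, mul_one, map_natCast]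
      rcases k with _ | k
      · simp
      · rw [Nat.add_sub_cancel]
        push_cast
        ring
    set W0 : ℚ⟦X⟧ := 2 * (A : ℚ⟦X⟧) * (PowerSeries.C (k : ℚ) * (D1 : ℚ⟦X⟧) + X * d⁄dX ℚ (D1 : ℚ⟦X⟧)) - 6 * (X * d⁄dX ℚ (A : ℚ⟦X⟧)) * (D1 : ℚ⟦X⟧) with hW0
    have hinv := PowerSeries.mul_inv_cancel _ h54
    have hC54 : (PowerSeries.C (54 : ℚ) : ℚ⟦X⟧) = 54 := map_ofNat _ 54
    have hid : (PowerSeries.C (54 : ℚ) * (B : ℚ⟦X⟧)) * (X * (Wr A B : ℚ⟦X⟧)) = X ^ k * W0 := by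
      have h1 : (PowerSeries.C (54 : ℚ) * (B : ℚ⟦X⟧)) * (X * (Wr A B : ℚ⟦X⟧)) = 2 * (A : ℚ⟦X⟧) * (X * d⁄dX ℚ (De A B : ℚ⟦X⟧)) -
          6 * (X * d⁄dX ℚ (A : ℚ⟦X⟧)) * (De A B : ℚ⟦X⟧) := by
        have h4 : d⁄dX ℚ (4 : ℚ⟦X⟧) = 0 := by
          have : (4 : ℚ⟦X⟧) = PowerSeries.C 4 := (map_ofNat _ 4).symm
          rw [this, derivative_C]
        have h27 : d⁄dX ℚ (27 : ℚ⟦X⟧) = 0 := by
          have : (27 : ℚ⟦X⟧) = PowerSeries.C 27 := (map_ofNat _ 27).symm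
          rw [this, derivative_C]
        rw [coe_De, coe_Wr, map_add, Derivation.leibniz, Derivation.leibniz, Derivation.leibniz_pow, Derivation.leibniz_pow, hC54, h4, h27]
        simp only [smul_eq_mul, nsmul_eq_mul, mul_zero, add_zero]
        push_cast
        ring
      rw [h1, hdD, hDe, hW0]
      ring
    refine ld_mk w hA hB hA0 k D1 hD1 hD10 (W0 * (PowerSeries.C (54 : ℚ) * (B : ℚ⟦X⟧))⁻¹) ?_ ?_ (Or.inr h6)
    · calc X * (Wr A B : ℚ⟦X⟧) = ((PowerSeries.C (54 : ℚ) * (B : ℚ⟦X⟧)) * (X * (Wr A B : ℚ⟦X⟧))) * (PowerSeries.C (54 : ℚ) * (B : ℚ⟦X⟧))⁻¹ := by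
            linear_combination (-(X * (Wr A B : ℚ⟦X⟧))) * hinv
        _ = _ := by rw [hid]; ring
    · have h1 : constantCoeff (W0 * (PowerSeries.C (54 : ℚ) * (B : ℚ⟦X⟧))⁻¹) = 2 * A.eval 0 * ((k : ℚ) * D1.eval 0) * (54 * B.eval 0)⁻¹ := by
        have h2 : (2 : ℚ⟦X⟧) = PowerSeries.C 2 := (map_ofNat _ 2).symm
        have h3 : (6 : ℚ⟦X⟧) = PowerSeries.C 6 := (map_ofNat _ 6).symm
        rw [map_mul, PowerSeries.constantCoeff_inv, hW0, h2, h3]
        simp only [map_mul, map_sub, map_add, constantCoeff_C, constantCoeff_X, hD1c, hA0c, hBc]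
        ring
      have h4 : 4 * (A.eval 0) ^ 3 + 27 * (B.eval 0) ^ 2 = 0 := by
        rw [De] at hc
        simpa using hc
      rw [h1]
      field_simp
      linear_combination (432 * (k : ℚ) ^ 2) * h4
  · -- good reduction over the cover
    refine ld_mk w hA hB hA0 0 (De A B) (by rw [pow_zero, one_mul]) hc (X * (Wr A B : ℚ⟦X⟧)) (by rw [pow_zero, one_mul]) ?_ (Or.inl ⟨rfl, ?_⟩)
    · simp
    · simp

end Pool.Agent.Y124.GE
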