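import Pool.Agent.Y124.GE.Mu
import Pool.Agent.Y124.GE.Bd

/-!
# The theorem for arbitrary families
-/

set_option autoImplicit false

open Complex Module

namespace Pool.Agent.Y124.GE

open Pool.Agent.Y124 Pool.Agent.Y120.GF Pool.Agent.Y113

/-- rescaling -/
lemma relL_scale {δ d : ℕ} {V : Submodule ℚ ℂ} {σ : Type} [Fintype σ] {x y : σ → ℂ} (q : σ → ℚ) (hq : ∀ i, q i ≠ 0)
    (hxy : ∀ i, x i = (q i : ℂ) * y i) (h : RelL δ d V x) : RelL δ d V y := by
  classical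
  obtain ⟨L, hL, hLd, P, hP0, hPd, hPc, hPv⟩ := h
  set c : (σ →₀ ℕ) → ℚ := fun e => ∏ i, q i ^ e i with hc
  have hc0 : ∀ e, c e ≠ 0 := fun e => Finset.prod_ne_zero_iff.2 fun i _ => pow_ne_zero _ (hq i)
  set Q : MvPolynomial σ ℂ := ∑ e ∈ P.support, MvPolynomial.monomial e (P.coeff e * (c e : ℂ)) with hQ
  have hco : ∀ e, Q.coeff e = P.coeff e * (c e : ℂ) := by
    intro e
    rw [hQ, MvPolynomial.coeff_sum]
    by_cases he : e ∈ P.support
    · rw [Finset.sum_eq_single e]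
      · rw [MvPolynomial.coeff_monomial, if_pos rfl]
      · intro e' _ hne
        rw [MvPolynomial.coeff_monomial, if_neg hne]
      · intro h
        exact absurd he h
    · rw [MvPolynomial.notMem_support_iff.1 he, zero_mul]
      refine Finset.sum_eq_zero fun e' he' => ?_
      rw [MvPolynomial.coeff_monomial, if_neg]
      rintro rfl
      exact he he'
  refine ⟨L, hL, hLd, Q, ?_, ?_, ?_, ?_⟩
  · intro h0
    apply hP0
    ext e
    have h1 := hco e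
    rw [h0, MvPolynomial.coeff_zero] at h1
    rw [MvPolynomial.coeff_zero]
    exact (mul_eq_zero.1 h1.symm).resolve_right (by exact_mod_cast hc0 e)
  · refine (MvPolynomial.totalDegree_finsetSum _ _).trans (Finset.sup_le fun e he => ?_)
    refine (MvPolynomial.totalDegree_monomial_le _ _).trans ?_
    exact (MvPolynomial.le_totalDegree he).trans hPd
  · intro e
    rw [hco]
    have h1 : P.coeff e * (c e : ℂ) = (algebraMap ℚ L (c e)) • P.coeff e := by
      rw [mul_comm]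
      rfl
    rw [h1]
    exact Submodule.smul_mem _ _ (hPc e)
  · have h1 : MvPolynomial.aeval x P = MvPolynomial.eval x P := rfl
    rw [h1, MvPolynomial.eval_eq'] at hPv
    rw [← hPv, hQ, map_sum]
    refine Finset.sum_congr rfl fun e _ => ?_
    rw [MvPolynomial.aeval_monomial, Finsupp.prod_fintype _ _ (fun p => pow_zero _)]
    show P.coeff e * (c e : ℂ) * _ = _
    rw [mul_assoc]
    congr 1
    rw [hc]
    push_cast
    rw [← Finset.prod_mul_distrib]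
    refine Finset.prod_congr rfl fun i _ => ?_
    rw [hxy, mul_pow]

/-- the value at `z` in terms of the value at `1 / z` -/
lemma refl_eval (f : Polynomial ℚ) {N : ℕ} (hf : f.natDegree ≤ N) {z : ℂ} (hz : z ≠ 0) :
    (cp (Polynomial.reflect N f)).eval (1 / z) * z ^ N = (cp f).eval z := by
  let _ := invertibleOfNonzero hz
  have h := Polynomial.eval₂_reflect_mul_pow (algebraMap ℚ ℂ) z N f hf
  rw [invOf_eq_inv] at h
  rw [cp, cp, Polynomial.eval_map, Polynomial.eval_map, one_div]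
  exact h

lemma nc_C {a b : Polynomial ℚ} (hb0 : b ≠ 0) (h : ∀ c : ℚ, a ^ 3 ≠ Polynomial.C c * b ^ 2) :
    ∀ c : ℂ, cp a ^ 3 ≠ Polynomial.C c * cp b ^ 2 := by
  intro c hc
  have hb2 : b ^ 2 ≠ 0 := pow_ne_zero _ hb0
  have hβ : (b ^ 2).coeff (b ^ 2).natDegree ≠ 0 := Polynomial.leadingCoeff_ne_zero.2 hb2
  have hβ' : (((b ^ 2).coeff (b ^ 2).natDegree : ℚ) : ℂ) ≠ 0 := by exact_mod_cast hβ
  have h1 : (((a ^ 3).coeff (b ^ 2).natDegree : ℚ) : ℂ) = c * (((b ^ 2).coeff (b ^ 2).natDegree : ℚ) : ℂ) := by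
    have h2 : (cp a ^ 3).coeff (b ^ 2).natDegree = (Polynomial.C c * cp b ^ 2).coeff (b ^ 2).natDegree := by rw [hc]
    rw [cp, cp, ← Polynomial.map_pow, ← Polynomial.map_pow, Polynomial.coeff_C_mul, Polynomial.coeff_map, Polynomial.coeff_map] at h2
    exact h2
  have hr : c = algebraMap ℚ ℂ ((a ^ 3).coeff (b ^ 2).natDegree / (b ^ 2).coeff (b ^ 2).natDegree) := by
    rw [map_div₀]
    rw [eq_div_iff (by exact hβ')]
    exact h1.symm
  apply h ((a ^ 3).coeff (b ^ 2).natDegree / (b ^ 2).coeff (b ^ 2).natDegree)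
  apply Polynomial.map_injective (algebraMap ℚ ℂ) (algebraMap ℚ ℂ).injective
  rw [Polynomial.map_pow, Polynomial.map_mul, Polynomial.map_C, Polynomial.map_pow, ← hr]
  exact hc

lemma nc_refl {a b : Polynomial ℚ} {n : ℕ} (ha : a.natDegree ≤ 4 * n) (hb : b.natDegree ≤ 6 * n) (hb0 : b ≠ 0)
    (h : ∀ c : ℚ, a ^ 3 ≠ Polynomial.C c * b ^ 2) :
    ∀ c : ℂ, cp (Polynomial.reflect (4 * n) a) ^ 3 ≠ Polynomial.C c * cp (Polynomial.reflect (6 * n) b) ^ 2 := by
  intro c hc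
  apply nc_C hb0 h c
  have h1 : Polynomial.X * (cp a ^ 3 - Polynomial.C c * cp b ^ 2) = 0 := by
    refine Polynomial.funext fun z => ?_
    rw [Polynomial.eval_zero, Polynomial.eval_mul, Polynomial.eval_X]
    by_cases hz : z = 0
    · rw [hz, zero_mul]
    · have h2 := congrArg (Polynomial.eval (1 / z)) hc
      rw [Polynomial.eval_mul, Polynomial.eval_pow, Polynomial.eval_pow, Polynomial.eval_C] at h2
      rw [Polynomial.eval_sub, Polynomial.eval_mul, Polynomial.eval_pow, Polynomial.eval_pow, Polynomial.eval_C, ← refl_eval a ha hz,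
        ← refl_eval b hb hz]
      have h3 : z ^ (4 * n) = (z ^ n) ^ 4 := by rw [← pow_mul, mul_comm]
      have h4 : z ^ (6 * n) = (z ^ n) ^ 6 := by rw [← pow_mul, mul_comm]
      rw [h3, h4]
      linear_combination (z * (z ^ n) ^ 12) * h2
  exact sub_eq_zero.1 ((mul_eq_zero.1 h1).resolve_left Polynomial.X_ne_zero)

/-- the point over `1 / t` -/
noncomputable def mcT (n t : ℕ) (x : MC) : MC := (1 / (t : ℂ), fun i => x.2.1 i / ((t : ℂ) ^ n) ^ 2, x.2.2 / (t : ℂ) ^ n)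

lemma mcT_Cv {a b : Polynomial ℚ} {n t : ℕ} (ht : t ≠ 0) (ha : a.natDegree ≤ 4 * n) (hb : b.natDegree ≤ 6 * n) {x : MC}
    (hx1 : x.1 = (t : ℂ)) (hx : Cv (cp a) (cp b) x) :
    Cv (cp (Polynomial.reflect (4 * n) a)) (cp (Polynomial.reflect (6 * n) b)) (mcT n t x) := by
  have htc : (t : ℂ) ≠ 0 := by exact_mod_cast ht
  set T : ℂ := (t : ℂ) ^ n with hT
  have hT0 : T ≠ 0 := pow_ne_zero _ htc
  constructor
  · intro X
    show X ^ 3 + (cp (Polynomial.reflect (4 * n) a)).eval (1 / (t : ℂ)) * X + (cp (Polynomial.reflect (6 * n) b)).eval (1 / (t : ℂ)) =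
      (X - x.2.1 0 / T ^ 2) * (X - x.2.1 1 / T ^ 2) * (X - x.2.1 2 / T ^ 2)
    have h1 := hx.1 (X * T ^ 2)
    rw [hx1, ← refl_eval a ha htc, ← refl_eval b hb htc] at h1
    have h3 : (t : ℂ) ^ (4 * n) = T ^ 4 := by rw [hT, ← pow_mul, mul_comm]
    have h4 : (t : ℂ) ^ (6 * n) = T ^ 6 := by rw [hT, ← pow_mul, mul_comm]
    rw [h3, h4] at h1
    apply mul_left_cancel₀ (pow_ne_zero 6 hT0)
    have h5 : T ^ 6 * ((X - x.2.1 0 / T ^ 2) * (X - x.2.1 1 / T ^ 2) * (X - x.2.1 2 / T ^ 2)) =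
        (X * T ^ 2 - x.2.1 0) * (X * T ^ 2 - x.2.1 1) * (X * T ^ 2 - x.2.1 2) := by
      field_simp
    rw [h5, ← h1]
    ring
  · show (x.2.2 / T) ^ 2 = x.2.1 1 / T ^ 2 - x.2.1 0 / T ^ 2
    rw [div_pow, hx.2, sub_div]

lemma mcT_lam {n t : ℕ} (ht : t ≠ 0) (x : MC) : lam (mcT n t x) = lam x := by
  have htc : (t : ℂ) ≠ 0 := by exact_mod_cast ht
  have hT0 : ((t : ℂ) ^ n) ^ 2 ≠ 0 := pow_ne_zero _ (pow_ne_zero _ htc)
  show (x.2.1 2 / ((t : ℂ) ^ n) ^ 2 - x.2.1 0 / ((t : ℂ) ^ n) ^ 2) / (x.2.1 1 / ((t : ℂ) ^ n) ^ 2 - x.2.1 0 / ((t : ℂ) ^ n) ^ 2) =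
    (x.2.1 2 - x.2.1 0) / (x.2.1 1 - x.2.1 0)
  rw [← sub_div, ← sub_div, div_div_div_cancel_right₀ hT0]

/-- the factors -/
def qs (n t : ℕ) (i : Fin 3) : ℚ := ![((t : ℚ) ^ n)⁻¹, ((t : ℚ) ^ n)⁻¹, (t : ℚ) ^ n] i

lemma qs_ne {n t : ℕ} (ht : t ≠ 0) (i : Fin 3) : qs n t i ≠ 0 := by
  have htc : (t : ℚ) ^ n ≠ 0 := pow_ne_zero _ (by exact_mod_cast ht)
  fin_cases i
  · exact inv_ne_zero htc
  · exact inv_ne_zero htc
  · exact htc

lemma pf_qs {n t : ℕ} (ht : t ≠ 0) (l v : ℂ) (i : Fin 3) : pf l v i = (qs n t i : ℂ) * pf l (v / (t : ℂ) ^ n) i := by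
  have htc : (t : ℂ) ≠ 0 := by exact_mod_cast ht
  have hT0 : (t : ℂ) ^ n ≠ 0 := pow_ne_zero _ htc
  fin_cases i
  · show 4 / v * fC 0 l = (((((t : ℚ) ^ n)⁻¹ : ℚ)) : ℂ) * (4 / (v / (t : ℂ) ^ n) * fC 0 l)
    push_cast
    by_cases hv : v = 0
    · rw [hv]; simp
    · field_simp
  · show 4 * Complex.I / v * fC 2 l = (((((t : ℚ) ^ n)⁻¹ : ℚ)) : ℂ) * (4 * Complex.I / (v / (t : ℂ) ^ n) * fC 2 l)
    push_cast
    by_cases hv : v = 0
    · rw [hv]; simp
    · field_simp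
  · show 4 / v * (-(v ^ 2 * (1 + l) / 3) * fC 0 l + v ^ 2 * (fC 0 l - fC 1 l)) = (((((t : ℚ) ^ n) : ℚ)) : ℂ) *
      (4 / (v / (t : ℂ) ^ n) * (-((v / (t : ℂ) ^ n) ^ 2 * (1 + l) / 3) * fC 0 l + (v / (t : ℂ) ^ n) ^ 2 * (fC 0 l - fC 1 l)))
    push_cast
    by_cases hv : v = 0
    · rw [hv]; simp
    · field_simp

lemma val_fin (a b : Polynomial ℚ) (t : ℕ) : (Val a b t).Finite ∧ (Val a b t).ncard ≤ 54 := by
  classical
  set s : ℂ := 1 / (t : ℂ) with hs
  set p : Polynomial ℂ := Polynomial.X ^ 3 + Polynomial.C ((cp a).eval s) * Polynomial.X + Polynomial.C ((cp b).eval s) with hp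
  have hpd : p.natDegree = 3 := by
    rw [hp]
    compute_degree!
  have hp0 : p ≠ 0 := by
    intro h
    rw [h] at hpd
    simp at hpd
  have hpc : p.roots.toFinset.card ≤ 3 := (Multiset.toFinset_card_le _).trans ((Polynomial.card_roots' p).trans hpd.le)
  set E : Finset (Fin 3 → ℂ) := Fintype.piFinset fun _ => p.roots.toFinset with hE
  have hEc : E.card ≤ 27 := by
    rw [hE, Fintype.card_piFinset, Finset.prod_const, Finset.card_univ, Fintype.card_fin]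
    exact Nat.pow_le_pow_left hpc 3
  set W : Finset (Fin 3 → ℂ) := E.biUnion fun e => ((Polynomial.X ^ 2 - Polynomial.C (e 1 - e 0) : Polynomial ℂ).roots.toFinset).image
    fun v => fun y => pf ((e 2 - e 0) / (e 1 - e 0)) v y with hW
  have hWc : W.card ≤ 54 := by
    refine Finset.card_biUnion_le.trans ?_
    refine (Finset.sum_le_sum fun e _ => (Finset.card_image_le.trans (?_ : _ ≤ 2))).trans ?_
    · refine (Multiset.toFinset_card_le _).trans ((Polynomial.card_roots' _).trans ?_)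
      rw [Polynomial.natDegree_X_pow_sub_C]
    · rw [Finset.sum_const, smul_eq_mul]
      omega
  have hsub : Val a b t ⊆ (W : Set (Fin 3 → ℂ)) := by
    rintro f ⟨x, hx1, hx2, -, rfl⟩
    rw [Finset.mem_coe, hW, Finset.mem_biUnion]
    refine ⟨x.2.1, ?_, ?_⟩
    · rw [hE, Fintype.mem_piFinset]
      intro i
      rw [Multiset.mem_toFinset, Polynomial.mem_roots hp0, Polynomial.IsRoot.def, hp]
      have h1 := hx2.1 (x.2.1 i)
      rw [hx1, ← hs] at h1
      simp only [Polynomial.eval_add, Polynomial.eval_mul, Polynomial.eval_pow, Polynomial.eval_X, Polynomial.eval_C]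
      rw [h1]
      fin_cases i
      · show (x.2.1 0 - x.2.1 0) * (x.2.1 0 - x.2.1 1) * (x.2.1 0 - x.2.1 2) = 0
        ring
      · show (x.2.1 1 - x.2.1 0) * (x.2.1 1 - x.2.1 1) * (x.2.1 1 - x.2.1 2) = 0
        ring
      · show (x.2.1 2 - x.2.1 0) * (x.2.1 2 - x.2.1 1) * (x.2.1 2 - x.2.1 2) = 0
        ring
    · refine Finset.mem_image.2 ⟨x.2.2, ?_, rfl⟩
      rw [Multiset.mem_toFinset, Polynomial.mem_roots (Polynomial.X_pow_sub_C_ne_zero (by norm_num) _), Polynomial.IsRoot.def]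
      simp only [Polynomial.eval_sub, Polynomial.eval_pow, Polynomial.eval_X, Polynomial.eval_C]
      rw [hx2.2, sub_self]
  refine ⟨(Finset.finite_toSet W).subset hsub, ?_⟩
  have h1 := Set.ncard_le_ncard hsub (Finset.finite_toSet W)
  rw [Set.ncard_coe_finset] at h1
  exact h1.trans hWc

/-- one family -/
theorem ofam_all {a b : Polynomial ℚ} (hb : b ≠ 0) (hnc : ∀ c : ℂ, cp a ^ 3 ≠ Polynomial.C c * cp b ^ 2) : OFam (Val a b) := by
  have ha : a ≠ 0 := by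
    rintro rfl
    apply hnc 0
    simp [cp]
  have hD : De a b ≠ 0 := by
    intro h
    apply hnc (-27 / 4)
    have h1 := congrArg cp h
    rw [De, cp, cp] at h1
    simp only [Polynomial.map_add, Polynomial.map_mul, Polynomial.map_pow, Polynomial.map_ofNat, Polynomial.map_zero] at h1
    have h2 : Polynomial.C (4 : ℂ) = 4 := map_ofNat _ 4
    have h3 : Polynomial.C (-27 / 4 : ℂ) * 4 = -27 := by
      rw [← h2, ← map_mul]
      norm_num
      exact map_ofNat _ 27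
    have h4 : (4 : Polynomial ℂ) ≠ 0 := by
      rw [← h2]
      exact Polynomial.C_ne_zero.2 (by norm_num)
    apply mul_left_cancel₀ h4
    rw [cp, cp]
    linear_combination h1 - (b.map (algebraMap ℚ ℂ)) ^ 2 * h3
  obtain ⟨L⟩ := ld_all ha hb hD
  exact of_ld L ha hb hD hnc

/-- **The theorem.** -/
theorem fin_main (k : ℕ) (a b : Fin k → Polynomial ℚ) (hb : ∀ j, b j ≠ 0) (hab : ∀ j, ∀ c : ℚ, a j ^ 3 ≠ Polynomial.C c * b j ^ 2)
    (δ D d : ℕ) : ∃ c M : ℝ, 0 < c ∧ c ≤ 1 ∧ 0 ≤ M ∧ ∀ (V : Submodule ℚ ℂ) [Module.Finite ℚ V], finrank ℚ V ≤ D → ∀ T : ℕ, 1 ≤ T →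
      ∀ A : Finset (Fin k → ℕ), (∀ t ∈ A, (∀ j, 1 ≤ t j ∧ t j ≤ T) ∧ ∃ x : Fin k → MC,
        (∀ j, (x j).1 = (t j : ℂ) ∧ Cv (cp (a j)) (cp (b j)) (x j) ∧ lam (x j) ∈ Dom) ∧
          RelL δ d V (fun y : Fin k × Fin 3 => pf (lam (x y.1)) (x y.1).2.2 y.2)) → (A.card : ℝ) ≤ M * (T : ℝ) ^ ((k : ℝ) - c) := by
  classical
  set n : Fin k → ℕ := fun j => max (a j).natDegree (b j).natDegree with hn
  have hna : ∀ j, (a j).natDegree ≤ 4 * n j := fun j => by
    have := le_max_left (a j).natDegree (b j).natDegree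
    simp only [hn]
    omega
  have hnb : ∀ j, (b j).natDegree ≤ 6 * n j := fun j => by
    have := le_max_right (a j).natDegree (b j).natDegree
    simp only [hn]
    omega
  set S : Fin k → ℕ → Set (Fin 3 → ℂ) := fun j => Val (Polynomial.reflect (4 * n j) (a j)) (Polynomial.reflect (6 * n j) (b j)) with hS
  have hO : ∀ j, OFam (S j) := fun j => ofam_all (fun h => hb j (Polynomial.reflect_eq_zero_iff.1 h)) (nc_refl (hna j) (hnb j) (hb j) (hab j))
  obtain ⟨c, M, hc, hc1, hM, H⟩ := multi k S hO ⟨54, fun j t => val_fin _ _ t⟩ δ D d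
  refine ⟨c, M, hc, hc1, hM, fun V _ hV T hT A hA => H V hV T hT A fun t ht => ?_⟩
  obtain ⟨htT, x, hx, hr⟩ := hA t ht
  have ht0 : ∀ j, t j ≠ 0 := fun j => by have := (htT j).1; omega
  refine ⟨fun j => (htT j).2, fun j y => pf (lam (mcT (n j) (t j) (x j))) (mcT (n j) (t j) (x j)).2.2 y, fun j => ?_, ?_⟩
  · refine ⟨mcT (n j) (t j) (x j), rfl, mcT_Cv (ht0 j) (hna j) (hnb j) (hx j).1 (hx j).2.1, ?_, rfl⟩
    rw [mcT_lam (ht0 j)]
    exact (hx j).2.2
  · apply badL_of_relL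
    refine relL_scale (fun y : Fin k × Fin 3 => qs (n y.1) (t y.1) y.2) (fun y => qs_ne (ht0 y.1) y.2) (fun y => ?_) hr
    rw [mcT_lam (ht0 y.1)]
    exact pf_qs (ht0 y.1) _ _ _

end Pool.Agent.Y124.GE
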