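import Pool.Agent.Y124.GE.Hv

/-!
# Independence of the twisted local solutions
-/

set_option autoImplicit false

open Filter Topology Complex

namespace Pool.Agent.Y124.GE

open Pool.Agent.Y124 Pool.Agent.Y120.GH

variable {a b : Polynomial ℚ}

lemma Xt_analytic (L : LD a b) {R : ℝ} (hR : 1 ≤ R) (hY : ∀ i j, cx (L.Y i j) ∈ Cw R) {u : ℂ} (hus : u ∈ slitPlane) (hu : ‖u‖ < 1 / R)
    (i j : Fin 2) : AnalyticAt ℂ (Xt L i j) u := by
  have ha' : ∀ i j, AnalyticAt ℂ (yv L i j) u := fun i j => (inn_hasDerivAt hR (hY i j) hu).2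
  exact (ha' i j).add (((analyticAt_clog hus).div analyticAt_const (by norm_num)).mul
      (Finset.analyticAt_fun_sum _ fun k _ => analyticAt_const.mul (ha' k j)))

lemma xs_analytic (L : LD a b) {R : ℝ} (hR : 1 ≤ R) (hY : ∀ i j, cx (L.Y i j) ∈ Cw R) {u : ℂ} (hus : u ∈ slitPlane) (hu : ‖u‖ < 1 / R)
    (p : Fin 3) : AnalyticAt ℂ (fun s => xs L p s) u := by
  fin_cases p
  · exact Xt_analytic L hR hY hus hu 0 0
  · exact Xt_analytic L hR hY hus hu 1 0
  · exact Xt_analytic L hR hY hus hu 0 1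

theorem xs_locInd (L : LD a b) {R : ℝ} (hR : 1 ≤ R) (hY : ∀ i j, cx (L.Y i j) ∈ Cw R) (hb : b ≠ 0)
    (hnc : ∀ c : ℂ, cp a ^ 3 ≠ Polynomial.C c * cp b ^ 2) {n : ℕ} {w0 : ℚ}
    (hdet : L.Y 0 0 * L.Y 1 1 - L.Y 0 1 * L.Y 1 0 = PowerSeries.C w0 * PowerSeries.X ^ n)
    {u : ℂ} (hus : u ∈ slitPlane) (hu : ‖u‖ < 1 / R) {la w : ℂ → ℂ} (hla : AnalyticAt ℂ la u) (hw : AnalyticAt ℂ w u)
    (hD : la u ∈ Dom) (hw0 : w u ≠ 0) (heq : ∀ᶠ s in 𝓝 u, EQ (cp a) (cp b) s (la s) (w s)) {C : Fin 2 → Fin 2 → ℂ}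
    (hpf : ∀ᶠ s in 𝓝 u, ∀ y, pf (la s) (w s) y = fv L C y s) :
    LocInd (fun p s => xs L p s) u ∧ C 0 0 * C 1 1 - C 0 1 * C 1 0 ≠ 0 := by
  classical
  have hb' : cp b ≠ 0 := by
    intro h
    exact hb ((Polynomial.map_eq_zero_iff (algebraMap ℚ ℂ).injective).1 h)
  have hg : ∀ y, AnalyticAt ℂ (fun s => pf (la s) (w s) y) u := fun y => pf_analytic hla hw hD hw0 y
  have hind : LocInd (fun y s => pf (la s) (w s) y) u := fam_locInd (cp a) (cp b) hb' hnc la w u hla hw hD hw0 heq hg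
  have hcomb : ∀ α β : ℂ, (∀ᶠ s in 𝓝 u, α * fv L C 0 s + β * fv L C 1 s = 0) → α = 0 ∧ β = 0 := by
    intro α β h
    have h1 := hind (MvPolynomial.C α * MvPolynomial.X (some 0) + MvPolynomial.C β * MvPolynomial.X (some 1)) (by
      filter_upwards [h, hpf] with s k1 k2
      rw [map_add, map_mul, map_mul, MvPolynomial.eval_C, MvPolynomial.eval_C, MvPolynomial.eval_X, MvPolynomial.eval_X,
        Option.elim_some, Option.elim_some, k2, k2]
      exact k1)
    constructor
    · have h2 := congrArg (MvPolynomial.eval fun o : Option (Fin 3) => if o = some 0 then (1 : ℂ) else 0) h1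
      simpa using h2
    · have h2 := congrArg (MvPolynomial.eval fun o : Option (Fin 3) => if o = some 1 then (1 : ℂ) else 0) h1
      simpa using h2
  have hfv0 : ∀ s, fv L C 0 s = C 0 0 * Yan L 0 0 s + C 0 1 * Yan L 1 0 s := fun s => Fin.sum_univ_two (fun i => _ * Yan L i 0 s)
  have hfv1 : ∀ s, fv L C 1 s = C 1 0 * Yan L 0 0 s + C 1 1 * Yan L 1 0 s := fun s => Fin.sum_univ_two (fun i => _ * Yan L i 0 s)
  have hfv2 : ∀ s, fv L C 2 s = C 0 0 * Yan L 0 1 s + C 0 1 * Yan L 1 1 s := fun s => Fin.sum_univ_two (fun i => _ * Yan L i 1 s)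
  have hdetC : C 0 0 * C 1 1 - C 0 1 * C 1 0 ≠ 0 := by
    intro h0
    have k1 := hcomb (C 1 1) (-C 0 1) (Eventually.of_forall fun s => by
      rw [hfv0, hfv1]
      linear_combination (Yan L 0 0 s) * h0)
    have k2 := hcomb (-C 1 0) (C 0 0) (Eventually.of_forall fun s => by
      rw [hfv0, hfv1]
      linear_combination (Yan L 1 0 s) * h0)
    have k3 := hcomb 1 0 (Eventually.of_forall fun s => by
      rw [hfv0, hfv1, k2.2, neg_eq_zero.1 k1.2]
      ring)
    exact one_ne_zero k3.1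
  refine ⟨?_, hdetC⟩
  have hx : ∀ p, AnalyticAt ℂ (fun s => xs L p s) u := xs_analytic L hR hY hus hu
  refine locInd_alg (fun y s => pf (la s) (w s) y) (fun s => s) u analyticAt_id ?_ hg hind (fun p s => xs L p s) hx ?_
  · intro hcon
    have h1 := infinite_of_mem_nhds u hcon
    apply h1
    refine (Set.finite_singleton u).subset ?_
    intro s hs
    exact hs
  set 𝒜 := Algebra.adjoin ℂ (Set.range fun o => em u (gm (fun p s => xs L p s) u hx o)) with h𝒜
  let gs : An {u} := gm (fun p s => xs L p s) u hx none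
  let gx : Fin 3 → An {u} := fun p => gm (fun p s => xs L p s) u hx (some p)
  have hgs : em u gs ∈ 𝒜 := Algebra.subset_adjoin ⟨none, rfl⟩
  have hgx : ∀ p, em u (gx p) ∈ 𝒜 := fun p => Algebra.subset_adjoin ⟨some p, rfl⟩
  have hal : ∀ x ∈ 𝒜, IsAlgebraic 𝒜 x := fun x hx => isAlgebraic_algebraMap (⟨x, hx⟩ : 𝒜)
  have hcon : ∀ c : ℂ, IsAlgebraic 𝒜 (algebraMap ℂ FF c) := fun c => hal _ (Subalgebra.algebraMap_mem _ c)
  have hse : ∀ᶠ s in 𝓝 u, s ∈ slitPlane := isOpen_slitPlane.mem_nhds hus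
  have hne : ∀ᶠ s in 𝓝 u, ‖s‖ < 1 / R := continuous_norm.continuousAt.eventually_lt_const hu
  -- the root of the parameter
  let gτ : An {u} := ⟨fun s => exp (-(log s / 12)), by
    intro z hz; rw [Set.mem_singleton_iff] at hz; rw [hz]
    exact (((analyticAt_clog hus).div analyticAt_const (by norm_num)).neg).cexp⟩
  have hτ : ∀ (m : ℕ) (s : ℂ), exp (-((m : ℂ) * log s / 12)) = exp (-(log s / 12)) ^ m := by
    intro m s
    rw [← exp_nat_mul]
    congr 1
    ring
  have hτalg : IsAlgebraic 𝒜 (em u gτ) := by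
    have h1 : em u gτ ^ 12 * em u gs = 1 := by
      rw [← map_one (em u), ← map_pow, ← map_mul]
      apply em_congr
      filter_upwards [hse] with s hs
      change exp (-(log s / 12)) ^ 12 * s = 1
      rw [← hτ]
      have h2 : -(((12 : ℕ) : ℂ) * log s / 12) = -log s := by
        push_cast
        ring
      rw [h2, exp_neg, exp_log (slitPlane_ne_zero hs), inv_mul_cancel₀ (slitPlane_ne_zero hs)]
    have h2 : em u gτ ^ 12 = (em u gs)⁻¹ := eq_inv_of_mul_eq_one_left h1
    refine IsAlgebraic.of_pow (n := 12) (by norm_num) ?_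
    rw [h2]
    exact (hal _ hgs).inv
  -- the first function is not zero
  have hx0 : em u (gx 0) ≠ 0 := by
    intro h0
    rw [em_zero_iff] at h0
    have k1 := hcomb (C 1 1) (-C 0 1) (by
      filter_upwards [h0] with s hs
      have hs' : Xt L 0 0 s = 0 := hs
      rw [hfv0, hfv1]
      have : Yan L 0 0 s = 0 := by rw [Yan, hs', mul_zero]
      rw [this]
      ring)
    apply hdetC
    rw [k1.1, neg_eq_zero.1 k1.2]
    ring
  have hX11 : IsAlgebraic 𝒜 ((algebraMap ℂ FF (w0 : ℂ) * em u gs ^ n + em u (gx 2) * em u (gx 1)) * (em u (gx 0))⁻¹) :=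
    (((hcon _).mul ((hal _ hgs).pow n)).add ((hal _ (hgx 2)).mul (hal _ (hgx 1)))).mul (hal _ (hgx 0)).inv
  intro o f hf
  rcases o with _ | y
  · have h1 : em u f = em u gs := em_congr hf
    rw [h1]
    exact hal _ hgs
  · have hf' : ∀ᶠ s in 𝓝 u, f.1 s = fv L C y s := by
      filter_upwards [hf, hpf] with s k1 k2
      rw [k1, Option.elim_some, k2]
    fin_cases y
    · have h1 : em u f = algebraMap ℂ FF (C 0 0) * em u gτ ^ L.m 0 * em u (gx 0) + algebraMap ℂ FF (C 0 1) * em u gτ ^ L.m 1 * em u (gx 1) := by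
        rw [← em_cst (p := u), ← em_cst (p := u), ← map_pow, ← map_pow, ← map_mul, ← map_mul, ← map_mul, ← map_mul, ← map_add]
        apply em_congr
        filter_upwards [hf'] with s k1
        rw [k1]
        refine (hfv0 s).trans ?_
        change _ = C 0 0 * exp (-(log s / 12)) ^ L.m 0 * Xt L 0 0 s + C 0 1 * exp (-(log s / 12)) ^ L.m 1 * Xt L 1 0 s
        rw [Yan, Yan, hτ, hτ]
        ring
      rw [h1]
      exact (((hcon _).mul (hτalg.pow _)).mul (hal _ (hgx 0))).add (((hcon _).mul (hτalg.pow _)).mul (hal _ (hgx 1)))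
    · have h1 : em u f = algebraMap ℂ FF (C 1 0) * em u gτ ^ L.m 0 * em u (gx 0) + algebraMap ℂ FF (C 1 1) * em u gτ ^ L.m 1 * em u (gx 1) := by
        rw [← em_cst (p := u), ← em_cst (p := u), ← map_pow, ← map_pow, ← map_mul, ← map_mul, ← map_mul, ← map_mul, ← map_add]
        apply em_congr
        filter_upwards [hf'] with s k1
        rw [k1]
        refine (hfv1 s).trans ?_
        change _ = C 1 0 * exp (-(log s / 12)) ^ L.m 0 * Xt L 0 0 s + C 1 1 * exp (-(log s / 12)) ^ L.m 1 * Xt L 1 0 s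
        rw [Yan, Yan, hτ, hτ]
        ring
      rw [h1]
      exact (((hcon _).mul (hτalg.pow _)).mul (hal _ (hgx 0))).add (((hcon _).mul (hτalg.pow _)).mul (hal _ (hgx 1)))
    · have h1 : em u f = algebraMap ℂ FF (C 0 0) * em u gτ ^ L.m 0 * em u (gx 2) + algebraMap ℂ FF (C 0 1) * em u gτ ^ L.m 1 *
          ((algebraMap ℂ FF (w0 : ℂ) * em u gs ^ n + em u (gx 2) * em u (gx 1)) * (em u (gx 0))⁻¹) := by
        apply mul_right_cancel₀ hx0
        have h2 : (algebraMap ℂ FF (C 0 0) * em u gτ ^ L.m 0 * em u (gx 2) + algebraMap ℂ FF (C 0 1) * em u gτ ^ L.m 1 *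
          ((algebraMap ℂ FF (w0 : ℂ) * em u gs ^ n + em u (gx 2) * em u (gx 1)) * (em u (gx 0))⁻¹)) * em u (gx 0) =
          algebraMap ℂ FF (C 0 0) * em u gτ ^ L.m 0 * em u (gx 2) * em u (gx 0) + algebraMap ℂ FF (C 0 1) * em u gτ ^ L.m 1 *
          (algebraMap ℂ FF (w0 : ℂ) * em u gs ^ n + em u (gx 2) * em u (gx 1)) := by
          rw [add_mul, mul_assoc (algebraMap ℂ FF (C 0 1) * em u gτ ^ L.m 1), mul_assoc _ (em u (gx 0))⁻¹, inv_mul_cancel₀ hx0, mul_one]
        rw [h2, ← em_cst (p := u), ← em_cst (p := u), ← em_cst (p := u)]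
        simp only [← map_pow, ← map_mul, ← map_add]
        apply em_congr
        filter_upwards [hf', hse, hne] with s k1 k2 k3
        have k4 := det_Xt L hR hY hdet (slitPlane_ne_zero k2) k3
        change f.1 s * Xt L 0 0 s = C 0 0 * exp (-(log s / 12)) ^ L.m 0 * Xt L 0 1 s * Xt L 0 0 s +
          C 0 1 * exp (-(log s / 12)) ^ L.m 1 * ((w0 : ℂ) * s ^ n + Xt L 0 1 s * Xt L 1 0 s)
        have k1' : f.1 s = C 0 0 * Yan L 0 1 s + C 0 1 * Yan L 1 1 s := k1.trans (hfv2 s)
        rw [k1', Yan, Yan, hτ, hτ]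
        linear_combination (C 0 1 * exp (-(log s / 12)) ^ L.m 1) * k4
      rw [h1]
      exact (((hcon _).mul (hτalg.pow _)).mul (hal _ (hgx 2))).add (((hcon _).mul (hτalg.pow _)).mul hX11)

/-- the monomials are linearly independent over the polynomials -/
theorem li_mono (L : LD a b) {R : ℝ} (hR : 1 ≤ R) (hY : ∀ i j, cx (L.Y i j) ∈ Cw R) {u0 : ℝ} (hu0 : 0 < u0)
    (h : ∀ u : ℝ, 0 < u → u < u0 → LocInd (fun p s => xs L p s) (u : ℂ)) (δ : ℕ) (T₀ : ℝ) (r : (Fin 3 → Fin (δ + 1)) → Polynomial ℂ)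
    (hr : ∀ t : ℝ, T₀ < t → ∑ s, (r s).eval (1 / (t : ℂ)) * ∏ p, xs L p (1 / (t : ℂ)) ^ (s p : ℕ) = 0) : r = 0 := by
  classical
  set T₁ : ℝ := max (max T₀ R) (1 / u0) with hT₁
  have hR0 : 0 < R := by linarith
  have hT₁0 : 0 < T₁ := by
    have : R ≤ T₁ := (le_max_right _ _).trans (le_max_left _ _)
    linarith
  set u1 : ℝ := 1 / (T₁ + 1) with hu1
  have hu10 : 0 < u1 := by positivity
  have hsm : ∀ u : ℝ, 0 < u → u < 1 / T₁ → T₀ < 1 / u ∧ u < 1 / R ∧ u < u0 := by
    intro u k1 k2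
    have k3 : T₁ < 1 / u := by
      rw [lt_div_iff₀ k1]
      rw [lt_div_iff₀ hT₁0] at k2
      linarith
    refine ⟨((le_max_left _ _).trans (le_max_left _ _)).trans_lt k3, ?_, ?_⟩
    · have : R < 1 / u := ((le_max_right _ _).trans (le_max_left _ _)).trans_lt k3
      rw [lt_div_iff₀ k1] at this
      rw [lt_div_iff₀ hR0]
      linarith
    · have : 1 / u0 < 1 / u := (le_max_right _ _).trans_lt k3
      exact lt_of_one_div_lt_one_div hu0 this
  have hu1s : u1 < 1 / T₁ := by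
    rw [hu1]
    exact one_div_lt_one_div_of_lt hT₁0 (by linarith)
  obtain ⟨-, j2, j3⟩ := hsm u1 hu10 hu1s
  have hus : (u1 : ℂ) ∈ slitPlane := by rw [ofReal_mem_slitPlane]; exact hu10
  have hun : ‖(u1 : ℂ)‖ < 1 / R := by rw [norm_real, Real.norm_of_nonneg hu10.le]; exact j2
  -- the relation
  set F : ℂ → ℂ := fun u => ∑ s, (r s).eval u * ∏ p, xs L p u ^ (s p : ℕ) with hF
  have hFan : AnalyticAt ℂ F u1 := by
    refine Finset.analyticAt_fun_sum _ fun s _ => ?_
    refine ((r s).differentiable.analyticAt _).mul ?_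
    exact Finset.analyticAt_fun_prod _ fun p _ => (xs_analytic L hR hY hus hun p).pow _
  have hFz : ∀ᶠ z in 𝓝 (u1 : ℂ), F z = 0 := by
    refine (hFan.frequently_zero_iff_eventually_zero).1 ?_
    have h1 : Tendsto (fun k : ℕ => ((u1 * (1 - 1 / ((k : ℝ) + 2)) : ℝ) : ℂ)) atTop (𝓝[≠] (u1 : ℂ)) := by
      rw [tendsto_nhdsWithin_iff]
      constructor
      · have h2 : Tendsto (fun k : ℕ => u1 * (1 - 1 / ((k : ℝ) + 2))) atTop (𝓝 (u1 * (1 - 0))) := by
          refine tendsto_const_nhds.mul (tendsto_const_nhds.sub ?_)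
          have h3 := tendsto_one_div_add_atTop_nhds_zero_nat (𝕜 := ℝ)
          have h4 := h3.comp (tendsto_add_atTop_nat 1)
          refine h4.congr fun n => ?_
          simp only [Function.comp_apply]
          push_cast
          ring
        rw [sub_zero, mul_one] at h2
        exact (continuous_ofReal.tendsto _).comp h2
      · refine Eventually.of_forall fun k => ?_
        simp only [Set.mem_compl_iff, Set.mem_singleton_iff, ofReal_inj]
        have h2 : (0 : ℝ) < 1 / ((k : ℝ) + 2) := by positivity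
        intro h3
        have h4 : u1 * (1 / ((k : ℝ) + 2)) = 0 := by linear_combination (-1 : ℝ) * h3
        exact (mul_pos hu10 h2).ne' h4
    refine h1.frequently (Frequently.of_forall fun k => ?_)
    have h2 : (0 : ℝ) < 1 / ((k : ℝ) + 2) := by positivity
    have h3 : (1 : ℝ) / ((k : ℝ) + 2) < 1 := by
      rw [div_lt_one (by positivity)]
      have : (0 : ℝ) ≤ k := by positivity
      linarith
    set v := u1 * (1 - 1 / ((k : ℝ) + 2)) with hv
    have hv0 : 0 < v := mul_pos hu10 (by linarith)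
    have hv1 : v < 1 / T₁ := by
      have : v ≤ u1 := by rw [hv]; nlinarith
      linarith
    have h4 := hr (1 / v) (hsm v hv0 hv1).1
    rw [ofReal_div, ofReal_one, one_div_one_div] at h4
    exact h4
  -- the polynomial
  set P : MvPolynomial (Option (Fin 3)) ℂ := ∑ s, Polynomial.aeval (MvPolynomial.X none) (r s) * ∏ p, MvPolynomial.X (some p) ^ (s p : ℕ) with hP
  have hPe : ∀ (u : ℂ) (x : Fin 3 → ℂ), MvPolynomial.eval (fun o : Option (Fin 3) => o.elim u x) P = ∑ s, (r s).eval u * ∏ p, x p ^ (s p : ℕ) := by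
    intro u x
    rw [hP, map_sum]
    refine Finset.sum_congr rfl fun s _ => ?_
    rw [map_mul, map_prod]
    congr 1
    · exact eval_aeval_X (fun o : Option (Fin 3) => o.elim u x) none (r s)
    · refine Finset.prod_congr rfl fun p _ => ?_
      rw [map_pow, MvPolynomial.eval_X, Option.elim_some]
  have hP0 : P = 0 := by
    apply h u1 hu10 j3
    filter_upwards [hFz] with z hz
    rw [hPe z fun p => xs L p z]
    exact hz
  funext s₀
  rw [Pi.zero_apply]
  apply Polynomial.funext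
  intro u
  rw [Polynomial.eval_zero]
  -- coefficients
  set tf : (Fin 3 → Fin (δ + 1)) → (Fin 3 →₀ ℕ) := fun s => Finsupp.equivFunOnFinite.symm fun p => (s p : ℕ) with htf
  have htfi : Function.Injective tf := by
    intro s s' hss
    funext p
    have := DFunLike.congr_fun hss p
    exact Fin.ext this
  set Q : MvPolynomial (Fin 3) ℂ := ∑ s, MvPolynomial.monomial (tf s) ((r s).eval u) with hQ
  have hQ0 : Q = 0 := by
    apply MvPolynomial.funext
    intro x
    rw [map_zero, hQ, map_sum]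
    have h1 := hPe u x
    rw [hP0, map_zero] at h1
    rw [h1]
    refine Finset.sum_congr rfl fun s _ => ?_
    rw [MvPolynomial.eval_monomial, Finsupp.prod_fintype _ _ (fun p => pow_zero _)]
    rfl
  have h1 := congrArg (MvPolynomial.coeff (tf s₀)) hQ0
  rw [hQ, MvPolynomial.coeff_sum, MvPolynomial.coeff_zero, Finset.sum_eq_single s₀] at h1
  · rwa [MvPolynomial.coeff_monomial, if_pos rfl] at h1
  · intro s _ hs
    rw [MvPolynomial.coeff_monomial, if_neg fun h => hs (htfi h)]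
  · intro h
    exact absurd (Finset.mem_univ _) h

end Pool.Agent.Y124.GE
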