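import Pool.Agent.Y124.GE.Gm

/-!
# The analytic solutions given by the local data
-/

set_option autoImplicit false

open Filter Topology Complex

namespace Pool.Agent.Y124.GE

open Pool.Agent.Y124 Pool.Agent.Y120.GH

variable {a b : Polynomial ℚ}

lemma exists_rad (L : LD a b) (ha : a ≠ 0) (hD : De a b ≠ 0) : ∃ R : ℝ, 1 ≤ R ∧ ∀ i j, cx (L.Y i j) ∈ Cw R := by
  obtain ⟨q, C, T, -, hG⟩ := gsys_ld L ha hD
  exact ⟨C, hG.one_le, fun i j => cx_mem (by linarith [hG.one_le]) (hG.size (i, j))⟩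

/-- the values of the power series -/
noncomputable def yv (L : LD a b) (i j : Fin 2) (u : ℂ) : ℂ := inn (cx (L.Y i j)) u

lemma inn_hasDerivAt {f : PowerSeries ℂ} {R : ℝ} (hR : 1 ≤ R) (hf : f ∈ Cw R) {u : ℂ} (hu : ‖u‖ < 1 / R) :
    HasDerivAt (inn f) (inn (PowerSeries.derivative ℂ f) u) u ∧ AnalyticAt ℂ (inn f) u := by
  have hR0 : 0 < R := by linarith
  have hn := norm_nonneg u
  set r := (‖u‖ + 1 / R) / 2 with hr
  have h1 : ‖u‖ < r := by linarith
  have h2 : r * R < 1 := by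
    have h3 : r < 1 / R := by linarith
    rwa [lt_div_iff₀ hR0] at h3
  have h0 : 0 ≤ r := by positivity
  have h3 := hf r h0 h2
  have h4 : AnalyticAt ℂ (inn f) u := inn_an h3 _ (by rwa [Metric.mem_ball, dist_zero_right])
  refine ⟨?_, h4⟩
  have h5 := h4.differentiableAt.hasDerivAt
  have h6 := (inn_deriv h3 h1).tsum_eq
  rw [← h6] at h5
  exact h5

lemma inn_eq_ou (f : PowerSeries ℂ) (u : ℂ) : inn f u = ou f (1 / u) := by
  rw [ou, one_div_one_div]

lemma cxd_mem {f : PowerSeries ℂ} {R : ℝ} (hR : 1 ≤ R) (hf : f ∈ Cw R) : PowerSeries.derivative ℂ f ∈ Cw R :=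
  deriv_mem_Cw (by linarith) hf

/-- the system for the values -/
lemma yv_ode (L : LD a b) {R : ℝ} (hR : 1 ≤ R) (hY : ∀ i j, cx (L.Y i j) ∈ Cw R) {u : ℂ} (hu0 : u ≠ 0) (hu : ‖u‖ < 1 / R)
    (i j : Fin 2) :
    (cp (De a b)).eval u * (u * inn (PowerSeries.derivative ℂ (cx (L.Y i j))) u) =
      (cp (De a b)).eval u * (∑ k, ((cN (fun i => (L.m i : ℚ) / 12) ((1 / 12 : ℚ) • L.N) i k : ℚ) : ℂ) * yv L k j u) +
      ∑ k, u * (cp (AE a b k j)).eval u * yv L i k u := by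
  have hR0 : 0 ≤ R := by linarith
  have hz : R < ‖(1 / u : ℂ)‖ := by
    rw [norm_div, norm_one, lt_div_iff₀ (norm_pos_iff.2 hu0), mul_comm]
    rwa [lt_div_iff₀ (by linarith)] at hu
  have h1 := congrArg (fun F => ou (cx F) (1 / u)) (ode_row L i j)
  simp only [map_mul, map_add, map_sum, cx_der, cx_C, cx_poly] at h1
  have hX : cx (PowerSeries.X) = PowerSeries.X := by
    have := cx_poly Polynomial.X
    rw [Polynomial.coe_X, Polynomial.map_X, Polynomial.coe_X] at this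
    exact this
  rw [hX] at h1
  have hm1 : ∀ k, PowerSeries.C ((cN (fun i => (L.m i : ℚ) / 12) ((1 / 12 : ℚ) • L.N) i k : ℚ) : ℂ) * cx (L.Y k j) ∈ Cw R :=
    fun k => (Cw R).mul_mem (C_mem _) (hY k j)
  have hm2 : ∀ k, PowerSeries.X * (((AE a b k j).map (algebraMap ℚ ℂ) : Polynomial ℂ) : PowerSeries ℂ) ∈ Cw R :=
    fun k => (Cw R).mul_mem X_mem (poly_mem _)
  rw [ou_mul hR0 (poly_mem _) ((Cw R).mul_mem X_mem (cxd_mem hR (hY i j))) hz, ou_mul hR0 X_mem (cxd_mem hR (hY i j)) hz,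
    ou_add hR0 ((Cw R).mul_mem (poly_mem _) ((Cw R).sum_mem fun k _ => hm1 k))
      ((Cw R).sum_mem fun k _ => (Cw R).mul_mem (hm2 k) (hY i k)) hz,
    ou_mul hR0 (poly_mem _) ((Cw R).sum_mem fun k _ => hm1 k) hz,
    ou_sum hR0 _ (fun k _ => hm1 k) hz, ou_sum hR0 _ (fun k _ => (Cw R).mul_mem (hm2 k) (hY i k)) hz, ou_poly, ou_X,
    one_div_one_div] at h1
  have e1 : ∀ k, ou (PowerSeries.C ((cN (fun i => (L.m i : ℚ) / 12) ((1 / 12 : ℚ) • L.N) i k : ℚ) : ℂ) * cx (L.Y k j)) (1 / u) =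
      ((cN (fun i => (L.m i : ℚ) / 12) ((1 / 12 : ℚ) • L.N) i k : ℚ) : ℂ) * yv L k j u := by
    intro k
    rw [ou_mul hR0 (C_mem _) (hY k j) hz, ou_C, yv, inn_eq_ou]
  have e2 : ∀ k, ou (PowerSeries.X * (((AE a b k j).map (algebraMap ℚ ℂ) : Polynomial ℂ) : PowerSeries ℂ) * cx (L.Y i k)) (1 / u) =
      u * (cp (AE a b k j)).eval u * yv L i k u := by
    intro k
    rw [ou_mul hR0 (hm2 k) (hY i k) hz, ou_mul hR0 X_mem (poly_mem _) hz, ou_X, ou_poly, one_div_one_div, yv, inn_eq_ou]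
    rfl
  rw [Finset.sum_congr rfl fun k _ => e1 k, Finset.sum_congr rfl fun k _ => e2 k, ← inn_eq_ou] at h1
  exact h1

/-- the twisted matrix -/
noncomputable def Xt (L : LD a b) (i j : Fin 2) (u : ℂ) : ℂ :=
  yv L i j u + log u / 12 * ∑ k, ((L.N i k : ℚ) : ℂ) * yv L k j u

/-- the fundamental matrix -/
noncomputable def Yan (L : LD a b) (i j : Fin 2) (u : ℂ) : ℂ := exp (-((L.m i : ℂ) * log u / 12)) * Xt L i j u

/-- a row solution at a point -/
def RS (a b : Polynomial ℚ) (r : Fin 2 → ℂ → ℂ) (s : ℂ) : Prop :=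
  ∀ j, ∃ r' : ℂ, HasDerivAt (r j) r' s ∧ (cp (De a b)).eval s * r' = ∑ k, (cp (AE a b k j)).eval s * r k s

lemma Yan_rs (L : LD a b) {R : ℝ} (hR : 1 ≤ R) (hY : ∀ i j, cx (L.Y i j) ∈ Cw R) {u : ℂ} (hus : u ∈ slitPlane) (hu : ‖u‖ < 1 / R)
    (i : Fin 2) : RS a b (fun j => Yan L i j) u ∧ ∀ j, AnalyticAt ℂ (Yan L i j) u := by
  have hu0 : u ≠ 0 := slitPlane_ne_zero hus
  have hd : ∀ i j, HasDerivAt (yv L i j) (inn (PowerSeries.derivative ℂ (cx (L.Y i j))) u) u := fun i j =>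
    (inn_hasDerivAt hR (hY i j) hu).1
  have ha' : ∀ i j, AnalyticAt ℂ (yv L i j) u := fun i j => (inn_hasDerivAt hR (hY i j) hu).2
  have hlog : HasDerivAt log u⁻¹ u := hasDerivAt_log hus
  have hla : AnalyticAt ℂ log u := analyticAt_clog hus
  constructor
  · intro j
    have hode := fun i => yv_ode L hR hY hu0 hu i j
    set y' : Fin 2 → ℂ := fun i => inn (PowerSeries.derivative ℂ (cx (L.Y i j))) u with hy'
    have hX : HasDerivAt (Xt L i j) (y' i + (u⁻¹ / 12 * (∑ k, ((L.N i k : ℚ) : ℂ) * yv L k j u) +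
        log u / 12 * ∑ k, ((L.N i k : ℚ) : ℂ) * y' k)) u := by
      refine (hd i j).add ((hlog.div_const 12).mul (HasDerivAt.fun_sum fun k _ => (hd k j).const_mul _))
    have hE : HasDerivAt (fun u => exp (-((L.m i : ℂ) * log u / 12))) (exp (-((L.m i : ℂ) * log u / 12)) *
        (-((L.m i : ℂ) * u⁻¹ / 12))) u := ((((hlog.const_mul _).div_const 12).neg)).cexp
    refine ⟨_, hE.mul hX, ?_⟩
    have hn := nil_tr L.hN
    have hNN : ∀ i k, ((L.N i 0 : ℚ) : ℂ) * ((L.N 0 k : ℚ) : ℂ) + ((L.N i 1 : ℚ) : ℂ) * ((L.N 1 k : ℚ) : ℂ) = 0 := by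
      intro i k
      have h1 := congrFun (congrFun L.hN i) k
      rw [Matrix.mul_apply, Fin.sum_univ_two, Matrix.zero_apply] at h1
      exact_mod_cast h1
    have hNm : ∀ i k, ((L.N i k : ℚ) : ℂ) * (L.m k : ℂ) = ((L.N i k : ℚ) : ℂ) * (L.m i : ℂ) := by
      intro i k
      by_cases h : L.N i k = 0
      · rw [h]; simp
      · rw [L.hm i k h]
    have hc : ∀ i k, ((cN (fun i => (L.m i : ℚ) / 12) ((1 / 12 : ℚ) • L.N) i k : ℚ) : ℂ) =
        (if i = k then (L.m i : ℂ) / 12 else 0) - ((L.N i k : ℚ) : ℂ) / 12 := by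
      intro i k
      rw [cN]
      simp only [Matrix.sub_apply, Matrix.diagonal_apply, Matrix.smul_apply, smul_eq_mul]
      push_cast
      split_ifs <;> push_cast <;> ring
    simp only [hc] at hode
    have o : ∀ i, (cp (De a b)).eval u * y' i = u⁻¹ * ((cp (De a b)).eval u * (∑ k, ((if i = k then (L.m i : ℂ) / 12 else 0) -
        ((L.N i k : ℚ) : ℂ) / 12) * yv L k j u) + ∑ k, u * (cp (AE a b k j)).eval u * yv L i k u) := by
      intro i
      rw [← hode i]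
      show _ = u⁻¹ * ((cp (De a b)).eval u * (u * y' i))
      field_simp
    have o' : ∀ i, (cp (De a b)).eval u * y' i = (cp (De a b)).eval u * (u⁻¹ * ((L.m i : ℂ) / 12) * yv L i j u -
        u⁻¹ / 12 * (∑ k, ((L.N i k : ℚ) : ℂ) * yv L k j u)) + ∑ k, (cp (AE a b k j)).eval u * yv L i k u := by
      intro i
      rw [o i]
      have e1 : ∑ k, ((if i = k then (L.m i : ℂ) / 12 else 0) - ((L.N i k : ℚ) : ℂ) / 12) * yv L k j u =
          (L.m i : ℂ) / 12 * yv L i j u - 1 / 12 * ∑ k, ((L.N i k : ℚ) : ℂ) * yv L k j u := by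
        simp only [sub_mul, Finset.sum_sub_distrib, ite_mul, zero_mul, Finset.sum_ite_eq, Finset.mem_univ, if_true]
        congr 1
        rw [Finset.mul_sum]
        exact Finset.sum_congr rfl fun k _ => by ring
      have e2 : ∑ k, u * (cp (AE a b k j)).eval u * yv L i k u = u * ∑ k, (cp (AE a b k j)).eval u * yv L i k u := by
        rw [Finset.mul_sum]
        exact Finset.sum_congr rfl fun k _ => by ring
      rw [e1, e2]
      field_simp
    have hE0 := exp_ne_zero (-((L.m i : ℂ) * log u / 12))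
    simp only [Yan, Xt]
    simp only [Fin.sum_univ_two] at o' ⊢
    have q0 := o' 0
    have q1 := o' 1
    have qi := o' i
    have n0 := hNN i 0
    have n1 := hNN i 1
    have k0 := hNm i 0
    have k1 := hNm i 1
    generalize (cp (De a b)).eval u = Δ at *
    generalize exp (-((L.m i : ℂ) * log u / 12)) = ε at *
    generalize log u = ℓ at *
    generalize y' i = yi at *
    generalize y' 0 = y0 at *
    generalize y' 1 = y1 at *
    generalize u⁻¹ = w at *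
    linear_combination ε * qi + ε * ℓ / 12 * ((L.N i 0 : ℚ) : ℂ) * q0 + ε * ℓ / 12 * ((L.N i 1 : ℚ) : ℂ) * q1 -
      Δ * ε * ℓ / 144 * w * (n0 * yv L 0 j u + n1 * yv L 1 j u) + Δ * ε * ℓ / 144 * w * (k0 * yv L 0 j u + k1 * yv L 1 j u)
  · intro j
    have h1 : AnalyticAt ℂ (Xt L i j) u := (ha' i j).add ((hla.div analyticAt_const (by norm_num)).mul
      (Finset.analyticAt_fun_sum _ fun k _ => analyticAt_const.mul (ha' k j)))
    have h2 : AnalyticAt ℂ (fun u => exp (-((L.m i : ℂ) * log u / 12))) u :=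
      (((analyticAt_const.mul hla).div analyticAt_const (by norm_num)).neg).cexp
    exact h2.mul h1

/-- the determinant is a monomial -/
lemma det_mono (L : LD a b) (hD : De a b ≠ 0) : ∃ (n : ℕ) (w : ℚ), w ≠ 0 ∧ L.m 0 + L.m 1 = 12 * n ∧
    L.Y 0 0 * L.Y 1 1 - L.Y 0 1 * L.Y 1 0 = PowerSeries.C w * PowerSeries.X ^ n := by
  have hDs : (De a b : PowerSeries ℚ) ≠ 0 := by
    intro h
    exact hD (Polynomial.coe_eq_zero_iff.1 h)
  set F := L.Y 0 0 * L.Y 1 1 - L.Y 0 1 * L.Y 1 0 with hF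
  have hn := nil_tr L.hN
  have hc : ∀ i k, cN (fun i => (L.m i : ℚ) / 12) ((1 / 12 : ℚ) • L.N) i k = (if i = k then (L.m i : ℚ) / 12 else 0) - L.N i k / 12 := by
    intro i k
    rw [cN]
    simp only [Matrix.sub_apply, Matrix.diagonal_apply, Matrix.smul_apply, smul_eq_mul]
    split_ifs <;> ring
  have htr : (AE a b 0 0 : PowerSeries ℚ) + (AE a b 1 1 : PowerSeries ℚ) = 0 := by
    rw [← Polynomial.coe_add]
    have : AE a b 0 0 + AE a b 1 1 = 0 := by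
      simp only [AE, Matrix.cons_val_zero, Matrix.cons_val_one]
      ring
    rw [this, Polynomial.coe_zero]
  have key : (PowerSeries.X : PowerSeries ℚ) * PowerSeries.derivative ℚ F = PowerSeries.C (((L.m 0 + L.m 1 : ℕ) : ℚ) / 12) * F := by
    apply mul_left_cancel₀ hDs
    have o00 := ode_row L 0 0
    have o01 := ode_row L 0 1
    have o10 := ode_row L 1 0
    have o11 := ode_row L 1 1
    have e00 : cN (fun i => (L.m i : ℚ) / 12) ((1 / 12 : ℚ) • L.N) 0 0 = (L.m 0 : ℚ) / 12 - L.N 0 0 / 12 := by rw [hc]; simp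
    have e01 : cN (fun i => (L.m i : ℚ) / 12) ((1 / 12 : ℚ) • L.N) 0 1 = -(L.N 0 1 / 12) := by rw [hc]; simp
    have e10 : cN (fun i => (L.m i : ℚ) / 12) ((1 / 12 : ℚ) • L.N) 1 0 = -(L.N 1 0 / 12) := by rw [hc]; simp
    have e11 : cN (fun i => (L.m i : ℚ) / 12) ((1 / 12 : ℚ) • L.N) 1 1 = (L.m 1 : ℚ) / 12 - L.N 1 1 / 12 := by rw [hc]; simp
    rw [Fin.sum_univ_two, Fin.sum_univ_two, e00, e01] at o00 o01
    rw [Fin.sum_univ_two, Fin.sum_univ_two, e10, e11] at o10 o11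
    have hN1 : PowerSeries.C (L.N 0 0) + PowerSeries.C (L.N 1 1) = 0 := by
      rw [← map_add, hn.1, map_zero]
    have hdF : PowerSeries.derivative ℚ F = L.Y 0 0 * PowerSeries.derivative ℚ (L.Y 1 1) + L.Y 1 1 * PowerSeries.derivative ℚ (L.Y 0 0) -
        (L.Y 0 1 * PowerSeries.derivative ℚ (L.Y 1 0) + L.Y 1 0 * PowerSeries.derivative ℚ (L.Y 0 1)) := by
      rw [hF, map_sub, Derivation.leibniz, Derivation.leibniz]
      simp only [smul_eq_mul]
    have hC12 : ∀ q : ℚ, PowerSeries.C (q / 12) = PowerSeries.C q * PowerSeries.C (1 / 12) := by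
      intro q
      rw [← map_mul]
      congr 1
      ring
    have hG : PowerSeries.C (((L.m 0 + L.m 1 : ℕ) : ℚ) / 12) = (PowerSeries.C (L.m 0 : ℚ) + PowerSeries.C (L.m 1 : ℚ)) * PowerSeries.C (1 / 12) := by
      rw [hC12, ← map_add]
      push_cast
      rfl
    rw [hdF, hG]
    simp only [map_sub, map_neg, hC12 (L.m 0), hC12 (L.m 1), hC12 (L.N 0 0), hC12 (L.N 0 1), hC12 (L.N 1 0), hC12 (L.N 1 1)]
      at o00 o01 o10 o11
    generalize PowerSeries.C (1 / 12 : ℚ) = c12 at *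
    linear_combination (L.Y 1 1) * o00 + (L.Y 0 0) * o11 - (L.Y 1 0) * o01 - (L.Y 0 1) * o10 -
      (De a b : PowerSeries ℚ) * c12 * (L.Y 0 0 * L.Y 1 1 - L.Y 0 1 * L.Y 1 0) * hN1 +
      PowerSeries.X * (L.Y 0 0 * L.Y 1 1 - L.Y 0 1 * L.Y 1 0) * htr
  have hco : ∀ n : ℕ, ((n : ℚ) - ((L.m 0 + L.m 1 : ℕ) : ℚ) / 12) * PowerSeries.coeff n F = 0 := by
    intro n
    have h1 := congrArg (PowerSeries.coeff n) key
    rw [PowerSeries.coeff_C_mul] at h1
    have h2 : PowerSeries.coeff n ((PowerSeries.X : PowerSeries ℚ) * PowerSeries.derivative ℚ F) = n * PowerSeries.coeff n F := by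
      cases n with
      | zero => simp
      | succ n =>
        rw [PowerSeries.coeff_succ_X_mul, PowerSeries.coeff_derivative]
        push_cast
        ring
    rw [h2] at h1
    linear_combination h1
  obtain ⟨n, hn⟩ : ∃ n, PowerSeries.coeff n F ≠ 0 := by
    by_contra hcon
    push Not at hcon
    exact L.det (PowerSeries.ext fun n => by rw [← hF, hcon, map_zero])
  have h12 : ((L.m 0 + L.m 1 : ℕ) : ℚ) = 12 * n := by
    have := (mul_eq_zero.1 (hco n)).resolve_right hn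
    linear_combination (-12 : ℚ) * this
  refine ⟨n, PowerSeries.coeff n F, hn, by exact_mod_cast h12, ?_⟩
  ext k
  rw [PowerSeries.coeff_C_mul, PowerSeries.coeff_X_pow]
  split_ifs with hk
  · rw [hk, mul_one]
  · rw [mul_zero]
    refine (mul_eq_zero.1 (hco k)).resolve_left ?_
    rw [h12]
    intro h
    apply hk
    have : (k : ℚ) = n := by linear_combination h
    exact_mod_cast this

/-- the determinant of the twisted matrix -/
lemma det_Xt (L : LD a b) {R : ℝ} (hR : 1 ≤ R) (hY : ∀ i j, cx (L.Y i j) ∈ Cw R) {n : ℕ} {w : ℚ}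
    (h : L.Y 0 0 * L.Y 1 1 - L.Y 0 1 * L.Y 1 0 = PowerSeries.C w * PowerSeries.X ^ n) {u : ℂ} (hu0 : u ≠ 0) (hu : ‖u‖ < 1 / R) :
    Xt L 0 0 u * Xt L 1 1 u - Xt L 0 1 u * Xt L 1 0 u = (w : ℂ) * u ^ n := by
  have hR0 : 0 ≤ R := by linarith
  have hz : R < ‖(1 / u : ℂ)‖ := by
    rw [norm_div, norm_one, lt_div_iff₀ (norm_pos_iff.2 hu0), mul_comm]
    rwa [lt_div_iff₀ (by linarith)] at hu
  have h1 := congrArg (fun F => ou (cx F) (1 / u)) h
  have hX : cx (PowerSeries.X) = PowerSeries.X := by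
    have := cx_poly Polynomial.X
    rw [Polynomial.coe_X, Polynomial.map_X, Polynomial.coe_X] at this
    exact this
  simp only [map_mul, map_sub, map_pow, cx_C, hX] at h1
  have hsub : cx (L.Y 0 0) * cx (L.Y 1 1) - cx (L.Y 0 1) * cx (L.Y 1 0) =
      cx (L.Y 0 0) * cx (L.Y 1 1) + PowerSeries.C (-1) * (cx (L.Y 0 1) * cx (L.Y 1 0)) := by
    rw [map_neg, map_one]
    ring
  rw [hsub, ou_add hR0 ((Cw R).mul_mem (hY _ _) (hY _ _)) ((Cw R).mul_mem (C_mem _) ((Cw R).mul_mem (hY _ _) (hY _ _))) hz,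
    ou_mul hR0 (hY _ _) (hY _ _) hz, ou_mul hR0 (C_mem _) ((Cw R).mul_mem (hY _ _) (hY _ _)) hz, ou_mul hR0 (hY _ _) (hY _ _) hz,
    ou_C, ou_mul hR0 (C_mem _) ((Cw R).pow_mem X_mem n) hz, ou_C, ou_pow hR0 X_mem hz, ou_X, one_div_one_div] at h1
  simp only [← inn_eq_ou] at h1
  have hn := nil_tr L.hN
  have t1 : ((L.N 0 0 : ℚ) : ℂ) + ((L.N 1 1 : ℚ) : ℂ) = 0 := by exact_mod_cast hn.1
  have t2 : ((L.N 0 0 : ℚ) : ℂ) * ((L.N 1 1 : ℚ) : ℂ) - ((L.N 0 1 : ℚ) : ℂ) * ((L.N 1 0 : ℚ) : ℂ) = 0 := by exact_mod_cast hn.2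
  simp only [Xt, Fin.sum_univ_two, yv]
  linear_combination h1 + (log u / 12) * (inn (cx (L.Y 0 0)) u * inn (cx (L.Y 1 1)) u - inn (cx (L.Y 0 1)) u * inn (cx (L.Y 1 0)) u) * t1 +
    (log u / 12) ^ 2 * (inn (cx (L.Y 0 0)) u * inn (cx (L.Y 1 1)) u - inn (cx (L.Y 0 1)) u * inn (cx (L.Y 1 0)) u) * t2

/-- the Wronskian does not vanish -/
lemma det_Yan (L : LD a b) {R : ℝ} (hR : 1 ≤ R) (hY : ∀ i j, cx (L.Y i j) ∈ Cw R) {n : ℕ} {w : ℚ} (hw : w ≠ 0)
    (h : L.Y 0 0 * L.Y 1 1 - L.Y 0 1 * L.Y 1 0 = PowerSeries.C w * PowerSeries.X ^ n) {u : ℂ} (hu0 : u ≠ 0) (hu : ‖u‖ < 1 / R) :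
    Yan L 0 0 u * Yan L 1 1 u - Yan L 0 1 u * Yan L 1 0 u ≠ 0 := by
  have h1 := det_Xt L hR hY h hu0 hu
  have h2 : Yan L 0 0 u * Yan L 1 1 u - Yan L 0 1 u * Yan L 1 0 u = exp (-((L.m 0 : ℂ) * log u / 12)) *
      exp (-((L.m 1 : ℂ) * log u / 12)) * ((w : ℂ) * u ^ n) := by
    rw [← h1]
    simp only [Yan]
    ring
  rw [h2]
  exact mul_ne_zero (mul_ne_zero (exp_ne_zero _) (exp_ne_zero _)) (mul_ne_zero (by exact_mod_cast hw) (pow_ne_zero _ hu0))

end Pool.Agent.Y124.GE
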