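import Pool.Agent.Y124.GE.Sd

/-!
# The periods of `y² = x³ + a x + b` as power series in `b`
-/

set_option autoImplicit false

namespace Pool.Agent.Y124.GE

open PowerSeries Finset Pool.Agent.Y113 Pool.Agent.Y655.HG

/-- `n! / (1/2)_n` -/
noncomputable def Cb : ℚ⟦X⟧ := PowerSeries.mk fun n => 4 ^ n / (n.centralBinom : ℚ)

lemma centralBinom_dvd_lcm (j : ℕ) : j.centralBinom ∣ Nat.lcmUpto (2 * j) := by
  rw [Nat.dvd_iff_prime_pow_dvd_dvd]
  intro p k hp hk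
  have h1 : k ≤ Nat.log p (2 * j) := by
    have h2 := (hp.pow_dvd_iff_le_factorization (Nat.centralBinom_ne_zero j)).1 hk
    exact h2.trans Nat.factorization_choose_le_log
  rcases Nat.eq_zero_or_pos j with rfl | hj
  · simp at h1
    rw [h1]
    simp
  · have h3 : p ^ k ≤ 2 * j := (Nat.pow_le_pow_right hp.pos h1).trans (Nat.pow_log_le_self p (by omega))
    exact Finset.dvd_lcm (f := id) (Finset.mem_Icc.2 ⟨pow_pos hp.pos k, h3⟩)

lemma SDc_Cb : SDc Cb := by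
  refine ⟨16, fun m => ?_, fun m => ⟨Nat.lcmUpto (2 * m + 1), Nat.lcmUpto_pos _, ?_, fun j hj => ?_⟩⟩
  · simp only [Cb, coeff_mk]
    push_cast
    rw [abs_of_nonneg (by positivity)]
    rcases Nat.eq_zero_or_pos m with rfl | hm
    · simp
      norm_num
    · rw [div_le_iff₀ (by exact_mod_cast Nat.centralBinom_pos m)]
      have h1 := Nat.four_pow_le_two_mul_self_mul_centralBinom m hm
      have h2 : (4 : ℝ) ^ m ≤ 2 * m * (m.centralBinom : ℝ) := by exact_mod_cast h1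
      refine h2.trans (mul_le_mul_of_nonneg_right ?_ (by positivity))
      have h3 : (m : ℝ) + 1 ≤ 2 ^ (m + 1) := (succ_le_two_pow m).trans (pow_le_pow_right₀ (by norm_num) (by omega))
      have h4 : (2 : ℝ) * 2 ^ (m + 1) ≤ (2 ^ 16) ^ (m + 1) := by
        rw [← pow_mul, ← pow_succ']
        exact pow_le_pow_right₀ (by norm_num) (by omega)
      linarith
  · refine (lcm_bound _).trans ?_
    rw [← pow_mul, ← pow_mul]
    exact pow_le_pow_right₀ (by norm_num) (by omega)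
  · simp only [Cb, coeff_mk]
    obtain ⟨a, ha⟩ : j.centralBinom ∣ Nat.lcmUpto (2 * m + 1) := by
      refine (centralBinom_dvd_lcm j).trans (Finset.lcm_dvd fun i hi => ?_)
      rw [Finset.mem_Icc] at hi
      exact Finset.dvd_lcm (f := id) (Finset.mem_Icc.2 ⟨hi.1, by omega⟩)
    refine ⟨4 ^ j * a, ?_⟩
    rw [ha]
    push_cast
    have : (j.centralBinom : ℚ) ≠ 0 := by exact_mod_cast Nat.centralBinom_ne_zero j
    field_simp

lemma Cb_zero : coeff 0 Cb = 1 := by simp [Cb]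

lemma Cb_succ (n : ℕ) : coeff (n + 1) Cb = coeff n Cb * (2 * ((n : ℚ) + 1) / (2 * n + 1)) := by
  simp only [Cb, coeff_mk]
  have h1 : ((n : ℚ) + 1) * ((n + 1).centralBinom : ℚ) = 2 * (2 * n + 1) * (n.centralBinom : ℚ) := by
    exact_mod_cast Nat.succ_mul_centralBinom_succ n
  have h2 : (n.centralBinom : ℚ) ≠ 0 := by exact_mod_cast Nat.centralBinom_ne_zero n
  have h3 : ((n + 1).centralBinom : ℚ) ≠ 0 := by exact_mod_cast Nat.centralBinom_ne_zero (n + 1)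
  have h4 : (2 * (n : ℚ) + 1) ≠ 0 := by positivity
  rw [div_mul_div_comm, div_eq_div_iff h3 (mul_ne_zero h2 h4), pow_succ]
  linear_combination (-(2 : ℚ) * 4 ^ n) * h1

/-- the hypergeometric series with parameters `p₁/12`, `p₂/12`, `1/2` -/
noncomputable def hyp (p₁ p₂ : ℤ) : ℚ⟦X⟧ := Had (Had (R p₁ 12) (R p₂ 12)) Cb

lemma SDc_hyp (p₁ p₂ : ℤ) : SDc (hyp p₁ p₂) :=
  SDc_had (SDc_had (NIc_R _ _ (by norm_num)).SDc (NIc_R _ _ (by norm_num)).SDc) SDc_Cb

lemma hyp_zero (p₁ p₂ : ℤ) : coeff 0 (hyp p₁ p₂) = 1 := by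
  rw [hyp, coeff_Had, coeff_Had, R_zero, R_zero, Cb_zero]
  norm_num

lemma hyp_succ (p₁ p₂ : ℤ) (n : ℕ) : 72 * ((n : ℚ) + 1) * (2 * n + 1) * coeff (n + 1) (hyp p₁ p₂) =
    ((p₁ : ℚ) + 12 * n) * (p₂ + 12 * n) * coeff n (hyp p₁ p₂) := by
  rw [hyp, coeff_Had, coeff_Had, coeff_Had, coeff_Had, R_succ, R_succ, Cb_succ]
  have h4 : (2 * (n : ℚ) + 1) ≠ 0 := by positivity
  have h5 : ((n : ℚ) + 1) ≠ 0 := by positivity
  push_cast
  field_simp
  ring

/-- the series with coefficients `u_n (α + β n) / (2 n + 1)` -/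
noncomputable def comp (α β : ℚ) (u : ℚ⟦X⟧) : ℚ⟦X⟧ := Had (PowerSeries.C α * u + PowerSeries.C β * th u) Os

lemma SDc_th {u : ℚ⟦X⟧} (h : SDc u) : SDc (th u) := by
  unfold th
  exact SDc.X.mul h.deriv

lemma SDc_comp {α β : ℚ} {u : ℚ⟦X⟧} (h : SDc u) : SDc (comp α β u) :=
  SDc_had (((SDc_const α).mul h).add ((SDc_const β).mul (SDc_th h))) SDc_Os

lemma coeff_comp (α β : ℚ) (u : ℚ⟦X⟧) (n : ℕ) : (2 * (n : ℚ) + 1) * coeff n (comp α β u) = (α + β * n) * coeff n u := by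
  have h4 : (2 * (n : ℚ) + 1) ≠ 0 := by positivity
  rw [comp, coeff_Had, map_add, coeff_C_mul, coeff_C_mul, coeff_th]
  simp only [Os, coeff_mk]
  field_simp

section
variable (u : ℚ⟦X⟧)

lemma coeff_X_th_succ (f : ℚ⟦X⟧) (n : ℕ) : coeff (n + 1) (X * f) = coeff n f := by
  rw [mul_comm, coeff_succ_mul_X]

lemma coeff_zero_X_mul (f : ℚ⟦X⟧) : coeff 0 (X * f) = 0 := by
  rw [mul_comm, coeff_zero_mul_X]

/-- first type of equation, in the form `72 (1 - X) u' = c u - d v` -/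
theorem eqA (v : ℚ⟦X⟧) (c d : ℚ) (h : ∀ n : ℕ, 72 * (((n : ℚ) + 1) * coeff (n + 1) u - n * coeff n u) =
    c * coeff n u - d * coeff n v) :
    (72 : ℚ⟦X⟧) * (1 - X) * d⁄dX ℚ u = PowerSeries.C c * u - PowerSeries.C d * v := by
  ext n
  have h1 : (72 : ℚ⟦X⟧) * (1 - X) * d⁄dX ℚ u = PowerSeries.C (72 : ℚ) * (d⁄dX ℚ u - th u) := by
    have h2 : (PowerSeries.C (72 : ℚ) : ℚ⟦X⟧) = 72 := map_ofNat PowerSeries.C 72
    rw [h2, th]
    ring
  rw [h1, coeff_C_mul, map_sub, coeff_th, coeff_derivative, map_sub, coeff_C_mul, coeff_C_mul, ← h n]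
  ring

/-- second type of equation, in the form `(1 - X) (v + 2 X v') = u - e X v` -/
theorem eqB (v : ℚ⟦X⟧) (e : ℚ) (h0 : coeff 0 v = coeff 0 u) (h : ∀ n : ℕ, (2 * ((n : ℚ) + 1) + 1) * coeff (n + 1) v =
    coeff (n + 1) u + (2 * n + 1 - e) * coeff n v) :
    (1 - X) * (v + 2 * (X * d⁄dX ℚ v)) = u - PowerSeries.C e * (X * v) := by
  ext n
  have h1 : (1 - X) * (v + 2 * (X * d⁄dX ℚ v)) = (v + PowerSeries.C (2 : ℚ) * th v) - X * (v + PowerSeries.C (2 : ℚ) * th v) := by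
    rw [th, C_two]
    ring
  rw [h1, map_sub, map_sub, coeff_C_mul]
  rcases n with _ | n
  · rw [coeff_zero_X_mul, coeff_zero_X_mul, map_add, coeff_C_mul, coeff_th, h0]
    push_cast
    ring
  · rw [coeff_X_th_succ, coeff_X_th_succ, map_add, map_add, coeff_C_mul, coeff_C_mul, coeff_th, coeff_th]
    push_cast
    linear_combination h n

end

/-- the four series -/
noncomputable def f1 : ℚ⟦X⟧ := hyp 1 5
noncomputable def g1 : ℚ⟦X⟧ := comp 1 12 f1
noncomputable def h1 : ℚ⟦X⟧ := hyp (-1) 7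
noncomputable def k1 : ℚ⟦X⟧ := comp 1 (-12) h1

lemma f1_succ (n : ℕ) : 72 * ((n : ℚ) + 1) * (2 * n + 1) * coeff (n + 1) f1 = (1 + 12 * n) * (5 + 12 * n) * coeff n f1 := by
  have := hyp_succ 1 5 n
  push_cast at this
  exact this

lemma h1_succ (n : ℕ) : 72 * ((n : ℚ) + 1) * (2 * n + 1) * coeff (n + 1) h1 = (-1 + 12 * n) * (7 + 12 * n) * coeff n h1 := by
  have := hyp_succ (-1) 7 n
  push_cast at this
  exact this

theorem E1 : (72 : ℚ⟦X⟧) * (1 - X) * d⁄dX ℚ f1 = PowerSeries.C 6 * f1 - PowerSeries.C 1 * g1 := by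
  refine eqA f1 g1 6 1 fun n => ?_
  have h2 := f1_succ n
  have h3 := coeff_comp 1 12 f1 n
  have h4 : (2 * (n : ℚ) + 1) ≠ 0 := by positivity
  apply mul_left_cancel₀ h4
  change (2 * (n : ℚ) + 1) * _ = (2 * (n : ℚ) + 1) * (6 * coeff n f1 - 1 * coeff n (comp 1 12 f1))
  linear_combination h2 + h3

theorem E2 : (1 - X) * (g1 + 2 * (X * d⁄dX ℚ g1)) = f1 - PowerSeries.C (1 / 6) * (X * g1) := by
  refine eqB f1 g1 (1 / 6) ?_ fun n => ?_
  · have := coeff_comp 1 12 f1 0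
    push_cast at this
    change coeff 0 (comp 1 12 f1) = _
    linear_combination this
  · have h2 := f1_succ n
    have h3 := coeff_comp 1 12 f1 n
    have h5 := coeff_comp 1 12 f1 (n + 1)
    push_cast at h5
    have h4 : (2 * (n : ℚ) + 1) ≠ 0 := by positivity
    apply mul_left_cancel₀ h4
    change (2 * (n : ℚ) + 1) * ((2 * ((n : ℚ) + 1) + 1) * coeff (n + 1) (comp 1 12 f1)) =
      (2 * (n : ℚ) + 1) * (coeff (n + 1) f1 + (2 * n + 1 - 1 / 6) * coeff n (comp 1 12 f1))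
    linear_combination (2 * (n : ℚ) + 1) * h5 - (2 * n + 1 - 1 / 6) * h3 + (1 / 6) * h2

theorem E3 : (1 - X) * (k1 + 2 * (X * d⁄dX ℚ k1)) = h1 - PowerSeries.C (-(1 / 6)) * (X * k1) := by
  refine eqB h1 k1 (-(1 / 6)) ?_ fun n => ?_
  · have := coeff_comp 1 (-12) h1 0
    push_cast at this
    change coeff 0 (comp 1 (-12) h1) = _
    linear_combination this
  · have h2 := h1_succ n
    have h3 := coeff_comp 1 (-12) h1 n
    have h5 := coeff_comp 1 (-12) h1 (n + 1)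
    push_cast at h5
    have h4 : (2 * (n : ℚ) + 1) ≠ 0 := by positivity
    apply mul_left_cancel₀ h4
    change (2 * (n : ℚ) + 1) * ((2 * ((n : ℚ) + 1) + 1) * coeff (n + 1) (comp 1 (-12) h1)) =
      (2 * (n : ℚ) + 1) * (coeff (n + 1) h1 + (2 * n + 1 - -(1 / 6)) * coeff n (comp 1 (-12) h1))
    linear_combination (2 * (n : ℚ) + 1) * h5 - (2 * n + 1 + 1 / 6) * h3 - (1 / 6) * h2

theorem E4 : (72 : ℚ⟦X⟧) * (1 - X) * d⁄dX ℚ h1 = PowerSeries.C (-6) * h1 - PowerSeries.C 1 * k1 := by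
  refine eqA h1 k1 (-6) 1 fun n => ?_
  have h2 := h1_succ n
  have h3 := coeff_comp 1 (-12) h1 n
  have h4 : (2 * (n : ℚ) + 1) ≠ 0 := by positivity
  apply mul_left_cancel₀ h4
  change (2 * (n : ℚ) + 1) * _ = (2 * (n : ℚ) + 1) * (-6 * coeff n h1 - 1 * coeff n (comp 1 (-12) h1))
  linear_combination h2 + h3

end Pool.Agent.Y124.GE
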