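import Pool.Agent.Y124.GE.Pt

/-!
# From the `b`-line to arbitrary families
-/

set_option autoImplicit false

namespace Pool.Agent.Y124.GE

open PowerSeries Finset Pool.Agent.Y113 Pool.Agent.Y113.HGG Pool.Agent.Y655.HG

lemma deriv_ext {f g : ℚ⟦X⟧} (h : d⁄dX ℚ f = d⁄dX ℚ g) (h0 : constantCoeff f = constantCoeff g) : f = g :=
  PowerSeries.derivative.ext h h0

/-- `(1 - X)^(-1/4)` -/
lemma R4_pow : (R 1 4) ^ 4 * (1 - X) = 1 := by
  have hR : (4 : ℚ⟦X⟧) * ((1 - X) * d⁄dX ℚ (R 1 4)) = R 1 4 := by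
    ext n
    have h1 : (4 : ℚ⟦X⟧) * ((1 - X) * d⁄dX ℚ (R 1 4)) = PowerSeries.C (4 : ℚ) * (d⁄dX ℚ (R 1 4) - th (R 1 4)) := by
      have : (PowerSeries.C (4 : ℚ) : ℚ⟦X⟧) = 4 := map_ofNat _ 4
      rw [this, th]
      ring
    rw [h1, coeff_C_mul, map_sub, coeff_th, coeff_derivative, R_succ]
    have : ((n : ℚ) + 1) ≠ 0 := by positivity
    push_cast
    field_simp
    ring
  refine deriv_ext ?_ ?_
  · have h1 : d⁄dX ℚ (R 1 4 ^ 4 * (1 - X)) = R 1 4 ^ 3 * (4 * ((1 - X) * d⁄dX ℚ (R 1 4)) - R 1 4) := by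
      rw [Derivation.leibniz, Derivation.leibniz_pow, map_sub, derivative_X, Derivation.map_one_eq_zero]
      simp only [smul_eq_mul, nsmul_eq_mul]
      push_cast
      ring
    rw [h1, hR, sub_self, mul_zero, Derivation.map_one_eq_zero]
  · rw [map_mul, map_pow, ← coeff_zero_eq_constantCoeff_apply, R_zero]
    simp

/-- the fourth root of `a(0) / a` -/
theorem exists_root (a : Polynomial ℚ) (ha : a.eval 0 ≠ 0) : ∃ r : ℚ⟦X⟧, constantCoeff r = 1 ∧ NIc r ∧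
    (a : ℚ⟦X⟧) * r ^ 4 = PowerSeries.C (a.eval 0) := by
  set P : ℚ⟦X⟧ := 1 - PowerSeries.C (a.eval 0)⁻¹ * (a : ℚ⟦X⟧) with hP
  have hc : constantCoeff (a : ℚ⟦X⟧) = a.eval 0 := by
    rw [← coeff_zero_eq_constantCoeff_apply, Polynomial.coeff_coe, Polynomial.coeff_zero_eq_eval_zero]
  have hP0 : constantCoeff P = 0 := by
    rw [hP, map_sub, map_one, map_mul, hc, PowerSeries.constantCoeff_C, inv_mul_cancel₀ ha, sub_self]
  have hsub : PowerSeries.HasSubst P := PowerSeries.HasSubst.of_constantCoeff_zero' hP0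
  have hPN : NIc P := NIc.one.sub ((NIc.C _).mul (NIc.poly a))
  refine ⟨(R 1 4).subst P, ?_, hPN.subst hP0 (NIc_R 1 4 (by norm_num)), ?_⟩
  · rw [← coeff_zero_eq_constantCoeff_apply, coeff_subst_P hP0]
    simp [R_zero]
  · let φ : ℚ⟦X⟧ →+* ℚ⟦X⟧ := (PowerSeries.substAlgHom (R := ℚ) hsub : ℚ⟦X⟧ →ₐ[ℚ] ℚ⟦X⟧)
    have hφ : ∀ F : ℚ⟦X⟧, φ F = F.subst P := fun F => by
      change PowerSeries.substAlgHom hsub F = _
      rw [PowerSeries.coe_substAlgHom]
    have h1 := congrArg φ R4_pow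
    rw [map_mul, map_pow, map_sub, map_one, hφ, hφ, PowerSeries.subst_X hsub] at h1
    have h2 : (a : ℚ⟦X⟧) = PowerSeries.C (a.eval 0) * (1 - P) := by
      rw [hP, sub_sub_cancel, ← mul_assoc, ← map_mul, mul_inv_cancel₀ ha, map_one, one_mul]
    rw [h2, mul_assoc, mul_comm (1 - P), h1, mul_one]

section
variable (ν : Polynomial ℚ →+* KK)

lemma nu_C (q : ℚ) : ν (Polynomial.C q) = (q : KK) := eq_ratCast (ν.comp Polynomial.C) q

lemma nu_De (a b : Polynomial ℚ) : ν (De a b) = 4 * ν a ^ 3 + 27 * ν b ^ 2 := by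
  simp only [De, map_add, map_mul, map_pow, map_ofNat]

lemma nu_Wr (a b : Polynomial ℚ) : ν (Wr a b) = 2 * ν a * ν (Polynomial.derivative b) - 3 * ν (Polynomial.derivative a) * ν b := by
  simp only [Wr, map_sub, map_mul, map_ofNat]

lemma nu_AE00 (a b : Polynomial ℚ) : ν (AE a b 0 0) =
    -(ν a ^ 2 * ν (Polynomial.derivative a) + 9 / 2 * (ν b * ν (Polynomial.derivative b))) := by
  change ν (-(Polynomial.C (1 / 12) * Polynomial.derivative (De a b))) = _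
  rw [derivative_De]
  simp only [map_neg, map_mul, nu_C, map_add, map_pow, map_ofNat]
  push_cast
  ring

lemma nu_AE11 (a b : Polynomial ℚ) : ν (AE a b 1 1) =
    ν a ^ 2 * ν (Polynomial.derivative a) + 9 / 2 * (ν b * ν (Polynomial.derivative b)) := by
  change ν (Polynomial.C (1 / 12) * Polynomial.derivative (De a b)) = _
  rw [derivative_De]
  simp only [map_mul, nu_C, map_add, map_pow, map_ofNat]
  push_cast
  ring

lemma nu_AE01 (a b : Polynomial ℚ) : ν (AE a b 0 1) =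
    -(ν a ^ 2 * ν (Polynomial.derivative b) - 3 / 2 * (ν a * ν (Polynomial.derivative a) * ν b)) := by
  change ν (-(Polynomial.C (1 / 2) * (a * Wr a b))) = _
  simp only [map_neg, map_mul, nu_C, nu_Wr]
  push_cast
  ring

lemma nu_AE10 (a b : Polynomial ℚ) : ν (AE a b 1 0) =
    -(3 * ν a * ν (Polynomial.derivative b) - 9 / 2 * (ν (Polynomial.derivative a) * ν b)) := by
  change ν (-(Polynomial.C (3 / 2) * Wr a b)) = _
  simp only [map_neg, map_mul, nu_C, nu_Wr]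
  push_cast
  ring

end

/-- the solution of the family at a point where `a` does not vanish -/
theorem comp_sol (a b : Polynomial ℚ) (ha : a.eval 0 ≠ 0) (hD : (De a b).eval 0 ≠ 0) {Ψ : Fin 2 → Fin 2 → ℚ⟦X⟧}
    (hΨ : Sol (Polynomial.C (a.eval 0)) (Polynomial.X + Polynomial.C (b.eval 0)) Ψ) (hS : ∀ i j, SDc (Ψ i j)) :
    ∃ Y, Sol a b Y ∧ ∀ i j, SDc (Y i j) := by
  obtain ⟨r, hr0, hrN, hr⟩ := exists_root a ha
  set φ : ℚ⟦X⟧ := (b : ℚ⟦X⟧) * r ^ 6 - PowerSeries.C (b.eval 0) with hφ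
  have hcP : ∀ P : Polynomial ℚ, constantCoeff (P : ℚ⟦X⟧) = P.eval 0 := fun P => by
    rw [← coeff_zero_eq_constantCoeff_apply, Polynomial.coeff_coe, Polynomial.coeff_zero_eq_eval_zero]
  have hφ0 : constantCoeff φ = 0 := by
    rw [hφ, map_sub, map_mul, map_pow, hr0, one_pow, mul_one, hcP, PowerSeries.constantCoeff_C, sub_self]
  have hφN : NIc φ := ((NIc.poly b).mul (hrN.pow 6)).sub (NIc.C _)
  have hsub : PowerSeries.HasSubst φ := PowerSeries.HasSubst.of_constantCoeff_zero' hφ0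
  -- the inverse of `r`
  obtain ⟨s, hs⟩ : ∃ s : ℚ⟦X⟧, s = PowerSeries.C (a.eval 0)⁻¹ * (a : ℚ⟦X⟧) * r ^ 3 := ⟨_, rfl⟩
  have hsr : s * r = 1 := by
    have : s * r = PowerSeries.C (a.eval 0)⁻¹ * ((a : ℚ⟦X⟧) * r ^ 4) := by rw [hs]; ring
    rw [this, hr, ← map_mul, inv_mul_cancel₀ ha, map_one]
  have hsN : NIc s := by
    rw [hs]
    exact ((NIc.C _).mul (NIc.poly a)).mul (hrN.pow 3)
  have hs0 : constantCoeff s = 1 := by
    have := congrArg constantCoeff hsr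
    rwa [map_mul, hr0, mul_one, map_one] at this
  refine ⟨fun i j => (Ψ i j).subst φ * (if j = 0 then r else s), ⟨fun i j => ?_, fun i j => ?_⟩, fun i j => ?_⟩
  · rw [map_mul]
    have h1 : constantCoeff ((Ψ i j).subst φ) = if i = j then 1 else 0 := by
      rw [← coeff_zero_eq_constantCoeff_apply, coeff_subst_P hφ0]
      simp [hΨ.1 i j]
    rw [h1]
    split_ifs <;> simp [hr0, hs0]
  · -- in the field of fractions
    apply io_inj
    let ψ : ℚ⟦X⟧ →+* ℚ⟦X⟧ := (PowerSeries.substAlgHom (R := ℚ) hsub : ℚ⟦X⟧ →ₐ[ℚ] ℚ⟦X⟧)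
    have hψ : ∀ F : ℚ⟦X⟧, ψ F = F.subst φ := fun F => by
      change PowerSeries.substAlgHom hsub F = _
      rw [PowerSeries.coe_substAlgHom]
    have hψC : ∀ q : ℚ, ψ (PowerSeries.C q) = PowerSeries.C q := fun q =>
      (PowerSeries.substAlgHom (R := ℚ) hsub : ℚ⟦X⟧ →ₐ[ℚ] ℚ⟦X⟧).commutes q
    let ν : Polynomial ℚ →+* KK := (io.comp ψ).comp (Polynomial.coeToPowerSeries.ringHom (R := ℚ))
    have hνC : ∀ q : ℚ, ν (Polynomial.C q) = (q : KK) := fun q => by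
      change io (ψ ((Polynomial.C q : Polynomial ℚ) : ℚ⟦X⟧)) = _
      rw [Polynomial.coe_C, hψC, io_C]
    have hνX : ν Polynomial.X = io φ := by
      change io (ψ ((Polynomial.X : Polynomial ℚ) : ℚ⟦X⟧)) = _
      rw [Polynomial.coe_X, hψ, PowerSeries.subst_X hsub]
    set ρ := io r with hρ
    set ρ1 := io (d⁄dX ℚ r) with hρ1
    set A := mu a with hA
    set B := mu b with hB
    set A1 := mu (Polynomial.derivative a) with hA1
    set B1 := mu (Polynomial.derivative b) with hB1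
    have hDne : De a b ≠ 0 := ne_zero_of_eval hD
    have hane : a ≠ 0 := ne_zero_of_eval ha
    have hmu_inj : ∀ P : Polynomial ℚ, P ≠ 0 → mu P ≠ 0 := by
      intro P hP h0
      exact coe_ne_zero hP (io_inj (by rw [map_zero]; exact h0))
    have hA0 : A ≠ 0 := hmu_inj a hane
    have hDK : 4 * A ^ 3 + 27 * B ^ 2 ≠ 0 := by
      have := hmu_inj _ hDne
      rwa [mu_De] at this
    have hρ0 : ρ ≠ 0 := by
      intro h0
      have h1 := congrArg io hsr
      rw [map_mul, ← hρ, h0, mul_zero, map_one] at h1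
      exact zero_ne_one h1
    have hsK : io s = ρ⁻¹ := by
      have h1 := congrArg io hsr
      rw [map_mul, map_one] at h1
      exact eq_inv_of_mul_eq_one_left h1
    have hrel : A * ρ ^ 4 = ((a.eval 0 : ℚ) : KK) := by
      have h1 := congrArg io hr
      rw [map_mul, map_pow, io_C] at h1
      exact h1
    have hdr : ρ1 = -(A1 * ρ) / (4 * A) := by
      have h1 := congrArg (d⁄dX ℚ) hr
      rw [Derivation.leibniz, Derivation.leibniz_pow, PowerSeries.derivative_C] at h1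
      simp only [smul_eq_mul, nsmul_eq_mul] at h1
      have h2 := congrArg io h1
      rw [map_add, map_mul, map_mul, map_mul, map_mul, map_pow, map_pow, map_zero, PowerSeries.derivative_coe] at h2
      change A * (io ((4 : ℕ) : ℚ⟦X⟧) * (ρ ^ 3 * ρ1)) + ρ ^ 4 * A1 = 0 at h2
      rw [map_natCast] at h2
      push_cast at h2
      have h3 : ρ ^ 3 ≠ 0 := pow_ne_zero _ hρ0
      field_simp
      apply mul_left_cancel₀ h3
      linear_combination h2
    have hs1 : io (d⁄dX ℚ s) = -(ρ1 / ρ ^ 2) := by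
      have h1 := congrArg (d⁄dX ℚ) hsr
      rw [Derivation.leibniz, Derivation.map_one_eq_zero] at h1
      simp only [smul_eq_mul] at h1
      have h2 := congrArg io h1
      rw [map_add, map_mul, map_mul, map_zero, hsK] at h2
      change ρ⁻¹ * ρ1 + ρ * io (d⁄dX ℚ s) = 0 at h2
      field_simp at h2 ⊢
      linear_combination h2
    have hφK : io φ = B * ρ ^ 6 - ((b.eval 0 : ℚ) : KK) := by
      rw [hφ, map_sub, map_mul, map_pow, io_C]
      rfl
    have hφ1 : io (d⁄dX ℚ φ) = B1 * ρ ^ 6 + 6 * B * ρ ^ 5 * ρ1 := by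
      rw [hφ, map_sub, Derivation.leibniz, Derivation.leibniz_pow, PowerSeries.derivative_C, PowerSeries.derivative_coe]
      simp only [smul_eq_mul, nsmul_eq_mul, map_sub, map_add, map_mul, map_pow, map_zero, map_natCast]
      change B * (((6 : ℕ) : KK) * (ρ ^ 5 * ρ1)) + ρ ^ 6 * B1 - 0 = _
      push_cast
      ring
    have hνb : ν (Polynomial.X + Polynomial.C (b.eval 0)) = B * ρ ^ 6 := by
      rw [map_add, hνX, hνC, hφK]
      ring
    have hda : Polynomial.derivative (Polynomial.C (a.eval 0)) = 0 := Polynomial.derivative_C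
    have hdX : Polynomial.derivative (Polynomial.X + Polynomial.C (b.eval 0) : Polynomial ℚ) = 1 := by simp
    have hode : ∀ j, (4 * ((a.eval 0 : ℚ) : KK) ^ 3 + 27 * (B * ρ ^ 6) ^ 2) * io (ψ (d⁄dX ℚ (Ψ i j))) =
        io (ψ (Ψ i 0)) * ν (AE (Polynomial.C (a.eval 0)) (Polynomial.X + Polynomial.C (b.eval 0)) 0 j) +
        io (ψ (Ψ i 1)) * ν (AE (Polynomial.C (a.eval 0)) (Polynomial.X + Polynomial.C (b.eval 0)) 1 j) := by
      intro j
      have h1 := congrArg (io.comp ψ) (hΨ.2 i j)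
      rw [Fin.sum_univ_two, map_mul, map_add, map_mul, map_mul] at h1
      have h2 : ν (De (Polynomial.C (a.eval 0)) (Polynomial.X + Polynomial.C (b.eval 0))) =
          4 * ((a.eval 0 : ℚ) : KK) ^ 3 + 27 * (B * ρ ^ 6) ^ 2 := by
        rw [nu_De, hνC, hνb]
      rw [← h2]
      exact h1
    have hode0 := hode 0
    have hode1 := hode 1
    rw [nu_AE00, nu_AE10, hda, hdX, map_zero, map_one, hνC, hνb, ← hrel] at hode0
    rw [nu_AE01, nu_AE11, hda, hdX, map_zero, map_one, hνC, hνb, ← hrel] at hode1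
    set p0 := io (ψ (Ψ i 0)) with hp0
    set p1 := io (ψ (Ψ i 1)) with hp1
    set q0 := io (ψ (d⁄dX ℚ (Ψ i 0))) with hq0
    set q1 := io (ψ (d⁄dX ℚ (Ψ i 1))) with hq1
    have hDρ : 4 * (A * ρ ^ 4) ^ 3 + 27 * (B * ρ ^ 6) ^ 2 = ρ ^ 12 * (4 * A ^ 3 + 27 * B ^ 2) := by ring
    have hρ12 : ρ ^ 12 ≠ 0 := pow_ne_zero _ hρ0
    have hq0' : q0 = (-(9 / 2) * (B * ρ ^ 6) * p0 - 3 * (A * ρ ^ 4) * p1) / (ρ ^ 12 * (4 * A ^ 3 + 27 * B ^ 2)) := by
      rw [eq_div_iff (mul_ne_zero hρ12 hDK), ← hDρ]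
      linear_combination hode0
    have hq1' : q1 = (-(A * ρ ^ 4) ^ 2 * p0 + (9 / 2) * (B * ρ ^ 6) * p1) / (ρ ^ 12 * (4 * A ^ 3 + 27 * B ^ 2)) := by
      rw [eq_div_iff (mul_ne_zero hρ12 hDK), ← hDρ]
      linear_combination hode1
    have hder : ∀ (j : Fin 2) (u : ℚ⟦X⟧), io (d⁄dX ℚ ((Ψ i j).subst φ * u)) =
        io (ψ (Ψ i j)) * io (d⁄dX ℚ u) + io u * (io (ψ (d⁄dX ℚ (Ψ i j))) * io (d⁄dX ℚ φ)) := by
      intro j u
      rw [Derivation.leibniz, derivative_subst hsub]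
      simp only [smul_eq_mul, map_add, map_mul, hψ]
    rw [Fin.sum_univ_two]
    fin_cases j
    · change io ((De a b : ℚ⟦X⟧) * d⁄dX ℚ ((Ψ i 0).subst φ * r)) =
        io ((Ψ i 0).subst φ * r * (AE a b 0 0 : ℚ⟦X⟧) + (Ψ i 1).subst φ * s * (AE a b 1 0 : ℚ⟦X⟧))
      simp only [map_mul io, map_add io, io_coe, mu_De]
      rw [hder, ← hψ, ← hψ, hφ1, hsK, mu_AE00, mu_AE10, ← hρ, ← hρ1, ← hp0, ← hp1, ← hq0, hq0', hdr]
      field_simp
      ring
    · change io ((De a b : ℚ⟦X⟧) * d⁄dX ℚ ((Ψ i 1).subst φ * s)) =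
        io ((Ψ i 0).subst φ * r * (AE a b 0 1 : ℚ⟦X⟧) + (Ψ i 1).subst φ * s * (AE a b 1 1 : ℚ⟦X⟧))
      simp only [map_mul io, map_add io, io_coe, mu_De]
      rw [hder, ← hψ, ← hψ, hφ1, hsK, hs1, mu_AE01, mu_AE11, ← hρ, ← hp0, ← hp1, ← hq1, hq1', hdr]
      field_simp
      ring
  · refine SDc.mul (SDc_subst' hφN hφ0 (hS i j)) ?_
    split_ifs
    · exact hrN.SDc
    · exact hsN.SDc

end Pool.Agent.Y124.GE
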