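import Mathlib

/-!
# Divisibility of products of arithmetic progressions by factorials
-/

set_option autoImplicit false

open Finset

namespace Pool.Agent.Y124.GE

lemma pow_le_of_dvd_factorial {l k n : ℕ} (hl : l.Prime) (h : l ^ k ∣ n.factorial) : k ≤ n := by
  have h1 := (hl.pow_dvd_factorial_iff (b := Nat.log l n + 1) (by omega)).1 h
  refine h1.trans ((Nat.geom_sum_Ico_le hl.two_le n _).trans ?_)
  exact Nat.div_le_self _ _

/-- `n!` divides `q^n ∏_{k<n} (p + q k)` -/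
theorem fact_dvd (p : ℤ) (q n : ℕ) : (n.factorial : ℤ) ∣ (q : ℤ) ^ n * ∏ k ∈ range n, (p + q * k) := by
  rw [Int.natCast_dvd, Nat.dvd_iff_prime_pow_dvd_dvd]
  intro l k hl hk
  rw [← Int.natCast_dvd]
  by_cases hlq : l ∣ q
  · refine Dvd.dvd.mul_right ?_ _
    have h1 := pow_le_of_dvd_factorial hl hk
    have h2 : l ^ k ∣ q ^ n := (pow_dvd_pow l h1).trans (pow_dvd_pow_of_dvd hlq n)
    exact_mod_cast h2
  · refine Dvd.dvd.mul_left ?_ _
    have hco : IsCoprime (q : ℤ) ((l ^ k : ℕ) : ℤ) := by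
      rw [Nat.isCoprime_iff_coprime]
      exact (Nat.Coprime.pow_left k ((Nat.Prime.coprime_iff_not_dvd hl).2 hlq)).symm
    obtain ⟨u, v, huv⟩ := hco
    set m : ℤ := ((l ^ k : ℕ) : ℤ) with hm
    have hm0 : 0 < m := by
      rw [hm]
      exact_mod_cast pow_pos hl.pos k
    obtain ⟨x, hx⟩ : ∃ x : ℕ, (x : ℤ) = (u * p) % m := ⟨((u * p) % m).toNat, Int.toNat_of_nonneg (Int.emod_nonneg _ hm0.ne')⟩
    have hmod : (q : ℤ) * x ≡ p [ZMOD m] := by
      rw [hx]
      have h1 : (u * p) % m ≡ u * p [ZMOD m] := Int.mod_modEq _ _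
      refine (h1.mul_left _).trans ?_
      rw [Int.modEq_iff_dvd]
      refine ⟨v * p, ?_⟩
      linear_combination (p : ℤ) * (-huv)
    have hprod : ∏ j ∈ range n, (p + q * j) ≡ ∏ j ∈ range n, ((q : ℤ) * (x + j)) [ZMOD m] := by
      refine Int.ModEq.prod fun j _ => ?_
      have h1 : (q : ℤ) * (x + j) = q * x + q * j := by ring
      rw [h1]
      exact hmod.symm.add_right _
    refine (Int.ModEq.dvd_iff hprod).2 ?_
    rw [Finset.prod_mul_distrib]
    refine Dvd.dvd.mul_left ?_ _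
    have h2 : ∏ j ∈ range n, ((x : ℤ) + j) = ((x.ascFactorial n : ℕ) : ℤ) := by
      rw [Nat.ascFactorial_eq_prod_range]
      push_cast
      rfl
    rw [h2, hm]
    exact_mod_cast hk.trans (Nat.factorial_dvd_ascFactorial x n)

end Pool.Agent.Y124.GE
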