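import Pool.Agent.Y655.HG.Form
import Pool.Agent.Y124.GE.Fac

/-!
# Power series with geometric denominators
-/

set_option autoImplicit false

namespace Pool.Agent.Y124.GE

open PowerSeries Finset Pool.Agent.Y113 Pool.Agent.Y655.HG

/-- `N^(m+1) f_m` is an integer and `|f_m| ≤ N^(m+1)` -/
def NIp (N : ℕ) (f : ℚ⟦X⟧) : Prop :=
  ∀ m, (∃ a : ℤ, (N : ℚ) ^ (m + 1) * coeff m f = a) ∧ |((coeff m f : ℚ) : ℝ)| ≤ (N : ℝ) ^ (m + 1)

def NIc (f : ℚ⟦X⟧) : Prop := ∃ N : ℕ, 0 < N ∧ NIp N f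

lemma NIp.mono {N M : ℕ} {f : ℚ⟦X⟧} (h : NIp N f) (hM : 0 < M) (hNM : N ∣ M) : NIp M f := by
  intro m
  obtain ⟨⟨a, ha⟩, h2⟩ := h m
  obtain ⟨k, rfl⟩ := hNM
  refine ⟨⟨(k : ℤ) ^ (m + 1) * a, ?_⟩, h2.trans ?_⟩
  · push_cast
    rw [← ha, mul_pow]
    ring
  · have h3 : N ≤ N * k := Nat.le_mul_of_pos_right N (Nat.pos_of_mul_pos_left hM)
    exact pow_le_pow_left₀ (by positivity) (by exact_mod_cast h3) _

lemma NIc.add {f g : ℚ⟦X⟧} (h : NIc f) (h' : NIc g) : NIc (f + g) := by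
  obtain ⟨N, hN, hf⟩ := h
  obtain ⟨N', hN', hg⟩ := h'
  refine ⟨2 * N * N', by positivity, fun m => ⟨?_, ?_⟩⟩
  · obtain ⟨a, ha⟩ := (hf m).1
    obtain ⟨b, hb⟩ := (hg m).1
    refine ⟨2 ^ (m + 1) * (N' ^ (m + 1) * a + N ^ (m + 1) * b), ?_⟩
    rw [map_add]
    push_cast
    rw [← ha, ← hb, mul_pow, mul_pow]
    ring
  · rw [map_add]
    push_cast
    refine (abs_add_le _ _).trans ((add_le_add (hf m).2 (hg m).2).trans ?_)
    have h1 : (1 : ℝ) ≤ (N : ℝ) := by exact_mod_cast hN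
    have h2 : (1 : ℝ) ≤ (N' : ℝ) := by exact_mod_cast hN'
    have e1 : (N : ℝ) ^ (m + 1) ≤ ((N : ℝ) * N') ^ (m + 1) := pow_le_pow_left₀ (by positivity) (by nlinarith) _
    have e2 : (N' : ℝ) ^ (m + 1) ≤ ((N : ℝ) * N') ^ (m + 1) := pow_le_pow_left₀ (by positivity) (by nlinarith) _
    calc (N : ℝ) ^ (m + 1) + (N' : ℝ) ^ (m + 1) ≤ 2 * ((N : ℝ) * N') ^ (m + 1) := by linarith
      _ ≤ 2 ^ (m + 1) * ((N : ℝ) * N') ^ (m + 1) := by
          refine mul_le_mul_of_nonneg_right ?_ (by positivity)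
          exact le_self_pow₀ (by norm_num) (by omega)
      _ = _ := by rw [← mul_pow, mul_assoc]

lemma NIc.mul {f g : ℚ⟦X⟧} (h : NIc f) (h' : NIc g) : NIc (f * g) := by
  obtain ⟨N, hN, hf⟩ := h
  obtain ⟨N', hN', hg⟩ := h'
  have h1 : (1 : ℝ) ≤ (N : ℝ) := by exact_mod_cast hN
  have h2 : (1 : ℝ) ≤ (N' : ℝ) := by exact_mod_cast hN'
  refine ⟨2 * N * N', by positivity, fun m => ⟨?_, ?_⟩⟩
  · choose a ha using fun m => (hf m).1
    choose b hb using fun m => (hg m).1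
    refine ⟨2 ^ (m + 1) * ∑ p ∈ Finset.HasAntidiagonal.antidiagonal m, (N : ℤ) ^ p.2 * N' ^ p.1 * (a p.1 * b p.2), ?_⟩
    rw [coeff_mul]
    push_cast
    rw [mul_pow, mul_pow, mul_assoc, mul_assoc, Finset.mul_sum, Finset.mul_sum]
    congr 1
    refine Finset.sum_congr rfl fun p hp => ?_
    rw [Finset.HasAntidiagonal.mem_antidiagonal] at hp
    rw [← ha, ← hb, ← hp, pow_succ, pow_succ, pow_add, pow_add, pow_succ, pow_succ]
    ring
  · rw [coeff_mul]
    push_cast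
    refine (Finset.abs_sum_le_sum_abs _ _).trans ?_
    refine (Finset.sum_le_card_nsmul _ _ ((N : ℝ) ^ (m + 1) * (N' : ℝ) ^ (m + 1)) fun p hp => ?_).trans ?_
    · rw [Finset.HasAntidiagonal.mem_antidiagonal] at hp
      rw [abs_mul]
      refine mul_le_mul ((hf _).2.trans (pow_le_pow_right₀ h1 (by omega)))
        ((hg _).2.trans (pow_le_pow_right₀ h2 (by omega))) (abs_nonneg _) (by positivity)
    · rw [nsmul_eq_mul, Finset.Nat.card_antidiagonal]
      push_cast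
      calc ((m : ℝ) + 1) * ((N : ℝ) ^ (m + 1) * (N' : ℝ) ^ (m + 1)) ≤ 2 ^ (m + 1) * ((N : ℝ) ^ (m + 1) * (N' : ℝ) ^ (m + 1)) := by
            refine mul_le_mul_of_nonneg_right ?_ (by positivity)
            exact (succ_le_two_pow m).trans (pow_le_pow_right₀ (by norm_num) (by omega))
        _ = _ := by rw [← mul_pow, ← mul_pow, mul_assoc]

lemma NIc.C (q : ℚ) : NIc (PowerSeries.C q) := by
  refine ⟨q.den * (q.num.natAbs + 1), by have := q.pos; positivity, fun m => ⟨?_, ?_⟩⟩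
  · rw [coeff_C]
    split_ifs with h
    · refine ⟨(q.den : ℤ) ^ m * ((q.num.natAbs + 1 : ℕ) : ℤ) ^ (m + 1) * q.num, ?_⟩
      generalize q.num.natAbs + 1 = K
      push_cast
      have h1 : (q.den : ℚ) * q = q.num := by rw [mul_comm]; exact Rat.mul_den_eq_num q
      rw [← h1, mul_pow, pow_succ (q.den : ℚ)]
      ring
    · exact ⟨0, by simp⟩
  · rw [coeff_C]
    split_ifs with h
    · have h1 : |(q : ℝ)| ≤ (q.num.natAbs : ℝ) := by
        have h2 : |q| ≤ |(q.num : ℚ)| := by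
          have h3 : (q.den : ℚ) * q = q.num := by rw [mul_comm]; exact Rat.mul_den_eq_num q
          have h4 : (1 : ℚ) ≤ q.den := by exact_mod_cast q.pos
          rw [← h3, abs_mul, abs_of_nonneg (by positivity : (0 : ℚ) ≤ q.den)]
          nlinarith [abs_nonneg q]
        have h5 : ((|q| : ℚ) : ℝ) ≤ ((|(q.num : ℚ)| : ℚ) : ℝ) := by exact_mod_cast h2
        push_cast at h5
        rw [Nat.cast_natAbs]
        push_cast
        exact h5
      have h6 : (1 : ℝ) ≤ (q.den : ℝ) := by exact_mod_cast q.pos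
      have h7 : |(q : ℝ)| ≤ ((q.den * (q.num.natAbs + 1) : ℕ) : ℝ) := by
        push_cast
        have h8 : (0 : ℝ) ≤ (q.num.natAbs : ℝ) := by positivity
        nlinarith
      refine h7.trans (le_self_pow₀ ?_ (by omega))
      push_cast
      have h8 : (0 : ℝ) ≤ (q.num.natAbs : ℝ) := by positivity
      nlinarith
    · simp only [Rat.cast_zero, abs_zero]
      positivity

lemma NIc.X : NIc (PowerSeries.X : ℚ⟦X⟧) := by
  refine ⟨1, one_pos, fun m => ?_⟩
  rw [coeff_X]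
  split_ifs
  · exact ⟨⟨1, by simp⟩, by simp⟩
  · exact ⟨⟨0, by simp⟩, by simp⟩

lemma NIc.one : NIc (1 : ℚ⟦X⟧) := by
  have := NIc.C 1
  rwa [map_one] at this

lemma NIc.zero : NIc (0 : ℚ⟦X⟧) := by
  have := NIc.C 0
  rwa [map_zero] at this

lemma NIc.neg {f : ℚ⟦X⟧} (h : NIc f) : NIc (-f) := by
  have := (NIc.C (-1)).mul h
  rw [map_neg, map_one, neg_one_mul] at this
  exact this

lemma NIc.sub {f g : ℚ⟦X⟧} (h : NIc f) (h' : NIc g) : NIc (f - g) := by
  rw [sub_eq_add_neg]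
  exact h.add h'.neg

lemma NIc.pow {f : ℚ⟦X⟧} (h : NIc f) (n : ℕ) : NIc (f ^ n) := by
  induction n with
  | zero => rw [pow_zero]; exact NIc.one
  | succ n ih => rw [pow_succ]; exact ih.mul h

lemma NIc.sum {ι : Type*} (s : Finset ι) (F : ι → ℚ⟦X⟧) (h : ∀ i ∈ s, NIc (F i)) : NIc (∑ i ∈ s, F i) := by
  classical
  induction s using Finset.induction_on with
  | empty => rw [sum_empty]; exact NIc.zero
  | insert a s ha ih =>
    rw [sum_insert ha]
    exact (h a (mem_insert_self _ _)).add (ih fun i hi => h i (mem_insert_of_mem hi))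

lemma NIc.poly (P : Polynomial ℚ) : NIc (P : ℚ⟦X⟧) := by
  induction P using Polynomial.induction_on' with
  | add p q hp hq => rw [Polynomial.coe_add]; exact hp.add hq
  | monomial n a =>
    rw [← Polynomial.C_mul_X_pow_eq_monomial, Polynomial.coe_mul, Polynomial.coe_pow, Polynomial.coe_C, Polynomial.coe_X]
    exact (NIc.C a).mul (NIc.X.pow n)

lemma NIc.SDc {f : ℚ⟦X⟧} (h : NIc f) : SDc f := by
  obtain ⟨N, hN, hf⟩ := h
  obtain ⟨n, hn⟩ : ∃ n : ℕ, (N : ℝ) ≤ 2 ^ n := by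
    obtain ⟨n, hn⟩ := pow_unbounded_of_one_lt (N : ℝ) (show (1 : ℝ) < 2 by norm_num)
    exact ⟨n, hn.le⟩
  refine ⟨n, fun m => ((hf m).2).trans (pow_le_pow_left₀ (by positivity) hn _), fun m => ⟨N ^ (m + 1), by positivity, ?_,
    fun j hj => ?_⟩⟩
  · push_cast
    exact pow_le_pow_left₀ (by positivity) hn _
  · obtain ⟨a, ha⟩ := (hf j).1
    refine ⟨(N : ℤ) ^ (m - j) * a, ?_⟩
    have e1 : (N : ℚ) ^ (m + 1) = (N : ℚ) ^ (m - j) * (N : ℚ) ^ (j + 1) := by
      rw [← pow_add]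
      congr 1
      omega
    push_cast
    rw [← ha, e1]
    ring

lemma NIc.geo {f : ℚ⟦X⟧} (h : NIc f) (h0 : constantCoeff f = 0) : ∃ N : ℕ, 0 < N ∧
    (∀ m, |((coeff m f : ℚ) : ℝ)| ≤ (N : ℝ) ^ m) ∧ ∀ m, ∃ a : ℤ, (N : ℚ) ^ m * coeff m f = a := by
  obtain ⟨N, hN, hf⟩ := h
  have h1 : (1 : ℝ) ≤ (N : ℝ) := by exact_mod_cast hN
  refine ⟨N ^ 2, by positivity, fun m => ?_, fun m => ?_⟩
  · rcases Nat.eq_zero_or_pos m with rfl | hm
    · rw [coeff_zero_eq_constantCoeff_apply, h0]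
      simp
    · refine (hf m).2.trans ?_
      push_cast
      rw [← pow_mul]
      exact pow_le_pow_right₀ h1 (by omega)
  · rcases Nat.eq_zero_or_pos m with rfl | hm
    · rw [coeff_zero_eq_constantCoeff_apply, h0]
      exact ⟨0, by simp⟩
    · obtain ⟨a, ha⟩ := (hf m).1
      refine ⟨(N : ℤ) ^ (m - 1) * a, ?_⟩
      push_cast
      rw [← ha, ← mul_assoc, ← pow_add, ← pow_mul]
      congr 2
      omega

theorem SDc_subst' {f F : ℚ⟦X⟧} (h : NIc f) (h0 : constantCoeff f = 0) (hF : SDc F) : SDc (F.subst f) := by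
  obtain ⟨N, hN, h1, h2⟩ := h.geo h0
  exact SDc_subst h0 (by exact_mod_cast hN) h1 hN h2 hF

theorem NIc.subst {f F : ℚ⟦X⟧} (h : NIc f) (h0 : constantCoeff f = 0) (hF : NIc F) : NIc (F.subst f) := by
  obtain ⟨N, hN, h1, h2⟩ := h.geo h0
  obtain ⟨M, hM, hF⟩ := hF
  have hN1 : (1 : ℝ) ≤ (N : ℝ) := by exact_mod_cast hN
  have hM1 : (1 : ℝ) ≤ (M : ℝ) := by exact_mod_cast hM
  have hsz := pow_bound hN1 h1
  have hin := pow_int (N := N) h2
  refine ⟨8 * M * N, by positivity, fun m => ⟨?_, ?_⟩⟩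
  · choose a ha using fun d => (hF d).1
    choose b hb using fun d => hin d m
    refine ⟨8 ^ (m + 1) * N * ∑ d ∈ range (m + 1), (M : ℤ) ^ (m - d) * (a d * b d), ?_⟩
    rw [coeff_subst_P h0, Finset.mul_sum]
    push_cast
    rw [Finset.mul_sum]
    refine Finset.sum_congr rfl fun d hd => ?_
    rw [Finset.mem_range] at hd
    rw [← ha, ← hb, mul_pow, mul_pow]
    have e1 : (M : ℚ) ^ (m + 1) = M ^ (m - d) * M ^ (d + 1) := by
      rw [← pow_add]
      congr 1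
      omega
    rw [e1, pow_succ (N : ℚ)]
    ring
  · rw [coeff_subst_P h0]
    push_cast
    refine (Finset.abs_sum_le_sum_abs _ _).trans ?_
    refine (Finset.sum_le_card_nsmul _ _ ((M : ℝ) ^ (m + 1) * ((2 : ℝ) ^ (2 * m) * (N : ℝ) ^ m)) fun d hd => ?_).trans ?_
    · rw [Finset.mem_range] at hd
      rw [abs_mul]
      refine mul_le_mul ((hF d).2.trans (pow_le_pow_right₀ hM1 (by omega))) ((hsz d m).trans ?_) (abs_nonneg _)
        (by positivity)
      exact mul_le_mul_of_nonneg_right (pow_le_pow_right₀ (by norm_num) (by omega)) (by positivity)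
    · rw [nsmul_eq_mul, Finset.card_range]
      push_cast
      have e1 : ((m : ℝ) + 1) ≤ 2 ^ (m + 1) := (succ_le_two_pow m).trans (pow_le_pow_right₀ (by norm_num) (by omega))
      have e2 : (2 : ℝ) ^ (2 * m) ≤ 4 ^ (m + 1) := by
        rw [pow_mul]
        norm_num
        exact pow_le_pow_right₀ (by norm_num) (by omega)
      have e3 : (N : ℝ) ^ m ≤ (N : ℝ) ^ (m + 1) := pow_le_pow_right₀ hN1 (by omega)
      calc ((m : ℝ) + 1) * ((M : ℝ) ^ (m + 1) * ((2 : ℝ) ^ (2 * m) * (N : ℝ) ^ m))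
          ≤ 2 ^ (m + 1) * ((M : ℝ) ^ (m + 1) * (4 ^ (m + 1) * (N : ℝ) ^ (m + 1))) := by gcongr
        _ = (8 * M * N) ^ (m + 1) := by
          rw [← mul_pow, ← mul_pow, ← mul_pow]
          congr 1
          ring

/-! ## the binomial series and the hypergeometric series -/

/-- `(1 - X)^(-p/q)` -/
noncomputable def R (p : ℤ) (q : ℕ) : ℚ⟦X⟧ := PowerSeries.mk fun n => ∏ k ∈ range n, (((p : ℚ) + q * k) / (q * (k + 1)))

lemma R_zero (p : ℤ) (q : ℕ) : coeff 0 (R p q) = 1 := by simp [R]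

lemma R_succ (p : ℤ) (q : ℕ) (n : ℕ) : coeff (n + 1) (R p q) = coeff n (R p q) * (((p : ℚ) + q * n) / (q * (n + 1))) := by
  simp only [R, coeff_mk, Finset.prod_range_succ]

lemma NIc_R (p : ℤ) (q : ℕ) (hq : 0 < q) : NIc (R p q) := by
  refine ⟨q ^ 2 * (p.natAbs + 1), by positivity, fun n => ⟨?_, ?_⟩⟩
  · obtain ⟨m, hm⟩ := fact_dvd p q n
    have hq0 : (q : ℚ) ≠ 0 := by exact_mod_cast hq.ne'
    have hf0 : (n.factorial : ℚ) ≠ 0 := by exact_mod_cast n.factorial_ne_zero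
    have h1 : coeff n (R p q) = (∏ k ∈ range n, ((p : ℚ) + q * k)) / (q ^ n * n.factorial) := by
      simp only [R, coeff_mk]
      rw [Finset.prod_div_distrib]
      congr 1
      rw [Finset.prod_mul_distrib, Finset.prod_const, Finset.card_range, ← Finset.prod_range_add_one_eq_factorial]
      push_cast
      rfl
    have h2 : (q : ℚ) ^ n * ∏ k ∈ range n, ((p : ℚ) + q * k) = n.factorial * m := by
      have := congrArg (fun z : ℤ => (z : ℚ)) hm
      push_cast at this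
      exact this
    refine ⟨(q : ℤ) ^ 2 * (p.natAbs + 1 : ℕ) ^ (n + 1) * m, ?_⟩
    rw [h1]
    generalize p.natAbs + 1 = K
    push_cast
    rw [mul_pow, ← pow_mul]
    have h3 : (m : ℚ) = (q : ℚ) ^ n * (∏ k ∈ range n, ((p : ℚ) + q * k)) / n.factorial := by
      rw [h2]
      field_simp
    rw [h3]
    field_simp
    ring
  · have h1 : |((coeff n (R p q) : ℚ) : ℝ)| ≤ ((p.natAbs : ℝ) + 1) ^ n := by
      simp only [R, coeff_mk]
      push_cast
      rw [Finset.abs_prod]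
      refine (Finset.prod_le_prod (fun _ _ => abs_nonneg _) (fun k _ => ?_)).trans (le_of_eq (by
        rw [Finset.prod_const, Finset.card_range]))
      · rw [abs_div]
        have hq1 : (1 : ℝ) ≤ q := by exact_mod_cast hq
        rw [abs_of_pos (by positivity : (0 : ℝ) < q * (k + 1)), div_le_iff₀ (by positivity)]
        have h5 : |((p : ℝ) + q * k)| ≤ |(p : ℝ)| + q * k := by
          refine (abs_add_le _ _).trans ?_
          rw [abs_of_nonneg (by positivity : (0 : ℝ) ≤ q * k)]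
        have h6 : (p.natAbs : ℝ) = |(p : ℝ)| := by
          rw [Nat.cast_natAbs]
          push_cast
          rfl
        rw [h6]
        have h7 := abs_nonneg (p : ℝ)
        have h8 : (0 : ℝ) ≤ k := by positivity
        nlinarith [mul_nonneg h7 h8, mul_nonneg h7 (mul_nonneg (by positivity : (0:ℝ) ≤ q) h8), mul_nonneg h7 (by linarith : (0 : ℝ) ≤ q - 1)]
    refine h1.trans ?_
    have h2 : ((p.natAbs : ℝ) + 1) ≤ ((q ^ 2 * (p.natAbs + 1) : ℕ) : ℝ) := by
      push_cast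
      have : (1 : ℝ) ≤ (q : ℝ) ^ 2 := one_le_pow₀ (by exact_mod_cast hq)
      nlinarith [show (0 : ℝ) ≤ p.natAbs by positivity]
    have h3 : (1 : ℝ) ≤ ((p.natAbs : ℝ) + 1) := by linarith [show (0 : ℝ) ≤ p.natAbs by positivity]
    exact (pow_le_pow_right₀ h3 (by omega : n ≤ n + 1)).trans (pow_le_pow_left₀ (by positivity) h2 _)

end Pool.Agent.Y124.GE
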