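import Pool.Agent.Y113.HGGal
import Pool.Agent.Y124.GE.Sd

/-!
# Galochkin's condition and the solutions at all rational points
-/

set_option autoImplicit false

namespace Pool.Agent.Y124.GE

open PowerSeries Finset Pool.Agent.Y113 Pool.Agent.Y113.HGG Pool.Agent.Y655.HG

variable {n : ℕ}

/-- Galochkin's condition -/
def GC (q : ℕ) (T : Polynomial ℤ) (A : Fin n → Fin n → Polynomial ℤ) : Prop :=
  ∃ M : ℝ, 1 ≤ M ∧ ∀ k, ∃ g : ℕ, 0 < g ∧ (g : ℝ) ≤ M ^ (k + 1) ∧ ∀ s ≤ k, ∀ i j,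
    IP g (ah T A s i j) ∧ Bq (q * s) (M ^ (k + 1)) (ah T A s i j)

lemma exists_common {ι : Type*} [Fintype ι] {f : ι → ℚ⟦X⟧} (h : ∀ i, SDc (f i)) : ∃ m : ℕ, ∀ i, SDp (2 ^ m) (f i) := by
  choose m hm using h
  refine ⟨∑ i, m i, fun i => (hm i).mono ?_⟩
  exact pow_le_pow_right₀ (by norm_num) (Finset.single_le_sum (f := m) (fun _ _ => Nat.zero_le _) (Finset.mem_univ i))

lemma exists_bd (T : Polynomial ℤ) : ∃ m : ℕ, ∀ l, |((T.coeff l : ℤ) : ℝ)| ≤ 2 ^ m := by
  obtain ⟨m, hm⟩ := pow_unbounded_of_one_lt (∑ l ∈ range (T.natDegree + 1), |((T.coeff l : ℤ) : ℝ)|) (show (1 : ℝ) < 2 by norm_num)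
  refine ⟨m, fun l => ?_⟩
  by_cases hl : l ≤ T.natDegree
  · exact (Finset.single_le_sum (f := fun l => |((T.coeff l : ℤ) : ℝ)|) (fun _ _ => abs_nonneg _)
      (Finset.mem_range.2 (by omega))).trans hm.le
  · rw [Polynomial.coeff_eq_zero_of_natDegree_lt (by omega)]
    simp

theorem gc_of {q : ℕ} {T : Polynomial ℤ} {A : Fin n → Fin n → Polynomial ℤ} {y w : Fin n → Fin n → ℚ⟦X⟧}
    (hTd : T.natDegree ≤ q) (hAd : ∀ i j, (A i j).natDegree ≤ q)
    (hy : ∀ i j, ps T * d⁄dX ℚ (y i j) = ∑ k, y i k * ps (A k j))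
    (hw : ∀ i j, ∑ k, w i k * y k j = if i = j then 1 else 0) (hyS : ∀ i j, SDc (y i j)) (hwS : ∀ i j, SDc (w i j)) :
    GC q T A := by
  obtain ⟨m1, h1⟩ := exists_common (f := fun p : Fin n × Fin n => y p.1 p.2) fun p => hyS p.1 p.2
  obtain ⟨m2, h2⟩ := exists_common (f := fun p : Fin n × Fin n => w p.1 p.2) fun p => hwS p.1 p.2
  obtain ⟨m3, h3⟩ := exists_bd T
  choose m4 h4 using fun p : Fin n × Fin n => exists_bd (A p.1 p.2)
  set m := m1 + m2 + m3 + ∑ p, m4 p with hm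
  obtain ⟨C, hC⟩ : ∃ C : ℝ, C = 2 ^ m := ⟨_, rfl⟩
  have hC1 : 1 ≤ C := by rw [hC]; exact one_le_pow₀ (by norm_num)
  have hC0 : 0 < C := by linarith
  have hyS' : ∀ i j, SDp C (y i j) := fun i j => (h1 (i, j)).mono (by
    rw [hC]; exact pow_le_pow_right₀ (by norm_num) (by omega))
  have hwS' : ∀ i j, SDp C (w i j) := fun i j => (h2 (i, j)).mono (by
    rw [hC]; exact pow_le_pow_right₀ (by norm_num) (by omega))
  have hT : Bd q C T := ⟨hTd, fun l => (h3 l).trans (by rw [hC]; exact pow_le_pow_right₀ (by norm_num) (by omega))⟩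
  have hA : ∀ i j, Bd q C (A i j) := fun i j => ⟨hAd i j, fun l => (h4 (i, j) l).trans (by
    rw [hC]
    refine pow_le_pow_right₀ (by norm_num) ?_
    have := Finset.single_le_sum (f := m4) (fun _ _ => Nat.zero_le _) (Finset.mem_univ (i, j))
    omega)⟩
  clear hC
  have hcc := one_le_cc n q
  have hccC : 1 ≤ (cc n q : ℝ) * C := by nlinarith
  set M : ℝ := (C ^ (n * n)) ^ (q + 1) * (C ^ (n * n)) ^ (q + 2) * (cc n q * C) with hM
  have hCn : 1 ≤ C ^ (n * n) := one_le_pow₀ hC1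
  have hA1 : 1 ≤ (C ^ (n * n)) ^ (q + 1) := one_le_pow₀ hCn
  have hA2 : 1 ≤ (C ^ (n * n)) ^ (q + 2) := one_le_pow₀ hCn
  have hM1 : 1 ≤ M := by
    rw [hM]
    exact one_le_mul_of_one_le_of_one_le (one_le_mul_of_one_le_of_one_le hA1 hA2) hccC
  refine ⟨M, hM1, fun k => ?_⟩
  obtain ⟨dw, hdw0, hdw, hdw'⟩ := common_den hwS' (q * k)
  obtain ⟨dy, hdy0, hdy, hdy'⟩ := common_den hyS' (q * k + k)
  refine ⟨dw * dy, Nat.mul_pos hdw0 hdy0, ?_, fun s hs i j => ?_⟩
  · have e1 : (dw : ℝ) ≤ ((C ^ (n * n)) ^ (q + 1)) ^ (k + 1) := by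
      refine hdw.trans ?_
      rw [← pow_mul, ← pow_mul, ← pow_mul]
      refine pow_le_pow_right₀ hC1 ?_
      have : q * k + 1 ≤ (q + 1) * (k + 1) := by nlinarith
      calc (q * k + 1) * (n * n) ≤ ((q + 1) * (k + 1)) * (n * n) := Nat.mul_le_mul_right _ this
        _ = _ := by ring
    have e2 : (dy : ℝ) ≤ ((C ^ (n * n)) ^ (q + 2)) ^ (k + 1) := by
      refine hdy.trans ?_
      rw [← pow_mul, ← pow_mul, ← pow_mul]
      refine pow_le_pow_right₀ hC1 ?_
      have : q * k + k + 1 ≤ (q + 2) * (k + 1) := by nlinarith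
      calc (q * k + k + 1) * (n * n) ≤ ((q + 2) * (k + 1)) * (n * n) := Nat.mul_le_mul_right _ this
        _ = _ := by ring
    push_cast
    calc (dw : ℝ) * dy ≤ ((C ^ (n * n)) ^ (q + 1)) ^ (k + 1) * ((C ^ (n * n)) ^ (q + 2)) ^ (k + 1) :=
          mul_le_mul e1 e2 (by positivity) (by positivity)
      _ = ((C ^ (n * n)) ^ (q + 1) * (C ^ (n * n)) ^ (q + 2)) ^ (k + 1) := by rw [mul_pow]
      _ ≤ M ^ (k + 1) := by
        refine pow_le_pow_left₀ (by positivity) ?_ _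
        rw [hM]
        exact le_mul_of_one_le_right (by positivity) hccC
  · have hsize := ah_size hC1 hT hA
    refine ⟨IP_ah hy hw hdw' hdy' hs (fun i j => (hsize s i j).1) i j, (hsize s i j).mono le_rfl ?_⟩
    calc (cc n q * C) ^ s ≤ (cc n q * C) ^ (k + 1) := pow_le_pow_right₀ hccC (by omega)
      _ ≤ M ^ (k + 1) := by
        refine pow_le_pow_left₀ (by positivity) ?_ _
        rw [hM]
        exact le_mul_of_one_le_left (by positivity) (one_le_mul_of_one_le_of_one_le hA1 hA2)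

/-- translation -/
noncomputable def tau (x : ℚ) : Polynomial ℚ →+* ℚ⟦X⟧ :=
  (Polynomial.coeToPowerSeries.ringHom (R := ℚ)).comp (Polynomial.compRingHom (Polynomial.X + Polynomial.C x))

lemma tau_apply (x : ℚ) (P : Polynomial ℚ) : tau x P = ((P.comp (Polynomial.X + Polynomial.C x) : Polynomial ℚ) : ℚ⟦X⟧) := rfl

lemma tau_deriv (x : ℚ) (P : Polynomial ℚ) : d⁄dX ℚ (tau x P) = tau x (Polynomial.derivative P) := by
  rw [tau_apply, tau_apply, PowerSeries.derivative_coe, Polynomial.derivative_comp]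
  simp

lemma tau_const (x : ℚ) (P : Polynomial ℚ) : constantCoeff (tau x P) = P.eval x := by
  rw [tau_apply, ← coeff_zero_eq_constantCoeff_apply, Polynomial.coeff_coe, Polynomial.coeff_zero_eq_eval_zero,
    Polynomial.eval_comp]
  simp

lemma tau_zero (P : Polynomial ℚ) : tau 0 P = (P : ℚ⟦X⟧) := by
  rw [tau_apply]
  simp

/-- the coefficients of the solution at `x` -/
theorem coeff_sol {T : Polynomial ℤ} {A : Fin n → Fin n → Polynomial ℤ} (x : ℚ) {Z : Fin n → Fin n → ℚ⟦X⟧}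
    (hZ : ∀ i j, tau x (tq T) * d⁄dX ℚ (Z i j) = ∑ k, Z i k * tau x (aq A j k))
    (hZ0 : ∀ i j, constantCoeff (Z i j) = if i = j then 1 else 0) (s : ℕ) (i j : Fin n) :
    (tq T).eval x ^ s * coeff s (Z i j) = (ah T A s j i).eval x := by
  have h1 := rec_iter (tau x) (tau_deriv x) (T := tq T) (B := aq A) (Y := Z i) (fun j => by
    rw [hZ i j]
    exact Finset.sum_congr rfl fun k _ => mul_comm _ _) s j
  rw [← fac_hd] at h1
  have h2 := congrArg (constantCoeff (R := ℚ)) h1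
  rw [map_mul, map_mul, map_pow, map_sum, tau_const] at h2
  simp only [map_mul, hZ0, tau_const, map_natCast] at h2
  rw [Finset.sum_eq_single i] at h2
  · rw [if_pos rfl, mul_one, ← coeff_zero_eq_constantCoeff_apply, coeff_hd] at h2
    unfold ah
    rw [Polynomial.eval_mul, Polynomial.eval_C, ← h2]
    have : (s.factorial : ℚ) ≠ 0 := by exact_mod_cast s.factorial_ne_zero
    simp only [zero_add, Nat.choose_self, Nat.cast_one, one_mul]
    field_simp
  · intro b _ hb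
    rw [if_neg (Ne.symm hb), mul_zero]
  · intro h
    exact absurd (Finset.mem_univ _) h

lemma eval_bound {m : ℕ} {B : ℝ} {P : Polynomial ℚ} (h : Bq m B P) (x : ℚ) :
    |((P.eval x : ℚ) : ℝ)| ≤ (m + 1) * (B * (max 1 |(x : ℝ)|) ^ m) := by
  have hB := h.nonneg
  rw [Polynomial.eval_eq_sum_range' (n := m + 1) (by have := h.1; omega)]
  push_cast
  refine (Finset.abs_sum_le_sum_abs _ _).trans ?_
  refine (Finset.sum_le_card_nsmul _ _ (B * (max 1 |(x : ℝ)|) ^ m) fun l hl => ?_).trans (le_of_eq (by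
    rw [Finset.card_range, nsmul_eq_mul]
    push_cast
    ring))
  rw [Finset.mem_range] at hl
  rw [abs_mul, abs_pow]
  refine mul_le_mul (h.2 l) ?_ (by positivity) hB
  exact (pow_le_pow_left₀ (abs_nonneg _) (le_max_right _ _) _).trans (pow_le_pow_right₀ (le_max_left _ _) (by omega))

lemma eval_int {m g : ℕ} {P : Polynomial ℚ} (h : IP g P) (hm : P.natDegree ≤ m) (x : ℚ) :
    ∃ a : ℤ, ((g * x.den ^ m : ℕ) : ℚ) * P.eval x = a := by
  obtain ⟨Q, hQ⟩ := h
  have hc : ∀ l, (g : ℚ) * P.coeff l = Q.coeff l := by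
    intro l
    have := congrArg (fun R : Polynomial ℚ => R.coeff l) hQ
    simp only [Polynomial.coeff_map, Polynomial.coeff_C_mul] at this
    rw [← this]
    rfl
  refine ⟨∑ l ∈ range (m + 1), Q.coeff l * (x.num ^ l * (x.den : ℤ) ^ (m - l)), ?_⟩
  rw [Polynomial.eval_eq_sum_range' (n := m + 1) (by omega), Finset.mul_sum]
  push_cast
  refine Finset.sum_congr rfl fun l hl => ?_
  rw [Finset.mem_range] at hl
  rw [← hc l]
  have h1 : (x.num : ℚ) = x.den * x := by rw [mul_comm]; exact (Rat.mul_den_eq_num x).symm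
  have h2 : (x.den : ℚ) ^ m = (x.den : ℚ) ^ l * (x.den : ℚ) ^ (m - l) := by
    rw [← pow_add]
    congr 1
    omega
  rw [h1, h2, mul_pow]
  ring

/-- Galochkin's condition implies that the solutions at all points are G-functions -/
theorem gc_eval {q : ℕ} {T : Polynomial ℤ} {A : Fin n → Fin n → Polynomial ℤ} (h : GC q T A) (x : ℚ)
    (hx : (tq T).eval x ≠ 0) {Z : Fin n → Fin n → ℚ⟦X⟧}
    (hZ : ∀ i j, tau x (tq T) * d⁄dX ℚ (Z i j) = ∑ k, Z i k * tau x (aq A j k))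
    (hZ0 : ∀ i j, constantCoeff (Z i j) = if i = j then 1 else 0) (i j : Fin n) : SDc (Z i j) := by
  obtain ⟨M, hM, h⟩ := h
  set t := (tq T).eval x with ht
  have hc : ∀ s, coeff s (Z i j) = (ah T A s j i).eval x / t ^ s := by
    intro s
    rw [eq_div_iff (pow_ne_zero _ hx), mul_comm]
    exact coeff_sol x hZ hZ0 s i j
  set K : ℝ := 2 ^ (q + 1) * M * (max 1 |(x : ℝ)|) ^ (q + 1) * (x.den : ℝ) ^ (q + 1) * (1 + |(t : ℝ)⁻¹|) * (1 + |(t.num : ℝ)|) with hK
  have hx1 : (1 : ℝ) ≤ x.den := by exact_mod_cast x.pos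
  have hmx : 1 ≤ max 1 |(x : ℝ)| := le_max_left _ _
  have hti : 1 ≤ 1 + |(t : ℝ)⁻¹| := by linarith [abs_nonneg ((t : ℝ)⁻¹)]
  have htn : 1 ≤ 1 + |(t.num : ℝ)| := by linarith [abs_nonneg (t.num : ℝ)]
  have h2q : (1 : ℝ) ≤ 2 ^ (q + 1) := one_le_pow₀ (by norm_num)
  have hmq : 1 ≤ (max 1 |(x : ℝ)|) ^ (q + 1) := one_le_pow₀ hmx
  have hdq : 1 ≤ (x.den : ℝ) ^ (q + 1) := one_le_pow₀ hx1
  have key : SDp K (Z i j) := by
    refine ⟨fun s => ?_, fun k => ?_⟩
    · obtain ⟨g, hg0, hg, hgs⟩ := h s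
      have h1 := eval_bound (hgs s le_rfl j i).2 x
      rw [hc]
      push_cast
      rw [abs_div, abs_pow, div_eq_mul_inv, ← inv_pow, ← abs_inv]
      have e1 : ((q * s : ℕ) : ℝ) + 1 ≤ (2 ^ (q + 1)) ^ (s + 1) := by
        have := succ_le_two_pow (q * s)
        refine this.trans ?_
        rw [← pow_mul]
        exact pow_le_pow_right₀ (by norm_num) (by nlinarith)
      have e2 : (max 1 |(x : ℝ)|) ^ (q * s) ≤ ((max 1 |(x : ℝ)|) ^ (q + 1)) ^ (s + 1) := by
        rw [← pow_mul]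
        exact pow_le_pow_right₀ hmx (by nlinarith)
      have e3 : |(t : ℝ)⁻¹| ^ s ≤ (1 + |(t : ℝ)⁻¹|) ^ (s + 1) :=
        (pow_le_pow_left₀ (abs_nonneg _) (by linarith) _).trans (pow_le_pow_right₀ hti (by omega))
      calc |(((ah T A s j i).eval x : ℚ) : ℝ)| * |(t : ℝ)⁻¹| ^ s
          ≤ ((((q * s : ℕ) : ℝ) + 1) * (M ^ (s + 1) * (max 1 |(x : ℝ)|) ^ (q * s))) * |(t : ℝ)⁻¹| ^ s :=
            mul_le_mul_of_nonneg_right h1 (by positivity)
        _ ≤ ((2 ^ (q + 1)) ^ (s + 1) * (M ^ (s + 1) * ((max 1 |(x : ℝ)|) ^ (q + 1)) ^ (s + 1))) * (1 + |(t : ℝ)⁻¹|) ^ (s + 1) := by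
            gcongr
        _ = (2 ^ (q + 1) * M * (max 1 |(x : ℝ)|) ^ (q + 1) * (1 + |(t : ℝ)⁻¹|)) ^ (s + 1) := by
            rw [← mul_pow, ← mul_pow, ← mul_pow]
            congr 1
            ring
        _ ≤ K ^ (s + 1) := by
            refine pow_le_pow_left₀ (by positivity) ?_ _
            rw [hK]
            calc 2 ^ (q + 1) * M * (max 1 |(x : ℝ)|) ^ (q + 1) * (1 + |(t : ℝ)⁻¹|)
                = 2 ^ (q + 1) * M * (max 1 |(x : ℝ)|) ^ (q + 1) * 1 * (1 + |(t : ℝ)⁻¹|) * 1 := by ring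
              _ ≤ _ := by gcongr
    · obtain ⟨g, hg0, hg, hgs⟩ := h k
      have htz : t.num ≠ 0 := Rat.num_ne_zero.2 hx
      refine ⟨g * x.den ^ (q * k) * t.num.natAbs ^ k, ?_, ?_, fun s hs => ?_⟩
      · have := Int.natAbs_pos.2 htz
        have := x.pos
        positivity
      · push_cast
        have e0 : ((t.num.natAbs : ℕ) : ℝ) = |(t.num : ℝ)| := by
          rw [Nat.cast_natAbs]
          push_cast
          rfl
        rw [e0]
        have e2 : (x.den : ℝ) ^ (q * k) ≤ ((x.den : ℝ) ^ (q + 1)) ^ (k + 1) := by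
          rw [← pow_mul]
          exact pow_le_pow_right₀ hx1 (by nlinarith)
        have e3 : |(t.num : ℝ)| ^ k ≤ (1 + |(t.num : ℝ)|) ^ (k + 1) :=
          (pow_le_pow_left₀ (abs_nonneg _) (by linarith) _).trans (pow_le_pow_right₀ htn (by omega))
        calc (g : ℝ) * (x.den : ℝ) ^ (q * k) * |(t.num : ℝ)| ^ k
            ≤ M ^ (k + 1) * ((x.den : ℝ) ^ (q + 1)) ^ (k + 1) * (1 + |(t.num : ℝ)|) ^ (k + 1) := by gcongr
          _ = (M * (x.den : ℝ) ^ (q + 1) * (1 + |(t.num : ℝ)|)) ^ (k + 1) := by rw [← mul_pow, ← mul_pow]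
          _ ≤ K ^ (k + 1) := by
            refine pow_le_pow_left₀ (by positivity) ?_ _
            rw [hK]
            calc M * (x.den : ℝ) ^ (q + 1) * (1 + |(t.num : ℝ)|)
                = 1 * M * 1 * (x.den : ℝ) ^ (q + 1) * 1 * (1 + |(t.num : ℝ)|) := by ring
              _ ≤ _ := by gcongr
      · obtain ⟨a, ha⟩ := eval_int (hgs s hs j i).1 (hgs s hs j i).2.1 x
        refine ⟨(x.den : ℤ) ^ (q * k - q * s) * t.num.sign ^ k * t.num ^ (k - s) * t.den ^ s * a, ?_⟩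
        have h1 : (t.num : ℚ) = t.den * t := by rw [mul_comm]; exact (Rat.mul_den_eq_num t).symm
        have hd0 : (t.den : ℚ) ≠ 0 := by exact_mod_cast t.pos.ne'
        have e0 : ((t.num.natAbs : ℕ) : ℚ) = t.num.sign * t.num := by
          have := Int.sign_mul_self_eq_abs t.num
          rw [Nat.cast_natAbs]
          exact_mod_cast this.symm
        have e1 : (x.den : ℚ) ^ (q * k) = (x.den : ℚ) ^ (q * k - q * s) * (x.den : ℚ) ^ (q * s) := by
          rw [← pow_add]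
          congr 1
          have : q * s ≤ q * k := Nat.mul_le_mul_left q hs
          omega
        have e2 : (t.num : ℚ) ^ k = (t.num : ℚ) ^ (k - s) * (t.num : ℚ) ^ s := by
          rw [← pow_add]
          congr 1
          omega
        rw [hc]
        push_cast
        rw [← ha, e0, mul_pow, e1, e2]
        have h3 : (t.num : ℚ) ^ s = (t.den : ℚ) ^ s * t ^ s := by rw [h1, mul_pow]
        rw [h3]
        push_cast
        field_simp
  obtain ⟨k, hk⟩ := pow_unbounded_of_one_lt K (show (1 : ℝ) < 2 by norm_num)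
  exact ⟨k, key.mono hk.le⟩

end Pool.Agent.Y124.GE
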