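import Pool.Agent.Y124.GE.Bl
import Pool.Agent.Y124.GE.Tr

/-!
# The Gauss-Manin system of `y² = x³ + a x + b`
-/

set_option autoImplicit false

namespace Pool.Agent.Y124.GE

open PowerSeries Finset Pool.Agent.Y113 Pool.Agent.Y113.HGG Pool.Agent.Y655.HG

/-- `4 a³ + 27 b²` -/
noncomputable def De (a b : Polynomial ℚ) : Polynomial ℚ := 4 * a ^ 3 + 27 * b ^ 2

/-- `2 a b' - 3 a' b` -/
noncomputable def Wr (a b : Polynomial ℚ) : Polynomial ℚ :=
  2 * a * Polynomial.derivative b - 3 * Polynomial.derivative a * b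

/-- the matrix: `De (ω, η)' = (ω, η) AE` -/
noncomputable def AE (a b : Polynomial ℚ) : Fin 2 → Fin 2 → Polynomial ℚ :=
  ![![-(Polynomial.C (1 / 12) * Polynomial.derivative (De a b)), -(Polynomial.C (1 / 2) * (a * Wr a b))],
    ![-(Polynomial.C (3 / 2) * Wr a b), Polynomial.C (1 / 12) * Polynomial.derivative (De a b)]]

/-- the formal solutions at `0` -/
def Sol (a b : Polynomial ℚ) (Y : Fin 2 → Fin 2 → ℚ⟦X⟧) : Prop :=
  (∀ i j, constantCoeff (Y i j) = if i = j then 1 else 0) ∧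
    ∀ i j, (De a b : ℚ⟦X⟧) * d⁄dX ℚ (Y i j) = ∑ k, Y i k * (AE a b k j : ℚ⟦X⟧)

lemma deriv_subst_sq (F : ℚ⟦X⟧) (c : ℚ) : d⁄dX ℚ (F.subst (PowerSeries.C c * X ^ 2)) =
    (d⁄dX ℚ F).subst (PowerSeries.C c * X ^ 2) * (PowerSeries.C (2 * c) * X) := by
  have h0 : constantCoeff (PowerSeries.C c * X ^ 2 : ℚ⟦X⟧) = 0 := by simp
  rw [derivative_subst (PowerSeries.HasSubst.of_constantCoeff_zero' h0)]
  congr 1
  rw [Derivation.leibniz, Derivation.leibniz_pow, derivative_X, PowerSeries.derivative_C, map_mul, C_two]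
  simp only [smul_eq_mul, nsmul_eq_mul, mul_one, mul_zero, add_zero]
  push_cast
  ring

/-! ## passage to the field of fractions -/

/-- the field of fractions -/
abbrev KK := FractionRing ℚ⟦X⟧

noncomputable def io : ℚ⟦X⟧ →+* KK := algebraMap ℚ⟦X⟧ KK

lemma io_inj : Function.Injective io := IsFractionRing.injective ℚ⟦X⟧ KK

instance : CharZero KK := charZero_of_injective_ringHom (f := io.comp (PowerSeries.C (R := ℚ))) (RingHom.injective _)

lemma io_C (r : ℚ) : io (PowerSeries.C r) = (r : KK) := eq_ratCast (io.comp (PowerSeries.C (R := ℚ))) r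

noncomputable def mu : Polynomial ℚ →+* KK := io.comp (Polynomial.coeToPowerSeries.ringHom (R := ℚ))

lemma io_coe (P : Polynomial ℚ) : io (P : ℚ⟦X⟧) = mu P := rfl

lemma mu_C (r : ℚ) : mu (Polynomial.C r) = (r : KK) := by
  rw [← io_coe, Polynomial.coe_C, io_C]

lemma mu_X : mu Polynomial.X = io X := by
  rw [← io_coe, Polynomial.coe_X]

lemma mu_De (a b : Polynomial ℚ) : mu (De a b) = 4 * mu a ^ 3 + 27 * mu b ^ 2 := by
  simp only [De, map_add, map_mul, map_pow, map_ofNat]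

lemma mu_Wr (a b : Polynomial ℚ) : mu (Wr a b) = 2 * mu a * mu (Polynomial.derivative b) - 3 * mu (Polynomial.derivative a) * mu b := by
  simp only [Wr, map_sub, map_mul, map_ofNat]

lemma derivative_De (a b : Polynomial ℚ) : Polynomial.derivative (De a b) =
    12 * a ^ 2 * Polynomial.derivative a + 54 * b * Polynomial.derivative b := by
  have h4 : (4 : Polynomial ℚ) = Polynomial.C 4 := rfl
  have h27 : (27 : Polynomial ℚ) = Polynomial.C 27 := rfl
  rw [De, h4, h27, Polynomial.derivative_add, Polynomial.derivative_C_mul, Polynomial.derivative_C_mul,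
    Polynomial.derivative_pow, Polynomial.derivative_pow, ← h4, ← h27]
  have h3 : (Polynomial.C ((3 : ℕ) : ℚ)) = 3 := rfl
  have h2 : (Polynomial.C ((2 : ℕ) : ℚ)) = 2 := rfl
  rw [h3, h2]
  ring

lemma mu_AE00 (a b : Polynomial ℚ) : mu (AE a b 0 0) =
    -(mu a ^ 2 * mu (Polynomial.derivative a) + 9 / 2 * (mu b * mu (Polynomial.derivative b))) := by
  change mu (-(Polynomial.C (1 / 12) * Polynomial.derivative (De a b))) = _
  rw [derivative_De]
  simp only [map_neg, map_mul, mu_C, map_add, map_pow, map_ofNat]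
  push_cast
  ring

lemma mu_AE11 (a b : Polynomial ℚ) : mu (AE a b 1 1) =
    mu a ^ 2 * mu (Polynomial.derivative a) + 9 / 2 * (mu b * mu (Polynomial.derivative b)) := by
  change mu (Polynomial.C (1 / 12) * Polynomial.derivative (De a b)) = _
  rw [derivative_De]
  simp only [map_mul, mu_C, map_add, map_pow, map_ofNat]
  push_cast
  ring

lemma mu_AE01 (a b : Polynomial ℚ) : mu (AE a b 0 1) =
    -(mu a ^ 2 * mu (Polynomial.derivative b) - 3 / 2 * (mu a * mu (Polynomial.derivative a) * mu b)) := by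
  change mu (-(Polynomial.C (1 / 2) * (a * Wr a b))) = _
  simp only [map_neg, map_mul, mu_C, mu_Wr]
  push_cast
  ring

lemma mu_AE10 (a b : Polynomial ℚ) : mu (AE a b 1 0) =
    -(3 * mu a * mu (Polynomial.derivative b) - 9 / 2 * (mu (Polynomial.derivative a) * mu b)) := by
  change mu (-(Polynomial.C (3 / 2) * Wr a b)) = _
  simp only [map_neg, map_mul, mu_C, mu_Wr]
  push_cast
  ring

section
variable (a : ℚ)

/-- the solution of the `b`-line at `b = 0` -/
noncomputable def YB : Fin 2 → Fin 2 → ℚ⟦X⟧ :=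
  ![![f1.subst (PowerSeries.C (-27 / (4 * a ^ 3)) * X ^ 2 : ℚ⟦X⟧),
      PowerSeries.C (-1 / (4 * a)) * X * g1.subst (PowerSeries.C (-27 / (4 * a ^ 3)) * X ^ 2 : ℚ⟦X⟧)],
    ![PowerSeries.C (-3 / (4 * a ^ 2)) * X * k1.subst (PowerSeries.C (-27 / (4 * a ^ 3)) * X ^ 2 : ℚ⟦X⟧),
      h1.subst (PowerSeries.C (-27 / (4 * a ^ 3)) * X ^ 2 : ℚ⟦X⟧)]]

theorem YB_sol (ha : a ≠ 0) : Sol (Polynomial.C a) Polynomial.X (YB a) ∧ ∀ i j, SDc (YB a i j) := by
  set c : ℚ := -27 / (4 * a ^ 3) with hc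
  set P : ℚ⟦X⟧ := PowerSeries.C c * X ^ 2 with hP
  have hP0 : constantCoeff P = 0 := by simp [hP]
  have hsub : PowerSeries.HasSubst P := PowerSeries.HasSubst.of_constantCoeff_zero' hP0
  have hPN : NIc P := (NIc.C c).mul (NIc.X.pow 2)
  have hS : ∀ F : ℚ⟦X⟧, SDc F → SDc (F.subst P) := fun F hF => SDc_subst' hPN hP0 hF
  have hC : ∀ r : ℚ, SDc (PowerSeries.C r) := SDc_const
  have cons : ∀ F : ℚ⟦X⟧, coeff 0 F = 1 → constantCoeff (F.subst P) = 1 := by
    intro F hF
    rw [← coeff_zero_eq_constantCoeff_apply, coeff_subst_P hP0]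
    simp [hF]
  -- substituted equations
  let φ : ℚ⟦X⟧ →+* ℚ⟦X⟧ := (PowerSeries.substAlgHom (R := ℚ) hsub : ℚ⟦X⟧ →ₐ[ℚ] ℚ⟦X⟧)
  have hφ : ∀ F : ℚ⟦X⟧, φ F = F.subst P := fun F => by
    change PowerSeries.substAlgHom hsub F = _
    rw [PowerSeries.coe_substAlgHom]
  have hφC : ∀ r : ℚ, φ (PowerSeries.C r) = PowerSeries.C r := fun r =>
    (PowerSeries.substAlgHom (R := ℚ) hsub : ℚ⟦X⟧ →ₐ[ℚ] ℚ⟦X⟧).commutes r
  have hφX : φ X = P := by
    rw [hφ, PowerSeries.subst_X hsub]
  have e1 := congrArg φ E1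
  have e2 := congrArg φ E2
  have e3 := congrArg φ E3
  have e4 := congrArg φ E4
  simp only [map_mul, map_sub, map_add, hφC, hφX, map_one φ, map_ofNat] at e1 e2 e3 e4
  simp only [hφ] at e1 e2 e3 e4
  have hd : ∀ F : ℚ⟦X⟧, io (d⁄dX ℚ (F.subst P)) = io ((d⁄dX ℚ F).subst P) * (-27 / (2 * (a : KK) ^ 3) * io X) := fun F => by
    rw [deriv_subst_sq F c, map_mul, map_mul, io_C, hc]
    push_cast
    congr 2
    have haK : (a : KK) ≠ 0 := by exact_mod_cast ha
    field_simp
    norm_num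
  have haK : (a : KK) ≠ 0 := by exact_mod_cast ha
  have hCX : ∀ (r : ℚ) (F : ℚ⟦X⟧), io (d⁄dX ℚ (PowerSeries.C r * X * F.subst P)) =
      (r : KK) * (io (F.subst P) + io X * (io ((d⁄dX ℚ F).subst P) * (-27 / (2 * (a : KK) ^ 3) * io X))) := fun r F => by
    rw [Derivation.leibniz, Derivation.leibniz, derivative_X, PowerSeries.derivative_C]
    simp only [smul_eq_mul, mul_one, mul_zero, add_zero, map_add, map_mul, hd, io_C]
    ring
  have hιP : io P = -27 / (4 * (a : KK) ^ 3) * (io X) ^ 2 := by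
    rw [hP, map_mul, map_pow, io_C, hc]
    push_cast
    rfl
  have e1' := congrArg io e1
  have e2' := congrArg io e2
  have e3' := congrArg io e3
  have e4' := congrArg io e4
  simp only [map_mul, map_sub, map_add, io_C, map_one io, map_ofNat, hιP] at e1' e2' e3' e4'
  push_cast at e1' e2' e3' e4'
  have hda : Polynomial.derivative (Polynomial.C a) = 0 := Polynomial.derivative_C
  have hdX : Polynomial.derivative (Polynomial.X : Polynomial ℚ) = 1 := Polynomial.derivative_X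
  set x := io X with hx
  set F := io (f1.subst P) with hF
  set G := io (g1.subst P) with hG
  set H := io (h1.subst P) with hH
  set Kk := io (k1.subst P) with hKk
  set F' := io ((d⁄dX ℚ f1).subst P) with hF'
  set G' := io ((d⁄dX ℚ g1).subst P) with hG'
  set H' := io ((d⁄dX ℚ h1).subst P) with hH'
  set K' := io ((d⁄dX ℚ k1).subst P) with hK'
  have hDe : mu (De (Polynomial.C a) Polynomial.X) = 4 * (a : KK) ^ 3 + 27 * x ^ 2 := by rw [mu_De, mu_C, mu_X]
  refine ⟨⟨fun i j => ?_, fun i j => ?_⟩, fun i j => ?_⟩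
  · fin_cases i <;> fin_cases j
    · exact cons _ (hyp_zero 1 5)
    · simp [YB]
    · simp [YB]
    · exact cons _ (hyp_zero (-1) 7)
  · rw [Fin.sum_univ_two]
    apply io_inj
    rw [map_mul, map_add, map_mul, map_mul, io_coe, io_coe, io_coe, hDe]
    fin_cases i <;> fin_cases j
    · change (4 * (a : KK) ^ 3 + 27 * x ^ 2) * io (d⁄dX ℚ (f1.subst P)) = F * mu (AE _ _ 0 0) +
        io (PowerSeries.C (-1 / (4 * a)) * X * g1.subst P) * mu (AE _ _ 1 0)
      rw [hd, mu_AE00, mu_AE10, hda, hdX, mu_C, mu_X]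
      simp only [map_mul, map_zero, map_one, io_C]
      push_cast
      rw [← hx, ← hG, ← hF']
      field_simp at e1' ⊢
      linear_combination (-(3 / 2) * x) * e1'
    · change (4 * (a : KK) ^ 3 + 27 * x ^ 2) * io (d⁄dX ℚ (PowerSeries.C (-1 / (4 * a)) * X * g1.subst P)) = F * mu (AE _ _ 0 1) +
        io (PowerSeries.C (-1 / (4 * a)) * X * g1.subst P) * mu (AE _ _ 1 1)
      rw [hCX, mu_AE01, mu_AE11, hda, hdX, mu_C, mu_X]
      simp only [map_mul, map_zero, map_one, io_C]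
      push_cast
      rw [← hx, ← hG, ← hG']
      field_simp at e2' ⊢
      linear_combination (-(1 / 12) : KK) * e2'
    · change (4 * (a : KK) ^ 3 + 27 * x ^ 2) * io (d⁄dX ℚ (PowerSeries.C (-3 / (4 * a ^ 2)) * X * k1.subst P)) =
        io (PowerSeries.C (-3 / (4 * a ^ 2)) * X * k1.subst P) * mu (AE _ _ 0 0) + H * mu (AE _ _ 1 0)
      rw [hCX, mu_AE00, mu_AE10, hda, hdX, mu_C, mu_X]
      simp only [map_mul, map_zero, map_one, io_C]
      push_cast
      rw [← hx, ← hKk, ← hK']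
      field_simp at e3' ⊢
      linear_combination (-(1 / 4) : KK) * e3'
    · change (4 * (a : KK) ^ 3 + 27 * x ^ 2) * io (d⁄dX ℚ (h1.subst P)) =
        io (PowerSeries.C (-3 / (4 * a ^ 2)) * X * k1.subst P) * mu (AE _ _ 0 1) + H * mu (AE _ _ 1 1)
      rw [hd, mu_AE01, mu_AE11, hda, hdX, mu_C, mu_X]
      simp only [map_mul, map_zero, map_one, io_C]
      push_cast
      rw [← hx, ← hKk, ← hH']
      field_simp at e4' ⊢
      linear_combination (-(3 / 2) * x) * e4'
  · fin_cases i <;> fin_cases j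
    · exact hS _ (SDc_hyp 1 5)
    · exact ((hC _).mul SDc.X).mul (hS _ (SDc_comp (SDc_hyp 1 5)))
    · exact ((hC _).mul SDc.X).mul (hS _ (SDc_comp (SDc_hyp (-1) 7)))
    · exact hS _ (SDc_hyp (-1) 7)

end

end Pool.Agent.Y124.GE
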