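import Pool.Agent.Y124.GE.Li
import Pool.Agent.Y916.NF

/-!
# Elimination of the fourth function and of the roots of the parameter
-/

set_option autoImplicit false

open Filter Topology Complex Module

namespace Pool.Agent.Y124.GE

open Pool.Agent.Y124 Pool.Agent.Y120.GH Pool.Agent.Y120.GF Pool.Agent.Y113

/-- the transformed polynomial -/
noncomputable def QE (A0 A1 B0 B1 κ : ℂ) (δ : ℕ) (P : MvPolynomial (Fin 3) ℂ) : MvPolynomial (Fin 3) ℂ :=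
  ∑ e ∈ P.support, MvPolynomial.C (P.coeff e) *
    ((MvPolynomial.C A0 * MvPolynomial.X 0 + MvPolynomial.C A1 * MvPolynomial.X 1) ^ e 0 *
      (MvPolynomial.C B0 * MvPolynomial.X 0 + MvPolynomial.C B1 * MvPolynomial.X 1) ^ e 1 *
      (MvPolynomial.X 2 * (MvPolynomial.C A0 * MvPolynomial.X 0 + MvPolynomial.C A1 * MvPolynomial.X 1) + MvPolynomial.C κ) ^ e 2 *
      MvPolynomial.X 0 ^ (δ - e 2))

lemma eval_QE {A0 A1 B0 B1 κ : ℂ} {δ : ℕ} {P : MvPolynomial (Fin 3) ℂ} (hP : P.totalDegree ≤ δ) {x f : Fin 3 → ℂ}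
    (h0 : f 0 = A0 * x 0 + A1 * x 1) (h1 : f 1 = B0 * x 0 + B1 * x 1) (h2 : x 0 * f 2 = x 2 * f 0 + κ) :
    MvPolynomial.eval x (QE A0 A1 B0 B1 κ δ P) = x 0 ^ δ * MvPolynomial.eval f P := by
  rw [QE, map_sum, MvPolynomial.eval_eq' f P, Finset.mul_sum]
  refine Finset.sum_congr rfl fun e he => ?_
  simp only [map_mul, map_pow, map_add, MvPolynomial.eval_C, MvPolynomial.eval_X]
  rw [← h0, ← h1, ← h2, Fin.prod_univ_three]
  have h3 : e 2 ≤ δ := by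
    have h4 := MvPolynomial.le_totalDegree he
    have h5 : e 2 ≤ e.sum fun _ k => k := by
      rw [Finsupp.sum_fintype _ _ (fun _ => rfl), Fin.sum_univ_three]
      omega
    exact h5.trans (h4.trans hP)
  have h6 : x 0 ^ δ = x 0 ^ e 2 * x 0 ^ (δ - e 2) := by
    rw [← pow_add]
    congr 1
    omega
  rw [h6, mul_pow]
  ring

lemma QE_ne {A0 A1 B0 B1 κ : ℂ} (hdet : A0 * B1 - A1 * B0 ≠ 0) {δ : ℕ} {P : MvPolynomial (Fin 3) ℂ} (hP0 : P ≠ 0)
    (hP : P.totalDegree ≤ δ) : QE A0 A1 B0 B1 κ δ P ≠ 0 := by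
  intro h
  have h1 : P * (MvPolynomial.X 0 * (MvPolynomial.C B1 * MvPolynomial.X 0 - MvPolynomial.C A1 * MvPolynomial.X 1)) = 0 := by
    apply MvPolynomial.funext
    intro f
    rw [map_zero, map_mul, map_mul, map_sub, map_mul, map_mul]
    simp only [MvPolynomial.eval_C, MvPolynomial.eval_X]
    by_cases hf0 : f 0 = 0
    · rw [hf0]; ring
    by_cases hx0 : B1 * f 0 - A1 * f 1 = 0
    · rw [hx0]; ring
    set Δ := A0 * B1 - A1 * B0 with hΔ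
    set x0 := (B1 * f 0 - A1 * f 1) / Δ with hx0'
    set x1 := (A0 * f 1 - B0 * f 0) / Δ with hx1'
    have e0 : f 0 = A0 * x0 + A1 * x1 := by
      rw [hx0', hx1']
      field_simp
      rw [hΔ]
      ring
    have e1 : f 1 = B0 * x0 + B1 * x1 := by
      rw [hx0', hx1']
      field_simp
      rw [hΔ]
      ring
    have e2 : x0 * f 2 = (x0 * f 2 - κ) / f 0 * f 0 + κ := by
      rw [div_mul_cancel₀ _ hf0]
      ring
    have h2 := eval_QE (A0 := A0) (A1 := A1) (B0 := B0) (B1 := B1) (κ := κ) hP (x := ![x0, x1, (x0 * f 2 - κ) / f 0]) (f := f) e0 e1 e2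
    rw [h, map_zero] at h2
    have h3 : x0 ≠ 0 := div_ne_zero hx0 hdet
    have h4 := (mul_eq_zero.1 h2.symm).resolve_left (pow_ne_zero _ h3)
    rw [h4, zero_mul]
  rcases mul_eq_zero.1 h1 with h2 | h2
  · exact hP0 h2
  · rcases mul_eq_zero.1 h2 with h3 | h3
    · exact MvPolynomial.X_ne_zero _ h3
    · have h4 := congrArg (MvPolynomial.eval ![1, 0, 0]) h3
      have h5 := congrArg (MvPolynomial.eval ![0, 1, 0]) h3
      simp at h4 h5
      apply hdet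
      rw [h4, h5]
      ring

open Pool.Agent.Y916.Fld Pool.Agent.Y916.Gre in
lemma QE_ok {K : Type} [Field K] [Algebra K ℂ] {V : Submodule K ℂ} (h1 : (1 : ℂ) ∈ V) {A0 A1 B0 B1 κ : ℂ} (hA0 : A0 ∈ V) (hA1 : A1 ∈ V)
    (hB0 : B0 ∈ V) (hB1 : B1 ∈ V) (hκ : κ ∈ V) {δ : ℕ} {P : MvPolynomial (Fin 3) ℂ} (hP : P.totalDegree ≤ δ) (hPc : ∀ e, P.coeff e ∈ V) :
    Ok ((V ^ (1 + 4 * δ) : Submodule K ℂ) : Set ℂ) (1 + 4 * δ) Finset.univ (QE A0 A1 B0 B1 κ δ P) := by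
  have hX : ∀ i : Fin 3, Ok ((V ^ 1 : Submodule K ℂ) : Set ℂ) 1 Finset.univ (MvPolynomial.X i) := fun i => ok_X h1 (Finset.mem_univ i)
  have hC : ∀ c ∈ V, Ok ((V ^ 1 : Submodule K ℂ) : Set ℂ) 1 (Finset.univ : Finset (Fin 3)) (MvPolynomial.C c) := fun c hc =>
    ok_C (by rwa [pow_one])
  have hpow : ∀ (k : ℕ) (Q : MvPolynomial (Fin 3) ℂ), Ok ((V ^ k : Submodule K ℂ) : Set ℂ) k Finset.univ Q → ∀ m : ℕ,
      Ok ((V ^ (k * m) : Submodule K ℂ) : Set ℂ) (k * m) Finset.univ (Q ^ m) := by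
    intro k Q hQ m
    induction m with
    | zero =>
      have h0 : (Q ^ 0 : MvPolynomial (Fin 3) ℂ) = MvPolynomial.C 1 := by rw [pow_zero, MvPolynomial.C_1]
      have h2 : (1 : ℂ) ∈ V ^ (k * 0) := by simp
      rw [h0]
      exact ok_C h2
    | succ m ih =>
      rw [pow_succ, Nat.mul_succ]
      exact ok_mul ih hQ
  have hadd : ∀ {k : ℕ} {Q Q' : MvPolynomial (Fin 3) ℂ}, Ok ((V ^ k : Submodule K ℂ) : Set ℂ) k Finset.univ Q →
      Ok ((V ^ k : Submodule K ℂ) : Set ℂ) k Finset.univ Q' → Ok ((V ^ k : Submodule K ℂ) : Set ℂ) k Finset.univ (Q + Q') := by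
    intro k Q Q' h h'
    have := ok_sum (V := V) (A := Finset.univ) (a := k) (Finset.univ : Finset (Fin 2)) ![Q, Q'] (by
      intro i _
      fin_cases i
      · exact h
      · exact h')
    rw [Fin.sum_univ_two] at this
    exact this
  have hF : ∀ α ∈ V, ∀ β ∈ V, Ok ((V ^ 2 : Submodule K ℂ) : Set ℂ) 2 Finset.univ
      (MvPolynomial.C α * MvPolynomial.X (0 : Fin 3) + MvPolynomial.C β * MvPolynomial.X 1) := fun α hα β hβ =>
    hadd (ok_mul (hC α hα) (hX 0)) (ok_mul (hC β hβ) (hX 1))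
  have hF2 : Ok ((V ^ 3 : Submodule K ℂ) : Set ℂ) 3 Finset.univ
      (MvPolynomial.X (2 : Fin 3) * (MvPolynomial.C A0 * MvPolynomial.X 0 + MvPolynomial.C A1 * MvPolynomial.X 1) + MvPolynomial.C κ) :=
    hadd (ok_mul (hX 2) (hF A0 hA0 A1 hA1)) (ok_mono h1 (by norm_num) (hC κ hκ))
  refine ok_sum _ _ fun e he => ?_
  have h3 : e 0 + e 1 + e 2 ≤ δ := by
    have h4 := MvPolynomial.le_totalDegree he
    rw [Finsupp.sum_fintype _ _ (fun _ => rfl), Fin.sum_univ_three] at h4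
    exact h4.trans hP
  have h5 := ok_mul (hC _ (hPc e)) (ok_mul (ok_mul (ok_mul (hpow 2 _ (hF A0 hA0 A1 hA1) (e 0)) (hpow 2 _ (hF B0 hB0 B1 hB1) (e 1)))
    (hpow 3 _ hF2 (e 2))) (hpow 1 _ (hX 0) (δ - e 2)))
  exact ok_mono h1 (by omega) h5

/-- a relation with coefficients in `L V`, `L` a number field of degree at most `d` -/
def RelL (δ d : ℕ) (V : Submodule ℚ ℂ) {σ : Type} (x : σ → ℂ) : Prop :=
  ∃ L : IntermediateField ℚ ℂ, FiniteDimensional ℚ L ∧ finrank ℚ L ≤ d ∧ ∃ P : MvPolynomial σ ℂ, P ≠ 0 ∧ P.totalDegree ≤ δ ∧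
    (∀ e, P.coeff e ∈ Submodule.span L (V : Set ℂ)) ∧ MvPolynomial.aeval x P = 0

/-- the space with the constants -/
noncomputable def V1 (V : Submodule ℚ ℂ) (C : Fin 2 → Fin 2 → ℂ) : Submodule ℚ ℂ :=
  V ⊔ Submodule.span ℚ (Set.range fun p : Fin 2 × Fin 2 => C p.1 p.2)

/-- the larger degree -/
def δ2 (δ d : ℕ) : ℕ := (d * 12) ^ (d * 12) * (1 + 4 * δ + 1)

/-- the larger space -/
noncomputable def V2 (V : Submodule ℚ ℂ) (C : Fin 2 → Fin 2 → ℂ) (δ d : ℕ) : Submodule ℚ ℂ :=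
  (((V1 V C ⊔ 1) ^ (1 + 4 * δ) : Submodule ℚ ℂ) ⊔ 1) ^ δ2 δ d

lemma V2_dim (V : Submodule ℚ ℂ) [Module.Finite ℚ V] (C : Fin 2 → Fin 2 → ℂ) (δ d : ℕ) {D : ℕ} (hV : finrank ℚ V ≤ D) :
    Module.Finite ℚ (V2 V C δ d) ∧ finrank ℚ (V2 V C δ d) ≤ ((D + 4 + 1) ^ (1 + 4 * δ) + 1) ^ δ2 δ d := by
  have hfin : Module.Finite ℚ (Submodule.span ℚ (Set.range fun p : Fin 2 × Fin 2 => C p.1 p.2)) :=
    Module.Finite.span_of_finite ℚ (Set.finite_range _)
  have hf1 : Module.Finite ℚ (V1 V C) := Submodule.finite_sup V _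
  have h1 : finrank ℚ (V1 V C) ≤ D + 4 := by
    have h3 := Submodule.finrank_add_le_finrank_add_finrank V (Submodule.span ℚ (Set.range fun p : Fin 2 × Fin 2 => C p.1 p.2))
    have h4 : finrank ℚ (Submodule.span ℚ (Set.range fun p : Fin 2 × Fin 2 => C p.1 p.2)) ≤ 4 := by
      refine (finrank_range_le_card _).trans ?_
      simp
    unfold V1
    omega
  obtain ⟨h2, h3⟩ := Y916.NF.big h1 (1 + 4 * δ)
  exact Y916.NF.big h3 (δ2 δ d)



section
variable {a b : Polynomial ℚ}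

lemma exp_cast_pow (t : ℝ) (ht : 0 < t) (m : ℕ) : exp (-((m : ℂ) * log (1 / (t : ℂ)) / 12)) = exp (((Real.log t : ℝ) : ℂ) / 12) ^ m := by
  have hlog : log (1 / (t : ℂ)) = -((Real.log t : ℝ) : ℂ) := by
    rw [ofReal_log ht.le, one_div, Complex.log_inv]
    rw [arg_ofReal_of_nonneg ht.le]
    exact Real.pi_pos.ne
  rw [hlog, ← exp_nat_mul]
  congr 1
  ring

open Pool.Agent.Y916.Fld Pool.Agent.Y916.Gre Pool.Agent.Y916.Hil in
/-- relations between the three functions give relations between the free entries -/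
theorem relL_xs (L : LD a b) {R : ℝ} (hR : 1 ≤ R) (hY : ∀ i j, cx (L.Y i j) ∈ Cw R) {n : ℕ} {w0 : ℚ}
    (hdet : L.Y 0 0 * L.Y 1 1 - L.Y 0 1 * L.Y 1 0 = PowerSeries.C w0 * PowerSeries.X ^ n) {C : Fin 2 → Fin 2 → ℂ}
    (hC : C 0 0 * C 1 1 - C 0 1 * C 1 0 ≠ 0) {t : ℕ} (ht : R < t) {δ d : ℕ} {V : Submodule ℚ ℂ} [Module.Finite ℚ V]
    (h : RelL δ d V fun y => fv L C y (1 / ((t : ℝ) : ℂ))) : Rel (δ2 δ d) (V2 V C δ d) fun p => xs L p (1 / ((t : ℝ) : ℂ)) := by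
  classical
  obtain ⟨K, hK, hKd, P, hP0, hPd, hPc, hPv⟩ := h
  have ht0 : (0 : ℝ) < t := by linarith
  have htc : ((t : ℝ) : ℂ) ≠ 0 := by exact_mod_cast ht0.ne'
  set τ : ℂ := exp (((Real.log (t : ℝ) : ℝ) : ℂ) / 12) with hτ
  have hτ12 : τ ^ 12 = (t : ℂ) := by
    rw [hτ, ← exp_nat_mul]
    have : ((12 : ℕ) : ℂ) * (((Real.log (t : ℝ) : ℝ) : ℂ) / 12) = ((Real.log (t : ℝ) : ℝ) : ℂ) := by
      push_cast
      ring
    rw [this, ← ofReal_exp, Real.exp_log ht0]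
    push_cast
    rfl
  -- the field
  have hτint : ∀ z ∈ ({τ} : Finset ℂ), IsIntegral ℚ z ∧ (minpoly ℚ z).natDegree ≤ 12 := by
    intro z hz
    rw [Finset.mem_singleton] at hz
    have hz12 : z ^ 12 = (t : ℂ) := by rw [hz]; exact hτ12
    have hm : (Polynomial.X ^ 12 - Polynomial.C (t : ℚ)).Monic := Polynomial.monic_X_pow_sub_C _ (by norm_num)
    have h1 : Polynomial.aeval z (Polynomial.X ^ 12 - Polynomial.C (t : ℚ)) = 0 := by
      rw [map_sub, map_pow, Polynomial.aeval_X, Polynomial.aeval_C, hz12]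
      simp
    refine ⟨⟨_, hm, h1⟩, ?_⟩
    refine (Polynomial.natDegree_le_of_dvd (minpoly.dvd ℚ z h1) hm.ne_zero).trans ?_
    rw [Polynomial.natDegree_X_pow_sub_C]
  obtain ⟨K', hKK', hK'τ, hK'f, hK'd⟩ := field K hK 12 {τ} hτint
  have hτK : τ ∈ K' := hK'τ (IntermediateField.subset_adjoin ℚ _ (by simp))
  have hfr : finrank ℚ K' ≤ d * 12 := by
    refine hK'd.trans ?_
    rw [Finset.card_singleton, pow_one]
    exact Nat.mul_le_mul_right _ hKd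
  -- the coefficients
  set S₁ : Set ℂ := ((V1 V C ⊔ 1 : Submodule ℚ ℂ) : Set ℂ) with hS₁
  set V' : Submodule K' ℂ := Submodule.span K' S₁ with hV'
  have h1V : (1 : ℂ) ∈ V' := Submodule.subset_span (Submodule.mem_sup_right (Submodule.one_le.1 le_rfl))
  have hCV : ∀ i j, C i j ∈ V' := fun i j => Submodule.subset_span (Submodule.mem_sup_left (Submodule.mem_sup_right
    (Submodule.subset_span ⟨(i, j), rfl⟩)))
  have hsm : ∀ (c : ℂ), c ∈ K' → ∀ v ∈ V', v * c ∈ V' := by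
    intro c hc v hv
    have : v * c = (⟨c, hc⟩ : K') • v := by
      rw [mul_comm]
      rfl
    rw [this]
    exact V'.smul_mem _ hv
  have hVV : ∀ c ∈ Submodule.span K (V : Set ℂ), c ∈ V' := by
    intro c hc
    have h2 := pow_field K K' hKK' (V : Set ℂ) S₁ (fun z hz => Submodule.mem_sup_left (Submodule.mem_sup_left hz)) 1 c
      (by rwa [pow_one])
    rwa [pow_one] at h2
  set κ : ℂ := C 0 1 * (τ ^ L.m 1 * ((w0 : ℂ) * (1 / ((t : ℝ) : ℂ)) ^ n)) with hκ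
  have hκm : κ ∈ V' := by
    refine hsm _ ?_ _ (hCV 0 1)
    refine K'.mul_mem (pow_mem hτK _) (K'.mul_mem ?_ (pow_mem ?_ _))
    · exact (K'.algebraMap_mem w0)
    · have h2 := K'.algebraMap_mem (1 / (t : ℚ))
      have h3 : algebraMap ℚ ℂ (1 / (t : ℚ)) = 1 / ((t : ℝ) : ℂ) := by simp
      rwa [h3] at h2
  set Q := QE (C 0 0 * τ ^ L.m 0) (C 0 1 * τ ^ L.m 1) (C 1 0 * τ ^ L.m 0) (C 1 1 * τ ^ L.m 1) κ δ P with hQ
  have hQ0 : Q ≠ 0 := by
    refine QE_ne ?_ hP0 hPd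
    have h2 : C 0 0 * τ ^ L.m 0 * (C 1 1 * τ ^ L.m 1) - C 0 1 * τ ^ L.m 1 * (C 1 0 * τ ^ L.m 0) =
        (C 0 0 * C 1 1 - C 0 1 * C 1 0) * (τ ^ L.m 0 * τ ^ L.m 1) := by ring
    rw [h2]
    exact mul_ne_zero hC (mul_ne_zero (pow_ne_zero _ (exp_ne_zero _)) (pow_ne_zero _ (exp_ne_zero _)))
  have hok := QE_ok (V := V') h1V (hsm _ (pow_mem hτK (L.m 0)) _ (hCV 0 0)) (hsm _ (pow_mem hτK (L.m 1)) _ (hCV 0 1))
    (hsm _ (pow_mem hτK (L.m 0)) _ (hCV 1 0)) (hsm _ (pow_mem hτK (L.m 1)) _ (hCV 1 1)) hκm hPd (fun e => hVV _ (hPc e))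
  have hu : ‖(1 / ((t : ℝ) : ℂ))‖ < 1 / R := by
    rw [norm_div, norm_one, norm_real, Real.norm_of_nonneg ht0.le]
    exact one_div_lt_one_div_of_lt (by linarith) ht
  have hu0 : (1 / ((t : ℝ) : ℂ)) ≠ 0 := one_div_ne_zero htc
  have hQv : MvPolynomial.aeval (fun p => xs L p (1 / ((t : ℝ) : ℂ))) Q = 0 := by
    have h2 := eval_QE (A0 := C 0 0 * τ ^ L.m 0) (A1 := C 0 1 * τ ^ L.m 1) (B0 := C 1 0 * τ ^ L.m 0) (B1 := C 1 1 * τ ^ L.m 1)
      (κ := κ) hPd (x := fun p => xs L p (1 / ((t : ℝ) : ℂ))) (f := fun y => fv L C y (1 / ((t : ℝ) : ℂ)))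
      (by
        show ∑ i, C 0 i * Yan L i 0 (1 / ((t : ℝ) : ℂ)) = C 0 0 * τ ^ L.m 0 * Xt L 0 0 (1 / ((t : ℝ) : ℂ)) +
          C 0 1 * τ ^ L.m 1 * Xt L 1 0 (1 / ((t : ℝ) : ℂ))
        rw [Fin.sum_univ_two, Yan, Yan, exp_cast_pow _ ht0, exp_cast_pow _ ht0, ← hτ]
        ring)
      (by
        show ∑ i, C 1 i * Yan L i 0 (1 / ((t : ℝ) : ℂ)) = C 1 0 * τ ^ L.m 0 * Xt L 0 0 (1 / ((t : ℝ) : ℂ)) +
          C 1 1 * τ ^ L.m 1 * Xt L 1 0 (1 / ((t : ℝ) : ℂ))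
        rw [Fin.sum_univ_two, Yan, Yan, exp_cast_pow _ ht0, exp_cast_pow _ ht0, ← hτ]
        ring)
      (by
        show Xt L 0 0 (1 / ((t : ℝ) : ℂ)) * (∑ i, C 0 i * Yan L i 1 (1 / ((t : ℝ) : ℂ))) = Xt L 0 1 (1 / ((t : ℝ) : ℂ)) *
          (∑ i, C 0 i * Yan L i 0 (1 / ((t : ℝ) : ℂ))) + κ
        have h3 := det_Xt L hR hY hdet hu0 hu
        rw [Fin.sum_univ_two, Fin.sum_univ_two, Yan, Yan, Yan, Yan, exp_cast_pow _ ht0, exp_cast_pow _ ht0, ← hτ, hκ]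
        linear_combination (C 0 1 * τ ^ L.m 1) * h3)
    have h4 : MvPolynomial.eval (fun y => fv L C y (1 / ((t : ℝ) : ℂ))) P = 0 := hPv
    rw [h4, mul_zero] at h2
    exact h2
  have hspan : ∀ c ∈ V' ^ (1 + 4 * δ), c ∈ Submodule.span K' (((V1 V C ⊔ 1) ^ (1 + 4 * δ) : Submodule ℚ ℂ) : Set ℂ) := by
    intro c hc
    rw [hV', Submodule.span_pow] at hc
    refine Submodule.span_mono ?_ hc
    exact Submodule.pow_subset_pow (R := ℚ) (M := (V1 V C ⊔ 1 : Submodule ℚ ℂ)) (n := 1 + 4 * δ)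
  have hV1f : Module.Finite ℚ (V1 V C) := by
    have hfin : Module.Finite ℚ (Submodule.span ℚ (Set.range fun p : Fin 2 × Fin 2 => C p.1 p.2)) :=
      Module.Finite.span_of_finite ℚ (Set.finite_range _)
    exact Submodule.finite_sup V _
  have hVf : Module.Finite ℚ ((V1 V C ⊔ 1) ^ (1 + 4 * δ) : Submodule ℚ ℂ) := (Y916.NF.big (le_refl (finrank ℚ (V1 V C))) _).1
  exact Y916.NF.rel_nf K' hfr Q hQ0 hok.2.1 (fun e => hspan _ (hok.2.2 e)) hQv

end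

/-- relations give linear relations between the monomials in a box -/
lemma bad_of_rel {δ : ℕ} {V : Submodule ℚ ℂ} {x : Fin 3 → ℂ} (h : Rel δ V x) :
    Bad V fun s : Fin 3 → Fin (δ + 1) => ∏ p, x p ^ (s p : ℕ) := by
  classical
  obtain ⟨P, hP0, hPd, hPc, hPv⟩ := h
  set tf : (Fin 3 → Fin (δ + 1)) → (Fin 3 →₀ ℕ) := fun s => Finsupp.equivFunOnFinite.symm fun p => (s p : ℕ) with htf
  have htfi : Function.Injective tf := by
    intro s s' hss
    funext p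
    have := DFunLike.congr_fun hss p
    exact Fin.ext this
  have hsupp : P.support ⊆ Finset.univ.image tf := by
    intro e he
    have h4 := (MvPolynomial.le_totalDegree he).trans hPd
    rw [Finsupp.sum_fintype _ _ (fun _ => rfl)] at h4
    refine Finset.mem_image.2 ⟨fun p => ⟨e p, ?_⟩, Finset.mem_univ _, ?_⟩
    · have := Finset.single_le_sum (f := fun p => e p) (fun _ _ => Nat.zero_le _) (Finset.mem_univ p)
      omega
    · ext p
      rfl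
  refine ⟨fun s => P.coeff (tf s), fun s => hPc _, ?_, ?_⟩
  · intro h0
    apply hP0
    ext e
    rw [MvPolynomial.coeff_zero]
    by_contra he
    obtain ⟨s, -, rfl⟩ := Finset.mem_image.1 (hsupp (MvPolynomial.mem_support_iff.2 he))
    exact he (congrFun h0 s)
  · have h1 : MvPolynomial.aeval x P = MvPolynomial.eval x P := rfl
    rw [← hPv, h1, MvPolynomial.eval_eq', Finset.sum_subset hsupp]
    · rw [Finset.sum_image fun s _ s' _ h => htfi h]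
      rfl
    · intro e _ he
      rw [MvPolynomial.notMem_support_iff.1 he, zero_mul]

end Pool.Agent.Y124.GE
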