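import Pool.Agent.Y124.GE.Mb
import Pool.Agent.Y124.GE.Fin

/-!
# The theorem for arbitrary families, in boxes
-/

set_option autoImplicit false

open Complex Module

namespace Pool.Agent.Y124.GE

open Pool.Agent.Y124 Pool.Agent.Y120.GF Pool.Agent.Y113

/-- one family -/
theorem ofamB_all {a b : Polynomial ℚ} (hb : b ≠ 0) (hnc : ∀ c : ℂ, cp a ^ 3 ≠ Polynomial.C c * cp b ^ 2) : OFamB (Val a b) := by
  have ha : a ≠ 0 := by
    rintro rfl
    apply hnc 0
    simp [cp]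
  have hD : De a b ≠ 0 := by
    intro h
    apply hnc (-27 / 4)
    have h1 := congrArg cp h
    rw [De, cp, cp] at h1
    simp only [Polynomial.map_add, Polynomial.map_mul, Polynomial.map_pow, Polynomial.map_ofNat, Polynomial.map_zero] at h1
    have h2 : Polynomial.C (4 : ℂ) = 4 := map_ofNat _ 4
    have h3 : Polynomial.C (-27 / 4 : ℂ) * 4 = -27 := by
      rw [← h2, ← map_mul]
      norm_num
      exact map_ofNat _ 27
    have h4 : (4 : Polynomial ℂ) ≠ 0 := by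
      rw [← h2]
      exact Polynomial.C_ne_zero.2 (by norm_num)
    apply mul_left_cancel₀ h4
    rw [cp, cp]
    linear_combination h1 - (b.map (algebraMap ℚ ℂ)) ^ 2 * h3
  obtain ⟨L⟩ := ld_all ha hb hD
  exact ofB_ld L ha hb hD hnc

/-- **The theorem.** -/
theorem fin_mainB (k : ℕ) (a b : Fin k → Polynomial ℚ) (hb : ∀ j, b j ≠ 0) (hab : ∀ j, ∀ c : ℚ, a j ^ 3 ≠ Polynomial.C c * b j ^ 2)
    (δ D d : ℕ) : ∃ c M : ℝ, 0 < c ∧ c ≤ 1 ∧ 0 ≤ M ∧ ∀ (V : Submodule ℚ ℂ) [Module.Finite ℚ V], finrank ℚ V ≤ D →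
      ∀ (x : Fin k → ℕ) (N : ℕ), 1 ≤ N →
      ∀ A : Finset (Fin k → ℕ), (∀ t ∈ A, (∀ j, x j < t j ∧ t j ≤ x j + N) ∧ ∃ x : Fin k → MC,
        (∀ j, (x j).1 = (t j : ℂ) ∧ Cv (cp (a j)) (cp (b j)) (x j) ∧ lam (x j) ∈ Dom) ∧
          RelL δ d V (fun y : Fin k × Fin 3 => pf (lam (x y.1)) (x y.1).2.2 y.2)) →
        (A.card : ℝ) ≤ M * (N : ℝ) ^ (k - 1) * ∑ j, (1 + N / ((x j : ℝ) + N) ^ c) := by
  classical
  set n : Fin k → ℕ := fun j => max (a j).natDegree (b j).natDegree with hn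
  have hna : ∀ j, (a j).natDegree ≤ 4 * n j := fun j => by
    have := le_max_left (a j).natDegree (b j).natDegree
    simp only [hn]
    omega
  have hnb : ∀ j, (b j).natDegree ≤ 6 * n j := fun j => by
    have := le_max_right (a j).natDegree (b j).natDegree
    simp only [hn]
    omega
  set S : Fin k → ℕ → Set (Fin 3 → ℂ) := fun j => Val (Polynomial.reflect (4 * n j) (a j)) (Polynomial.reflect (6 * n j) (b j)) with hS
  have hO : ∀ j, OFamB (S j) := fun j => ofamB_all (fun h => hb j (Polynomial.reflect_eq_zero_iff.1 h)) (nc_refl (hna j) (hnb j) (hb j) (hab j))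
  obtain ⟨c, M, hc, hc1, hM, H⟩ := multiB k S hO ⟨54, fun j t => val_fin _ _ t⟩ δ D d
  refine ⟨c, M, hc, hc1, hM, fun V _ hV x₀ N hN A hA => H V hV x₀ N hN A fun t ht => ?_⟩
  obtain ⟨htT, x, hx, hr⟩ := hA t ht
  have ht0 : ∀ j, t j ≠ 0 := fun j => by have := (htT j).1; omega
  refine ⟨htT, fun j y => pf (lam (mcT (n j) (t j) (x j))) (mcT (n j) (t j) (x j)).2.2 y, fun j => ?_, ?_⟩
  · refine ⟨mcT (n j) (t j) (x j), rfl, mcT_Cv (ht0 j) (hna j) (hnb j) (hx j).1 (hx j).2.1, ?_, rfl⟩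
    rw [mcT_lam (ht0 j)]
    exact (hx j).2.2
  · apply badL_of_relL
    refine relL_scale (fun y : Fin k × Fin 3 => qs (n y.1) (t y.1) y.2) (fun y => qs_ne (ht0 y.1) y.2) (fun y => ?_) hr
    rw [mcT_lam (ht0 y.1)]
    exact pf_qs (ht0 y.1) _ _ _

end Pool.Agent.Y124.GE
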