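import Pool.Agent.Y124.GE.Gc
import Pool.Agent.Y120.H.FamR

/-!
# G-systems from local data
-/

set_option autoImplicit false

namespace Pool.Agent.Y124.GE

open PowerSeries Finset Pool.Agent.Y113 Pool.Agent.Y113.HGG Pool.Agent.Y655.HG

/-- local data of the family `y² = x³ + a x + b` at the point `0` -/
structure LD (a b : Polynomial ℚ) where
  m : Fin 2 → ℕ
  N : Matrix (Fin 2) (Fin 2) ℚ
  Y : Fin 2 → Fin 2 → ℚ⟦X⟧
  hN : N * N = 0
  hm : ∀ i k, N i k ≠ 0 → m i = m k
  sd : ∀ i j, SDc (Y i j)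
  det : Y 0 0 * Y 1 1 - Y 0 1 * Y 1 0 ≠ 0
  ode : ∀ j, (De a b : ℚ⟦X⟧) • Dc (cN (fun i => (m i : ℚ) / 12) ((1 / 12 : ℚ) • N)) (fun i => Y i j) =
    ∑ k, ((X : ℚ⟦X⟧) * (AE a b k j : ℚ⟦X⟧)) • fun i => Y i k

/-- multiplication by a constant matrix -/
noncomputable def Lc (c : Matrix (Fin 2) (Fin 2) ℚ) : VV →ₗ[ℚ] VV where
  toFun v i := ∑ k, PowerSeries.C (c i k) * v k
  map_add' v w := by
    funext i
    simp only [Pi.add_apply, mul_add, Finset.sum_add_distrib]
  map_smul' r v := by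
    funext i
    simp only [Pi.smul_apply, RingHom.id_apply, Finset.smul_sum, mul_smul_comm]

lemma Lc_apply (c : Matrix (Fin 2) (Fin 2) ℚ) (v : VV) (i : Fin 2) : Lc c v i = ∑ k, PowerSeries.C (c i k) * v k := rfl

lemma Lc_mul (c d : Matrix (Fin 2) (Fin 2) ℚ) : Lc (c * d) = Lc c * Lc d := by
  refine LinearMap.ext fun v => ?_
  funext i
  rw [Module.End.mul_apply, Lc_apply, Lc_apply]
  simp only [Lc_apply, Matrix.mul_apply, map_sum, map_mul, Finset.mul_sum, Finset.sum_mul]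
  rw [Finset.sum_comm]
  refine Finset.sum_congr rfl fun j _ => Finset.sum_congr rfl fun k _ => ?_
  ring

/-- as a ring homomorphism -/
noncomputable def LcH : Matrix (Fin 2) (Fin 2) ℚ →ₐ[ℚ] Module.End ℚ VV :=
  AlgHom.ofLinearMap
    { toFun := Lc
      map_add' := fun c d => by
        refine LinearMap.ext fun v => ?_
        funext i
        rw [LinearMap.add_apply, Pi.add_apply, Lc_apply, Lc_apply, Lc_apply]
        simp only [Matrix.add_apply, map_add, add_mul, Finset.sum_add_distrib]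
      map_smul' := fun r c => by
        refine LinearMap.ext fun v => ?_
        funext i
        rw [LinearMap.smul_apply, Pi.smul_apply, Lc_apply, Lc_apply]
        simp only [Matrix.smul_apply, smul_eq_mul, map_mul, RingHom.id_apply, PowerSeries.smul_eq_C_mul, Finset.mul_sum]
        exact Finset.sum_congr rfl fun k _ => by ring }
    (by
      refine LinearMap.ext fun v => ?_
      funext i
      show ∑ k, PowerSeries.C ((1 : Matrix (Fin 2) (Fin 2) ℚ) i k) * v k = v i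
      rw [Finset.sum_eq_single i]
      · rw [Matrix.one_apply_eq]
        simp
      · intro k _ hk
        rw [Matrix.one_apply_ne (Ne.symm hk)]
        simp
      · intro h
        exact absurd (Finset.mem_univ _) h)
    (fun c d => Lc_mul c d)

lemma LcH_apply (c : Matrix (Fin 2) (Fin 2) ℚ) : LcH c = Lc c := rfl

lemma aeval_Lc (c : Matrix (Fin 2) (Fin 2) ℚ) (p : Polynomial ℚ) : Polynomial.aeval (Lc c) p = Lc (Polynomial.aeval c p) := by
  rw [← LcH_apply, ← LcH_apply, Polynomial.aeval_algHom_apply]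

lemma Dc_add (c : Matrix (Fin 2) (Fin 2) ℚ) : Dc 0 = Dc c + Lc c := by
  refine LinearMap.ext fun v => ?_
  funext i
  rw [LinearMap.add_apply, Pi.add_apply, Dc_apply, Dc_apply, Lc_apply]
  simp

lemma Dc_comm (c : Matrix (Fin 2) (Fin 2) ℚ) : Commute (Dc c) (Lc c) := by
  have h0 : Commute (Dc 0) (Lc c) := by
    rw [Commute, SemiconjBy]
    refine LinearMap.ext fun v => ?_
    funext i
    rw [Module.End.mul_apply, Module.End.mul_apply, Dc_apply, Lc_apply, Lc_apply]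
    simp only [Dc_apply, Lc_apply, map_sum, Derivation.leibniz, PowerSeries.derivative_C, smul_eq_mul, Matrix.zero_apply,
      map_zero, zero_mul, Finset.sum_const_zero, sub_zero, mul_zero, add_zero, Finset.mul_sum]
    exact Finset.sum_congr rfl fun k _ => by ring
  have h1 : Dc c = Dc 0 - Lc c := by rw [Dc_add c]; abel
  rw [h1]
  exact h0.sub_left (Commute.refl _)

lemma ap_hd (s : ℕ) (v : VV) (i : Fin 2) : ap 0 s v i = X ^ s * hd s (v i) := by
  induction s with
  | zero => rw [ap_zero, pow_zero, one_mul, hd_zero]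
  | succ s ih =>
    have h1 := congrFun (ap_succ 0 s v) i
    have hs : ((s : ℚ) + 1) ≠ 0 := by positivity
    rw [Pi.smul_apply, Pi.sub_apply, Pi.smul_apply, Dc_apply, ih] at h1
    simp only [Matrix.zero_apply, map_zero, zero_mul, Finset.sum_const_zero, sub_zero] at h1
    have h2 : ((s : ℚ) + 1) • ap 0 (s + 1) v i = ((s : ℚ) + 1) • (X ^ (s + 1) * hd (s + 1) (v i)) := by
      rw [h1, Derivation.leibniz, Derivation.leibniz_pow, deriv_hd, derivative_X, PowerSeries.smul_eq_C_mul,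
        PowerSeries.smul_eq_C_mul, nsmul_eq_mul]
      have e1 : (PowerSeries.C (s : ℚ) : ℚ⟦X⟧) = (s : ℚ⟦X⟧) := by simp
      have e2 : (PowerSeries.C ((s : ℚ) + 1) : ℚ⟦X⟧) = (s : ℚ⟦X⟧) + 1 := by simp
      rw [e1, e2]
      simp only [smul_eq_mul, mul_one]
      rcases s with _ | s
      · simp
      · rw [Nat.add_sub_cancel]
        push_cast
        ring
    exact smul_right_injective _ hs h2

/-- the untwisted divided derivatives in terms of the twisted ones -/
lemma ap_untwist (c : Matrix (Fin 2) (Fin 2) ℚ) (s : ℕ) (v : VV) :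
    ap 0 s v = ∑ p ∈ HasAntidiagonal.antidiagonal s, Lc (Polynomial.aeval c (bp p.2)) (ap c p.1 v) := by
  have h1 := vander (Dc_comm c) s
  rw [← Dc_add] at h1
  have h2 : Polynomial.aeval (Dc 0) (bp s) v = _ := congrArg (fun f => f v) h1
  rw [ap, h2, LinearMap.sum_apply]
  refine Finset.sum_congr rfl fun p _ => ?_
  have h3 : Commute (Polynomial.aeval (Dc c) (bp p.1)) (Polynomial.aeval (Lc c) (bp p.2)) := by
    exact commute_aeval (commute_aeval (Dc_comm c) (bp p.1)) (bp p.2)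
  rw [h3.eq, Module.End.mul_apply, aeval_Lc]
  rfl

/-- the polynomial coefficients of the divided derivatives -/
noncomputable def Pd (T : Polynomial ℤ) (A : Fin 2 → Fin 2 → Polynomial ℤ) (c : Matrix (Fin 2) (Fin 2) ℚ) (s : ℕ)
    (x z : Fin 2 × Fin 2) : Polynomial ℚ :=
  ∑ p ∈ HasAntidiagonal.antidiagonal s, tq T ^ p.2 * (Polynomial.C (coeff p.2 (EE c x.1 z.1)) *
    (Polynomial.X ^ p.1 * ah T A p.1 x.2 z.2))

lemma coe_sum' {ι : Type*} (s : Finset ι) (f : ι → Polynomial ℚ) : ((∑ i ∈ s, f i : Polynomial ℚ) : ℚ⟦X⟧) = ∑ i ∈ s, (f i : ℚ⟦X⟧) :=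
  map_sum (Polynomial.coeToPowerSeries.ringHom (R := ℚ)) f s

lemma Pd_spec {T : Polynomial ℤ} {A : Fin 2 → Fin 2 → Polynomial ℤ} {c : Matrix (Fin 2) (Fin 2) ℚ} {y : Fin 2 → VV}
    (hy : ∀ j, (tq T : ℚ⟦X⟧) • Dc c (y j) = ∑ k, ((X : ℚ⟦X⟧) * (aq A j k : ℚ⟦X⟧)) • y k) (s : ℕ) (x : Fin 2 × Fin 2) :
    ps (Polynomial.X * T) ^ s * hd s (y x.2 x.1) = ∑ z : Fin 2 × Fin 2, (Pd T A c s x z : ℚ⟦X⟧) * y z.2 z.1 := by
  have hps : ps (Polynomial.X * T) = X * (tq T : ℚ⟦X⟧) := by
    unfold ps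
    rw [Polynomial.map_mul, Polynomial.map_X, Polynomial.coe_mul, Polynomial.coe_X]
    rfl
  have h0 : ps (Polynomial.X * T) ^ s * hd s (y x.2 x.1) = (tq T : ℚ⟦X⟧) ^ s * ap 0 s (y x.2) x.1 := by
    rw [hps, ap_hd, mul_pow]
    ring
  rw [h0, ap_untwist c, Finset.sum_apply, Finset.mul_sum]
  have h1 : ∀ p ∈ HasAntidiagonal.antidiagonal s, (tq T : ℚ⟦X⟧) ^ s * Lc (Polynomial.aeval c (bp p.2)) (ap c p.1 (y x.2)) x.1 =
      ∑ z : Fin 2 × Fin 2, ((tq T ^ p.2 * (Polynomial.C (coeff p.2 (EE c x.1 z.1)) *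
        (Polynomial.X ^ p.1 * ah T A p.1 x.2 z.2)) : Polynomial ℚ) : ℚ⟦X⟧) * y z.2 z.1 := by
    intro p hp
    rw [Finset.HasAntidiagonal.mem_antidiagonal] at hp
    rw [Lc_apply, Finset.mul_sum, Fintype.sum_prod_type]
    refine Finset.sum_congr rfl fun k _ => ?_
    have h2 := congrFun (star hy p.1 x.2) k
    rw [Pi.smul_apply, smul_eq_mul, Finset.sum_apply] at h2
    have h3 : (tq T : ℚ⟦X⟧) ^ s * (PowerSeries.C ((Polynomial.aeval c (bp p.2)) x.1 k) * ap c p.1 (y x.2) k) =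
        (tq T : ℚ⟦X⟧) ^ p.2 * (PowerSeries.C (coeff p.2 (EE c x.1 k)) * ((tq T : ℚ⟦X⟧) ^ p.1 * ap c p.1 (y x.2) k)) := by
      rw [EE, coeff_mk, ← hp, pow_add]
      ring
    rw [h3, h2, Finset.mul_sum, Finset.mul_sum]
    refine Finset.sum_congr rfl fun l _ => ?_
    rw [Pi.smul_apply, smul_eq_mul, Polynomial.coe_mul, Polynomial.coe_mul, Polynomial.coe_mul, Polynomial.coe_pow,
      Polynomial.coe_pow, Polynomial.coe_C, Polynomial.coe_X]
    ring
  rw [Finset.sum_congr rfl h1, Finset.sum_comm]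
  refine Finset.sum_congr rfl fun z _ => ?_
  rw [← Finset.sum_mul, Pd, coe_sum']

lemma Bq_X_mul {n : ℕ} {B : ℝ} {P : Polynomial ℚ} (h : Bq n B P) (k : ℕ) : Bq (k + n) B (Polynomial.X ^ k * P) := by
  refine ⟨(Polynomial.natDegree_mul_le).trans (by rw [Polynomial.natDegree_X_pow]; have := h.1; omega), fun l => ?_⟩
  rw [Polynomial.coeff_X_pow_mul']
  split_ifs
  · exact h.2 _
  · simp only [Rat.cast_zero, abs_zero]
    exact h.nonneg

lemma IP_tq (T : Polynomial ℤ) (g k : ℕ) {P : Polynomial ℚ} (h : IP g P) : IP g (tq T ^ k * P) := by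
  obtain ⟨Q, hQ⟩ := h
  refine ⟨T ^ k * Q, ?_⟩
  rw [Polynomial.map_mul, Polynomial.map_pow, hQ, tq]
  ring

lemma IP_X {g : ℕ} {P : Polynomial ℚ} (h : IP g P) (k : ℕ) : IP g (Polynomial.X ^ k * P) := by
  obtain ⟨Q, hQ⟩ := h
  refine ⟨Polynomial.X ^ k * Q, ?_⟩
  rw [Polynomial.map_mul, Polynomial.map_pow, hQ, Polynomial.map_X]
  ring

lemma IP_C {g d : ℕ} {c : ℚ} {P : Polynomial ℚ} (h : IP g P) (hc : ∃ a : ℤ, (d : ℚ) * c = a) : IP (d * g) (Polynomial.C c * P) := by
  obtain ⟨Q, hQ⟩ := h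
  obtain ⟨a, ha⟩ := hc
  refine ⟨Polynomial.C a * Q, ?_⟩
  rw [Polynomial.map_mul, hQ, Polynomial.map_C, ← mul_assoc, ← mul_assoc, ← Polynomial.C_mul, ← Polynomial.C_mul]
  congr 2
  simp only [eq_intCast]
  push_cast
  rw [← ha]
  ring

lemma lin_le_pow (q m k : ℕ) (h : m ≤ k + 1) : ((q * m : ℕ) : ℝ) + 1 ≤ (2 ^ q * 2) ^ (k + 1) := by
  have := succ_le_two_pow (q * m)
  refine this.trans ?_
  rw [mul_pow, ← pow_mul, ← pow_add]
  refine pow_le_pow_right₀ (by norm_num) ?_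
  have : q * m ≤ q * (k + 1) := Nat.mul_le_mul_left _ h
  omega

theorem gsys_ld {a b : Polynomial ℚ} (L : LD a b) (ha : a ≠ 0) (hD : De a b ≠ 0) :
    ∃ (q : ℕ) (C : ℝ) (T : Polynomial ℤ), T ≠ 0 ∧ GSys q C T (fun x : Fin 2 × Fin 2 => L.Y x.1 x.2) := by
  obtain ⟨κ, q, T, A, hκ, hT, hA, hTq, M, hM, hG⟩ := gc_all ha hD
  set c : Matrix (Fin 2) (Fin 2) ℚ := cN (fun i => (L.m i : ℚ) / 12) ((1 / 12 : ℚ) • L.N) with hc
  have hNN : ((1 / 12 : ℚ) • L.N) * ((1 / 12 : ℚ) • L.N) = 0 := by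
    rw [Matrix.smul_mul, Matrix.mul_smul, L.hN]
    simp
  have hrr : ∀ i k, ((1 / 12 : ℚ) • L.N) i k ≠ 0 → (fun i => (L.m i : ℚ) / 12) i = (fun i => (L.m i : ℚ) / 12) k := by
    intro i k h
    have h1 : L.N i k ≠ 0 := by
      intro h2
      apply h
      rw [Matrix.smul_apply, h2, smul_zero]
    simp only [L.hm i k h1]
  have hEE : ∀ i k, SDc (EE c i k) := fun i k => SDc_EE hNN hrr i k
  have hy : ∀ j, (tq T : ℚ⟦X⟧) • Dc c ((fun j i => L.Y i j : Fin 2 → VV) j) = ∑ k, ((X : ℚ⟦X⟧) * (aq A j k : ℚ⟦X⟧)) • (fun j i => L.Y i j : Fin 2 → VV) k := by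
    intro j
    have h1 := L.ode j
    rw [hT, Polynomial.coe_mul, mul_smul, h1, Finset.smul_sum]
    refine Finset.sum_congr rfl fun k _ => ?_
    rw [hA, Polynomial.coe_mul, smul_smul]
    congr 1
    ring
  -- constants
  obtain ⟨n1, h1⟩ := exists_common (f := fun x : Fin 2 × Fin 2 => EE c x.1 x.2) fun x => hEE x.1 x.2
  obtain ⟨n2, h2⟩ := exists_common (f := fun x : Fin 2 × Fin 2 => L.Y x.1 x.2) fun x => L.sd x.1 x.2
  obtain ⟨n3, h3⟩ := exists_bd T
  have hBT : Bq q (2 ^ n3) (tq T) := (show Bd q (2 ^ n3) T from ⟨hTq, h3⟩).toBq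
  set ME : ℝ := 2 ^ n1 with hME
  set MY : ℝ := 2 ^ n2 with hMY
  set MT : ℝ := 2 ^ n3 with hMT
  have hME1 : 1 ≤ ME := one_le_pow₀ (by norm_num)
  have hMY1 : 1 ≤ MY := one_le_pow₀ (by norm_num)
  have hMT1 : 1 ≤ MT := one_le_pow₀ (by norm_num)
  have hq1 : (1 : ℝ) ≤ (q : ℝ) + 1 := by
    have : (0 : ℝ) ≤ (q : ℝ) := by positivity
    linarith
  have hq2 : (1 : ℝ) ≤ 2 ^ q * 2 := by
    have : (1 : ℝ) ≤ 2 ^ q := one_le_pow₀ (by norm_num)
    linarith
  set R : ℝ := 2 * ((2 ^ q * 2) * ((((q : ℝ) + 1) * MT) * (ME * M))) with hR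
  have hR1 : 1 ≤ R := by
    refine one_le_mul_of_one_le_of_one_le (by norm_num) (one_le_mul_of_one_le_of_one_le hq2
      (one_le_mul_of_one_le_of_one_le (one_le_mul_of_one_le_of_one_le hq1 hMT1) (one_le_mul_of_one_le_of_one_le hME1 hM)))
  set G0 : ℝ := (ME ^ 4) * M with hG0
  have hG01 : 1 ≤ G0 := one_le_mul_of_one_le_of_one_le (one_le_pow₀ hME1) hM
  set C : ℝ := G0 * R * (MY ^ 4) with hC
  have hMY4 : 1 ≤ MY ^ 4 := one_le_pow₀ hMY1
  have hGR : 1 ≤ G0 * R := one_le_mul_of_one_le_of_one_le hG01 hR1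
  have hC1 : 1 ≤ C := one_le_mul_of_one_le_of_one_le hGR hMY4
  have hMTC : MT ≤ C := by
    have e1 : MT ≤ R := by
      rw [hR]
      calc MT = 1 * (1 * ((1 * MT) * (1 * 1))) := by ring
        _ ≤ _ := by
          gcongr
          norm_num
    have e2 : R ≤ G0 * R := le_mul_of_one_le_left (by linarith) hG01
    have e3 : G0 * R ≤ C := le_mul_of_one_le_right (by linarith) hMY4
    linarith
  have hMYC : MY ≤ C := by
    have e1 : MY ≤ MY ^ 4 := le_self_pow₀ hMY1 (by norm_num)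
    have e2 : MY ^ 4 ≤ C := le_mul_of_one_le_left (by positivity) hGR
    linarith
  refine ⟨q + 1, C, Polynomial.X * T, ?_, hC1, ?_, ?_, ?_, ?_, ?_⟩
  · refine mul_ne_zero Polynomial.X_ne_zero ?_
    intro h0
    rw [h0, tq, Polynomial.map_zero] at hT
    exact mul_ne_zero (Polynomial.C_ne_zero.2 hκ) hD hT.symm
  · refine Polynomial.natDegree_mul_le.trans ?_
    rw [Polynomial.natDegree_X]
    omega
  · intro l
    rcases l with _ | l
    · rw [Polynomial.coeff_X_mul_zero]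
      simp only [Int.cast_zero, abs_zero]
      linarith
    · rw [Polynomial.coeff_X_mul]
      exact (h3 l).trans hMTC
  · intro x m
    exact ((h2 x).1 m).trans (pow_le_pow_left₀ (by positivity) hMYC _)
  · intro m
    choose d hd0 hd hd' using fun x : Fin 2 × Fin 2 => (h2 x).2 m
    refine ⟨∏ x, d x, Finset.prod_pos fun x _ => hd0 x, ?_, fun x j hj => ?_⟩
    · push_cast
      calc ∏ x, (d x : ℝ) ≤ ∏ _x : Fin 2 × Fin 2, MY ^ (m + 1) :=
            Finset.prod_le_prod (fun _ _ => by positivity) fun x _ => hd x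
        _ = (MY ^ 4) ^ (m + 1) := by
            rw [Finset.prod_const, Finset.card_univ, show Fintype.card (Fin 2 × Fin 2) = 4 by simp]
            exact pow_right_comm _ _ _
        _ ≤ _ := pow_le_pow_left₀ (by positivity) (le_mul_of_one_le_left (by positivity) hGR) _
    · obtain ⟨a', ha'⟩ := hd' x j hj
      refine ⟨(∏ z ∈ Finset.univ.erase x, d z : ℕ) * a', ?_⟩
      rw [← Finset.mul_prod_erase _ _ (Finset.mem_univ x)]
      push_cast
      rw [← ha']
      ring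
  · intro k
    obtain ⟨g, hg0, hg, hgs⟩ := hG k
    choose e he0 he he' using fun x : Fin 2 × Fin 2 => (h1 x).2 k
    set e' : ℕ := ∏ x, e x with he'def
    have he'0 : 0 < e' := Finset.prod_pos fun x _ => he0 x
    have heM : (e' : ℝ) ≤ (ME ^ 4) ^ (k + 1) := by
      rw [he'def]
      push_cast
      calc ∏ x, (e x : ℝ) ≤ ∏ _x : Fin 2 × Fin 2, ME ^ (k + 1) :=
            Finset.prod_le_prod (fun _ _ => by positivity) fun x _ => he x
        _ = (ME ^ 4) ^ (k + 1) := by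
            rw [Finset.prod_const, Finset.card_univ, show Fintype.card (Fin 2 × Fin 2) = 4 by simp]
            exact pow_right_comm _ _ _
    have hei : ∀ (x : Fin 2 × Fin 2) (j : ℕ), j ≤ k → ∃ a : ℤ, (e' : ℚ) * coeff j (EE c x.1 x.2) = a := by
      intro x j hj
      obtain ⟨a', ha'⟩ := he' x j hj
      refine ⟨(∏ z ∈ Finset.univ.erase x, e z : ℕ) * a', ?_⟩
      rw [he'def, ← Finset.mul_prod_erase _ _ (Finset.mem_univ x)]
      push_cast
      rw [← ha']
      ring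
    have hgG : ((e' * g : ℕ) : ℝ) ≤ G0 ^ (k + 1) := by
      push_cast
      rw [hG0, mul_pow]
      exact mul_le_mul heM hg (by positivity) (by positivity)
    refine ⟨e' * g, Nat.mul_pos he'0 hg0, hgG.trans ?_, fun s hs => ?_⟩
    · refine pow_le_pow_left₀ (by linarith) ?_ _
      rw [hC, mul_assoc]
      exact le_mul_of_one_le_right (by linarith) (one_le_mul_of_one_le_of_one_le hR1 hMY4)
    · have hIP : ∀ x z, IP (e' * g) (Pd T A c s x z) := by
        intro x z
        rw [Pd]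
        refine IP.sum _ fun p hp => ?_
        rw [Finset.HasAntidiagonal.mem_antidiagonal] at hp
        exact IP_tq T _ _ (IP_C (IP_X (hgs p.1 (by omega) _ _).1 _) (hei (x.1, z.1) p.2 (by omega)))
      have hBq : ∀ x z, Bq ((q + 1) * s) (R ^ (k + 1)) (Pd T A c s x z) := by
        intro x z
        rw [Pd]
        have hterm : ∀ p ∈ HasAntidiagonal.antidiagonal s, Bq ((q + 1) * s) ((2 ^ q * 2) ^ (k + 1) * ((((q : ℝ) + 1) * MT) ^ (k + 1) *
            (ME ^ (k + 1) * M ^ (k + 1)))) (tq T ^ p.2 * (Polynomial.C (coeff p.2 (EE c x.1 z.1)) *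
            (Polynomial.X ^ p.1 * ah T A p.1 x.2 z.2))) := by
          intro p hp
          rw [Finset.HasAntidiagonal.mem_antidiagonal] at hp
          have t1 := hBT.pow p.2
          have t2 := Bq_X_mul (hgs p.1 (by omega) x.2 z.2).2 p.1
          have t3 := t2.C_mul (c := coeff p.2 (EE c x.1 z.1)) (B := ME ^ (k + 1))
            (((h1 (x.1, z.1)).1 p.2).trans (pow_le_pow_right₀ hME1 (by omega)))
          refine (t1.mul t3).mono ?_ ?_
          · have e1 : q * p.2 + (p.1 + q * p.1) = q * (p.1 + p.2) + p.1 := by ring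
            rw [e1, hp]
            have : p.1 ≤ s := by omega
            calc q * s + p.1 ≤ q * s + s := by omega
              _ = (q + 1) * s := by ring
          · have e2 := lin_le_pow q p.2 k (by omega)
            have e3 : (((q : ℝ) + 1) * MT) ^ p.2 ≤ (((q : ℝ) + 1) * MT) ^ (k + 1) :=
              pow_le_pow_right₀ (one_le_mul_of_one_le_of_one_le hq1 hMT1) (by omega)
            gcongr
        refine (Bq.sum _ hterm).mono le_rfl ?_
        have eR : R ^ (k + 1) = 2 ^ (k + 1) * ((2 ^ q * 2) ^ (k + 1) * ((((q : ℝ) + 1) * MT) ^ (k + 1) *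
            (ME ^ (k + 1) * M ^ (k + 1)))) := by
          rw [hR, mul_pow 2, mul_pow (2 ^ q * 2), mul_pow (((q : ℝ) + 1) * MT), mul_pow ME]
        rw [Finset.Nat.card_antidiagonal, eR]
        refine mul_le_mul_of_nonneg_right ?_ (by positivity)
        push_cast
        exact (succ_le_two_pow s).trans (pow_le_pow_right₀ (by norm_num) (by omega))
      choose Q hQ1 hQ2 hQ3 using fun x z => (hIP x z).lift (hBq x z)
      refine ⟨Q, hQ2, fun x z l => (hQ3 x z l).trans ?_, fun x => ?_⟩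
      · calc ((e' * g : ℕ) : ℝ) * R ^ (k + 1) ≤ G0 ^ (k + 1) * R ^ (k + 1) := mul_le_mul_of_nonneg_right hgG (by positivity)
          _ = (G0 * R) ^ (k + 1) := (mul_pow _ _ _).symm
          _ ≤ C ^ (k + 1) := pow_le_pow_left₀ (by positivity) (le_mul_of_one_le_right (by linarith) hMY4) _
      · have h5 := Pd_spec hy s x
        rw [h5, Finset.mul_sum]
        refine Finset.sum_congr rfl fun z _ => ?_
        have h6 : ps (Q x z) = ((e' * g : ℕ) : ℚ⟦X⟧) * (Pd T A c s x z : ℚ⟦X⟧) := by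
          unfold ps
          rw [hQ1 x z, Polynomial.coe_mul, Polynomial.coe_C]
          simp
        rw [h6, mul_assoc]

end Pool.Agent.Y124.GE
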