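import Pool.Agent.Y124.GE.Gc
import Pool.Agent.Y124.GE.Gs

/-!
# Formal solutions at a regular singular point with nilpotent residue
-/

set_option autoImplicit false

namespace Pool.Agent.Y124.GE

open PowerSeries Finset Pool.Agent.Y113 Pool.Agent.Y113.HGG Pool.Agent.Y655.HG

abbrev M2 := Matrix (Fin 2) (Fin 2) ℚ

/-- the solution of `m S + N S - S N = R` -/
noncomputable def slv (N R : M2) (m : ℕ) : M2 :=
  (m : ℚ)⁻¹ • R - ((m : ℚ)⁻¹ ^ 2) • (N * R - R * N) - (2 * (m : ℚ)⁻¹ ^ 3) • (N * R * N)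

lemma slv_eq {N : M2} (hN : N * N = 0) (R : M2) {m : ℕ} (hm : m ≠ 0) :
    (m : ℚ) • slv N R m + N * slv N R m - slv N R m * N = R := by
  have hm0 : (m : ℚ) ≠ 0 := by exact_mod_cast hm
  set α := (m : ℚ)⁻¹ with hα
  have h1 : N * (N * R) = 0 := by rw [← mul_assoc, hN, zero_mul]
  have h2 : R * N * N = 0 := by rw [mul_assoc, hN, mul_zero]
  have h3 : N * (N * R * N) = 0 := by rw [← mul_assoc, h1, zero_mul]
  have h4 : N * R * N * N = 0 := by rw [mul_assoc, hN, mul_zero]
  have h5 : N * (R * N) = N * R * N := (mul_assoc _ _ _).symm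
  have e1 : N * slv N R m = α • (N * R) + α ^ 2 • (N * R * N) := by
    rw [slv, ← hα, mul_sub, mul_sub, mul_smul_comm, mul_smul_comm, mul_smul_comm, mul_sub, h1, h5, h3]
    module
  have e2 : slv N R m * N = α • (R * N) - α ^ 2 • (N * R * N) := by
    rw [slv, ← hα, sub_mul, sub_mul, smul_mul_assoc, smul_mul_assoc, smul_mul_assoc, sub_mul, h2, h4]
    module
  rw [e1, e2, slv, ← hα]
  have h6 : (m : ℚ) * α = 1 := mul_inv_cancel₀ hm0
  have h7 : (m : ℚ) • (α • R - α ^ 2 • (N * R - R * N) - (2 * α ^ 3) • (N * R * N)) + (α • (N * R) + α ^ 2 • (N * R * N)) -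
      (α • (R * N) - α ^ 2 • (N * R * N)) = ((m : ℚ) * α) • R + (α * (1 - (m : ℚ) * α)) • (N * R - R * N) +
        (2 * α ^ 2 * (1 - (m : ℚ) * α)) • (N * R * N) := by
    module
  rw [h7, h6]
  module

/-- the coefficients of the formal solution -/
noncomputable def SM (N : M2) (B : ℕ → M2) : ℕ → M2
  | 0 => 1
  | m + 1 => slv N (∑ i : Fin (m + 1), SM N B i.1 * B (m + 1 - i.1)) (m + 1)
termination_by m => m
decreasing_by exact i.2

lemma SM_zero (N : M2) (B : ℕ → M2) : SM N B 0 = 1 := by rw [SM]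

lemma SM_succ (N : M2) (B : ℕ → M2) (m : ℕ) : SM N B (m + 1) = slv N (∑ i ∈ range (m + 1), SM N B i * B (m + 1 - i)) (m + 1) := by
  rw [SM, Finset.sum_range]

lemma SM_rec {N : M2} (hN : N * N = 0) {B : ℕ → M2} (hB : B 0 = N) (m : ℕ) :
    (m : ℚ) • SM N B m + N * SM N B m = ∑ p ∈ HasAntidiagonal.antidiagonal m, SM N B p.1 * B p.2 := by
  rw [Finset.Nat.sum_antidiagonal_eq_sum_range_succ (fun i j => SM N B i * B j), Finset.sum_range_succ, Nat.sub_self, hB]
  rcases m with _ | m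
  · simp [SM_zero]
  · have h1 := slv_eq hN (∑ i ∈ range (m + 1), SM N B i * B (m + 1 - i)) (Nat.succ_ne_zero m)
    rw [← SM_succ] at h1
    rw [← h1]
    abel

/-- gradings -/
def MG (g : Fin 2 → ZMod 12) (e : ZMod 12) (M : M2) : Prop := ∀ i j, M i j ≠ 0 → e = g j - g i

lemma MG.add {g : Fin 2 → ZMod 12} {e : ZMod 12} {M M' : M2} (h : MG g e M) (h' : MG g e M') : MG g e (M + M') := by
  intro i j hij
  by_cases h0 : M i j = 0
  · refine h' i j fun h1 => hij ?_
    rw [Matrix.add_apply, h0, h1, add_zero]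
  · exact h i j h0

lemma MG.smul {g : Fin 2 → ZMod 12} {e : ZMod 12} {M : M2} (c : ℚ) (h : MG g e M) : MG g e (c • M) := by
  intro i j hij
  refine h i j fun h1 => hij ?_
  rw [Matrix.smul_apply, h1, smul_zero]

lemma MG.sub {g : Fin 2 → ZMod 12} {e : ZMod 12} {M M' : M2} (h : MG g e M) (h' : MG g e M') : MG g e (M - M') := by
  intro i j hij
  by_cases h0 : M i j = 0
  · refine h' i j fun h1 => hij ?_
    rw [Matrix.sub_apply, h0, h1, sub_zero]
  · exact h i j h0

lemma MG.mul {g : Fin 2 → ZMod 12} {e e' : ZMod 12} {M M' : M2} (h : MG g e M) (h' : MG g e' M') : MG g (e + e') (M * M') := by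
  intro i j hij
  rw [Matrix.mul_apply] at hij
  obtain ⟨k, -, hk⟩ := Finset.exists_ne_zero_of_sum_ne_zero hij
  have h1 := h i k (left_ne_zero_of_mul hk)
  have h2 := h' k j (right_ne_zero_of_mul hk)
  rw [h1, h2]
  ring

lemma MG.sum {g : Fin 2 → ZMod 12} {e : ZMod 12} {ι : Type*} (s : Finset ι) (F : ι → M2) (h : ∀ i ∈ s, MG g e (F i)) :
    MG g e (∑ i ∈ s, F i) := by
  intro i j hij
  rw [Matrix.sum_apply] at hij
  obtain ⟨k, hk, hk'⟩ := Finset.exists_ne_zero_of_sum_ne_zero hij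
  exact h k hk i j hk'

lemma MG.slv {g : Fin 2 → ZMod 12} {e : ZMod 12} {N R : M2} (hN : MG g 0 N) (hR : MG g e R) (m : ℕ) : MG g e (slv N R m) := by
  have h1 : MG g e (N * R) := by
    have := hN.mul hR
    rwa [zero_add] at this
  have h2 : MG g e (R * N) := by
    have := hR.mul hN
    rwa [add_zero] at this
  have h3 : MG g e (N * R * N) := by
    have := h1.mul hN
    rwa [add_zero] at this
  exact ((hR.smul _).sub ((h1.sub h2).smul _)).sub (h3.smul _)

lemma MG_SM {g : Fin 2 → ZMod 12} {N : M2} {B : ℕ → M2} (hN : MG g 0 N) (hB : ∀ n : ℕ, MG g (n : ZMod 12) (B n)) (m : ℕ) :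
    MG g (m : ZMod 12) (SM N B m) := by
  induction m using Nat.strong_induction_on with
  | _ m ih =>
    rcases m with _ | m
    · rw [SM_zero]
      intro i j hij
      rw [Matrix.one_apply] at hij
      split_ifs at hij with h
      · rw [h]
        simp
      · exact absurd rfl hij
    · rw [SM_succ]
      refine MG.slv hN (MG.sum _ _ fun i hi => ?_) _
      rw [mem_range] at hi
      have h1 := (ih i hi).mul (hB (m + 1 - i))
      have h2 : ((i : ℕ) : ZMod 12) + ((m + 1 - i : ℕ) : ZMod 12) = ((m + 1 : ℕ) : ZMod 12) := by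
        rw [← Nat.cast_add]
        congr 1
        omega
      rwa [h2] at h1

/-- formal solutions -/
structure FD (a b : Polynomial ℚ) (N : M2) (S : Fin 2 → Fin 2 → ℚ⟦X⟧) : Prop where
  c0 : ∀ i j, constantCoeff (S i j) = if i = j then 1 else 0
  ode : ∀ i j, (De a b : ℚ⟦X⟧) * (X * d⁄dX ℚ (S i j) + ∑ k, PowerSeries.C (N i k) * S k j) =
    ∑ k, (X * (AE a b k j : ℚ⟦X⟧)) * S i k

/-- existence of graded formal solutions -/
theorem frob (a b : Polynomial ℚ) (N : M2) (B : Fin 2 → Fin 2 → ℚ⟦X⟧) (hDB : ∀ k j, (De a b : ℚ⟦X⟧) * B k j = X * (AE a b k j : ℚ⟦X⟧))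
    (hB0 : ∀ i j, constantCoeff (B i j) = N i j) (hN : N * N = 0) (g : Fin 2 → ZMod 12)
    (hg : ∀ i j n, coeff n (B i j) ≠ 0 → (n : ZMod 12) = g j - g i) :
    ∃ S : Fin 2 → Fin 2 → ℚ⟦X⟧, FD a b N S ∧ ∀ i j n, coeff n (S i j) ≠ 0 → (n : ZMod 12) = g j - g i := by
  set Bm : ℕ → M2 := fun n i j => coeff n (B i j) with hBm
  have hBm0 : Bm 0 = N := by
    ext i j
    rw [hBm]
    simp only [coeff_zero_eq_constantCoeff]
    exact hB0 i j
  refine ⟨fun i j => PowerSeries.mk fun n => SM N Bm n i j, ⟨fun i j => ?_, fun i j => ?_⟩, fun i j n hn => ?_⟩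
  · rw [← coeff_zero_eq_constantCoeff_apply, coeff_mk, SM_zero, Matrix.one_apply]
  · have h1 : X * d⁄dX ℚ (PowerSeries.mk fun n => SM N Bm n i j) + ∑ k, PowerSeries.C (N i k) * (PowerSeries.mk fun n => SM N Bm n k j) =
        ∑ k, B k j * (PowerSeries.mk fun n => SM N Bm n i k) := by
      ext n
      have h2 := congrFun (congrFun (SM_rec hN hBm0 n) i) j
      rw [Matrix.add_apply, Matrix.smul_apply, Matrix.mul_apply, Matrix.sum_apply] at h2
      rw [map_add, map_sum, map_sum]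
      have h3 : coeff n (X * d⁄dX ℚ (PowerSeries.mk fun n => SM N Bm n i j)) = (n : ℚ) * SM N Bm n i j := by
        cases n with
        | zero => simp
        | succ n =>
          rw [coeff_succ_X_mul, coeff_derivative, coeff_mk]
          push_cast
          ring
      rw [h3]
      simp only [coeff_C_mul, coeff_mk]
      rw [smul_eq_mul] at h2
      rw [h2]
      simp only [Matrix.mul_apply]
      rw [Finset.sum_comm]
      refine Finset.sum_congr rfl fun k _ => ?_
      rw [mul_comm, coeff_mul]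
      refine Finset.sum_congr rfl fun p _ => ?_
      rw [coeff_mk]
    rw [h1, Finset.mul_sum]
    refine Finset.sum_congr rfl fun k _ => ?_
    rw [← mul_assoc, hDB]
  · rw [coeff_mk] at hn
    have hNg : MG g 0 N := by
      intro i j hij
      have := hg i j 0 (by rw [coeff_zero_eq_constantCoeff_apply, hB0]; exact hij)
      simpa using this
    exact MG_SM hNg (fun n i j hij => hg i j n hij) n i j hn

end Pool.Agent.Y124.GE
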