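import Pool.Agent.Y124.GE.Sd2

/-!
# Galochkin's condition for all families; twisted G-systems
-/

set_option autoImplicit false

namespace Pool.Agent.Y124.GE

open PowerSeries Finset Pool.Agent.Y113 Pool.Agent.Y113.HGG Pool.Agent.Y655.HG

lemma Bq_hasse {n : ℕ} {B : ℝ} {P : Polynomial ℚ} (h : Bq n B P) (l : ℕ) : Bq n (2 ^ n * B) (Polynomial.hasseDeriv l P) := by
  have hB := h.nonneg
  refine ⟨(Polynomial.natDegree_hasseDeriv_le _ _).trans ((Nat.sub_le _ _).trans h.1), fun m => ?_⟩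
  rw [Polynomial.hasseDeriv_coeff]
  by_cases hm : m + l ≤ n
  · push_cast
    rw [abs_mul, abs_of_nonneg (by positivity : (0 : ℝ) ≤ ((m + l).choose l : ℝ))]
    refine mul_le_mul ?_ (h.2 _) (abs_nonneg _) (by positivity)
    have h1 : (m + l).choose l ≤ 2 ^ n := (Nat.choose_le_two_pow _ _).trans (Nat.pow_le_pow_right (by norm_num) hm)
    exact_mod_cast h1
  · rw [Polynomial.coeff_eq_zero_of_natDegree_lt (by have := h.1; omega)]
    simp only [mul_zero, Rat.cast_zero, abs_zero]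
    positivity

lemma IP_hasse {g : ℕ} {P : Polynomial ℚ} (h : IP g P) (l : ℕ) : IP g (Polynomial.hasseDeriv l P) := by
  obtain ⟨Q, hQ⟩ := h
  refine IP.of_coeff fun m => ⟨((m + l).choose l : ℤ) * Q.coeff (m + l), ?_⟩
  have := congrArg (fun R : Polynomial ℚ => R.coeff (m + l)) hQ
  simp only [Polynomial.coeff_map, Polynomial.coeff_C_mul] at this
  rw [Polynomial.hasseDeriv_coeff]
  push_cast
  have h2 : ((Q.coeff (m + l) : ℤ) : ℚ) = (g : ℚ) * P.coeff (m + l) := this
  rw [h2]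
  ring

lemma Bq_taylor {n : ℕ} {B : ℝ} {P : Polynomial ℚ} (h : Bq n B P) (x : ℚ) :
    Bq n ((n + 1) * ((2 ^ n * B) * (max 1 |(x : ℝ)|) ^ n)) (Polynomial.taylor x P) := by
  refine ⟨by rw [Polynomial.natDegree_taylor]; exact h.1, fun l => ?_⟩
  rw [Polynomial.taylor_coeff]
  exact eval_bound (Bq_hasse h l) x

lemma IP_taylor {n g : ℕ} {P : Polynomial ℚ} (h : IP g P) (hn : P.natDegree ≤ n) (x : ℚ) :
    IP (g * x.den ^ n) (Polynomial.taylor x P) := by
  refine IP.of_coeff fun l => ?_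
  rw [Polynomial.taylor_coeff]
  exact eval_int (IP_hasse h l) ((Polynomial.natDegree_hasseDeriv_le _ _).trans ((Nat.sub_le _ _).trans hn)) x

lemma ah_transport {n : ℕ} {T T' : Polynomial ℤ} {A A' : Fin n → Fin n → Polynomial ℤ} {κ y : ℚ}
    (hT : tq T = Polynomial.C κ * Polynomial.taylor y (tq T'))
    (hA : ∀ j k, aq A j k = Polynomial.C κ * Polynomial.taylor y (aq A' j k)) (s : ℕ) (i j : Fin n) :
    ah T A s i j = Polynomial.C (κ ^ s) * Polynomial.taylor y (ah T' A' s i j) := by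
  induction s generalizing i j with
  | zero =>
    rw [ah_zero, ah_zero, pow_zero, Polynomial.C_1, one_mul]
    split_ifs <;> simp
  | succ s ih =>
    have hder : ∀ P : Polynomial ℚ, Polynomial.derivative (Polynomial.taylor y P) = Polynomial.taylor y (Polynomial.derivative P) := by
      intro P
      rw [Polynomial.taylor_apply, Polynomial.taylor_apply, Polynomial.derivative_comp]
      simp
    rw [ah_succ, ah_succ]
    simp only [ih, hT, hA, Polynomial.derivative_C_mul, hder]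
    have hsum : ∀ f : Fin n → Polynomial ℚ, Polynomial.taylor y (∑ l, f l) = ∑ l, Polynomial.taylor y (f l) := fun f => map_sum _ _ _
    rw [Polynomial.taylor_mul, map_add, map_sub, Polynomial.taylor_mul, Polynomial.taylor_mul, Polynomial.taylor_mul,
      Polynomial.taylor_C, Polynomial.taylor_C, hsum]
    simp only [Polynomial.taylor_mul]
    have e1 : ∀ l, Polynomial.C κ * Polynomial.taylor y (aq A' l j) * (Polynomial.C (κ ^ s) * Polynomial.taylor y (ah T' A' s i l)) =
        Polynomial.C (κ ^ (s + 1)) * (Polynomial.taylor y (aq A' l j) * Polynomial.taylor y (ah T' A' s i l)) := by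
      intro l
      rw [pow_succ, Polynomial.C_mul]
      ring
    simp only [e1]
    rw [← Finset.mul_sum, pow_succ, Polynomial.C_mul]
    ring

/-- Galochkin's condition for all non-degenerate families -/
theorem gc_all {a b : Polynomial ℚ} (ha : a ≠ 0) (hD : De a b ≠ 0) :
    ∃ (c : ℚ) (q : ℕ) (T : Polynomial ℤ) (A : Fin 2 → Fin 2 → Polynomial ℤ), c ≠ 0 ∧ tq T = Polynomial.C c * De a b ∧
      (∀ j k, aq A j k = Polynomial.C c * AE a b k j) ∧ T.natDegree ≤ q ∧ GC q T A := by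
  obtain ⟨x, hx, Y, hY, hS⟩ := exists_pt ha hD
  set a' := a.comp (Polynomial.X + Polynomial.C x) with ha'
  set b' := b.comp (Polynomial.X + Polynomial.C x) with hb'
  have hDne : De a' b' ≠ 0 := by
    apply ne_zero_of_eval (x := 0)
    rw [ha', hb', ← De_comp, eval_zero_comp]
    exact hx
  obtain ⟨c', q', T', A', hc', hT', hA', M, hM, hG⟩ := fam_gc hDne hY hS
  obtain ⟨c₀, hc₀, hQ⟩ := exists_int (fun o : Option (Fin 2 × Fin 2) => o.elim (De a b) fun p => AE a b p.1 p.2)
  choose Q hQ using hQ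
  set κ : ℕ := c₀ * c'.den with hκ
  have hκ0 : 0 < κ := Nat.mul_pos hc₀ c'.pos
  have hκc : (κ : ℚ) * c' = c₀ * c'.num := by
    rw [hκ]
    push_cast
    have : (c'.num : ℚ) = c'.den * c' := by rw [mul_comm]; exact (Rat.mul_den_eq_num c').symm
    rw [this]
    ring
  set T : Polynomial ℤ := Polynomial.C c'.num * Q none with hT
  set A : Fin 2 → Fin 2 → Polynomial ℤ := fun k j => Polynomial.C c'.num * Q (some (k, j)) with hA
  have hTq : tq T = Polynomial.C ((κ : ℚ) * c') * De a b := by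
    rw [tq, hT, Polynomial.map_mul, Polynomial.map_C]
    have := hQ none
    simp only [Option.elim] at this
    rw [this, hκc, ← mul_assoc, ← Polynomial.C_mul]
    congr 2
    simp only [eq_intCast]
    ring
  have hAq : ∀ j k, aq A j k = Polynomial.C ((κ : ℚ) * c') * AE a b k j := by
    intro j k
    rw [aq, hA, Polynomial.map_mul, Polynomial.map_C]
    have := hQ (some (k, j))
    simp only [Option.elim] at this
    rw [this, hκc, ← mul_assoc, ← Polynomial.C_mul]
    congr 2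
    simp only [eq_intCast]
    ring
  have hback : ∀ P : Polynomial ℚ, Polynomial.taylor (-x) (P.comp (Polynomial.X + Polynomial.C x)) = P := by
    intro P
    rw [Polynomial.taylor_apply, comp_comp_neg]
  have htr := ah_transport (T := T) (T' := T') (A := A) (A' := A') (κ := (κ : ℚ)) (y := -x) (by
    rw [hTq, hT', Polynomial.taylor_mul, Polynomial.taylor_C, ha', hb', ← De_comp, hback, ← mul_assoc, ← Polynomial.C_mul])
    (by
      intro j k
      rw [hAq, hA', Polynomial.taylor_mul, Polynomial.taylor_C, ha', hb', ← AE_comp, hback, ← mul_assoc, ← Polynomial.C_mul])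
  refine ⟨(κ : ℚ) * c', q' + T.natDegree, T, A, mul_ne_zero (by exact_mod_cast hκ0.ne') hc', hTq, hAq, by omega, ?_⟩
  have hκ1 : (1 : ℝ) ≤ κ := by exact_mod_cast hκ0
  have hx1 : (1 : ℝ) ≤ (-x).den := by exact_mod_cast (-x).pos
  have hmx : 1 ≤ max 1 |((-x : ℚ) : ℝ)| := le_max_left _ _
  have h2 : (1 : ℝ) ≤ 2 ^ q' := one_le_pow₀ (by norm_num)
  have h3 : 1 ≤ (max 1 |((-x : ℚ) : ℝ)|) ^ q' := one_le_pow₀ hmx
  have h4 : (1 : ℝ) ≤ ((-x).den : ℝ) ^ q' := one_le_pow₀ hx1
  set M₁ : ℝ := κ * (2 ^ (q' + 1) * (2 ^ q' * M) * (max 1 |((-x : ℚ) : ℝ)|) ^ q') * ((-x).den : ℝ) ^ q' with hM₁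
  have hM₁1 : 1 ≤ κ * (2 ^ (q' + 1) * (2 ^ q' * M) * (max 1 |((-x : ℚ) : ℝ)|) ^ q') := by
    refine one_le_mul_of_one_le_of_one_le hκ1 (one_le_mul_of_one_le_of_one_le (one_le_mul_of_one_le_of_one_le
      (one_le_pow₀ (by norm_num)) (one_le_mul_of_one_le_of_one_le h2 hM)) h3)
  refine ⟨M₁, one_le_mul_of_one_le_of_one_le hM₁1 h4, fun k => ?_⟩
  obtain ⟨g, hg0, hg, hgs⟩ := hG k
  refine ⟨g * (-x).den ^ (q' * k), Nat.mul_pos hg0 (pow_pos (-x).pos _), ?_, fun s hs i j => ?_⟩
  · push_cast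
    have e1 : ((-x).den : ℝ) ^ (q' * k) ≤ (((-x).den : ℝ) ^ q') ^ (k + 1) := by
      rw [← pow_mul]
      exact pow_le_pow_right₀ hx1 (by nlinarith)
    calc (g : ℝ) * ((-x).den : ℝ) ^ (q' * k) ≤ M ^ (k + 1) * (((-x).den : ℝ) ^ q') ^ (k + 1) :=
          mul_le_mul hg e1 (by positivity) (by positivity)
      _ = (M * ((-x).den : ℝ) ^ q') ^ (k + 1) := by rw [mul_pow]
      _ ≤ M₁ ^ (k + 1) := by
        refine pow_le_pow_left₀ (by positivity) ?_ _
        rw [hM₁]
        refine mul_le_mul_of_nonneg_right ?_ (by positivity)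
        calc M = 1 * (1 * (1 * M) * 1) := by ring
          _ ≤ _ := by
            gcongr
            exact one_le_pow₀ (by norm_num)
  · obtain ⟨hI, hB⟩ := hgs s hs i j
    rw [htr]
    refine ⟨?_, ?_⟩
    · have h5 := IP_taylor hI hB.1 (-x)
      obtain ⟨Q', hQ'⟩ := h5
      refine ⟨Polynomial.C ((κ : ℤ) ^ s * ((-x).den : ℤ) ^ (q' * k - q' * s)) * Q', ?_⟩
      rw [Polynomial.map_mul, hQ', Polynomial.map_C, ← mul_assoc, ← mul_assoc, ← Polynomial.C_mul, ← Polynomial.C_mul]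
      congr 2
      have e1 : ((-x).den : ℚ) ^ (q' * k) = ((-x).den : ℚ) ^ (q' * k - q' * s) * ((-x).den : ℚ) ^ (q' * s) := by
        rw [← pow_add]
        congr 1
        have : q' * s ≤ q' * k := Nat.mul_le_mul_left q' hs
        omega
      simp only [eq_intCast]
      push_cast
      rw [e1]
      ring
    · have h5 := Bq_taylor hB (-x)
      have h6 := h5.C_mul (c := (κ : ℚ) ^ s) (B := (κ : ℝ) ^ s) (by
        push_cast
        rw [abs_of_nonneg (by positivity)])
      refine h6.mono (Nat.mul_le_mul_right _ (by omega)) ?_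
      have hqs : q' * s ≤ q' * (k + 1) := Nat.mul_le_mul_left _ (by omega)
      have e1 : ((q' * s : ℕ) : ℝ) + 1 ≤ (2 ^ (q' + 1)) ^ (k + 1) := by
        have := succ_le_two_pow (q' * s)
        refine this.trans ?_
        rw [← pow_mul]
        exact pow_le_pow_right₀ (by norm_num) (by nlinarith)
      have e2 : (2 : ℝ) ^ (q' * s) ≤ (2 ^ q') ^ (k + 1) := by
        rw [← pow_mul]
        exact pow_le_pow_right₀ (by norm_num) hqs
      have e3 : (max 1 |((-x : ℚ) : ℝ)|) ^ (q' * s) ≤ ((max 1 |((-x : ℚ) : ℝ)|) ^ q') ^ (k + 1) := by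
        rw [← pow_mul]
        exact pow_le_pow_right₀ hmx hqs
      have e4 : (κ : ℝ) ^ s ≤ (κ : ℝ) ^ (k + 1) := pow_le_pow_right₀ hκ1 (by omega)
      calc (κ : ℝ) ^ s * ((((q' * s : ℕ) : ℝ) + 1) * ((2 ^ (q' * s) * M ^ (k + 1)) * (max 1 |((-x : ℚ) : ℝ)|) ^ (q' * s)))
          ≤ (κ : ℝ) ^ (k + 1) * ((2 ^ (q' + 1)) ^ (k + 1) * (((2 ^ q') ^ (k + 1) * M ^ (k + 1)) *
              ((max 1 |((-x : ℚ) : ℝ)|) ^ q') ^ (k + 1))) := by gcongr
        _ = (κ * (2 ^ (q' + 1) * (2 ^ q' * M) * (max 1 |((-x : ℚ) : ℝ)|) ^ q')) ^ (k + 1) := by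
          rw [← mul_pow, ← mul_pow, ← mul_pow, ← mul_pow]
          congr 1
          ring
        _ ≤ M₁ ^ (k + 1) := by
          refine pow_le_pow_left₀ (by positivity) ?_ _
          rw [hM₁]
          exact le_mul_of_one_le_right (by positivity) h4

end Pool.Agent.Y124.GE
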