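import Pool.Agent.Y124.GE.Gs
import Pool.Agent.Y120.H.Tens

/-!
# Fundamental matrices from local data
-/

set_option autoImplicit false

namespace Pool.Agent.Y124.GE

open PowerSeries Finset Pool.Agent.Y113 Pool.Agent.Y120.GH

/-! ## algebra -/

section
variable {S : Type*} [CommRing S] (D : S → S) (hadd : ∀ a b, D (a + b) = D a + D b)
  (hmul : ∀ a b, D (a * b) = a * D b + b * D a) (n : Fin 2 → Fin 2 → S) (hn : ∀ i k, D (n i k) = 0)
  (hnn : ∀ i k, ∑ p, n i p * n p k = 0) (m : Fin 2 → S) (hnm : ∀ i k, n i k * m k = n i k * m i) (t : S) (ht : D t = 1)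

include hmul hn hnn ht in
lemma alg_P (hD0 : D 0 = 0) (hD1 : D 1 = 0) (hsub : ∀ a b, D (a - b) = D a - D b) (x : Fin 2 → S) (hx : ∀ i, D (x i) = m i * x i) (hnx : ∀ i k, n i k * x k = n i k * x i) (i k : Fin 2) :
    D (x i * ((if i = k then 1 else 0) - n i k * t)) = m i * (x i * ((if i = k then 1 else 0) - n i k * t)) -
      ∑ p, n i p * (x p * ((if p = k then 1 else 0) - n p k * t)) := by
  have h0 : D (if i = k then 1 else 0) = 0 := by split_ifs <;> assumption
  have h1 : ∑ p, n i p * (x p * ((if p = k then 1 else 0) - n p k * t)) = x i * n i k := by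
    have e1 : ∀ p, n i p * (x p * ((if p = k then 1 else 0) - n p k * t)) =
        x i * (n i p * (if p = k then 1 else 0)) - x i * t * (n i p * n p k) := by
      intro p
      have := hnx i p
      linear_combination ((if p = k then 1 else 0) - n p k * t) * this
    simp only [e1]
    rw [Finset.sum_sub_distrib, ← Finset.mul_sum, ← Finset.mul_sum, hnn]
    simp
  rw [h1, hmul, hsub, h0, hmul, hn, ht, hx]
  ring

include hadd hmul hn hnn hnm ht in
lemma alg_R (x : Fin 2 → S) (M : S) (hx : ∀ i, D (x i) = (M - m i) * x i) (hsum : ∀ f : Fin 2 → S, D (∑ p, f p) = ∑ p, D (f p))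
    (E H : Fin 2 → Fin 2 → S) (Dh w : S)
    (hE : ∀ p j, Dh * D (E p j) = Dh * (m p * E p j - ∑ q, n p q * E q j) + w * ∑ k, H k j * E p k) (l j : Fin 2) :
    Dh * D (x l * (E l j + t * ∑ p, n l p * E p j)) = Dh * M * (x l * (E l j + t * ∑ p, n l p * E p j)) +
      w * ∑ k, H k j * (x l * (E l k + t * ∑ p, n l p * E p k)) := by
  have h1 : D (∑ p, n l p * E p j) = ∑ p, n l p * D (E p j) := by
    rw [hsum]
    refine Finset.sum_congr rfl fun p _ => ?_
    rw [hmul, hn]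
    ring
  have h2 : Dh * ∑ p, n l p * D (E p j) = Dh * m l * ∑ p, n l p * E p j + w * ∑ k, H k j * ∑ p, n l p * E p k := by
    have e1 : ∀ p, Dh * (n l p * D (E p j)) = Dh * m l * (n l p * E p j) - Dh * (n l p * ∑ q, n p q * E q j) +
        w * (n l p * ∑ k, H k j * E p k) := by
      intro p
      linear_combination (n l p) * hE p j + (Dh * E p j) * hnm l p
    rw [Finset.mul_sum]
    simp only [e1]
    rw [Finset.sum_add_distrib, Finset.sum_sub_distrib, ← Finset.mul_sum, ← Finset.mul_sum, ← Finset.mul_sum]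
    have e2 : ∑ p, n l p * ∑ q, n p q * E q j = 0 := by
      simp only [Finset.mul_sum]
      rw [Finset.sum_comm]
      refine Finset.sum_eq_zero fun q _ => ?_
      have : ∀ p, n l p * (n p q * E q j) = n l p * n p q * E q j := fun p => by ring
      simp only [this]
      rw [← Finset.sum_mul, hnn, zero_mul]
    have e3 : ∑ p, n l p * ∑ k, H k j * E p k = ∑ k, H k j * ∑ p, n l p * E p k := by
      simp only [Finset.mul_sum]
      rw [Finset.sum_comm]
      refine Finset.sum_congr rfl fun k _ => Finset.sum_congr rfl fun p _ => by ring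
    rw [e2, e3]
    ring
  have h3 : ∑ k, H k j * (x l * (E l k + t * ∑ p, n l p * E p k)) =
      x l * (∑ k, H k j * E l k) + x l * t * ∑ k, H k j * ∑ p, n l p * E p k := by
    rw [Finset.mul_sum, Finset.mul_sum, ← Finset.sum_add_distrib]
    exact Finset.sum_congr rfl fun k _ => by ring
  rw [h3, hmul, hadd, hmul, h1, ht, hx]
  linear_combination (x l) * hE l j + (x l * t) * h2

end

/-! ## nilpotent matrices -/

lemma nil_tr {N : Matrix (Fin 2) (Fin 2) ℚ} (h : N * N = 0) : N 0 0 + N 1 1 = 0 ∧ N 0 0 * N 1 1 - N 0 1 * N 1 0 = 0 := by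
  have e : ∀ i k, N i 0 * N 0 k + N i 1 * N 1 k = 0 := by
    intro i k
    have := congrFun (congrFun h i) k
    rw [Matrix.mul_apply, Fin.sum_univ_two] at this
    exact this
  have h00 := e 0 0
  have h01 := e 0 1
  have h10 := e 1 0
  have h11 := e 1 1
  have htr : N 0 0 + N 1 1 = 0 := by
    by_contra ht
    have a1 : N 0 1 * (N 0 0 + N 1 1) = 0 := by linear_combination h01
    have a2 := (mul_eq_zero.1 a1).resolve_right ht
    rw [a2] at h00 h11
    have a3 : N 0 0 = 0 := by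
      have : N 0 0 ^ 2 = 0 := by linear_combination h00
      exact pow_eq_zero_iff (two_ne_zero) |>.1 this
    have a4 : N 1 1 = 0 := by
      have : N 1 1 ^ 2 = 0 := by linear_combination h11
      exact pow_eq_zero_iff (two_ne_zero) |>.1 this
    rw [a3, a4] at ht
    exact ht (by ring)
  refine ⟨htr, ?_⟩
  linear_combination (-1 : ℚ) * h00 + (N 0 0) * htr

/-! ## the fundamental matrix -/

abbrev PS := Polynomial (PowerSeries ℂ)

lemma th_C (f : PowerSeries ℂ) : th (Polynomial.C f) = Polynomial.C (X * PowerSeries.derivative ℂ f) := by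
  ext1 k
  rw [coeff_th, Polynomial.coeff_C, Polynomial.coeff_C, Polynomial.coeff_C, if_neg (Nat.succ_ne_zero k), mul_zero, add_zero]
  split_ifs
  · rfl
  · simp

lemma th_X : th Polynomial.X = 1 := by
  ext1 k
  rw [coeff_th, Polynomial.coeff_X, Polynomial.coeff_X, Polynomial.coeff_one]
  rcases k with _ | k
  · simp
  · have h1 : X * PowerSeries.derivative ℂ (if 1 = k + 1 then 1 else 0 : PowerSeries ℂ) = 0 := by
      split_ifs
      · rw [Derivation.map_one_eq_zero, mul_zero]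
      · rw [map_zero, mul_zero]
    rw [h1, if_neg (by omega), if_neg (by omega)]
    simp

lemma th_add (a b : PS) : th (a + b) = th a + th b := by
  ext1 k
  rw [Polynomial.coeff_add, coeff_th, coeff_th, coeff_th, Polynomial.coeff_add, Polynomial.coeff_add, map_add]
  ring

lemma th_sub (a b : PS) : th (a - b) = th a - th b := by
  ext1 k
  rw [Polynomial.coeff_sub, coeff_th, coeff_th, coeff_th, Polynomial.coeff_sub, Polynomial.coeff_sub, map_sub]
  ring

lemma th_zero : th 0 = 0 := by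
  have := th_add 0 0
  simpa using this

lemma th_sum (f : Fin 2 → PS) : th (∑ p, f p) = ∑ p, th (f p) := by
  rw [Fin.sum_univ_two, Fin.sum_univ_two, th_add]

lemma th_const (c : ℂ) : th (Polynomial.C (PowerSeries.C c)) = 0 := by
  rw [th_C, PowerSeries.derivative_C, mul_zero, map_zero]

lemma th_Xpow (m : ℕ) : th (Polynomial.C (X ^ m)) = (m : PS) * Polynomial.C (X ^ m) := by
  rw [th_C, Derivation.leibniz_pow, derivative_X, nsmul_eq_mul]
  have : (m : PS) = Polynomial.C (m : PowerSeries ℂ) := by simp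
  rw [this, ← map_mul]
  congr 1
  simp only [smul_eq_mul, mul_one]
  rcases m with _ | m
  · simp
  · rw [Nat.add_sub_cancel, pow_succ]
    ring

/-- polynomials in the logarithm with convergent coefficients -/
def PolyMem (τ : ℝ) (p : PS) : Prop := ∀ k, p.coeff k ∈ Cw τ

lemma PolyMem.C {τ : ℝ} {f : PowerSeries ℂ} (h : f ∈ Cw τ) : PolyMem τ (Polynomial.C f) := by
  intro k
  rw [Polynomial.coeff_C]
  split_ifs
  · exact h
  · exact (Cw τ).zero_mem

lemma PolyMem.X {τ : ℝ} : PolyMem τ Polynomial.X := by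
  intro k
  rw [Polynomial.coeff_X]
  split_ifs
  · exact (Cw τ).one_mem
  · exact (Cw τ).zero_mem

lemma PolyMem.mul {τ : ℝ} {p q : PS} (h : PolyMem τ p) (h' : PolyMem τ q) : PolyMem τ (p * q) := by
  intro k
  rw [Polynomial.coeff_mul]
  exact (Cw τ).sum_mem fun x _ => (Cw τ).mul_mem (h _) (h' _)

lemma PolyMem.add {τ : ℝ} {p q : PS} (h : PolyMem τ p) (h' : PolyMem τ q) : PolyMem τ (p + q) := by
  intro k
  rw [Polynomial.coeff_add]
  exact (Cw τ).add_mem (h _) (h' _)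

lemma PolyMem.sub {τ : ℝ} {p q : PS} (h : PolyMem τ p) (h' : PolyMem τ q) : PolyMem τ (p - q) := by
  intro k
  rw [Polynomial.coeff_sub]
  exact (Cw τ).sub_mem (h _) (h' _)

lemma PolyMem.sum {τ : ℝ} {f : Fin 2 → PS} (h : ∀ p, PolyMem τ (f p)) : PolyMem τ (∑ p, f p) := by
  rw [Fin.sum_univ_two]
  exact (h 0).add (h 1)

lemma PolyMem.ite {τ : ℝ} (p : Prop) [Decidable p] : PolyMem τ (if p then 1 else 0 : PS) := by
  split_ifs
  · have := PolyMem.C (τ := τ) (Cw τ).one_mem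
    rwa [map_one] at this
  · have := PolyMem.C (τ := τ) (Cw τ).zero_mem
    rwa [map_zero] at this

lemma h12 : (12 : ℕ) ≠ 0 := by norm_num

variable {a b : Polynomial ℚ}

/-- the rational polynomial as a complex one -/
noncomputable def cp (P : Polynomial ℚ) : Polynomial ℂ := P.map (algebraMap ℚ ℂ)

lemma coe_cp (P : Polynomial ℚ) : (cp P : PowerSeries ℂ) = cx (P : ℚ⟦X⟧) := (cx_poly P).symm

/-- the system of the entries -/
noncomputable def Ald (L : LD a b) (x z : Fin 2 × Fin 2) : Polynomial ℂ :=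
  cp ((if x.2 = z.2 then Polynomial.C (cN (fun i => (L.m i : ℚ) / 12) ((1 / 12 : ℚ) • L.N) x.1 z.1) * De a b else 0) +
    if x.1 = z.1 then Polynomial.X * AE a b z.2 x.2 else 0)

noncomputable def Tld (a b : Polynomial ℚ) : Polynomial ℂ := cp (Polynomial.X * De a b)

lemma ode_row (L : LD a b) (i j : Fin 2) : (De a b : ℚ⟦X⟧) * (X * d⁄dX ℚ (L.Y i j)) =
    (De a b : ℚ⟦X⟧) * (∑ k, PowerSeries.C (cN (fun i => (L.m i : ℚ) / 12) ((1 / 12 : ℚ) • L.N) i k) * L.Y k j) +
      ∑ k, X * (AE a b k j : ℚ⟦X⟧) * L.Y i k := by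
  have h1 := congrFun (L.ode j) i
  rw [Pi.smul_apply, smul_eq_mul, Dc_apply, Finset.sum_apply] at h1
  simp only [Pi.smul_apply, smul_eq_mul] at h1
  rw [mul_sub] at h1
  linear_combination h1

theorem ode_ld (L : LD a b) (x : Fin 2 × Fin 2) : (Tld a b : PowerSeries ℂ) * PowerSeries.derivative ℂ (cx (L.Y x.1 x.2)) =
    ∑ z : Fin 2 × Fin 2, (Ald L x z : PowerSeries ℂ) * cx (L.Y z.1 z.2) := by
  have h1 := congrArg cx (ode_row L x.1 x.2)
  have h2 : (Tld a b : PowerSeries ℂ) * PowerSeries.derivative ℂ (cx (L.Y x.1 x.2)) =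
      cx ((De a b : ℚ⟦X⟧) * (X * d⁄dX ℚ (L.Y x.1 x.2))) := by
    rw [Tld, coe_cp, Polynomial.coe_mul, Polynomial.coe_X, map_mul, map_mul, map_mul, cx_der]
    ring
  rw [h2, h1]
  have h3 : ∀ z, (Ald L x z : PowerSeries ℂ) * cx (L.Y z.1 z.2) = cx (
      (((if x.2 = z.2 then Polynomial.C (cN (fun i => (L.m i : ℚ) / 12) ((1 / 12 : ℚ) • L.N) x.1 z.1) * De a b else 0) +
    if x.1 = z.1 then Polynomial.X * AE a b z.2 x.2 else 0 : Polynomial ℚ) : ℚ⟦X⟧) * L.Y z.1 z.2) := fun z => by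
    rw [Ald, coe_cp, map_mul]
  simp only [h3]
  rw [← map_sum, Fintype.sum_prod_type]
  congr 1
  simp only [Polynomial.coe_add, add_mul, Finset.sum_add_distrib]
  congr 1
  · rw [Finset.mul_sum]
    refine Finset.sum_congr rfl fun k _ => ?_
    rw [Finset.sum_eq_single x.2]
    · rw [if_pos rfl, Polynomial.coe_mul, Polynomial.coe_C]
      ring
    · intro j _ hj
      rw [if_neg (Ne.symm hj)]
      simp
    · intro h
      exact absurd (Finset.mem_univ _) h
  · refine Eq.symm ((Finset.sum_eq_single x.1 ?_ ?_).trans ?_)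
    · intro j _ hj
      refine Finset.sum_eq_zero fun k _ => ?_
      rw [if_neg (Ne.symm hj)]
      simp
    · intro h
      exact absurd (Finset.mem_univ _) h
    · refine Finset.sum_congr rfl fun k _ => ?_
      rw [if_pos rfl, Polynomial.coe_mul, Polynomial.coe_X]

/-- the left factor -/
noncomputable def PP (L : LD a b) (i k : Fin 2) : PS :=
  Polynomial.C (X ^ L.m i) * ((if i = k then 1 else 0) - Polynomial.C (PowerSeries.C ((L.N i k : ℚ) : ℂ)) * Polynomial.X)

/-- the expanded series -/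
noncomputable def Ex (L : LD a b) (p j : Fin 2) : PS := Polynomial.C (expand 12 h12 (cx (L.Y p j)))

/-- the right factor -/
noncomputable def RR (L : LD a b) (l j : Fin 2) : PS :=
  Polynomial.C (X ^ (L.m 0 + L.m 1 - L.m l)) * (Ex L l j + Polynomial.X * ∑ p, Polynomial.C (PowerSeries.C ((L.N l p : ℚ) : ℂ)) * Ex L p j)

noncomputable def PhiM (L : LD a b) : Matrix (Fin 2 × Fin 2) (Fin 2 × Fin 2) PS := fun x z => PP L x.1 z.1 * RR L z.2 x.2

section
variable (L : LD a b)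

lemma NN0 (i k : Fin 2) : ∑ p, Polynomial.C (PowerSeries.C ((L.N i p : ℚ) : ℂ)) * Polynomial.C (PowerSeries.C ((L.N p k : ℚ) : ℂ)) =
    (0 : PS) := by
  have h1 := congrFun (congrFun L.hN i) k
  rw [Matrix.mul_apply] at h1
  simp only [← map_mul]
  rw [← map_sum, ← map_sum]
  have h2 : ∑ p, ((L.N i p : ℚ) : ℂ) * ((L.N p k : ℚ) : ℂ) = 0 := by
    rw [Matrix.zero_apply] at h1
    have := congrArg (fun q : ℚ => (q : ℂ)) h1
    push_cast at this
    exact this
  rw [h2, map_zero, map_zero]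

lemma Nm (i k : Fin 2) : Polynomial.C (PowerSeries.C ((L.N i k : ℚ) : ℂ)) * ((L.m k : ℕ) : PS) =
    Polynomial.C (PowerSeries.C ((L.N i k : ℚ) : ℂ)) * ((L.m i : ℕ) : PS) := by
  by_cases h : L.N i k = 0
  · rw [h]
    simp
  · rw [L.hm i k h]

lemma NX (i k : Fin 2) : Polynomial.C (PowerSeries.C ((L.N i k : ℚ) : ℂ)) * Polynomial.C (X ^ L.m k) =
    Polynomial.C (PowerSeries.C ((L.N i k : ℚ) : ℂ)) * Polynomial.C (X ^ L.m i) := by
  by_cases h : L.N i k = 0
  · rw [h]
    simp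
  · rw [L.hm i k h]

lemma th_PP (i k : Fin 2) : th (PP L i k) = (L.m i : PS) * PP L i k - ∑ p, Polynomial.C (PowerSeries.C ((L.N i p : ℚ) : ℂ)) * PP L p k :=
  alg_P th th_mul (fun i k => Polynomial.C (PowerSeries.C ((L.N i k : ℚ) : ℂ))) (fun _ _ => th_const _)
    (fun i k => NN0 L i k) (fun i => ((L.m i : ℕ) : PS)) Polynomial.X th_X th_zero th_one th_sub
    (fun i => Polynomial.C (X ^ L.m i)) (fun _ => th_Xpow _) (fun i k => NX L i k) i k

lemma th_Ex (p j : Fin 2) : Polynomial.C (expand 12 h12 (cx (De a b : ℚ⟦X⟧))) * th (Ex L p j) =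
    Polynomial.C (expand 12 h12 (cx (De a b : ℚ⟦X⟧))) * ((L.m p : PS) * Ex L p j -
      ∑ q, Polynomial.C (PowerSeries.C ((L.N p q : ℚ) : ℂ)) * Ex L q j) +
      Polynomial.C (12 * X ^ 12) * ∑ k, Polynomial.C (expand 12 h12 (cx (AE a b k j : ℚ⟦X⟧))) * Ex L p k := by
  have h1 := congrArg (fun f => expand 12 h12 (cx f)) (ode_row L p j)
  simp only [map_mul, map_add, map_sum] at h1
  have hX : expand 12 h12 (cx (X : ℚ⟦X⟧)) = (X : PowerSeries ℂ) ^ 12 := by
    have : cx (X : ℚ⟦X⟧) = X := by rw [cx, map_X]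
    rw [this, expand_X]
  have hC : ∀ r : ℚ, expand 12 h12 (cx (PowerSeries.C r)) = PowerSeries.C (r : ℂ) := fun r => by
    rw [cx_C, expand_C]
  rw [hX] at h1
  simp only [hC] at h1
  -- the coefficients
  have hc : ∑ k, PowerSeries.C ((cN (fun i => (L.m i : ℚ) / 12) ((1 / 12 : ℚ) • L.N) p k : ℚ) : ℂ) * expand 12 h12 (cx (L.Y k j)) =
      PowerSeries.C (1 / 12) * ((L.m p : PowerSeries ℂ) * expand 12 h12 (cx (L.Y p j)) -
        ∑ q, PowerSeries.C ((L.N p q : ℚ) : ℂ) * expand 12 h12 (cx (L.Y q j))) := by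
    have e1 : ∀ k, PowerSeries.C ((cN (fun i => (L.m i : ℚ) / 12) ((1 / 12 : ℚ) • L.N) p k : ℚ) : ℂ) =
        (if p = k then PowerSeries.C (1 / 12 : ℂ) * (L.m p : PowerSeries ℂ) else 0) - PowerSeries.C (1 / 12) * PowerSeries.C ((L.N p k : ℚ) : ℂ) := by
      intro k
      have hmC : (L.m p : PowerSeries ℂ) = PowerSeries.C (L.m p : ℂ) := by simp
      rw [hmC, cN, Matrix.sub_apply, Matrix.diagonal_apply, Matrix.smul_apply, smul_eq_mul]
      split_ifs
      · rw [← map_mul, ← map_mul, ← map_sub]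
        congr 1
        push_cast
        ring
      · rw [← map_mul, ← map_zero (PowerSeries.C (R := ℂ)), ← map_sub]
        congr 1
        push_cast
        ring
    simp only [e1, sub_mul, Finset.sum_sub_distrib, mul_sub]
    congr 1
    · rw [Finset.sum_eq_single p]
      · rw [if_pos rfl]
        ring
      · intro q _ hq
        rw [if_neg (Ne.symm hq), zero_mul]
      · intro h
        exact absurd (Finset.mem_univ _) h
    · rw [Finset.mul_sum]
      exact Finset.sum_congr rfl fun q _ => by ring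
  rw [hc] at h1
  have hd : X * PowerSeries.derivative ℂ (expand 12 h12 (cx (L.Y p j))) = 12 * (X ^ 12 * expand 12 h12 (cx (d⁄dX ℚ (L.Y p j)))) := by
    rw [derivative_expand, cx_der]
    push_cast
    ring
  have h12C : (12 : PowerSeries ℂ) * PowerSeries.C (1 / 12) = 1 := by
    have : (12 : PowerSeries ℂ) = PowerSeries.C 12 := (map_ofNat (PowerSeries.C (R := ℂ)) 12).symm
    rw [this, ← map_mul]
    norm_num
  have key : expand 12 h12 (cx (De a b : ℚ⟦X⟧)) * (X * PowerSeries.derivative ℂ (expand 12 h12 (cx (L.Y p j)))) =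
      expand 12 h12 (cx (De a b : ℚ⟦X⟧)) * ((L.m p : PowerSeries ℂ) * expand 12 h12 (cx (L.Y p j)) -
        ∑ q, PowerSeries.C ((L.N p q : ℚ) : ℂ) * expand 12 h12 (cx (L.Y q j))) +
      (12 * X ^ 12) * ∑ k, expand 12 h12 (cx (AE a b k j : ℚ⟦X⟧)) * expand 12 h12 (cx (L.Y p k)) := by
    have e2 : ∑ k, X ^ 12 * expand 12 h12 (cx (AE a b k j : ℚ⟦X⟧)) * expand 12 h12 (cx (L.Y p k)) =
        X ^ 12 * ∑ k, expand 12 h12 (cx (AE a b k j : ℚ⟦X⟧)) * expand 12 h12 (cx (L.Y p k)) := by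
      rw [Finset.mul_sum]
      exact Finset.sum_congr rfl fun q _ => by ring
    rw [e2] at h1
    rw [hd]
    linear_combination 12 * h1 + (expand 12 h12 (cx (De a b : ℚ⟦X⟧))) * ((L.m p : PowerSeries ℂ) * expand 12 h12 (cx (L.Y p j)) -
        ∑ q, PowerSeries.C ((L.N p q : ℚ) : ℂ) * expand 12 h12 (cx (L.Y q j))) * h12C
  have h2 := congrArg (Polynomial.C : PowerSeries ℂ →+* PS) key
  rw [map_mul, ← th_C, map_add, map_mul, map_sub, map_mul, map_sum, map_mul, map_sum] at h2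
  simp only [map_mul] at h2
  have hmC : Polynomial.C (L.m p : PowerSeries ℂ) = (L.m p : PS) := by simp
  rw [hmC] at h2
  unfold Ex
  rw [h2]
  simp only [map_mul]

lemma th_RR (l j : Fin 2) : Polynomial.C (expand 12 h12 (cx (De a b : ℚ⟦X⟧))) * th (RR L l j) =
    Polynomial.C (expand 12 h12 (cx (De a b : ℚ⟦X⟧))) * ((L.m 0 + L.m 1 : ℕ) : PS) * RR L l j +
      Polynomial.C (12 * X ^ 12) * ∑ k, Polynomial.C (expand 12 h12 (cx (AE a b k j : ℚ⟦X⟧))) * RR L l k := by
  refine alg_R th th_add th_mul (fun i k => Polynomial.C (PowerSeries.C ((L.N i k : ℚ) : ℂ))) (fun _ _ => th_const _)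
    (fun i k => NN0 L i k) (fun i => ((L.m i : ℕ) : PS)) (fun i k => Nm L i k) Polynomial.X th_X
    (fun l => Polynomial.C (X ^ (L.m 0 + L.m 1 - L.m l))) ((L.m 0 + L.m 1 : ℕ) : PS) (fun l => ?_) th_sum (Ex L)
    (fun k j => Polynomial.C (expand 12 h12 (cx (AE a b k j : ℚ⟦X⟧)))) _ _ (fun p j => th_Ex L p j) l j
  rw [th_Xpow]
  congr 1
  have : L.m l ≤ L.m 0 + L.m 1 := by fin_cases l <;> simp
  rw [Nat.cast_sub this]

lemma det_PP : (Matrix.of (PP L)).det = Polynomial.C (X ^ (L.m 0 + L.m 1)) := by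
  obtain ⟨h1, h2⟩ := nil_tr L.hN
  rw [Matrix.det_fin_two]
  simp only [Matrix.of_apply, PP, if_true]
  rw [if_neg (by decide), if_neg (by decide)]
  have e1 : Polynomial.C (PowerSeries.C ((L.N 0 0 : ℚ) : ℂ)) + Polynomial.C (PowerSeries.C ((L.N 1 1 : ℚ) : ℂ)) = (0 : PS) := by
    rw [← map_add, ← map_add]
    have : ((L.N 0 0 : ℚ) : ℂ) + ((L.N 1 1 : ℚ) : ℂ) = 0 := by exact_mod_cast h1
    rw [this, map_zero, map_zero]
  have e2 : Polynomial.C (PowerSeries.C ((L.N 0 0 : ℚ) : ℂ)) * Polynomial.C (PowerSeries.C ((L.N 1 1 : ℚ) : ℂ)) -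
      Polynomial.C (PowerSeries.C ((L.N 0 1 : ℚ) : ℂ)) * Polynomial.C (PowerSeries.C ((L.N 1 0 : ℚ) : ℂ)) = (0 : PS) := by
    rw [← map_mul, ← map_mul, ← map_mul, ← map_mul, ← map_sub, ← map_sub]
    have : ((L.N 0 0 : ℚ) : ℂ) * ((L.N 1 1 : ℚ) : ℂ) - ((L.N 0 1 : ℚ) : ℂ) * ((L.N 1 0 : ℚ) : ℂ) = 0 := by exact_mod_cast h2
    rw [this, map_zero, map_zero]
  rw [pow_add, map_mul]
  linear_combination (-(Polynomial.C (X ^ L.m 0) * Polynomial.C (X ^ L.m 1)) * Polynomial.X) * e1 +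
    (Polynomial.C (X ^ L.m 0) * Polynomial.C (X ^ L.m 1) * Polynomial.X ^ 2) * e2

lemma det_RR : (Matrix.of (RR L)).det = Polynomial.C (X ^ (L.m 0 + L.m 1)) *
    Polynomial.C (expand 12 h12 (cx (L.Y 0 0 * L.Y 1 1 - L.Y 0 1 * L.Y 1 0))) := by
  obtain ⟨h1, h2⟩ := nil_tr L.hN
  rw [Matrix.det_fin_two]
  simp only [Matrix.of_apply, RR, Fin.sum_univ_two]
  have e1 : Polynomial.C (PowerSeries.C ((L.N 0 0 : ℚ) : ℂ)) + Polynomial.C (PowerSeries.C ((L.N 1 1 : ℚ) : ℂ)) = (0 : PS) := by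
    rw [← map_add, ← map_add]
    have : ((L.N 0 0 : ℚ) : ℂ) + ((L.N 1 1 : ℚ) : ℂ) = 0 := by exact_mod_cast h1
    rw [this, map_zero, map_zero]
  have e2 : Polynomial.C (PowerSeries.C ((L.N 0 0 : ℚ) : ℂ)) * Polynomial.C (PowerSeries.C ((L.N 1 1 : ℚ) : ℂ)) -
      Polynomial.C (PowerSeries.C ((L.N 0 1 : ℚ) : ℂ)) * Polynomial.C (PowerSeries.C ((L.N 1 0 : ℚ) : ℂ)) = (0 : PS) := by
    rw [← map_mul, ← map_mul, ← map_mul, ← map_mul, ← map_sub, ← map_sub]
    have : ((L.N 0 0 : ℚ) : ℂ) * ((L.N 1 1 : ℚ) : ℂ) - ((L.N 0 1 : ℚ) : ℂ) * ((L.N 1 0 : ℚ) : ℂ) = 0 := by exact_mod_cast h2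
    rw [this, map_zero, map_zero]
  have e3 : (Polynomial.C (X ^ (L.m 0 + L.m 1 - L.m 0)) : PS) * Polynomial.C (X ^ (L.m 0 + L.m 1 - L.m 1)) =
      Polynomial.C (X ^ (L.m 0 + L.m 1)) := by
    rw [← map_mul, ← pow_add]
    congr 2
    omega
  have e4 : Polynomial.C (expand 12 h12 (cx (L.Y 0 0 * L.Y 1 1 - L.Y 0 1 * L.Y 1 0))) =
      Ex L 0 0 * Ex L 1 1 - Ex L 0 1 * Ex L 1 0 := by
    simp only [Ex, map_mul, map_sub]
  rw [e4, ← e3]
  linear_combination (Polynomial.C (X ^ (L.m 0 + L.m 1 - L.m 0)) * Polynomial.C (X ^ (L.m 0 + L.m 1 - L.m 1)) * Polynomial.X *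
    (Ex L 0 0 * Ex L 1 1 - Ex L 0 1 * Ex L 1 0)) * e1 +
    (Polynomial.C (X ^ (L.m 0 + L.m 1 - L.m 0)) * Polynomial.C (X ^ (L.m 0 + L.m 1 - L.m 1)) * Polynomial.X ^ 2 *
    (Ex L 0 0 * Ex L 1 1 - Ex L 0 1 * Ex L 1 0)) * e2

lemma cx_inj : Function.Injective cx := by
  intro f g h
  ext m
  have := congrArg (coeff m) h
  rw [coeff_cx, coeff_cx] at this
  exact_mod_cast this

lemma expand_ne {f : PowerSeries ℂ} (h : f ≠ 0) : expand 12 h12 f ≠ 0 := by
  intro h0
  apply h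
  ext m
  have := congrArg (coeff (12 * m)) h0
  rw [coeff_expand_mul] at this
  simpa using this

lemma det_Phi : (PhiM L).det ≠ 0 := by
  have h1 : PhiM L = Matrix.kroneckerMap (· * ·) (Matrix.of (PP L)) (Matrix.of (RR L)).transpose := by
    ext1 x z
    rfl
  have h2 : (PhiM L).det = (Matrix.of (PP L)).det ^ 2 * (Matrix.of (RR L)).det ^ 2 := by
    rw [h1]
    have := Matrix.det_kronecker (Matrix.of (PP L)) (Matrix.of (RR L)).transpose
    rw [Matrix.det_transpose, Fintype.card_fin] at this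
    exact this
  rw [h2, det_PP, det_RR]
  have hX : (Polynomial.C (X ^ (L.m 0 + L.m 1)) : PS) ≠ 0 := Polynomial.C_ne_zero.2 (pow_ne_zero _ X_ne_zero)
  have hY : (Polynomial.C (expand 12 h12 (cx (L.Y 0 0 * L.Y 1 1 - L.Y 0 1 * L.Y 1 0))) : PS) ≠ 0 := by
    refine Polynomial.C_ne_zero.2 (expand_ne ?_)
    intro h
    exact L.det (cx_inj (by rw [h, map_zero]))
  exact mul_ne_zero (pow_ne_zero _ hX) (pow_ne_zero _ (mul_ne_zero hX hY))

theorem qu_ld {τ : ℝ} (hτ : 0 < τ) (hY : ∀ i j, cx (L.Y i j) ∈ Cw (τ ^ 12)) : QU h12 τ (Tld a b) (Ald L) := by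
  have hE : ∀ p j, PolyMem τ (Ex L p j) := fun p j => PolyMem.C (expand_mem h12 hτ (hY p j))
  have hXp : ∀ n : ℕ, PolyMem τ (Polynomial.C (X ^ n) : PS) := fun n => PolyMem.C ((Cw τ).pow_mem X_mem n)
  have hNc : ∀ i k, PolyMem τ (Polynomial.C (PowerSeries.C ((L.N i k : ℚ) : ℂ))) := fun i k => PolyMem.C (C_mem _)
  have hPP : ∀ i k, PolyMem τ (PP L i k) := fun i k => (hXp _).mul ((PolyMem.ite _).sub ((hNc i k).mul PolyMem.X))
  have hRR : ∀ l j, PolyMem τ (RR L l j) := fun l j => (hXp _).mul ((hE l j).add (PolyMem.X.mul (PolyMem.sum fun p => (hNc l p).mul (hE p j))))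
  refine ⟨L.m 0 + L.m 1, PhiM L, fun x z => (hPP x.1 z.1).mul (hRR z.2 x.2), ?_, det_Phi L⟩
  rw [qu_eqn]
  intro z x
  have hT : expand 12 h12 (Tld a b : PowerSeries ℂ) = X ^ 12 * expand 12 h12 (cx (De a b : ℚ⟦X⟧)) := by
    rw [Tld, coe_cp, Polynomial.coe_mul, Polynomial.coe_X, map_mul, map_mul]
    have : cx (X : ℚ⟦X⟧) = X := by rw [cx, map_X]
    rw [this, expand_X]
  have hX : expand 12 h12 (cx (X : ℚ⟦X⟧)) = (X : PowerSeries ℂ) ^ 12 := by
    have : cx (X : ℚ⟦X⟧) = X := by rw [cx, map_X]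
    rw [this, expand_X]
  have h1 := th_PP L x.1 z.1
  have h2 := th_RR L z.2 x.2
  -- the matrix
  have hA : ∑ w : Fin 2 × Fin 2, Polynomial.C (((12 : ℕ) : PowerSeries ℂ) * X ^ 12 * expand 12 h12 (Ald L x w : PowerSeries ℂ)) * PhiM L w z =
      Polynomial.C (X ^ 12) * (Polynomial.C (expand 12 h12 (cx (De a b : ℚ⟦X⟧))) * (((L.m x.1 : ℕ) : PS) * PP L x.1 z.1 -
        ∑ p, Polynomial.C (PowerSeries.C ((L.N x.1 p : ℚ) : ℂ)) * PP L p z.1)) * RR L z.2 x.2 +
      Polynomial.C (X ^ 12) * (Polynomial.C (12 * X ^ 12) * ∑ k, Polynomial.C (expand 12 h12 (cx (AE a b k x.2 : ℚ⟦X⟧))) * RR L z.2 k) * PP L x.1 z.1 := by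
    have hAx : ∀ w : Fin 2 × Fin 2, Polynomial.C (((12 : ℕ) : PowerSeries ℂ) * X ^ 12 * expand 12 h12 (Ald L x w : PowerSeries ℂ)) =
        (if x.2 = w.2 then Polynomial.C (X ^ 12) * Polynomial.C (expand 12 h12 (cx (De a b : ℚ⟦X⟧))) *
          ((if x.1 = w.1 then ((L.m x.1 : ℕ) : PS) else 0) - Polynomial.C (PowerSeries.C ((L.N x.1 w.1 : ℚ) : ℂ))) else 0) +
        (if x.1 = w.1 then Polynomial.C (X ^ 12) * Polynomial.C (12 * X ^ 12) * Polynomial.C (expand 12 h12 (cx (AE a b w.2 x.2 : ℚ⟦X⟧))) else 0) := by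
      intro w
      have hc12 : (12 : PowerSeries ℂ) * PowerSeries.C ((cN (fun i => (L.m i : ℚ) / 12) ((1 / 12 : ℚ) • L.N) x.1 w.1 : ℚ) : ℂ) =
          (if x.1 = w.1 then (L.m x.1 : PowerSeries ℂ) else 0) - PowerSeries.C ((L.N x.1 w.1 : ℚ) : ℂ) := by
        have h12C : (12 : PowerSeries ℂ) = PowerSeries.C 12 := (map_ofNat (PowerSeries.C (R := ℂ)) 12).symm
        have hmC : (L.m x.1 : PowerSeries ℂ) = PowerSeries.C (L.m x.1 : ℂ) := by simp
        rw [h12C, hmC, cN, Matrix.sub_apply, Matrix.diagonal_apply, Matrix.smul_apply, smul_eq_mul]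
        split_ifs
        · rw [← map_mul, ← map_sub]
          congr 1
          push_cast
          ring
        · rw [← map_mul, ← map_zero (PowerSeries.C (R := ℂ)), ← map_sub]
          congr 1
          push_cast
          ring
      have e0 : expand 12 h12 (Ald L x w : PowerSeries ℂ) =
          (if x.2 = w.2 then PowerSeries.C ((cN (fun i => (L.m i : ℚ) / 12) ((1 / 12 : ℚ) • L.N) x.1 w.1 : ℚ) : ℂ) *
            expand 12 h12 (cx (De a b : ℚ⟦X⟧)) else 0) +
          (if x.1 = w.1 then X ^ 12 * expand 12 h12 (cx (AE a b w.2 x.2 : ℚ⟦X⟧)) else 0) := by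
        rw [Ald, coe_cp, Polynomial.coe_add, map_add, map_add]
        congr 1
        · split_ifs
          · rw [Polynomial.coe_mul, Polynomial.coe_C, map_mul, map_mul, cx_C, expand_C]
          · rw [Polynomial.coe_zero, map_zero, map_zero]
        · split_ifs
          · rw [Polynomial.coe_mul, Polynomial.coe_X, map_mul, map_mul, hX]
          · rw [Polynomial.coe_zero, map_zero, map_zero]
      rw [e0, mul_add, map_add]
      congr 1
      · by_cases hj : x.2 = w.2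
        · rw [if_pos hj, if_pos hj]
          have e1 : ((12 : ℕ) : PowerSeries ℂ) * X ^ 12 * (PowerSeries.C ((cN (fun i => (L.m i : ℚ) / 12) ((1 / 12 : ℚ) • L.N) x.1 w.1 : ℚ) : ℂ) *
              expand 12 h12 (cx (De a b : ℚ⟦X⟧))) = X ^ 12 * expand 12 h12 (cx (De a b : ℚ⟦X⟧)) *
              ((12 : PowerSeries ℂ) * PowerSeries.C ((cN (fun i => (L.m i : ℚ) / 12) ((1 / 12 : ℚ) • L.N) x.1 w.1 : ℚ) : ℂ)) := by
            push_cast
            ring
          rw [e1, hc12, map_mul, map_mul, map_sub]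
          congr 2
          split_ifs
          · simp
          · simp
        · rw [if_neg hj, if_neg hj, mul_zero, map_zero]
      · by_cases hj : x.1 = w.1
        · rw [if_pos hj, if_pos hj, ← map_mul, ← map_mul]
          congr 1
          push_cast
          ring
        · rw [if_neg hj, if_neg hj, mul_zero, map_zero]
    simp only [hAx, add_mul, Finset.sum_add_distrib]
    congr 1
    · rw [Fintype.sum_prod_type]
      have e1 : ∀ i, ∑ j, (if x.2 = j then Polynomial.C (X ^ 12) * Polynomial.C (expand 12 h12 (cx (De a b : ℚ⟦X⟧))) *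
          ((if x.1 = i then ((L.m x.1 : ℕ) : PS) else 0) - Polynomial.C (PowerSeries.C ((L.N x.1 i : ℚ) : ℂ))) else 0) * PhiM L (i, j) z =
          Polynomial.C (X ^ 12) * Polynomial.C (expand 12 h12 (cx (De a b : ℚ⟦X⟧))) * RR L z.2 x.2 *
          (((if x.1 = i then ((L.m x.1 : ℕ) : PS) else 0) - Polynomial.C (PowerSeries.C ((L.N x.1 i : ℚ) : ℂ))) * PP L i z.1) := by
        intro i
        rw [Finset.sum_eq_single x.2]
        · rw [if_pos rfl]
          show _ * (PP L i z.1 * RR L z.2 x.2) = _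
          ring
        · intro j _ hj
          rw [if_neg (Ne.symm hj), zero_mul]
        · intro h
          exact absurd (Finset.mem_univ _) h
      simp only [e1]
      rw [← Finset.mul_sum]
      simp only [sub_mul, Finset.sum_sub_distrib]
      rw [Finset.sum_eq_single x.1]
      · rw [if_pos rfl]
        ring
      · intro i _ hi
        rw [if_neg (Ne.symm hi), zero_mul]
      · intro h
        exact absurd (Finset.mem_univ _) h
    · rw [Fintype.sum_prod_type, Finset.sum_eq_single x.1]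
      · have e1 : ∀ k, (if x.1 = x.1 then Polynomial.C (X ^ 12) * Polynomial.C (12 * X ^ 12) * Polynomial.C (expand 12 h12 (cx (AE a b k x.2 : ℚ⟦X⟧))) else 0) *
            PhiM L (x.1, k) z = Polynomial.C (X ^ 12) * Polynomial.C (12 * X ^ 12) * PP L x.1 z.1 *
            (Polynomial.C (expand 12 h12 (cx (AE a b k x.2 : ℚ⟦X⟧))) * RR L z.2 k) := by
          intro k
          rw [if_pos rfl]
          show _ * (PP L x.1 z.1 * RR L z.2 k) = _
          ring
        refine (Finset.sum_congr rfl fun k _ => e1 k).trans ?_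
        rw [← Finset.mul_sum]
        ring
      · intro i _ hi
        refine Finset.sum_eq_zero fun k _ => ?_
        rw [if_neg (Ne.symm hi), zero_mul]
      · intro h
        exact absurd (Finset.mem_univ _) h
  rw [hA]
  show Polynomial.C (expand 12 h12 (Tld a b : PowerSeries ℂ)) * th (PP L x.1 z.1 * RR L z.2 x.2) =
    Polynomial.C (expand 12 h12 (Tld a b : PowerSeries ℂ) * ((L.m 0 + L.m 1 : ℕ) : PowerSeries ℂ)) * (PP L x.1 z.1 * RR L z.2 x.2) + _
  rw [th_mul, hT, h1]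
  have hM : Polynomial.C (((L.m 0 + L.m 1 : ℕ) : PowerSeries ℂ)) = ((L.m 0 + L.m 1 : ℕ) : PS) := by simp
  have e1 : (Polynomial.C (X ^ 12 * expand 12 h12 (cx (De a b : ℚ⟦X⟧))) : PS) =
      Polynomial.C (X ^ 12) * Polynomial.C (expand 12 h12 (cx (De a b : ℚ⟦X⟧))) := map_mul _ _ _
  have e2 : (Polynomial.C (X ^ 12 * expand 12 h12 (cx (De a b : ℚ⟦X⟧)) * ((L.m 0 + L.m 1 : ℕ) : PowerSeries ℂ)) : PS) =
      Polynomial.C (X ^ 12) * Polynomial.C (expand 12 h12 (cx (De a b : ℚ⟦X⟧))) * ((L.m 0 + L.m 1 : ℕ) : PS) := by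
    rw [map_mul, map_mul, hM]
  rw [e1, e2]
  linear_combination (Polynomial.C (X ^ 12) * PP L x.1 z.1) * h2

end

end Pool.Agent.Y124.GE
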