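import Pool.Agent.Y124.EllInd
import Pool.Agent.Y124.FamC
import Pool.Agent.Y124.GE.Qu

/-!
# The differential equation of the periods
-/

set_option autoImplicit false

open Filter Topology Complex

namespace Pool.Agent.Y124.GE

open Pool.Agent.Y124

/-- the domain of `K`, `E` -/
def DK : Set ℂ := {m | 1 - m ∈ slitPlane}

lemma isOpen_DK : IsOpen DK := isOpen_dom

lemma preconnected_DK : IsPreconnected DK := by
  have h1 : StarConvex ℝ (0 : ℂ) DK := by
    intro z hz x y hx hy hxy
    show 1 - (x • (0 : ℂ) + y • z) ∈ slitPlane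
    have h2 : 1 - (x • (0 : ℂ) + y • z) = x • (1 : ℂ) + y • (1 - z) := by
      simp only [Complex.real_smul]
      have h3 : ((x : ℝ) : ℂ) + ((y : ℝ) : ℂ) = 1 := by exact_mod_cast hxy
      linear_combination (-1 : ℂ) * h3
    rw [h2]
    exact starConvex_one_slitPlane hz hx hy hxy
  exact (h1.isPathConnected (by show (1 : ℂ) - 0 ∈ slitPlane; rw [sub_zero]; exact one_mem_slitPlane)).isConnected.isPreconnected

/-- from the real interval to the domain -/
lemma DK_zero {F : ℂ → ℂ} (hF : AnalyticOnNhd ℂ F DK) (h : ∀ t : ℝ, 0 < t → t < 1 → F t = 0) {m : ℂ} (hm : m ∈ DK) : F m = 0 := by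
  have hz0 : ((1 / 2 : ℝ) : ℂ) ∈ DK := half_mem_Dom.2
  refine hF.eqOn_zero_of_preconnected_of_frequently_eq_zero preconnected_DK hz0 ?_ hm
  have h1 : Tendsto (fun n : ℕ => (((1 / 2 : ℝ) + 1 / ((n : ℝ) + 3) : ℝ) : ℂ)) atTop (𝓝[≠] ((1 / 2 : ℝ) : ℂ)) := by
    rw [tendsto_nhdsWithin_iff]
    constructor
    · have h2 : Tendsto (fun n : ℕ => (1 / 2 : ℝ) + 1 / ((n : ℝ) + 3)) atTop (𝓝 ((1 / 2 : ℝ) + 0)) := by
        refine tendsto_const_nhds.add ?_
        have h3 := tendsto_one_div_add_atTop_nhds_zero_nat (𝕜 := ℝ)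
        have h4 := h3.comp (tendsto_add_atTop_nat 2)
        refine h4.congr fun n => ?_
        simp only [Function.comp_apply]
        push_cast
        ring
      rw [add_zero] at h2
      exact (continuous_ofReal.tendsto _).comp h2
    · refine Eventually.of_forall fun n => ?_
      simp only [Set.mem_compl_iff, Set.mem_singleton_iff, ofReal_inj]
      have : (0 : ℝ) < 1 / ((n : ℝ) + 3) := by positivity
      linarith
  refine h1.frequently (Frequently.of_forall fun n => ?_)
  have h3 : (0 : ℝ) < 1 / ((n : ℝ) + 3) := by positivity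
  have h4 : 1 / ((n : ℝ) + 3) ≤ 1 / 3 := by
    apply one_div_le_one_div_of_le (by norm_num)
    have : (0 : ℝ) ≤ n := by positivity
    linarith
  exact h _ (by linarith) (by linarith)

lemma deriv_real {F : ℂ → ℂ} {f : ℝ → ℝ} {t f' : ℝ} (hF : DifferentiableAt ℂ F t) (h : ∀ᶠ x : ℝ in 𝓝 t, F x = ((f x : ℝ) : ℂ))
    (hf : HasDerivAt f f' t) : deriv F t = ((f' : ℝ) : ℂ) := by
  have h1 : HasDerivAt (fun x : ℝ => F x) (deriv F t) t := hF.hasDerivAt.comp_ofReal
  have h2 : HasDerivAt (fun x : ℝ => ((f x : ℝ) : ℂ)) ((f' : ℝ) : ℂ) t := hf.ofReal_comp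
  have h3 : HasDerivAt (fun x : ℝ => F x) ((f' : ℝ) : ℂ) t := h2.congr_of_eventuallyEq h
  exact h1.unique h3

/-- complete elliptic integrals -/
noncomputable abbrev eK (m : ℂ) : ℂ := ellI (-(1 / 2)) m
noncomputable abbrev eE (m : ℂ) : ℂ := ellI (1 / 2) m

lemma deriv_K {m : ℂ} (hm : m ∈ DK) : 2 * m * (1 - m) * deriv eK m = eE m - (1 - m) * eK m := by
  have hK : AnalyticOnNhd ℂ eK DK := fun z hz => ellI_analyticAt _ z hz
  have hE : AnalyticOnNhd ℂ eE DK := fun z hz => ellI_analyticAt _ z hz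
  have h1 : AnalyticOnNhd ℂ (fun m => 2 * m * (1 - m) * deriv eK m - (eE m - (1 - m) * eK m)) DK := by
    intro z hz
    have hd := (hK.deriv) z hz
    have := hK z hz
    have := hE z hz
    fun_prop
  have h2 := DK_zero h1 (fun t h0 h1 => ?_) hm
  · linear_combination h2
  · have hd := deriv_real (F := eK) (f := TH818.AR.KK) (t := t) (hK t (real_mem_Dom h0 h1).2).differentiableAt (by
      filter_upwards [Iio_mem_nhds h1] with x hx
      exact ellK_ofReal x hx) (TH818.AR.ode t h1 h0.ne').1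
    rw [hd]
    have e1 : eK t = ((TH818.AR.KK t : ℝ) : ℂ) := ellK_ofReal t h1
    have e2 : eE t = ((TH818.AR.EE t : ℝ) : ℂ) := ellE_ofReal t h1
    rw [e1, e2]
    have h3 : (t : ℂ) ≠ 0 := by exact_mod_cast h0.ne'
    have h4 : (1 - t : ℂ) ≠ 0 := by
      have : (1 - t : ℝ) ≠ 0 := by linarith
      exact_mod_cast this
    push_cast
    field_simp
    ring

lemma deriv_E {m : ℂ} (hm : m ∈ DK) : 2 * m * deriv eE m = eE m - eK m := by
  have hK : AnalyticOnNhd ℂ eK DK := fun z hz => ellI_analyticAt _ z hz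
  have hE : AnalyticOnNhd ℂ eE DK := fun z hz => ellI_analyticAt _ z hz
  have h1 : AnalyticOnNhd ℂ (fun m => 2 * m * deriv eE m - (eE m - eK m)) DK := by
    intro z hz
    have hd := (hE.deriv) z hz
    have := hK z hz
    have := hE z hz
    fun_prop
  have h2 := DK_zero h1 (fun t h0 h1 => ?_) hm
  · linear_combination h2
  · have hd := deriv_real (F := eE) (f := TH818.AR.EE) (t := t) (hE t (real_mem_Dom h0 h1).2).differentiableAt (by
      filter_upwards [Iio_mem_nhds h1] with x hx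
      exact ellE_ofReal x hx) (TH818.AR.ode t h1 h0.ne').2
    rw [hd]
    have e1 : eK t = ((TH818.AR.KK t : ℝ) : ℂ) := ellK_ofReal t h1
    have e2 : eE t = ((TH818.AR.EE t : ℝ) : ℂ) := ellE_ofReal t h1
    rw [e1, e2]
    have h3 : (t : ℂ) ≠ 0 := by exact_mod_cast h0.ne'
    push_cast
    field_simp
    ring

/-- the periods `∮ dx / y`, `∮ x dx / y` over one cycle -/
noncomputable def row (l v : ℂ) : Fin 2 → ℂ :=
  ![4 / v * eK l, 4 / v * (-(v ^ 2 * (1 + l) / 3) * eK l + v ^ 2 * (eK l - eE l))]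

lemma row_analytic {l v : ℂ → ℂ} {s : ℂ} (hl : AnalyticAt ℂ l s) (hv : AnalyticAt ℂ v s) (hD : l s ∈ DK) (hv0 : v s ≠ 0) (j : Fin 2) :
    AnalyticAt ℂ (fun x => row (l x) (v x) j) s := by
  have hK : AnalyticAt ℂ (fun x => eK (l x)) s := AnalyticAt.fun_comp (g := eK) (f := l) (ellI_analyticAt _ _ hD) hl
  have hE : AnalyticAt ℂ (fun x => eE (l x)) s := AnalyticAt.fun_comp (g := eE) (f := l) (ellI_analyticAt _ _ hD) hl
  have h4 : AnalyticAt ℂ (fun x => 4 / v x) s := analyticAt_const.div hv hv0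
  fin_cases j
  · exact h4.mul hK
  · show AnalyticAt ℂ (fun x => 4 / v x * (-(v x ^ 2 * (1 + l x) / 3) * eK (l x) + v x ^ 2 * (eK (l x) - eE (l x)))) s
    refine h4.mul (((((hv.pow 2).mul (analyticAt_const.add hl)).div analyticAt_const (by norm_num)).neg.mul hK).add ((hv.pow 2).mul (hK.sub hE)))

theorem row_ode {a b : Polynomial ℂ} {l v : ℂ → ℂ} {s : ℂ} (hl : AnalyticAt ℂ l s) (hv : AnalyticAt ℂ v s) (hD : l s ∈ DK)
    (hl0 : l s ≠ 0) (hv0 : v s ≠ 0) (heq : ∀ᶠ x in 𝓝 s, EQ a b x (l x) (v x)) :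
    (4 * a.eval s ^ 3 + 27 * b.eval s ^ 2) * deriv (fun x => row (l x) (v x) 0) s =
      -((12 * a.eval s ^ 2 * a.derivative.eval s + 54 * b.eval s * b.derivative.eval s) / 12) * row (l s) (v s) 0 -
        3 / 2 * (2 * a.eval s * b.derivative.eval s - 3 * a.derivative.eval s * b.eval s) * row (l s) (v s) 1 ∧
    (4 * a.eval s ^ 3 + 27 * b.eval s ^ 2) * deriv (fun x => row (l x) (v x) 1) s =
      -(1 / 2 * (a.eval s * (2 * a.eval s * b.derivative.eval s - 3 * a.derivative.eval s * b.eval s))) * row (l s) (v s) 0 +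
        (12 * a.eval s ^ 2 * a.derivative.eval s + 54 * b.eval s * b.derivative.eval s) / 12 * row (l s) (v s) 1 := by
  have h1l : 1 - l s ≠ 0 := slitPlane_ne_zero hD
  have hld := hl.differentiableAt.hasDerivAt
  have hvd := hv.differentiableAt.hasDerivAt
  have hKd : HasDerivAt (fun x => eK (l x)) (deriv eK (l s) * deriv l s) s :=
    ((ellI_analyticAt _ _ hD).differentiableAt.hasDerivAt).comp s hld
  have hEd : HasDerivAt (fun x => eE (l x)) (deriv eE (l s) * deriv l s) s :=
    ((ellI_analyticAt _ _ hD).differentiableAt.hasDerivAt).comp s hld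
  have hK := deriv_K hD
  have hE := deriv_E hD
  have hK' : deriv eK (l s) = (eE (l s) - (1 - l s) * eK (l s)) / (2 * l s * (1 - l s)) := by
    field_simp
    linear_combination hK
  have hE' : deriv eE (l s) = (eE (l s) - eK (l s)) / (2 * l s) := by
    field_simp
    linear_combination hE
  -- derivatives of a, b
  have ha1 : HasDerivAt (fun x => a.eval x) (a.derivative.eval s) s := a.hasDerivAt s
  have hb1 : HasDerivAt (fun x => b.eval x) (b.derivative.eval s) s := b.hasDerivAt s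
  have ha2 : HasDerivAt (fun x => -(v x ^ 4 * (l x ^ 2 - l x + 1)) / 3)
      (-((4 * v s ^ 3 * deriv v s) * (l s ^ 2 - l s + 1) + v s ^ 4 * (2 * l s * deriv l s - deriv l s)) / 3) s := by
    have h := ((((hvd.fun_pow 4).mul (((hld.fun_pow 2).sub hld).add_const (1 : ℂ))).neg).div_const 3)
    refine h.congr_deriv ?_
    simp only [Pi.mul_apply, Pi.sub_apply, Pi.add_apply, Pi.neg_apply]
    push_cast
    ring
  have hb2 : HasDerivAt (fun x => v x ^ 6 * ((1 + l x) * (2 - l x) * (2 * l x - 1)) / 27)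
      (((6 * v s ^ 5 * deriv v s) * ((1 + l s) * (2 - l s) * (2 * l s - 1)) + v s ^ 6 * ((deriv l s * (2 - l s) -
        (1 + l s) * deriv l s) * (2 * l s - 1) + (1 + l s) * (2 - l s) * (2 * deriv l s))) / 27) s := by
    have h := ((hvd.fun_pow 6).mul ((((hld.const_add (1 : ℂ))).mul (hld.const_sub (2 : ℂ))).mul ((hld.const_mul (2 : ℂ)).sub_const (1 : ℂ)))).div_const 27
    refine h.congr_deriv ?_
    simp only [Pi.mul_apply, Pi.sub_apply, Pi.add_apply, Pi.neg_apply]
    push_cast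
    ring
  have ha3 := ha1.unique (ha2.congr_of_eventuallyEq (heq.mono fun x hx => hx.1))
  have hb3 := hb1.unique (hb2.congr_of_eventuallyEq (heq.mono fun x hx => hx.2))
  obtain ⟨ha0, hb0⟩ := heq.self_of_nhds
  -- derivatives of the rows
  have h4 : HasDerivAt (fun x => 4 / v x) (-(4 * deriv v s) / v s ^ 2) s := by
    have h := (hasDerivAt_const s (4 : ℂ)).fun_div hvd hv0
    refine h.congr_deriv ?_
    ring
  have hr0 : HasDerivAt (fun x => row (l x) (v x) 0) (-(4 * deriv v s) / v s ^ 2 * eK (l s) + 4 / v s * (deriv eK (l s) * deriv l s)) s :=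
    h4.mul hKd
  have hr1 : HasDerivAt (fun x => row (l x) (v x) 1) (-(4 * deriv v s) / v s ^ 2 * (-(v s ^ 2 * (1 + l s) / 3) * eK (l s) +
      v s ^ 2 * (eK (l s) - eE (l s))) + 4 / v s * ((-((2 * v s * deriv v s) * (1 + l s) + v s ^ 2 * deriv l s) / 3) * eK (l s) -
      (v s ^ 2 * (1 + l s) / 3) * (deriv eK (l s) * deriv l s) + (2 * v s * deriv v s) * (eK (l s) - eE (l s)) +
      v s ^ 2 * (deriv eK (l s) * deriv l s - deriv eE (l s) * deriv l s))) s := by
    have h := h4.mul ((((((hvd.fun_pow 2).mul (hld.const_add (1 : ℂ))).div_const 3).neg).mul hKd).add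
      ((hvd.fun_pow 2).mul (hKd.sub hEd)))
    refine h.congr_deriv ?_
    simp only [Pi.mul_apply, Pi.sub_apply, Pi.add_apply, Pi.neg_apply]
    push_cast
    ring
  rw [hr0.deriv, hr1.deriv, hK', hE', ha3, hb3, ha0, hb0]
  simp only [row, Matrix.cons_val_zero, Matrix.cons_val_one]
  generalize deriv l s = l'
  generalize deriv v s = v'
  generalize eK (l s) = K
  generalize eE (l s) = E
  generalize v s = w at *
  generalize l s = m at *
  constructor
  · field_simp
    ring
  · field_simp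
    ring

end Pool.Agent.Y124.GE
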