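import Pool.Agent.Y124.GE.Co

/-!
# The formal periods at a point of good reduction are G-functions
-/

set_option autoImplicit false

namespace Pool.Agent.Y124.GE

open PowerSeries Finset Pool.Agent.Y113 Pool.Agent.Y113.HGG Pool.Agent.Y655.HG

lemma exists_eval_ne {P : Polynomial ℚ} (hP : P ≠ 0) : ∃ x : ℚ, P.eval x ≠ 0 := by
  by_contra h
  push Not at h
  exact hP (Polynomial.funext fun x => by rw [h x, Polynomial.eval_zero])

lemma eval_De (a b : Polynomial ℚ) (x : ℚ) : (De a b).eval x = 4 * a.eval x ^ 3 + 27 * b.eval x ^ 2 := by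
  simp [De]

lemma eval_zero_comp (P : Polynomial ℚ) (x : ℚ) : (P.comp (Polynomial.X + Polynomial.C x)).eval 0 = P.eval x := by
  simp [Polynomial.eval_comp]

lemma comp_comp_neg (P : Polynomial ℚ) (x : ℚ) :
    (P.comp (Polynomial.X + Polynomial.C x)).comp (Polynomial.X + Polynomial.C (-x)) = P := by
  rw [Polynomial.comp_assoc]
  simp

/-- there is a point with G-functions -/
theorem exists_pt {a b : Polynomial ℚ} (ha : a ≠ 0) (hD : De a b ≠ 0) : ∃ x : ℚ, (De a b).eval x ≠ 0 ∧
    ∃ Y, Sol (a.comp (Polynomial.X + Polynomial.C x)) (b.comp (Polynomial.X + Polynomial.C x)) Y ∧ ∀ i j, SDc (Y i j) := by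
  obtain ⟨x, hx⟩ := exists_eval_ne (mul_ne_zero ha hD)
  rw [Polynomial.eval_mul] at hx
  have hax := left_ne_zero_of_mul hx
  have hDx := right_ne_zero_of_mul hx
  refine ⟨x, hDx, ?_⟩
  set a' := a.comp (Polynomial.X + Polynomial.C x) with ha'
  set b' := b.comp (Polynomial.X + Polynomial.C x) with hb'
  have ha0 : a'.eval 0 = a.eval x := eval_zero_comp a x
  have hb0 : b'.eval 0 = b.eval x := eval_zero_comp b x
  obtain ⟨hB1, hB2⟩ := YB_sol (a.eval x) hax
  have hDl : De (Polynomial.C (a.eval x)) Polynomial.X ≠ 0 := by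
    apply ne_zero_of_eval (x := 0)
    rw [eval_De, Polynomial.eval_C, Polynomial.eval_X]
    have := pow_ne_zero 3 hax
    simpa using this
  obtain ⟨Ψ, hΨ⟩ := exists_sol (Polynomial.C (a.eval x)) (Polynomial.X + Polynomial.C (b.eval x)) (by
    rw [eval_De, Polynomial.eval_C]
    rw [eval_De] at hDx
    simpa using hDx)
  have hΨS := trans hDl hB1 hB2 (b.eval x) (by
    rw [eval_De, Polynomial.eval_C, Polynomial.eval_X]
    rwa [eval_De] at hDx) (Z := Ψ) (by
    rw [Polynomial.C_comp, Polynomial.X_comp]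
    exact hΨ)
  refine comp_sol a' b' (by rw [ha0]; exact hax) (by rw [eval_De, ha0, hb0, ← eval_De]; exact hDx) (Ψ := Ψ) ?_ hΨS
  rw [ha0, hb0]
  exact hΨ

/-- the formal solution at a point of good reduction consists of G-functions -/
theorem good_sol {a b : Polynomial ℚ} (ha : a ≠ 0) (hD : (De a b).eval 0 ≠ 0) {Z : Fin 2 → Fin 2 → ℚ⟦X⟧} (hZ : Sol a b Z)
    (i j : Fin 2) : SDc (Z i j) := by
  obtain ⟨x, hx, Y, hY, hS⟩ := exists_pt ha (ne_zero_of_eval hD)
  have hDne : De (a.comp (Polynomial.X + Polynomial.C x)) (b.comp (Polynomial.X + Polynomial.C x)) ≠ 0 := by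
    apply ne_zero_of_eval (x := 0)
    rw [← De_comp, eval_zero_comp]
    exact hx
  refine trans hDne hY hS (-x) ?_ (Z := Z) ?_ i j
  · rw [← De_comp, Polynomial.eval_comp]
    simpa using hD
  · rw [comp_comp_neg, comp_comp_neg]
    exact hZ

end Pool.Agent.Y124.GE
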