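import Pool.Agent.Y124.GE.Fr
import Pool.Agent.Y124.GE.Qu

/-!
# Gradings modulo twelve and the descent of the formal solutions
-/

set_option autoImplicit false

namespace Pool.Agent.Y124.GE

open PowerSeries Finset Pool.Agent.Y113 Pool.Agent.Y113.HGG Pool.Agent.Y655.HG

/-- `u ↦ z^12` -/
noncomputable abbrev xp : ℚ⟦X⟧ →ₐ[ℚ] ℚ⟦X⟧ := expand 12 h12

lemma xp_inj : Function.Injective xp := by
  intro f g h
  ext n
  have := congrArg (coeff (12 * n)) h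
  rwa [coeff_expand_mul, coeff_expand_mul] at this

lemma xp_X : xp (X : ℚ⟦X⟧) = X ^ 12 := expand_X 12 h12

lemma xp_C (c : ℚ) : xp (PowerSeries.C c) = PowerSeries.C c := expand_C 12 h12 c

lemma der_xp (F : ℚ⟦X⟧) : X * d⁄dX ℚ (xp F) = PowerSeries.C 12 * xp (X * d⁄dX ℚ F) := by
  have h1 : d⁄dX ℚ (xp F) = PowerSeries.C 12 * X ^ 11 * xp (d⁄dX ℚ F) := by
    rw [xp, expand_apply, derivative_subst (HasSubst.X_pow h12), expand_apply, Derivation.leibniz_pow, derivative_X]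
    simp only [smul_eq_mul, nsmul_eq_mul, mul_one]
    rw [map_ofNat]
    push_cast
    ring
  rw [h1, map_mul, xp_X]
  ring

/-- gradings -/
def Gr (e : ZMod 12) (f : ℚ⟦X⟧) : Prop := ∀ n, coeff n f ≠ 0 → (n : ZMod 12) = e

lemma Gr.add {e : ZMod 12} {f g : ℚ⟦X⟧} (h : Gr e f) (h' : Gr e g) : Gr e (f + g) := by
  intro n hn
  by_cases h0 : coeff n f = 0
  · refine h' n fun h1 => hn ?_
    rw [map_add, h0, h1, add_zero]
  · exact h n h0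

lemma Gr.neg {e : ZMod 12} {f : ℚ⟦X⟧} (h : Gr e f) : Gr e (-f) := by
  intro n hn
  refine h n fun h1 => hn ?_
  rw [map_neg, h1, neg_zero]

lemma Gr.sub {e : ZMod 12} {f g : ℚ⟦X⟧} (h : Gr e f) (h' : Gr e g) : Gr e (f - g) := by
  rw [sub_eq_add_neg]
  exact h.add h'.neg

lemma Gr.mul {e e' : ZMod 12} {f g : ℚ⟦X⟧} (h : Gr e f) (h' : Gr e' g) : Gr (e + e') (f * g) := by
  intro n hn
  rw [coeff_mul] at hn
  obtain ⟨p, hp, hp'⟩ := Finset.exists_ne_zero_of_sum_ne_zero hn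
  have h1 := h p.1 (left_ne_zero_of_mul hp')
  have h2 := h' p.2 (right_ne_zero_of_mul hp')
  rw [← h1, ← h2, ← HasAntidiagonal.mem_antidiagonal.1 hp]
  push_cast
  rfl

lemma Gr.C (c : ℚ) : Gr 0 (PowerSeries.C c) := by
  intro n hn
  rw [coeff_C] at hn
  split_ifs at hn with h
  · rw [h]; rfl
  · exact absurd rfl hn

lemma Gr.X_pow (k : ℕ) : Gr (k : ZMod 12) (X ^ k : ℚ⟦X⟧) := by
  intro n hn
  rw [coeff_X_pow] at hn
  split_ifs at hn with h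
  · rw [h]
  · exact absurd rfl hn

lemma Gr.of_X_pow_mul {e : ZMod 12} {k : ℕ} {f : ℚ⟦X⟧} (h : Gr e (X ^ k * f)) : Gr (e - k) f := by
  intro n hn
  have := h (n + k) (by rwa [coeff_X_pow_mul])
  rw [← this]
  push_cast
  ring

lemma Gr.theta {e : ZMod 12} {f : ℚ⟦X⟧} (h : Gr e f) : Gr e (X * d⁄dX ℚ f) := by
  intro n hn
  cases n with
  | zero => simp at hn
  | succ n =>
    rw [coeff_succ_X_mul, coeff_derivative] at hn
    exact h _ (left_ne_zero_of_mul hn)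

lemma Gr.xp (F : ℚ⟦X⟧) : Gr 0 (xp F) := by
  intro n hn
  by_cases h : 12 ∣ n
  · rw [(ZMod.natCast_eq_zero_iff n 12).2 h]
  · rw [coeff_expand_of_not_dvd 12 h12 F h] at hn
    exact absurd rfl hn

/-- the descended series -/
noncomputable def ds (f : ℚ⟦X⟧) : ℚ⟦X⟧ := PowerSeries.mk fun n => coeff (12 * n) f

lemma xp_ds {f : ℚ⟦X⟧} (h : Gr 0 f) : xp (ds f) = f := by
  ext n
  rw [coeff_expand]
  split_ifs with hn
  · rw [ds, coeff_mk]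
    congr 1
    exact congrArg _ (Nat.mul_div_cancel' hn)
  · by_contra hne
    apply hn
    have := h n fun h0 => hne h0.symm
    exact (ZMod.natCast_eq_zero_iff n 12).1 this

lemma Gr.inv {f : ℚ⟦X⟧} (h : Gr 0 f) (h0 : constantCoeff f ≠ 0) : Gr 0 f⁻¹ := by
  have h1 := xp_ds h
  have h2 : constantCoeff (ds f) ≠ 0 := by
    rw [← h1, constantCoeff_expand] at h0
    exact h0
  have h3 : f⁻¹ = GE.xp (ds f)⁻¹ := by
    rw [PowerSeries.inv_eq_iff_mul_eq_one h0]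
    calc GE.xp (ds f)⁻¹ * f = GE.xp (ds f)⁻¹ * GE.xp (ds f) := by rw [h1]
      _ = 1 := by rw [← map_mul, PowerSeries.inv_mul_cancel _ h2, map_one]
  rw [h3]
  exact Gr.xp _

lemma SDc_ds {f : ℚ⟦X⟧} (h : SDc f) : SDc (ds f) := by
  obtain ⟨M, hM, h1, h2⟩ := SDc_data h
  have hle : ∀ m : ℕ, M ^ (12 * m + 1) ≤ (M ^ 12) ^ (m + 1) := by
    intro m
    rw [← pow_mul]
    exact pow_le_pow_right₀ hM (by omega)
  refine SDc_of (M := M ^ 12) (one_le_pow₀ hM) (fun m => ?_) fun m => ?_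
  · rw [ds, coeff_mk]
    exact (h1 _).trans (hle m)
  · obtain ⟨d, hd0, hd, hd'⟩ := h2 (12 * m)
    refine ⟨d, hd0, hd.trans (hle m), fun j hj => ?_⟩
    rw [ds, coeff_mk]
    exact hd' _ (by omega)

lemma coe_dDe (a b : Polynomial ℚ) : d⁄dX ℚ (De a b : ℚ⟦X⟧) = ((Polynomial.derivative (De a b) : Polynomial ℚ) : ℚ⟦X⟧) :=
  derivative_coe _

lemma coe_AE (a b : Polynomial ℚ) : (AE a b 0 0 : ℚ⟦X⟧) = -(PowerSeries.C (1 / 12) * d⁄dX ℚ (De a b : ℚ⟦X⟧)) ∧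
    (AE a b 0 1 : ℚ⟦X⟧) = -(PowerSeries.C (1 / 2) * ((a : ℚ⟦X⟧) * (Wr a b : ℚ⟦X⟧))) ∧
    (AE a b 1 0 : ℚ⟦X⟧) = -(PowerSeries.C (3 / 2) * (Wr a b : ℚ⟦X⟧)) ∧
    (AE a b 1 1 : ℚ⟦X⟧) = PowerSeries.C (1 / 12) * d⁄dX ℚ (De a b : ℚ⟦X⟧) := by
  rw [coe_dDe]
  refine ⟨?_, ?_, ?_, ?_⟩ <;> simp [AE, Polynomial.coe_neg]

lemma coe_De (a b : Polynomial ℚ) : (De a b : ℚ⟦X⟧) = 4 * (a : ℚ⟦X⟧) ^ 3 + 27 * (b : ℚ⟦X⟧) ^ 2 := by
  have h4 : ((4 : Polynomial ℚ) : ℚ⟦X⟧) = 4 := map_ofNat (Polynomial.coeToPowerSeries.ringHom (R := ℚ)) 4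
  have h27 : ((27 : Polynomial ℚ) : ℚ⟦X⟧) = 27 := map_ofNat (Polynomial.coeToPowerSeries.ringHom (R := ℚ)) 27
  simp [De, h4, h27]

lemma coe_Wr (a b : Polynomial ℚ) : (Wr a b : ℚ⟦X⟧) = 2 * (a : ℚ⟦X⟧) * d⁄dX ℚ (b : ℚ⟦X⟧) - 3 * d⁄dX ℚ (a : ℚ⟦X⟧) * (b : ℚ⟦X⟧) := by
  rw [derivative_coe, derivative_coe]
  have h4 : ((2 : Polynomial ℚ) : ℚ⟦X⟧) = 2 := map_ofNat (Polynomial.coeToPowerSeries.ringHom (R := ℚ)) 2
  have h27 : ((3 : Polynomial ℚ) : ℚ⟦X⟧) = 3 := map_ofNat (Polynomial.coeToPowerSeries.ringHom (R := ℚ)) 3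
  simp [Wr, h4, h27]

end Pool.Agent.Y124.GE
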