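import Pool.Agent.Y124.GE.Lc

/-!
# Monomials in the twisted local solutions
-/

set_option autoImplicit false

open Filter Topology Complex

namespace Pool.Agent.Y124.GE

open Pool.Agent.Y124 Pool.Agent.Y120.GH Pool.Agent.Y120.GF

section
variable {ι : Type} [Fintype ι] [DecidableEq ι] (y : ι → PowerSeries ℚ) (R : ℝ)

/-- functions in the span of the products of at most `d` of the `y` and of powers of the logarithm -/
def HVm (d : ℕ) (g : ℝ → ℂ) : Prop := ∃ c : (Fin d → Option ι) × Fin (d + 1) → ℂ, ∀ t : ℝ, R < t →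
  g t = ∑ p, c p * (ou (cx (Yb y p.1)) (t : ℂ) * (((Real.log t : ℝ) : ℂ)) ^ (p.2 : ℕ))

variable {y R}

lemma HVm.congr {d : ℕ} {g g' : ℝ → ℂ} (h : HVm y R d g) (hg : ∀ t, R < t → g' t = g t) : HVm y R d g' := by
  obtain ⟨c, hc⟩ := h
  exact ⟨c, fun t ht => by rw [hg t ht, hc t ht]⟩

lemma HVm.one (d : ℕ) : HVm y R d fun _ => 1 := by
  refine ⟨fun p => if p = (fun _ => none, 0) then 1 else 0, fun t _ => ?_⟩
  rw [Finset.sum_eq_single ((fun _ => none, 0) : (Fin d → Option ι) × Fin (d + 1))]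
  · have : Yb y (fun _ : Fin d => (none : Option ι)) = 1 := by simp [Yb]
    simp [this, ou_one]
  · intro p _ hp
    dsimp only
    rw [if_neg hp, zero_mul]
  · intro h
    exact absurd (Finset.mem_univ _) h

lemma HVm.yy (i : ι) : HVm y R 1 fun t => ou (cx (y i)) (t : ℂ) := by
  refine ⟨fun p => if p = (fun _ => some i, 0) then 1 else 0, fun t _ => ?_⟩
  rw [Finset.sum_eq_single ((fun _ => some i, 0) : (Fin 1 → Option ι) × Fin (1 + 1))]
  · have : Yb y (fun _ : Fin 1 => (some i : Option ι)) = y i := by simp [Yb]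
    simp [this]
  · intro p _ hp
    dsimp only
    rw [if_neg hp, zero_mul]
  · intro h
    exact absurd (Finset.mem_univ _) h

lemma HVm.ylog (i : ι) : HVm y R 1 fun t => ((Real.log t : ℝ) : ℂ) * ou (cx (y i)) (t : ℂ) := by
  refine ⟨fun p => if p = (fun _ => some i, 1) then 1 else 0, fun t _ => ?_⟩
  rw [Finset.sum_eq_single ((fun _ => some i, 1) : (Fin 1 → Option ι) × Fin (1 + 1))]
  · have : Yb y (fun _ : Fin 1 => (some i : Option ι)) = y i := by simp [Yb]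
    simp [this, mul_comm]
  · intro p _ hp
    dsimp only
    rw [if_neg hp, zero_mul]
  · intro h
    exact absurd (Finset.mem_univ _) h

lemma HVm.add {d : ℕ} {g g' : ℝ → ℂ} (h : HVm y R d g) (h' : HVm y R d g') : HVm y R d fun t => g t + g' t := by
  obtain ⟨c, hc⟩ := h
  obtain ⟨c', hc'⟩ := h'
  refine ⟨fun p => c p + c' p, fun t ht => ?_⟩
  dsimp only
  rw [hc t ht, hc' t ht, ← Finset.sum_add_distrib]
  exact Finset.sum_congr rfl fun p _ => by ring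

lemma HVm.smul {d : ℕ} {g : ℝ → ℂ} (a : ℂ) (h : HVm y R d g) : HVm y R d fun t => a * g t := by
  obtain ⟨c, hc⟩ := h
  refine ⟨fun p => a * c p, fun t ht => ?_⟩
  dsimp only
  rw [hc t ht, Finset.mul_sum]
  exact Finset.sum_congr rfl fun p _ => by ring

lemma HVm.mul (hR : 0 ≤ R) (hy : ∀ i, cx (y i) ∈ Cw R) {d d' : ℕ} {g g' : ℝ → ℂ} (h : HVm y R d g) (h' : HVm y R d' g') :
    HVm y R (d + d') fun t => g t * g' t := by
  classical
  obtain ⟨c, hc⟩ := h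
  obtain ⟨c', hc'⟩ := h'
  let cb : ((Fin d → Option ι) × Fin (d + 1)) × ((Fin d' → Option ι) × Fin (d' + 1)) → (Fin (d + d') → Option ι) × Fin (d + d' + 1) :=
    fun p => (Fin.append p.1.1 p.2.1, ⟨p.1.2 + p.2.2, by have := p.1.2.2; have := p.2.2.2; omega⟩)
  refine ⟨fun q => ∑ p, if cb p = q then c p.1 * c' p.2 else 0, fun t ht => ?_⟩
  have hz : R < ‖(t : ℂ)‖ := by
    rw [norm_real, Real.norm_of_nonneg (by linarith)]
    exact ht
  have hY : ∀ {k : ℕ} (b : Fin k → Option ι), cx (Yb y b) ∈ Cw R := by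
    intro k b
    unfold Yb
    rw [map_prod]
    refine (Cw R).prod_mem fun j _ => ?_
    rcases b j with _ | i
    · show cx 1 ∈ Cw R
      rw [map_one]
      exact (Cw R).one_mem
    · exact hy i
  have hval : ∀ p, ou (cx (Yb y (cb p).1)) (t : ℂ) * (((Real.log t : ℝ) : ℂ)) ^ ((cb p).2 : ℕ) =
      (ou (cx (Yb y p.1.1)) (t : ℂ) * (((Real.log t : ℝ) : ℂ)) ^ (p.1.2 : ℕ)) *
        (ou (cx (Yb y p.2.1)) (t : ℂ) * (((Real.log t : ℝ) : ℂ)) ^ (p.2.2 : ℕ)) := by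
    intro p
    have h1 : Yb y (cb p).1 = Yb y p.1.1 * Yb y p.2.1 := by
      show ∏ j, (Fin.append p.1.1 p.2.1 j).elim 1 y = _
      rw [Fin.prod_univ_add]
      simp only [Fin.append_left, Fin.append_right]
      rfl
    have h2 : ((cb p).2 : ℕ) = p.1.2 + p.2.2 := rfl
    rw [h1, h2, map_mul, ou_mul hR (hY _) (hY _) hz, pow_add]
    ring
  dsimp only
  rw [hc t ht, hc' t ht, Finset.sum_mul_sum, ← Finset.sum_product']
  simp only [Finset.sum_mul]
  rw [Finset.sum_comm]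
  have h3 : ∀ p, ∑ q, (if cb p = q then c p.1 * c' p.2 else 0) * (ou (cx (Yb y q.1)) (t : ℂ) * (((Real.log t : ℝ) : ℂ)) ^ (q.2 : ℕ)) =
      c p.1 * c' p.2 * ((ou (cx (Yb y p.1.1)) (t : ℂ) * (((Real.log t : ℝ) : ℂ)) ^ (p.1.2 : ℕ)) *
        (ou (cx (Yb y p.2.1)) (t : ℂ) * (((Real.log t : ℝ) : ℂ)) ^ (p.2.2 : ℕ))) := by
    intro p
    rw [Finset.sum_eq_single (cb p)]
    · rw [if_pos rfl, hval]
    · intro q _ hq
      rw [if_neg (Ne.symm hq), zero_mul]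
    · intro h
      exact absurd (Finset.mem_univ _) h
  rw [Finset.sum_congr rfl fun p _ => h3 p, Finset.univ_product_univ]
  exact Finset.sum_congr rfl fun p _ => by ring

lemma HVm.mono (hR : 0 ≤ R) (hy : ∀ i, cx (y i) ∈ Cw R) {d d' : ℕ} (hd : d ≤ d') {g : ℝ → ℂ} (h : HVm y R d g) : HVm y R d' g := by
  obtain ⟨k, rfl⟩ := Nat.exists_eq_add_of_le hd
  exact (h.mul hR hy (HVm.one k)).congr fun t _ => (mul_one _).symm

lemma HVm.pow (hR : 0 ≤ R) (hy : ∀ i, cx (y i) ∈ Cw R) {g : ℝ → ℂ} (h : HVm y R 1 g) (k : ℕ) : HVm y R k fun t => g t ^ k := by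
  induction k with
  | zero => exact (HVm.one 0).congr fun t _ => pow_zero _
  | succ k ih => exact (ih.mul hR hy h).congr fun t _ => pow_succ _ _

end

variable {a b : Polynomial ℚ}

/-- the three free entries of the twisted matrix at `1 / t` -/
noncomputable def xs (L : LD a b) (p : Fin 3) (u : ℂ) : ℂ := ![Xt L 0 0 u, Xt L 1 0 u, Xt L 0 1 u] p

lemma Xt_hv (L : LD a b) {R : ℝ} (hR : 1 ≤ R) (i j : Fin 2) :
    HVm (fun x : Fin 2 × Fin 2 => L.Y x.1 x.2) R 1 fun t => Xt L i j (1 / (t : ℂ)) := by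
  have h1 : HVm (fun x : Fin 2 × Fin 2 => L.Y x.1 x.2) R 1 fun t => ou (cx (L.Y i j)) (t : ℂ) + (∑ k : Fin 2, (-((L.N i k : ℚ) : ℂ) / 12) *
      (((Real.log t : ℝ) : ℂ) * ou (cx (L.Y k j)) (t : ℂ))) := by
    refine (HVm.yy (y := fun x : Fin 2 × Fin 2 => L.Y x.1 x.2) (i, j)).add ?_
    have h2 := ((HVm.ylog (y := fun x : Fin 2 × Fin 2 => L.Y x.1 x.2) (R := R) (0, j)).smul (-((L.N i 0 : ℚ) : ℂ) / 12)).add
      ((HVm.ylog (y := fun x : Fin 2 × Fin 2 => L.Y x.1 x.2) (R := R) (1, j)).smul (-((L.N i 1 : ℚ) : ℂ) / 12))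
    exact h2.congr fun t _ => by rw [Fin.sum_univ_two]
  refine h1.congr fun t ht => ?_
  have ht0 : 0 < t := by linarith
  have hlog : log (1 / (t : ℂ)) = -((Real.log t : ℝ) : ℂ) := by
    rw [ofReal_log ht0.le, one_div, Complex.log_inv]
    rw [arg_ofReal_of_nonneg ht0.le]
    exact Real.pi_pos.ne
  rw [Xt, hlog]
  show ou (cx (L.Y i j)) (t : ℂ) + -((Real.log t : ℝ) : ℂ) / 12 * ∑ k, ((L.N i k : ℚ) : ℂ) * ou (cx (L.Y k j)) (t : ℂ) = _
  congr 1
  rw [Finset.mul_sum]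
  exact Finset.sum_congr rfl fun k _ => by ring

lemma mono_hv (L : LD a b) {R : ℝ} (hR : 1 ≤ R) (hY : ∀ i j, cx (L.Y i j) ∈ Cw R) (δ : ℕ) (s : Fin 3 → Fin (δ + 1)) :
    HVm (fun x : Fin 2 × Fin 2 => L.Y x.1 x.2) R (3 * δ) fun t => ∏ p, xs L p (1 / (t : ℂ)) ^ (s p : ℕ) := by
  have hR0 : 0 ≤ R := by linarith
  have hy : ∀ i : Fin 2 × Fin 2, cx (L.Y i.1 i.2) ∈ Cw R := fun i => hY _ _
  have h1 : ∀ p : Fin 3, HVm (fun x : Fin 2 × Fin 2 => L.Y x.1 x.2) R 1 fun t => xs L p (1 / (t : ℂ)) := by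
    intro p
    fin_cases p
    · exact Xt_hv L hR 0 0
    · exact Xt_hv L hR 1 0
    · exact Xt_hv L hR 0 1
  have h2 := (((h1 0).pow hR0 hy (s 0 : ℕ)).mul hR0 hy ((h1 1).pow hR0 hy (s 1 : ℕ))).mul hR0 hy ((h1 2).pow hR0 hy (s 2 : ℕ))
  refine (h2.mono hR0 hy ?_).congr fun t _ => ?_
  · have := (s 0).2
    have := (s 1).2
    have := (s 2).2
    omega
  · rw [Fin.prod_univ_three]

end Pool.Agent.Y124.GE
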