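import Pool.Agent.Y120.H.FamR
import Pool.Agent.Y120.H.Tens

/-!
# Few bad integers for the functions in the span of a system and of the logarithm
-/

set_option autoImplicit false

namespace Pool.Agent.Y124.GE

open PowerSeries Finset Pool.Agent.Y113 Pool.Agent.Y120.GF Pool.Agent.Y120.GH

/-! ## ranks -/

section Rank
variable {I J : Type} [Fintype I] [Fintype J]

/-- rows which are independent over the polynomials are independent at almost all points -/
theorem rank_fin (P : I → J → Polynomial ℂ) (h : ∀ r : I → Polynomial ℂ, (∀ j, ∑ i, r i * P i j = 0) → r = 0) :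
    ∃ d : Polynomial ℂ, d ≠ 0 ∧ ∀ u : ℂ, d.eval u ≠ 0 → ∀ v : I → ℂ, (∀ j, ∑ i, v i * (P i j).eval u = 0) → v = 0 := by
  classical
  let K := FractionRing (Polynomial ℂ)
  let φ : (I → K) →ₗ[K] (J → K) :=
    { toFun := fun r j => ∑ i, r i * algebraMap (Polynomial ℂ) K (P i j)
      map_add' := fun r s => by
        funext j
        simp only [Pi.add_apply, add_mul, Finset.sum_add_distrib]
      map_smul' := fun c r => by
        funext j
        simp only [Pi.smul_apply, smul_eq_mul, RingHom.id_apply, mul_assoc]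
        rw [Finset.mul_sum] }
  have hφ : ∀ r j, φ r j = ∑ i, r i * algebraMap (Polynomial ℂ) K (P i j) := fun _ _ => rfl
  have hinj : Function.Injective φ := by
    rw [← LinearMap.ker_eq_bot, LinearMap.ker_eq_bot']
    intro r hr
    obtain ⟨b, hb⟩ := IsLocalization.exist_integer_multiples_of_finite (nonZeroDivisors (Polynomial ℂ)) r
    choose s hs using hb
    have hb0 : algebraMap (Polynomial ℂ) K (b : Polynomial ℂ) ≠ 0 := by
      intro h0
      have := (IsFractionRing.injective (Polynomial ℂ) K) (h0.trans (map_zero _).symm)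
      exact nonZeroDivisors.ne_zero b.2 this
    have h1 : s = 0 := h s fun j => by
      apply IsFractionRing.injective (Polynomial ℂ) K
      rw [map_sum, map_zero]
      have h2 := congrFun hr j
      rw [hφ, Pi.zero_apply] at h2
      have h3 : ∀ i, algebraMap (Polynomial ℂ) K (s i * P i j) =
          algebraMap (Polynomial ℂ) K (b : Polynomial ℂ) * (r i * algebraMap (Polynomial ℂ) K (P i j)) := by
        intro i
        rw [map_mul, hs, Algebra.smul_def]
        ring
      simp only [h3]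
      rw [← Finset.mul_sum, h2, mul_zero]
    funext i
    have h2 := hs i
    rw [h1, Pi.zero_apply, map_zero, Algebra.smul_def] at h2
    exact (mul_eq_zero.1 h2.symm).resolve_left hb0
  obtain ⟨ψ, hψ⟩ := φ.exists_leftInverse_of_injective (LinearMap.ker_eq_bot.2 hinj)
  obtain ⟨b, hb⟩ := IsLocalization.exist_integer_multiples_of_finite (nonZeroDivisors (Polynomial ℂ))
    (fun p : J × I => ψ (Pi.single p.1 1) p.2)
  choose R hR using hb
  have hb0 : (b : Polynomial ℂ) ≠ 0 := nonZeroDivisors.ne_zero b.2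
  -- the right inverse
  have hPR : ∀ i i', ∑ j, P i j * R (j, i') = if i = i' then (b : Polynomial ℂ) else 0 := by
    intro i i'
    apply IsFractionRing.injective (Polynomial ℂ) K
    have h1 := congrFun (congrArg (fun f => f (Pi.single i (1 : K))) hψ) i'
    have h2 : ψ (φ (Pi.single i (1 : K))) i' = (Pi.single i (1 : K) : I → K) i' := h1
    have h3 : φ (Pi.single i (1 : K)) = ∑ j, (algebraMap (Polynomial ℂ) K (P i j)) • (Pi.single j (1 : K) : J → K) := by
      funext j
      rw [hφ, Finset.sum_apply, Finset.sum_eq_single i]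
      · rw [Pi.single_eq_same, one_mul, Finset.sum_eq_single j]
        · rw [Pi.smul_apply, Pi.single_eq_same, smul_eq_mul, mul_one]
        · intro j' _ hj'
          rw [Pi.smul_apply, Pi.single_eq_of_ne (Ne.symm hj'), smul_zero]
        · intro h
          exact absurd (Finset.mem_univ _) h
      · intro i' _ hi'
        rw [Pi.single_eq_of_ne hi', zero_mul]
      · intro h
        exact absurd (Finset.mem_univ _) h
    rw [h3, map_sum, Finset.sum_apply] at h2
    simp only [map_smul, Pi.smul_apply, smul_eq_mul] at h2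
    rw [map_sum]
    have h4 : ∀ j, algebraMap (Polynomial ℂ) K (P i j * R (j, i')) =
        algebraMap (Polynomial ℂ) K (b : Polynomial ℂ) * (algebraMap (Polynomial ℂ) K (P i j) * ψ (Pi.single j 1) i') := by
      intro j
      rw [map_mul, hR, Algebra.smul_def]
      ring
    simp only [h4]
    rw [← Finset.mul_sum, h2]
    by_cases hii : i = i'
    · rw [if_pos hii, hii, Pi.single_eq_same, mul_one]
    · rw [if_neg hii, Pi.single_eq_of_ne (Ne.symm hii), mul_zero, map_zero]
  refine ⟨(b : Polynomial ℂ), hb0, fun u hu v hv => ?_⟩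
  funext i'
  rw [Pi.zero_apply]
  have h1 : (b : Polynomial ℂ).eval u * v i' = ∑ j, (∑ i, v i * (P i j).eval u) * (R (j, i')).eval u := by
    simp only [Finset.sum_mul]
    rw [Finset.sum_comm]
    have h2 : ∀ i, ∑ j, v i * (P i j).eval u * (R (j, i')).eval u = v i * (if i = i' then (b : Polynomial ℂ).eval u else 0) := by
      intro i
      have h3 := congrArg (Polynomial.eval u) (hPR i i')
      rw [Polynomial.eval_finsetSum] at h3
      simp only [Polynomial.eval_mul] at h3
      have h4 : (if i = i' then (b : Polynomial ℂ) else 0).eval u = if i = i' then (b : Polynomial ℂ).eval u else 0 := by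
        split_ifs <;> simp
      rw [h4] at h3
      rw [← h3, Finset.mul_sum]
      exact Finset.sum_congr rfl fun j _ => by ring
    simp only [h2]
    rw [Finset.sum_eq_single i']
    · rw [if_pos rfl]
      ring
    · intro i _ hi
      rw [if_neg hi, mul_zero]
    · intro h
      exact absurd (Finset.mem_univ _) h
  simp only [hv, zero_mul, Finset.sum_const_zero] at h1
  exact (mul_eq_zero.1 h1).resolve_left hu

/-- no roots near zero -/
lemma no_roots_c {P : Polynomial ℂ} (hP : P ≠ 0) : ∃ c : ℕ, ∀ u : ℝ, (c : ℝ) < u → P.eval (1 / (u : ℂ)) ≠ 0 := by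
  classical
  obtain ⟨c, hc⟩ := exists_nat_ge (∑ s ∈ P.roots.toFinset, ‖1 / s‖)
  refine ⟨c, fun u hu h => ?_⟩
  have hc0 : (0 : ℝ) ≤ c := by positivity
  have hu0 : 0 < u := by linarith
  have hroot : (1 / (u : ℂ)) ∈ P.roots.toFinset := by
    rw [Multiset.mem_toFinset, Polynomial.mem_roots hP, Polynomial.IsRoot.def]
    exact h
  have h1 := Finset.single_le_sum (f := fun s : ℂ => ‖1 / s‖) (fun _ _ => norm_nonneg _) hroot
  simp only [one_div_one_div] at h1
  rw [Complex.norm_real, Real.norm_of_nonneg hu0.le] at h1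
  linarith

end Rank

/-! ## the functions -/

section
variable {ι : Type} [Fintype ι] [DecidableEq ι] {e : ℕ} (he : e ≠ 0)

/-- the products -/
noncomputable def Yb {δ : ℕ} (y : ι → ℚ⟦X⟧) (b : Fin δ → Option ι) : ℚ⟦X⟧ := ∏ j, (b j).elim 1 y

/-- the functions in the span of the products and of the powers of the logarithm -/
noncomputable def hv {δ n : ℕ} (y : ι → ℚ⟦X⟧) {I : Type} (c : I → (Fin δ → Option ι) × Fin (n + 1) → ℂ) (t : ℝ) (i : I) : ℂ :=
  ∑ p, c i p * (ou (cx (Yb y p.1)) (t : ℂ) * (((Real.log t : ℝ) : ℂ)) ^ (p.2 : ℕ))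

include he in
theorem one_gen {q : ℕ} {C : ℝ} {T : Polynomial ℤ} {y : ι → ℚ⟦X⟧} (hT : T ≠ 0) (hG : GSys q C T y) {Tc : Polynomial ℂ}
    (hTc : Tc ≠ 0) {A : ι → ι → Polynomial ℂ}
    (hode : ∀ i, (Tc : PowerSeries ℂ) * PowerSeries.derivative ℂ (cx (y i)) = ∑ j, (A i j : PowerSeries ℂ) * cx (y j))
    (hqu : ∀ τ : ℝ, 0 < τ → (∀ i, cx (y i) ∈ Cw (τ ^ e)) → QU he τ Tc A) (δ n : ℕ) {I : Type} [Fintype I]
    (c : I → (Fin δ → Option ι) × Fin (n + 1) → ℂ)
    (hli : ∀ (T₀ : ℝ) (r : I → Polynomial ℂ), (∀ t : ℝ, T₀ < t → ∑ i, (r i).eval (1 / (t : ℂ)) * hv y c t i = 0) → r = 0) :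
    One (fun (t : ℕ) i => hv y c (t : ℝ) i) := by
  classical
  have hG1 := gsys_opt hG
  obtain ⟨C', hG2⟩ := gsys_tens hG1 δ
  have hC' := hG2.one_le
  have hC'0 : 0 < C' := by linarith
  -- the maximal independent subfamily
  obtain ⟨B, hb₀, hLI, a, M, ha, hM⟩ := max_li (fun b : Fin δ → Option ι => ∏ j, (b j).elim 1 y) (fun _ => none) (by
    simp)
  obtain ⟨q', C'', hG3⟩ := gsys_sub hG2 (fun b : B => ∏ j, ((b : Fin δ → Option ι) j).elim 1 y) (fun b => (b : Fin δ → Option ι))
    (fun _ => rfl) a M hM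
  have hC'' := hG3.one_le
  set w : B → ℚ⟦X⟧ := fun b => ∏ j, ((b : Fin δ → Option ι) j).elim 1 y with hw
  -- radii
  set τ : ℝ := C' with hτ
  have hτe : C' ≤ τ ^ e := le_self_pow₀ hC' he
  have hmem : ∀ b : Fin δ → Option ι, cx (∏ j, (b j).elim 1 y) ∈ Cw (τ ^ e) := fun b =>
    Cw_mono hτe (cx_mem hC'0.le (hG2.size b))
  have hC1 := hG.one_le
  -- a common radius for y itself
  set τ₁ : ℝ := max C C' with hτ₁
  have hτ₁1 : 1 ≤ τ₁ := hC1.trans (le_max_left _ _)
  have hτ₁0 : 0 < τ₁ := by linarith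
  have hτ₁e : τ₁ ≤ τ₁ ^ e := le_self_pow₀ hτ₁1 he
  have hy1 : ∀ i, cx (y i) ∈ Cw (τ₁ ^ e) := fun i =>
    Cw_mono ((le_max_left _ _).trans hτ₁e) (cx_mem (by linarith) (hG.size i))
  have hmem1 : ∀ b : Fin δ → Option ι, cx (∏ j, (b j).elim 1 y) ∈ Cw (τ₁ ^ e) := fun b =>
    Cw_mono ((le_max_right _ _).trans hτ₁e) (cx_mem hC'0.le (hG2.size b))
  have hQ := hqu τ₁ hτ₁0 hy1
  have hQ2 := qu_tens he δ (qu_one he hQ)
  have hode1 : ∀ o : Option ι, (Tc : PowerSeries ℂ) * PowerSeries.derivative ℂ (cx (o.elim 1 y)) =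
      0 * cx (o.elim 1 y) + ∑ l : Option ι, ((A1 A o l : Polynomial ℂ) : PowerSeries ℂ) * cx (l.elim 1 y) := by
    intro o
    rw [zero_mul, zero_add]
    rcases o with _ | i
    · show (Tc : PowerSeries ℂ) * PowerSeries.derivative ℂ (cx 1) = _
      rw [map_one, Derivation.map_one_eq_zero, mul_zero]
      symm
      refine Finset.sum_eq_zero fun l _ => ?_
      have : A1 A none l = 0 := by rcases l with _ | l <;> rfl
      rw [this]
      simp
    · rw [Fintype.sum_option]
      show (Tc : PowerSeries ℂ) * PowerSeries.derivative ℂ (cx (y i)) = ((0 : Polynomial ℂ) : PowerSeries ℂ) * _ +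
        ∑ l, (A i l : PowerSeries ℂ) * cx (y l)
      rw [hode i]
      simp
  have hode2 : ∀ b : Fin δ → Option ι, (Tc : PowerSeries ℂ) * PowerSeries.derivative ℂ (cx (∏ j, (b j).elim 1 y)) =
      ∑ b', (AT (A1 A) b b' : Polynomial ℂ) * cx (∏ j, (b' j).elim 1 y) := by
    intro b
    have h1 := tens_der (δ := δ) (PowerSeries.derivative ℂ : PowerSeries ℂ → PowerSeries ℂ) (Derivation.map_one_eq_zero _)
      (fun a b => by rw [Derivation.leibniz]; simp only [smul_eq_mul]) (Tc : PowerSeries ℂ) 0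
      (fun i j => ((A1 A i j : Polynomial ℂ) : PowerSeries ℂ)) (fun _ o => cx (o.elim 1 y)) (fun _ o => hode1 o) b
    rw [map_prod, h1, mul_zero, zero_mul, zero_add]
    refine Finset.sum_congr rfl fun b' _ => ?_
    rw [map_prod]
    congr 1
    let f : Polynomial ℂ →+ PowerSeries ℂ := (Polynomial.coeToPowerSeries.ringHom (R := ℂ) : Polynomial ℂ →+* PowerSeries ℂ)
    exact (AT_map f (A1 A) b b').symm
  have hD := disc_of_qu he hτ₁0 (show (0 : ℝ) < τ₁ + 1 by linarith) (fun b : Fin δ → Option ι => cx (∏ j, (b j).elim 1 y)) hmem1 Tc hTc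
    (AT (A1 A)) hode2 hQ2 (B : Set (Fin δ → Option ι)) (fun G h0 => li_cx hLI G h0)
  -- shifts
  obtain ⟨E, hE⟩ := gsys_shift hG3
  obtain ⟨R, hR⟩ := exists_nat_gt (τ₁ ^ e + (τ₁ + 1) ^ e)
  have hlt : τ₁ ^ e < (τ₁ + 1) ^ e := pow_lt_pow_left₀ (by linarith) hτ₁0.le he
  have hone : One (XF n w) := by
    refine one_family hG3 (mul_ne_zero ha hT) ⟨fun _ => none, hb₀⟩ (by simp [hw]) n R fun k g hg => ?_
    refine li_shift (y := w) (C := C'') (ρ := τ₁ ^ e) (ρ' := (τ₁ + 1) ^ e) (by positivity) hlt (by linarith) (fun b => hmem1 b) hD hG3.size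
      (fun g => ⟨((g : ℝ) + 2) ^ E, by positivity, (hE g).size⟩) hR (n + 1) k g (fun l => by exact_mod_cast hg.1 l)
      (fun l l' hll => ?_)
    rcases hg.2 l l' hll with h | h
    · have h1 : (g l : ℝ) + R ≤ g l' := by exact_mod_cast h
      rw [abs_sub_comm]
      exact (by linarith : (R : ℝ) ≤ g l' - g l).trans (le_abs_self _)
    · have h1 : (g l' : ℝ) + R ≤ g l := by exact_mod_cast h
      exact (by linarith : (R : ℝ) ≤ g l - g l').trans (le_abs_self _)
  -- the matrix of the functions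
  let Mc : (Fin δ → Option ι) → B → Polynomial ℂ := fun b β => (M b β).map (Int.castRingHom ℂ)
  let P : I → B × Fin (n + 1) → Polynomial ℂ := fun i β => ∑ b, Polynomial.C (c i (b, β.2)) * Mc b β.1
  let ac : Polynomial ℂ := a.map (Int.castRingHom ℂ)
  have hac : ac ≠ 0 := by
    intro h
    exact ha ((Polynomial.map_eq_zero_iff (Int.castRingHom ℂ).injective_int).1 h)
  have hps : ∀ Q : Polynomial ℤ, cx (ps Q) = ((Q.map (Int.castRingHom ℂ) : Polynomial ℂ) : PowerSeries ℂ) := by
    intro Q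
    unfold ps
    rw [cx_poly, Polynomial.map_map]
    congr 2
  have hτe0 : (0 : ℝ) ≤ τ₁ ^ e := by positivity
  -- the relation between the values
  have hval : ∀ t : ℝ, τ₁ ^ e < t → ∀ b : Fin δ → Option ι, ac.eval (1 / (t : ℂ)) * ou (cx (Yb y b)) (t : ℂ) =
      ∑ β, (Mc b β).eval (1 / (t : ℂ)) * ou (cx (w β)) (t : ℂ) := by
    intro t ht b
    have htn : τ₁ ^ e < ‖(t : ℂ)‖ := by
      rw [Complex.norm_real, Real.norm_of_nonneg (by linarith)]
      exact ht
    have h1 := congrArg (fun f => ou (cx f) (t : ℂ)) (hM b)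
    simp only [map_mul, map_sum, hps] at h1
    rw [ou_mul hτe0 (poly_mem _) (hmem1 b) htn, ou_poly] at h1
    rw [ou_sum hτe0 _ (fun (β : B) _ => (Cw _).mul_mem (poly_mem _) (hmem1 β)) htn] at h1
    have h2 : ∀ β : B, ou (((M b β).map (Int.castRingHom ℂ) : Polynomial ℂ) * cx (∏ j, ((β : Fin δ → Option ι) j).elim 1 y)) (t : ℂ) =
        (Mc b β).eval (1 / (t : ℂ)) * ou (cx (w β)) (t : ℂ) := by
      intro β
      rw [ou_mul hτe0 (poly_mem _) (hmem1 β) htn, ou_poly]
    rw [Finset.sum_congr rfl fun β _ => h2 β] at h1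
    exact h1
  have hhv : ∀ t : ℝ, τ₁ ^ e < t → ∀ i, ac.eval (1 / (t : ℂ)) * hv y c t i =
      ∑ β : B × Fin (n + 1), (P i β).eval (1 / (t : ℂ)) * (ou (cx (w β.1)) (t : ℂ) * (((Real.log t : ℝ) : ℂ)) ^ (β.2 : ℕ)) := by
    intro t ht i
    rw [hv, Finset.mul_sum, Fintype.sum_prod_type, Fintype.sum_prod_type]
    have h1 : ∀ b : Fin δ → Option ι, ∀ ε : Fin (n + 1), ac.eval (1 / (t : ℂ)) * (c i (b, ε) * (ou (cx (Yb y b)) (t : ℂ) *
        (((Real.log t : ℝ) : ℂ)) ^ (ε : ℕ))) = ∑ β, c i (b, ε) * (Mc b β).eval (1 / (t : ℂ)) * (ou (cx (w β)) (t : ℂ) * (((Real.log t : ℝ) : ℂ)) ^ (ε : ℕ)) := by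
      intro b ε
      have h2 := hval t ht b
      calc ac.eval (1 / (t : ℂ)) * (c i (b, ε) * (ou (cx (Yb y b)) (t : ℂ) * (((Real.log t : ℝ) : ℂ)) ^ (ε : ℕ))) =
            (c i (b, ε) * (((Real.log t : ℝ) : ℂ)) ^ (ε : ℕ)) * (ac.eval (1 / (t : ℂ)) * ou (cx (Yb y b)) (t : ℂ)) := by ring
        _ = _ := by
          rw [h2, Finset.mul_sum]
          exact Finset.sum_congr rfl fun β _ => by ring
    simp only [h1]
    have h3 : ∀ β : B, ∀ ε : Fin (n + 1), (P i (β, ε)).eval (1 / (t : ℂ)) * (ou (cx (w β)) (t : ℂ) * (((Real.log t : ℝ) : ℂ)) ^ (ε : ℕ)) =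
        ∑ b, c i (b, ε) * (Mc b β).eval (1 / (t : ℂ)) * (ou (cx (w β)) (t : ℂ) * (((Real.log t : ℝ) : ℂ)) ^ (ε : ℕ)) := by
      intro β ε
      show (∑ b, Polynomial.C (c i (b, ε)) * Mc b β).eval (1 / (t : ℂ)) * _ = _
      rw [Polynomial.eval_finsetSum, Finset.sum_mul]
      refine Finset.sum_congr rfl fun b _ => ?_
      rw [Polynomial.eval_mul, Polynomial.eval_C]
    simp only [h3]
    calc ∑ b, ∑ ε, ∑ β, c i (b, ε) * (Mc b β).eval (1 / (t : ℂ)) * (ou (cx (w β)) (t : ℂ) * (((Real.log t : ℝ) : ℂ)) ^ (ε : ℕ)) =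
          ∑ b, ∑ β, ∑ ε : Fin (n + 1), c i (b, ε) * (Mc b β).eval (1 / (t : ℂ)) * (ou (cx (w β)) (t : ℂ) * (((Real.log t : ℝ) : ℂ)) ^ (ε : ℕ)) :=
          Finset.sum_congr rfl fun b _ => Finset.sum_comm
      _ = ∑ β, ∑ b, ∑ ε : Fin (n + 1), c i (b, ε) * (Mc b β).eval (1 / (t : ℂ)) * (ou (cx (w β)) (t : ℂ) * (((Real.log t : ℝ) : ℂ)) ^ (ε : ℕ)) :=
          Finset.sum_comm
      _ = _ := Finset.sum_congr rfl fun β _ => Finset.sum_comm
  -- the rank
  obtain ⟨d, hd, hrank⟩ := rank_fin P fun r hr => by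
    have h1 : (fun i => r i * ac) = 0 := by
      refine hli (τ₁ ^ e) _ fun t ht => ?_
      have h2 : ∀ i, (r i * ac).eval (1 / (t : ℂ)) * hv y c t i = ∑ β : B × Fin (n + 1), (r i * P i β).eval (1 / (t : ℂ)) *
          (ou (cx (w β.1)) (t : ℂ) * (((Real.log t : ℝ) : ℂ)) ^ (β.2 : ℕ)) := by
        intro i
        rw [Polynomial.eval_mul, mul_assoc, hhv t ht i, Finset.mul_sum]
        refine Finset.sum_congr rfl fun β _ => ?_
        rw [Polynomial.eval_mul]
        ring
      simp only [h2]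
      rw [Finset.sum_comm]
      refine Finset.sum_eq_zero fun β _ => ?_
      rw [← Finset.sum_mul, ← Polynomial.eval_finsetSum, hr β, Polynomial.eval_zero, zero_mul]
    funext i
    have h2 := congrFun h1 i
    simp only [Pi.zero_apply] at h2
    exact (mul_eq_zero.1 h2).resolve_right hac
  obtain ⟨t₀, ht₀⟩ := no_roots_c hd
  obtain ⟨t₁, ht₁⟩ := exists_nat_ge (τ₁ ^ e)
  intro D
  obtain ⟨c₁, C₁, hc₁, hC₁, h₁⟩ := hone (Fintype.card (I × ((Fin δ → Option ι) × Fin (n + 1))) * D)
  refine ⟨c₁, C₁ + (t₀ + t₁ + 1), hc₁, by positivity, ?_⟩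
  intro V _ hV x N hN S hS
  set S₁ := S.filter fun t => t ≤ t₀ + t₁ with hS₁
  set S₂ := S.filter fun t => ¬ t ≤ t₀ + t₁ with hS₂
  have hcard : S₁.card + S₂.card = S.card := Finset.card_filter_add_card_filter_not (s := S) (fun t => t ≤ t₀ + t₁)
  have hcard1 : S₁.card ≤ t₀ + t₁ + 1 := by
    have : S₁ ⊆ Finset.range (t₀ + t₁ + 1) := fun t ht => Finset.mem_range.2 (Nat.lt_succ_of_le (Finset.mem_filter.1 ht).2)
    simpa using Finset.card_le_card this
  have hcard2 := h₁ (Ext V fun p : I × ((Fin δ → Option ι) × Fin (n + 1)) => c p.1 p.2) ((finrank_Ext V _).trans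
    (Nat.mul_le_mul_left _ hV)) x N hN S₂ fun t ht => by
      obtain ⟨htS, hlt⟩ := Finset.mem_filter.1 ht
      obtain ⟨hx1, hx2, v, hvV, hv0, hvs⟩ := hS t htS
      have ht0 : t₀ + t₁ < t := Nat.lt_of_not_le hlt
      have htR : ((t₀ : ℝ) + t₁) < t := by exact_mod_cast ht0
      have ht₀0 : (0 : ℝ) ≤ t₀ := by positivity
      have ht₁0 : (0 : ℝ) ≤ t₁ := by positivity
      refine ⟨hx1, hx2, fun β => ∑ i, v i * (P i β).eval (1 / ((t : ℝ) : ℂ)), fun β => ?_, ?_, ?_⟩
      · -- membership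
        let z : I × ((Fin δ → Option ι) × Fin (n + 1)) → ℂ := fun p =>
          if p.2.2 = β.2 then v p.1 * (Mc p.2.1 β.1).eval (1 / ((t : ℝ) : ℂ)) else 0
        have hz : ∀ p, z p ∈ V := by
          intro p
          show (if p.2.2 = β.2 then v p.1 * (Mc p.2.1 β.1).eval (1 / ((t : ℝ) : ℂ)) else 0) ∈ V
          split_ifs
          · have h3 : (Mc p.2.1 β.1).eval (1 / ((t : ℝ) : ℂ)) = (((M p.2.1 β.1).map (Int.castRingHom ℚ)).eval (1 / (t : ℚ)) : ℚ) := by
              show ((M p.2.1 β.1).map (Int.castRingHom ℂ)).eval (1 / ((t : ℝ) : ℂ)) = _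
              have h4 : (M p.2.1 β.1).map (Int.castRingHom ℂ) = ((M p.2.1 β.1).map (Int.castRingHom ℚ)).map (Rat.castHom ℂ) := by
                rw [Polynomial.map_map]
                congr 1
              have h5 : (1 / ((t : ℝ) : ℂ)) = (Rat.castHom ℂ) (1 / (t : ℚ)) := by simp
              rw [h4, h5, Polynomial.eval_map, Polynomial.eval₂_at_apply]
              rfl
            rw [h3, mul_comm, ← Rat.smul_def]
            exact V.smul_mem _ (hvV _)
          · exact V.zero_mem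
        have h6 := mem_Ext V (fun p : I × ((Fin δ → Option ι) × Fin (n + 1)) => c p.1 p.2) hz
        have h7 : ∑ b, z b * (fun p : I × ((Fin δ → Option ι) × Fin (n + 1)) => c p.1 p.2) b =
            ∑ i, v i * (P i β).eval (1 / ((t : ℝ) : ℂ)) := by
          rw [Fintype.sum_prod_type]
          refine Finset.sum_congr rfl fun i _ => ?_
          show _ = v i * (∑ b, Polynomial.C (c i (b, β.2)) * Mc b β.1).eval (1 / ((t : ℝ) : ℂ))
          rw [Polynomial.eval_finsetSum, Finset.mul_sum, Fintype.sum_prod_type]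
          refine Finset.sum_congr rfl fun b _ => ?_
          rw [Finset.sum_eq_single β.2]
          · show (if β.2 = β.2 then v i * (Mc b β.1).eval (1 / ((t : ℝ) : ℂ)) else 0) * c i (b, β.2) = _
            rw [if_pos rfl, Polynomial.eval_mul, Polynomial.eval_C]
            ring
          · intro ε _ hε
            show (if ε = β.2 then _ else 0) * _ = _
            rw [if_neg hε, zero_mul]
          · intro h
            exact absurd (Finset.mem_univ _) h
        rw [h7] at h6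
        exact h6
      · intro h0
        apply hv0
        refine hrank (1 / ((t : ℝ) : ℂ)) (ht₀ _ (by linarith)) v fun β => congrFun h0 β
      · have htτ : τ₁ ^ e < (t : ℝ) := by linarith
        have h8 : ∑ β : B × Fin (n + 1), (∑ i, v i * (P i β).eval (1 / ((t : ℝ) : ℂ))) * XF n w t β =
            ∑ i, v i * (ac.eval (1 / ((t : ℝ) : ℂ)) * hv y c t i) := by
          simp only [Finset.sum_mul]
          rw [Finset.sum_comm]
          refine Finset.sum_congr rfl fun i _ => ?_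
          rw [hhv t htτ i, Finset.mul_sum]
          refine Finset.sum_congr rfl fun β _ => ?_
          rw [XF, ← ou_ev]
          ring
        rw [h8]
        have h9 : ∀ i, v i * (ac.eval (1 / ((t : ℝ) : ℂ)) * hv y c t i) = ac.eval (1 / ((t : ℝ) : ℂ)) * (v i * hv y c t i) := fun i => by ring
        simp only [h9]
        rw [← Finset.mul_sum, hvs, mul_zero]
  have hf : (1 : ℝ) ≤ 1 + N / ((x : ℝ) + N) ^ c₁ := by
    have : (0 : ℝ) ≤ N / ((x : ℝ) + N) ^ c₁ := by positivity
    linarith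
  have h10 : (S₁.card : ℝ) ≤ (t₀ + t₁ + 1) * (1 + N / ((x : ℝ) + N) ^ c₁) := by
    have h11 : (S₁.card : ℝ) ≤ t₀ + t₁ + 1 := by exact_mod_cast hcard1
    calc (S₁.card : ℝ) ≤ (t₀ + t₁ + 1) * 1 := by rw [mul_one]; exact h11
      _ ≤ _ := mul_le_mul_of_nonneg_left hf (by positivity)
  have h12 : (S.card : ℝ) = S₁.card + S₂.card := by exact_mod_cast hcard.symm
  rw [h12, add_mul]
  linarith

end

end Pool.Agent.Y124.GE
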