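import Pool.Agent.Y124.GE.Lk
import Pool.Agent.Y124.GE.One

/-!
# The finite set of connection matrices
-/

set_option autoImplicit false

open Filter Topology Complex

namespace Pool.Agent.Y124.GE

open Pool.Agent.Y124 Pool.Agent.Y120.GH

variable {a b : Polynomial ℚ}

/-- numberings of the roots with a sign -/
abbrev Kap := {σ : Fin 3 → Fin 3 // Function.Injective σ} × Bool

lemma cp_real (P : Polynomial ℚ) (u : ℝ) : (cp P).eval (u : ℂ) = ((Polynomial.aeval u P : ℝ) : ℂ) := by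
  rw [cp, Polynomial.eval_map_algebraMap]
  have := Polynomial.aeval_algebraMap_apply ℂ u P
  exact this

lemma conj_eval (P : Polynomial ℚ) {s : ℂ} (hs : s.im = 0) : (starRingEnd ℂ) ((cp P).eval s) = (cp P).eval s := by
  have : s = ((s.re : ℝ) : ℂ) := by
    apply Complex.ext <;> simp [hs]
  rw [this, cp_real, conj_ofReal]

/-- the charts near a real point -/
theorem charts (a b : Polynomial ℚ) (u1 : ℝ) (hD : (cp (De a b)).eval (u1 : ℂ) ≠ 0) (hb : (cp b).eval (u1 : ℂ) ≠ 0) :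
    ∃ (e : Fin 3 → ℂ → ℂ) (w : Kap → ℂ → ℂ),
      (∀ κ : Kap, AnalyticAt ℂ (fun s => (e (κ.1.1 2) s - e (κ.1.1 0) s) / (e (κ.1.1 1) s - e (κ.1.1 0) s)) u1) ∧
      (∀ κ, AnalyticAt ℂ (w κ) u1 ∧ w κ u1 ≠ 0) ∧
      (∀ᶠ s in 𝓝 (u1 : ℂ), ∀ κ : Kap, Cv (cp a) (cp b) (s, (fun j => e (κ.1.1 j) s), w κ s) ∧
        EQ (cp a) (cp b) s ((e (κ.1.1 2) s - e (κ.1.1 0) s) / (e (κ.1.1 1) s - e (κ.1.1 0) s)) (w κ s)) ∧
      (∀ᶠ s in 𝓝 (u1 : ℂ), ∀ x : MC, Cv (cp a) (cp b) x → x.1 = s → ∃ κ : Kap, x = (s, (fun j => e (κ.1.1 j) s), w κ s)) ∧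
      ∀ κ : Kap, (e (κ.1.1 2) u1 - e (κ.1.1 0) u1) / (e (κ.1.1 1) u1 - e (κ.1.1 0) u1) ∉ Dom →
        ∀ᶠ s in 𝓝 (u1 : ℂ), s.im = 0 → (e (κ.1.1 2) s - e (κ.1.1 0) s) / (e (κ.1.1 1) s - e (κ.1.1 0) s) ∉ Dom := by
  classical
  obtain ⟨e, he1, he2, he3⟩ := roots_near (cp a) (cp b) (u1 : ℂ) (by rw [← cp_De]; exact hD)
  have hdist := he2.self_of_nhds
  have hsub : ∀ i j, i ≠ j → e i u1 - e j u1 ≠ 0 := fun i j hij => sub_ne_zero.2 fun h => hij (hdist.1 h)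
  have hw := fun σ : {σ : Fin 3 → Fin 3 // Function.Injective σ} => sqrt_branch (d := fun s => e (σ.1 1) s - e (σ.1 0) s)
    ((he1 _).sub (he1 _)) (hsub _ _ fun h => absurd (σ.2 h) (by decide))
  choose w hw1 hw2 hw3 using hw
  have hne : ∀ κ : Kap, e (κ.1.1 1) u1 - e (κ.1.1 0) u1 ≠ 0 := fun κ => hsub _ _ fun h => absurd (κ.1.2 h) (by decide)
  have hla : ∀ κ : Kap, AnalyticAt ℂ (fun s => (e (κ.1.1 2) s - e (κ.1.1 0) s) / (e (κ.1.1 1) s - e (κ.1.1 0) s)) u1 := fun κ =>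
    ((he1 _).fun_sub (he1 _)).fun_div ((he1 _).fun_sub (he1 _)) (hne κ)
  have hDe : ∀ᶠ s in 𝓝 (u1 : ℂ), (cp (De a b)).eval s ≠ 0 := (cp (De a b)).continuous.continuousAt.eventually_ne hD
  have hprod : ∀ (κ : Kap) (s X : ℂ), (X - e (κ.1.1 0) s) * (X - e (κ.1.1 1) s) * (X - e (κ.1.1 2) s) =
      (X - e 0 s) * (X - e 1 s) * (X - e 2 s) := by
    intro κ s X
    have h1 := Equiv.prod_comp (Equiv.ofBijective κ.1.1 (Finite.injective_iff_bijective.1 κ.1.2)) (fun i => X - e i s)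
    rw [Fin.prod_univ_three, Fin.prod_univ_three] at h1
    exact h1
  have hwsq : ∀ (κ : Kap) s, ((if κ.2 then 1 else -1 : ℂ) * w κ.1 s) ^ 2 = e (κ.1.1 1) s - e (κ.1.1 0) s := by
    intro κ s
    rw [mul_pow, hw3]
    split_ifs <;> ring
  refine ⟨e, fun κ s => (if κ.2 then 1 else -1) * w κ.1 s, hla, fun κ => ⟨analyticAt_const.mul (hw1 κ.1), ?_⟩, ?_, ?_, ?_⟩
  · refine mul_ne_zero ?_ (hw2 κ.1)
    split_ifs <;> norm_num
  · filter_upwards [he2] with s hs κ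
    have hC : Cv (cp a) (cp b) (s, (fun j => e (κ.1.1 j) s), (if κ.2 then 1 else -1) * w κ.1 s) :=
      ⟨fun X => by rw [hprod κ s X]; exact hs.2 X, hwsq κ s⟩
    refine ⟨hC, ?_⟩
    have h1 := Cv_sym hC
    have h01 : e (κ.1.1 0) s ≠ e (κ.1.1 1) s := fun h => absurd (κ.1.2 (hs.1 h)) (by decide)
    exact EQ_of h01 h1.1 h1.2.1 h1.2.2 (hwsq κ s)
  · filter_upwards [he2, hDe] with s hs hs2 x hx hxs
    subst hxs
    have hxi : Function.Injective x.2.1 := ne_of_disc hx.1 (by rw [← cp_De]; exact hs2)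
    have hroot : ∀ j, ∃ i, x.2.1 j = e i x.1 := by
      intro j
      have h1 : (x.2.1 j - e 0 x.1) * (x.2.1 j - e 1 x.1) * (x.2.1 j - e 2 x.1) = 0 := by
        rw [← hs.2 (x.2.1 j), hx.1 (x.2.1 j)]
        fin_cases j <;> simp
      rcases mul_eq_zero.1 h1 with h2 | h2
      · rcases mul_eq_zero.1 h2 with h3 | h3
        · exact ⟨0, sub_eq_zero.1 h3⟩
        · exact ⟨1, sub_eq_zero.1 h3⟩
      · exact ⟨2, sub_eq_zero.1 h2⟩
    choose σ hσ using hroot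
    have hσi : Function.Injective σ := by
      intro i j hij
      apply hxi
      rw [hσ i, hσ j, hij]
    have h2 : x.2.2 ^ 2 = w ⟨σ, hσi⟩ x.1 ^ 2 := by
      rw [hx.2, hw3, hσ 1, hσ 0]
    rcases sq_eq_sq_iff_eq_or_eq_neg.1 h2 with h3 | h3
    · refine ⟨(⟨σ, hσi⟩, true), Prod.ext rfl (Prod.ext (funext hσ) ?_)⟩
      simp [h3]
    · refine ⟨(⟨σ, hσi⟩, false), Prod.ext rfl (Prod.ext (funext hσ) ?_)⟩
      simp [h3]
  · intro κ hκ
    set lm := (e (κ.1.1 2) u1 - e (κ.1.1 0) u1) / (e (κ.1.1 1) u1 - e (κ.1.1 0) u1) with hlm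
    have hC : Cv (cp a) (cp b) ((u1 : ℂ), (fun j => e (κ.1.1 j) u1), (if κ.2 then 1 else -1) * w κ.1 u1) :=
      ⟨fun X => by rw [hprod κ u1 X]; exact hdist.2 X, hwsq κ u1⟩
    have hS := Cv_sym hC
    have h01 : e (κ.1.1 0) u1 ≠ e (κ.1.1 1) u1 := fun h => absurd (κ.1.2 (hdist.1 h)) (by decide)
    have hEQ := EQ_of h01 hS.1 hS.2.1 hS.2.2 (hwsq κ u1)
    rw [← hlm] at hEQ
    set W := e (κ.1.1 1) u1 - e (κ.1.1 0) u1 with hW
    have hW0 : W ≠ 0 := hne κ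
    have hlW : lm * W = e (κ.1.1 2) u1 - e (κ.1.1 0) u1 := by rw [hlm, div_mul_cancel₀ _ hW0]
    -- `λ` is real
    have him : lm.im = 0 ∧ (lm.re < 0 ∨ 1 < lm.re) := by
      have hl0 : lm ≠ 0 := by
        intro h
        rw [h, zero_mul] at hlW
        exact hsub _ _ (fun h => absurd (κ.1.2 h) (by decide)) hlW.symm
      have hl1 : lm ≠ 1 := by
        intro h
        rw [h, one_mul, hW] at hlW
        apply hsub (κ.1.1 1) (κ.1.1 2) (fun h => absurd (κ.1.2 h) (by decide))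
        linear_combination hlW
      by_cases h1 : lm ∈ slitPlane
      · have h2 : 1 - lm ∉ slitPlane := fun h => hκ ⟨h1, h⟩
        rw [mem_slitPlane_iff, not_or] at h2
        simp only [sub_re, one_re, sub_im, one_im, zero_sub, not_lt, ne_eq, neg_eq_zero, not_not] at h2
        refine ⟨h2.2, Or.inr (lt_of_le_of_ne (by linarith [h2.1]) fun h => hl1 ?_)⟩
        apply Complex.ext
        · rw [one_re, ← h]
        · rw [one_im, h2.2]
      · rw [mem_slitPlane_iff, not_or] at h1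
        simp only [not_lt, ne_eq, not_not] at h1
        refine ⟨h1.2, Or.inl (lt_of_le_of_ne h1.1 fun h => hl0 ?_)⟩
        apply Complex.ext
        · rw [zero_re, h]
        · rw [zero_im, h1.2]
    -- `W` is real
    clear_value lm W
    have hlr : (starRingEnd ℂ) lm = lm := by
      apply Complex.ext <;> simp [him.1]
    have har := conj_eval a (s := (u1 : ℂ)) (ofReal_im u1)
    have hbr := conj_eval b (s := (u1 : ℂ)) (ofReal_im u1)
    have hw2' : ((if κ.2 then 1 else -1 : ℂ) * w κ.1 u1) ^ 2 = W := by rw [hwsq κ u1, hW]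
    have hw4 : ((if κ.2 then 1 else -1 : ℂ) * w κ.1 u1) ^ 4 = W ^ 2 := by
      rw [← hw2']
      ring
    have hw6 : ((if κ.2 then 1 else -1 : ℂ) * w κ.1 u1) ^ 6 = W ^ 3 := by
      rw [← hw2']
      ring
    have hQ1 := hEQ.1
    have hQ2 := hEQ.2
    rw [hw4] at hQ1
    rw [hw6] at hQ2
    have hg0 : (1 + lm) * (2 - lm) * (2 * lm - 1) ≠ 0 := by
      intro h
      rw [h, mul_zero, zero_div] at hQ2
      exact hb hQ2
    have hq0 : lm ^ 2 - lm + 1 ≠ 0 := by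
      intro h
      have h1 := congrArg Complex.re h
      simp only [sq, mul_re, him.1, sub_re, add_re, one_re, zero_re, mul_zero, sub_zero] at h1
      nlinarith [sq_nonneg (lm.re - 1 / 2)]
    have hW2 : (starRingEnd ℂ) W ^ 2 = W ^ 2 := by
      have h1 := congrArg (starRingEnd ℂ) hQ1
      simp only [map_neg, map_mul, map_add, map_sub, map_pow, map_one, map_div₀, hlr, har, map_ofNat] at h1
      rw [hQ1] at h1
      apply mul_right_cancel₀ hq0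
      linear_combination 3 * h1
    have hW3 : (starRingEnd ℂ) W ^ 3 = W ^ 3 := by
      have h1 := congrArg (starRingEnd ℂ) hQ2
      simp only [map_mul, map_add, map_sub, map_pow, map_one, map_div₀, hlr, hbr, map_ofNat] at h1
      rw [hQ2] at h1
      apply mul_right_cancel₀ hg0
      linear_combination (-27 : ℂ) * h1
    have hWr : (starRingEnd ℂ) W = W := by
      have h1 : W ^ 2 ≠ 0 := pow_ne_zero _ hW0
      apply mul_left_cancel₀ h1
      calc W ^ 2 * (starRingEnd ℂ) W = (starRingEnd ℂ) W ^ 2 * (starRingEnd ℂ) W := by rw [hW2]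
        _ = (starRingEnd ℂ) W ^ 3 := by ring
        _ = W ^ 2 * W := by rw [hW3]; ring
    have he0 : 3 * e (κ.1.1 0) u1 = -(1 + lm) * W := by
      have h1 : e (κ.1.1 0) u1 + e (κ.1.1 1) u1 + e (κ.1.1 2) u1 = 0 := hS.1
      linear_combination h1 + hlW + hW
    have hr : ∀ j, (starRingEnd ℂ) (e (κ.1.1 j) u1) = e (κ.1.1 j) u1 := by
      have h0 : (starRingEnd ℂ) (e (κ.1.1 0) u1) = e (κ.1.1 0) u1 := by
        have h1 := congrArg (starRingEnd ℂ) he0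
        simp only [map_neg, map_mul, map_add, map_one, hlr, hWr, map_ofNat] at h1
        linear_combination (1 / 3 : ℂ) * h1 - (1 / 3 : ℂ) * he0
      have h1 : (starRingEnd ℂ) (e (κ.1.1 1) u1) = e (κ.1.1 1) u1 := by
        have h2 : e (κ.1.1 1) u1 = W + e (κ.1.1 0) u1 := by rw [hW]; ring
        rw [h2, map_add, hWr, h0]
      have h2 : (starRingEnd ℂ) (e (κ.1.1 2) u1) = e (κ.1.1 2) u1 := by
        have h2 : e (κ.1.1 2) u1 = lm * W + e (κ.1.1 0) u1 := by rw [hlW]; ring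
        rw [h2, map_add, map_mul, hWr, h0, hlr]
      intro j
      fin_cases j
      · exact h0
      · exact h1
      · exact h2
    have hre : ∀ j, ∀ᶠ s in 𝓝 (u1 : ℂ), s.im = 0 → (starRingEnd ℂ) (e (κ.1.1 j) s) = e (κ.1.1 j) s := by
      intro j
      have hc : Tendsto (fun s : ℂ => (s, (starRingEnd ℂ) (e (κ.1.1 j) s))) (𝓝 (u1 : ℂ)) (𝓝 ((u1 : ℂ), e (κ.1.1 j) u1)) := by
        have h1 : ContinuousAt (fun s : ℂ => (s, (starRingEnd ℂ) (e (κ.1.1 j) s))) (u1 : ℂ) :=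
          continuousAt_id.prodMk ((continuous_conj.continuousAt).comp (he1 (κ.1.1 j)).continuousAt)
        have h2 := h1.tendsto
        simp only [hr j] at h2
        exact h2
      filter_upwards [hc.eventually (he3 (κ.1.1 j)), he2] with s h1 h2 h3
      apply h1
      have h4 : e (κ.1.1 j) s ^ 3 + (cp a).eval s * e (κ.1.1 j) s + (cp b).eval s = 0 := by
        rw [h2.2]
        have : ∀ i : Fin 3, (e i s - e 0 s) * (e i s - e 1 s) * (e i s - e 2 s) = 0 := by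
          intro i
          fin_cases i <;> simp
        exact this _
      have h5 := congrArg (starRingEnd ℂ) h4
      simp only [map_mul, map_add, map_pow, map_zero, conj_eval _ h3] at h5
      exact h5
    have hcont : ContinuousAt (fun s : ℂ => ((e (κ.1.1 2) s - e (κ.1.1 0) s) / (e (κ.1.1 1) s - e (κ.1.1 0) s)).re) (u1 : ℂ) :=
      continuous_re.continuousAt.comp (hla κ).continuousAt
    have hct : Tendsto (fun s : ℂ => ((e (κ.1.1 2) s - e (κ.1.1 0) s) / (e (κ.1.1 1) s - e (κ.1.1 0) s)).re) (𝓝 (u1 : ℂ))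
        (𝓝 lm.re) := by
      rw [hlm, hW]
      exact hcont
    have hside : ∀ᶠ s in 𝓝 (u1 : ℂ), ((e (κ.1.1 2) s - e (κ.1.1 0) s) / (e (κ.1.1 1) s - e (κ.1.1 0) s)).re < 0 ∨
        1 < ((e (κ.1.1 2) s - e (κ.1.1 0) s) / (e (κ.1.1 1) s - e (κ.1.1 0) s)).re := by
      rcases him.2 with h | h
      · exact (hct.eventually_lt_const h).mono fun s hs => Or.inl hs
      · exact (hct.eventually_const_lt h).mono fun s hs => Or.inr hs
    filter_upwards [hre 0, hre 1, hre 2, hside] with s k0 k1 k2 k3 hs hmem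
    have him' : ((e (κ.1.1 2) s - e (κ.1.1 0) s) / (e (κ.1.1 1) s - e (κ.1.1 0) s)).im = 0 := by
      rw [← conj_eq_iff_im]
      simp only [map_div₀, map_sub, k0 hs, k1 hs, k2 hs]
    rcases k3 with h | h
    · have h1 := hmem.1
      rw [mem_slitPlane_iff] at h1
      rcases h1 with h1 | h1
      · linarith
      · exact h1 him'
    · have h1 := hmem.2
      rw [mem_slitPlane_iff, sub_re, sub_im, one_re, one_im, him'] at h1
      rcases h1 with h1 | h1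
      · linarith
      · exact h1 (by simp)

/-- the connection matrices at a point -/
def FS (L : LD a b) (u : ℝ) : Set (Fin 2 → Fin 2 → ℂ) :=
  {C | ∃ x : MC, Cv (cp a) (cp b) x ∧ x.1 = (u : ℂ) ∧ lam x ∈ Dom ∧ C = cm L u (lam x) x.2.2}

lemma no_roots_q {P : Polynomial ℚ} (hP : P ≠ 0) : ∃ u0 : ℝ, 0 < u0 ∧ ∀ u : ℝ, 0 < u → u < u0 → (cp P).eval (u : ℂ) ≠ 0 := by
  have h1 : cp P ≠ 0 := by
    intro h
    exact hP ((Polynomial.map_eq_zero_iff (algebraMap ℚ ℂ).injective).1 h)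
  obtain ⟨c, hc⟩ := no_roots_c h1
  refine ⟨1 / ((c : ℝ) + 1), by positivity, fun u h0 hu => ?_⟩
  have h2 : (c : ℝ) < 1 / u := by
    rw [lt_div_iff₀ h0]
    rw [lt_div_iff₀ (by positivity)] at hu
    nlinarith
  have h3 := hc (1 / u) h2
  rw [ofReal_div, ofReal_one, one_div_one_div] at h3
  exact h3

lemma FS_fin (L : LD a b) (u1 : ℝ) (hD : (cp (De a b)).eval (u1 : ℂ) ≠ 0) (hb : (cp b).eval (u1 : ℂ) ≠ 0) : (FS L u1).Finite := by
  classical
  obtain ⟨e, w, -, -, -, h4, -⟩ := charts a b u1 hD hb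
  refine (Set.finite_range fun κ : Kap => cm L u1 (lam ((u1 : ℂ), (fun j => e (κ.1.1 j) u1), w κ u1)) (w κ u1)).subset ?_
  rintro C ⟨x, hx, hx1, -, rfl⟩
  obtain ⟨κ, hκ⟩ := h4.self_of_nhds x hx hx1
  refine ⟨κ, ?_⟩
  rw [hκ]

lemma FS_loc (L : LD a b) {R : ℝ} (hR : 1 ≤ R) (hY : ∀ i j, cx (L.Y i j) ∈ Cw R) {u1 : ℝ} (h0 : 0 < u1) (h1 : u1 < 1 / R)
    (hD : (cp (De a b)).eval (u1 : ℂ) ≠ 0) (hb : (cp b).eval (u1 : ℂ) ≠ 0) : ∀ᶠ u in 𝓝 u1, FS L u = FS L u1 := by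
  classical
  obtain ⟨e, w, c1, c2, c3, c4, c5⟩ := charts a b u1 hD hb
  have hs : (u1 : ℂ) ∈ slitPlane := by rw [ofReal_mem_slitPlane]; exact h0
  have hs1 : ‖(u1 : ℂ)‖ < 1 / R := by rw [norm_real, Real.norm_of_nonneg h0.le]; exact h1
  -- the points
  set P : Kap → ℂ → MC := fun κ s => (s, (fun j => e (κ.1.1 j) s), w κ s) with hP
  have hlam : ∀ κ s, lam (P κ s) = (e (κ.1.1 2) s - e (κ.1.1 0) s) / (e (κ.1.1 1) s - e (κ.1.1 0) s) := fun _ _ => rfl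
  have hin : ∀ κ, lam (P κ u1) ∈ Dom → ∀ᶠ s in 𝓝 (u1 : ℂ), lam (P κ s) ∈ Dom ∧
      cm L s (lam (P κ s)) (w κ s) = cm L u1 (lam (P κ u1)) (w κ u1) := by
    intro κ hκ
    have k1 := (c1 κ).continuousAt.eventually_mem (isOpen_Dom.mem_nhds hκ)
    have k2 := cm_const L hR hY (l := fun s => (e (κ.1.1 2) s - e (κ.1.1 0) s) / (e (κ.1.1 1) s - e (κ.1.1 0) s)) (v := w κ)
      hs hs1 hD (c1 κ) (c2 κ).1 hκ (c2 κ).2 (c3.mono fun s hs => (hs κ).2)
    filter_upwards [k1, k2] with s j1 j2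
    exact ⟨j1, j2⟩
  have hall : ∀ᶠ s in 𝓝 (u1 : ℂ), ∀ κ, (lam (P κ u1) ∈ Dom → lam (P κ s) ∈ Dom ∧
      cm L s (lam (P κ s)) (w κ s) = cm L u1 (lam (P κ u1)) (w κ u1)) ∧ (lam (P κ u1) ∉ Dom → s.im = 0 → lam (P κ s) ∉ Dom) := by
    rw [eventually_all]
    intro κ
    by_cases h : lam (P κ u1) ∈ Dom
    · filter_upwards [hin κ h] with s hs
      exact ⟨fun _ => hs, fun h' => absurd h h'⟩
    · filter_upwards [c5 κ h] with s hs
      exact ⟨fun h' => absurd h' h, fun _ => hs⟩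
  have htend : Tendsto (fun u : ℝ => (u : ℂ)) (𝓝 u1) (𝓝 (u1 : ℂ)) := continuous_ofReal.tendsto u1
  filter_upwards [htend.eventually hall, htend.eventually c3, htend.eventually c4] with u k1 k3 k4
  ext C
  constructor
  · rintro ⟨x, hx, hx1, hxl, rfl⟩
    obtain ⟨κ, hκ⟩ := k4 x hx hx1
    have hκ' : x = P κ u := hκ
    rw [hκ'] at hxl
    have hmem : lam (P κ u1) ∈ Dom := by
      by_contra hcon
      exact (k1 κ).2 hcon (ofReal_im u) hxl
    refine ⟨P κ u1, (c3.self_of_nhds κ).1, rfl, hmem, ?_⟩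
    rw [hκ']
    exact ((k1 κ).1 hmem).2
  · rintro ⟨x, hx, hx1, hxl, rfl⟩
    obtain ⟨κ, hκ⟩ := c4.self_of_nhds x hx hx1
    have hκ' : x = P κ u1 := hκ
    rw [hκ'] at hxl
    obtain ⟨j1, j2⟩ := (k1 κ).1 hxl
    refine ⟨P κ u, (k3 κ).1, rfl, j1, ?_⟩
    rw [hκ']
    exact j2.symm

/-- **The periods and the local data.** -/
theorem link (L : LD a b) (hb : b ≠ 0) (hD : De a b ≠ 0) {R : ℝ} (hR : 1 ≤ R) (hY : ∀ i j, cx (L.Y i j) ∈ Cw R) :
    ∃ (u0 : ℝ) (F : Set (Fin 2 → Fin 2 → ℂ)), 0 < u0 ∧ u0 ≤ 1 / R ∧ F.Finite ∧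
      (∀ (x : MC) (u : ℝ), 0 < u → u < u0 → x.1 = (u : ℂ) → Cv (cp a) (cp b) x → lam x ∈ Dom →
        ∃ C ∈ F, ∀ y, pf (lam x) x.2.2 y = fv L C y u) ∧
      ∀ C ∈ F, ∀ u : ℝ, 0 < u → u < u0 → ∃ la w : ℂ → ℂ, AnalyticAt ℂ la u ∧ AnalyticAt ℂ w u ∧ la u ∈ Dom ∧ w u ≠ 0 ∧
        (∀ᶠ s in 𝓝 (u : ℂ), EQ (cp a) (cp b) s (la s) (w s)) ∧ ∀ᶠ s in 𝓝 (u : ℂ), ∀ y, pf (la s) (w s) y = fv L C y s := by
  classical
  have hR0 : 0 < R := by linarith
  obtain ⟨v1, hv1, hv1'⟩ := no_roots_q hb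
  obtain ⟨v2, hv2, hv2'⟩ := no_roots_q hD
  obtain ⟨n, w0, hw0, -, hdet⟩ := det_mono L hD
  set u0 := min (1 / R) (min v1 v2) with hu0
  have hu00 : 0 < u0 := lt_min (by positivity) (lt_min hv1 hv2)
  have hb' : ∀ u : ℝ, 0 < u → u < u0 → (cp b).eval (u : ℂ) ≠ 0 := fun u k1 k2 =>
    hv1' u k1 (k2.trans_le ((min_le_right _ _).trans (min_le_left _ _)))
  have hD' : ∀ u : ℝ, 0 < u → u < u0 → (cp (De a b)).eval (u : ℂ) ≠ 0 := fun u k1 k2 =>
    hv2' u k1 (k2.trans_le ((min_le_right _ _).trans (min_le_right _ _)))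
  have hu1 : ∀ u : ℝ, u < u0 → u < 1 / R := fun u k => k.trans_le (min_le_left _ _)
  -- constancy
  have hconst : ∀ u u' : ℝ, 0 < u → u < u0 → 0 < u' → u' < u0 → FS L u = FS L u' := by
    have : PreconnectedSpace (Set.Ioo (0 : ℝ) u0) := Subtype.preconnectedSpace isPreconnected_Ioo
    have hlc : IsLocallyConstant (fun u : Set.Ioo (0 : ℝ) u0 => FS L (u : ℝ)) := by
      rw [IsLocallyConstant.iff_eventually_eq]
      intro u
      have h1 := FS_loc L hR hY u.2.1 (hu1 _ u.2.2) (hD' _ u.2.1 u.2.2) (hb' _ u.2.1 u.2.2)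
      exact (continuous_subtype_val.tendsto u).eventually h1
    intro u u' h1 h2 h3 h4
    exact hlc.apply_eq_of_preconnectedSpace ⟨u, h1, h2⟩ ⟨u', h3, h4⟩
  have hh : 0 < u0 / 2 := by linarith
  have hh' : u0 / 2 < u0 := by linarith
  refine ⟨u0, FS L (u0 / 2), hu00, min_le_left _ _, FS_fin L _ (hD' _ hh hh') (hb' _ hh hh'), ?_, ?_⟩
  · intro x u h0 h1 hx1 hx hxl
    rw [hconst (u0 / 2) u hh hh' h0 h1]
    refine ⟨cm L u (lam x) x.2.2, ⟨x, hx, hx1, hxl, rfl⟩, fun y => ?_⟩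
    refine pf_fv L (det_Yan L hR hY hw0 hdet ?_ ?_) (lam x) x.2.2 y
    · exact_mod_cast h0.ne'
    · rw [norm_real, Real.norm_of_nonneg h0.le]
      exact hu1 _ h1
  · intro C hC u h0 h1
    rw [hconst (u0 / 2) u hh hh' h0 h1] at hC
    obtain ⟨x, hx, hx1, hxl, rfl⟩ := hC
    obtain ⟨e, w, c1, c2, c3, c4, c5⟩ := charts a b u (hD' _ h0 h1) (hb' _ h0 h1)
    obtain ⟨κ, rfl⟩ := c4.self_of_nhds x hx hx1
    have hs : (u : ℂ) ∈ slitPlane := by rw [ofReal_mem_slitPlane]; exact h0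
    have hs1 : ‖(u : ℂ)‖ < 1 / R := by rw [norm_real, Real.norm_of_nonneg h0.le]; exact hu1 _ h1
    have hEQ := c3.mono fun s hs => (hs κ).2
    refine ⟨_, w κ, c1 κ, (c2 κ).1, hxl, (c2 κ).2, hEQ, ?_⟩
    have k2 := cm_const L hR hY (l := fun s => (e (κ.1.1 2) s - e (κ.1.1 0) s) / (e (κ.1.1 1) s - e (κ.1.1 0) s)) (v := w κ)
      hs hs1 (hD' _ h0 h1) (c1 κ) (c2 κ).1 hxl (c2 κ).2 hEQ
    have h3 : ∀ᶠ s in 𝓝 (u : ℂ), s ∈ slitPlane := isOpen_slitPlane.mem_nhds hs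
    have h4 : ∀ᶠ s in 𝓝 (u : ℂ), ‖s‖ < 1 / R := continuous_norm.continuousAt.eventually_lt_const hs1
    filter_upwards [k2, h3, h4] with s j2 j3 j4 y
    have h5 := pf_fv L (det_Yan L hR hY hw0 hdet (slitPlane_ne_zero j3) j4)
      ((e (κ.1.1 2) s - e (κ.1.1 0) s) / (e (κ.1.1 1) s - e (κ.1.1 0) s)) (w κ s) y
    rw [h5, j2]
    rfl

end Pool.Agent.Y124.GE
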