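import Pool.Agent.Y124.GE.Gr

/-!
# Local data from graded formal solutions of the minimal model
-/

set_option autoImplicit false

namespace Pool.Agent.Y124.GE

open PowerSeries Finset Pool.Agent.Y113 Pool.Agent.Y113.HGG Pool.Agent.Y655.HG

section
variable {a b A B : Polynomial ℚ} {w : ℕ} (hA : xp (a : ℚ⟦X⟧) = X ^ (4 * w) * (A : ℚ⟦X⟧)) (hB : xp (b : ℚ⟦X⟧) = X ^ (6 * w) * (B : ℚ⟦X⟧))
include hA hB

lemma xp_De : xp (De a b : ℚ⟦X⟧) = X ^ (12 * w) * (De A B : ℚ⟦X⟧) := by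
  rw [coe_De, coe_De, map_add, map_mul, map_mul, map_pow, map_pow, hA, hB, map_ofNat, map_ofNat]
  ring

lemma xp_dDe : PowerSeries.C 12 * (X ^ 12 * xp (d⁄dX ℚ (De a b : ℚ⟦X⟧))) =
    X ^ (12 * w) * (PowerSeries.C (12 * (w : ℚ)) * (De A B : ℚ⟦X⟧) + X * d⁄dX ℚ (De A B : ℚ⟦X⟧)) := by
  rw [← xp_X, ← map_mul, ← der_xp, xp_De hA hB, Derivation.leibniz, Derivation.leibniz_pow, derivative_X]
  simp only [smul_eq_mul, nsmul_eq_mul, mul_one, map_mul, map_natCast, map_ofNat]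
  rcases w with _ | w
  · simp
  · have : 12 * (w + 1) - 1 + 1 = 12 * (w + 1) := by omega
    have h2 : (X : ℚ⟦X⟧) * X ^ (12 * (w + 1) - 1) = X ^ (12 * (w + 1)) := by
      rw [← pow_succ', this]
    push_cast
    linear_combination (12 * ((w : ℚ⟦X⟧) + 1) * (De A B : ℚ⟦X⟧)) * h2

lemma xp_Wr : PowerSeries.C 12 * (X ^ 12 * xp (Wr a b : ℚ⟦X⟧)) = X ^ (10 * w) * (X * (Wr A B : ℚ⟦X⟧)) := by
  have h1 : ∀ (P Q : Polynomial ℚ) (k : ℕ), xp (P : ℚ⟦X⟧) = X ^ k * (Q : ℚ⟦X⟧) →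
      PowerSeries.C 12 * (X ^ 12 * xp (d⁄dX ℚ (P : ℚ⟦X⟧))) = X ^ k * ((k : ℚ⟦X⟧) * (Q : ℚ⟦X⟧) + X * d⁄dX ℚ (Q : ℚ⟦X⟧)) := by
    intro P Q k h
    rw [← xp_X, ← map_mul, ← der_xp, h, Derivation.leibniz, Derivation.leibniz_pow, derivative_X]
    simp only [smul_eq_mul, nsmul_eq_mul, mul_one]
    rcases k with _ | k
    · simp
    · rw [Nat.add_sub_cancel]
      push_cast
      ring
  have ha := h1 a A _ hA
  have hb := h1 b B _ hB
  have x2 : xp (2 : ℚ⟦X⟧) = 2 := map_ofNat _ 2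
  have x3 : xp (3 : ℚ⟦X⟧) = 3 := map_ofNat _ 3
  rw [coe_Wr, coe_Wr, map_sub, map_mul, map_mul, map_mul, map_mul, x2, x3, hA, hB]
  push_cast at ha hb
  have h10 : (X : ℚ⟦X⟧) ^ (10 * w) = X ^ (4 * w) * X ^ (6 * w) := by
    rw [← pow_add]
    congr 1
    omega
  rw [h10]
  linear_combination (2 * X ^ (4 * w) * (A : ℚ⟦X⟧)) * hb - (3 * X ^ (6 * w) * (B : ℚ⟦X⟧)) * ha

end

/-- the exponents -/
def ex (w : ℕ) (m : Fin 2 → ℕ) (i j : Fin 2) : ℕ := ![m i - w, m i + w] j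

/-- the signed shift -/
def gq (w : ℕ) (j : Fin 2) : ℚ := ![(w : ℚ), -(w : ℚ)] j

lemma gauge {a b A B : Polynomial ℚ} {w : ℕ} (hA : xp (a : ℚ⟦X⟧) = X ^ (4 * w) * (A : ℚ⟦X⟧))
    (hB : xp (b : ℚ⟦X⟧) = X ^ (6 * w) * (B : ℚ⟦X⟧)) {m : Fin 2 → ℕ} (i : Fin 2) (hm : w ≤ m i) (k j : Fin 2) :
    PowerSeries.C 12 * (X ^ 12 * xp (AE a b k j : ℚ⟦X⟧)) * X ^ ex w m i k =
      X ^ (12 * w) * X ^ ex w m i j * (X * (AE A B k j : ℚ⟦X⟧) - PowerSeries.C (gq w j) * ((if k = j then 1 else 0) * (De A B : ℚ⟦X⟧))) := by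
  have e1 := xp_dDe hA hB
  have e2 := xp_Wr hA hB
  obtain ⟨c00, c01, c10, c11⟩ := coe_AE a b
  obtain ⟨d00, d01, d10, d11⟩ := coe_AE A B
  obtain ⟨r, hr⟩ := Nat.exists_eq_add_of_le hm
  have hx0 : ex w m i 0 = r := by
    show m i - w = r
    omega
  have hx1 : ex w m i 1 = r + 2 * w := by
    show m i + w = _
    omega
  have g0 : gq w 0 = w := rfl
  have g1 : gq w 1 = -(w : ℚ) := rfl
  have hC : PowerSeries.C (12 * (w : ℚ)) = PowerSeries.C 12 * PowerSeries.C (w : ℚ) := map_mul _ _ _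
  have h112 : PowerSeries.C (1 / 12 : ℚ) * PowerSeries.C 12 = 1 := by
    rw [← map_mul]
    norm_num
  have hf10 : ((1 : Fin 2) = 0) = False := by simp
  have hf01 : ((0 : Fin 2) = 1) = False := by simp
  fin_cases k <;> fin_cases j
  · simp only [Fin.zero_eta, c00, d00, hx0, g0, map_neg, map_mul, xp_C, if_true, one_mul]
    rw [hC] at e1
    linear_combination (-(PowerSeries.C (1 / 12 : ℚ)) * X ^ r) * e1 - (X ^ (12 * w) * X ^ r * PowerSeries.C (w : ℚ) * (De A B : ℚ⟦X⟧)) * h112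
  · simp only [Fin.zero_eta, Fin.mk_one, c01, d01, hx0, hx1, map_neg, map_mul, xp_C, hf01, if_false, zero_mul, mul_zero, sub_zero, hA]
    have h12w : (X : ℚ⟦X⟧) ^ (12 * w) * X ^ (r + 2 * w) = X ^ (4 * w) * X ^ (10 * w) * X ^ r := by
      rw [← pow_add, ← pow_add, ← pow_add]
      congr 1
      omega
    linear_combination (-(PowerSeries.C (1 / 2 : ℚ)) * (A : ℚ⟦X⟧) * X ^ (4 * w) * X ^ r) * e2 +
      (PowerSeries.C (1 / 2 : ℚ) * X * (A : ℚ⟦X⟧) * (Wr A B : ℚ⟦X⟧)) * h12w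
  · simp only [Fin.zero_eta, Fin.mk_one, c10, d10, hx0, hx1, map_neg, map_mul, xp_C, hf10, if_false, zero_mul, mul_zero, sub_zero]
    have h12w : (X : ℚ⟦X⟧) ^ (12 * w) * X ^ r = X ^ (10 * w) * X ^ (r + 2 * w) := by
      rw [← pow_add, ← pow_add]
      congr 1
      omega
    linear_combination (-(PowerSeries.C (3 / 2 : ℚ)) * X ^ (r + 2 * w)) * e2 + (PowerSeries.C (3 / 2 : ℚ) * X * (Wr A B : ℚ⟦X⟧)) * h12w
  · simp only [Fin.mk_one, c11, d11, hx1, g1, map_neg, map_mul, xp_C, if_true, one_mul]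
    rw [hC] at e1
    linear_combination (PowerSeries.C (1 / 12 : ℚ) * X ^ (r + 2 * w)) * e1 + (X ^ (12 * w) * X ^ (r + 2 * w) * PowerSeries.C (w : ℚ) * (De A B : ℚ⟦X⟧)) * h112

lemma SDc_Xp (n : ℕ) : SDc (X ^ n : ℚ⟦X⟧) := by
  induction n with
  | zero => rw [pow_zero]; exact SDc.one
  | succ n ih => rw [pow_succ]; exact ih.mul SDc.X

/-- **Descent.** -/
theorem ld_of {a b A B : Polynomial ℚ} (w : ℕ) (hA : xp (a : ℚ⟦X⟧) = X ^ (4 * w) * (A : ℚ⟦X⟧))
    (hB : xp (b : ℚ⟦X⟧) = X ^ (6 * w) * (B : ℚ⟦X⟧)) {N : M2} {S : Fin 2 → Fin 2 → ℚ⟦X⟧} (hS : FD A B N S) (hN : N * N = 0)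
    (m : Fin 2 → ℕ) (hmN : ∀ i k, N i k ≠ 0 → m i = m k) (hm : ∀ i, w ≤ m i) (g : Fin 2 → ZMod 12) (hg0 : g 0 = w) (hg1 : g 1 = -w)
    (hmg : ∀ i, (m i : ZMod 12) = g i) (hSg : ∀ i j, Gr (g j - g i) (S i j)) (hSD : ∀ i j, SDc (S i j)) : Nonempty (LD a b) := by
  have hgr : ∀ i j, Gr 0 (X ^ ex w m i j * S i j) := by
    intro i j
    have h1 := (Gr.X_pow (ex w m i j)).mul (hSg i j)
    have h2 : ((ex w m i j : ℕ) : ZMod 12) + (g j - g i) = 0 := by
      fin_cases j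
      · show ((m i - w : ℕ) : ZMod 12) + (g 0 - g i) = 0
        rw [Nat.cast_sub (hm i), hg0, hmg]
        ring
      · show ((m i + w : ℕ) : ZMod 12) + (g 1 - g i) = 0
        rw [Nat.cast_add, hg1, hmg]
        ring
    rwa [h2] at h1
  set Z : Fin 2 → Fin 2 → ℚ⟦X⟧ := fun i j => ds (X ^ ex w m i j * S i j) with hZ
  have hxZ : ∀ i j, xp (Z i j) = X ^ ex w m i j * S i j := fun i j => xp_ds (hgr i j)
  have hC12 : (PowerSeries.C 12 : ℚ⟦X⟧) ≠ 0 := by
    intro h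
    have := congrArg constantCoeff h
    simp at this
  refine ⟨⟨m, N, Z, hN, hmN, fun i j => SDc_ds ((SDc_Xp _).mul (hSD i j)), ?_, ?_⟩⟩
  · -- determinant
    intro h0
    have h1 := congrArg xp h0
    rw [map_zero, map_sub, map_mul, map_mul, hxZ, hxZ, hxZ, hxZ] at h1
    have e1 : ex w m 0 0 + ex w m 1 1 = m 0 + m 1 := by
      show m 0 - w + (m 1 + w) = _
      have := hm 0
      omega
    have e2 : ex w m 0 1 + ex w m 1 0 = m 0 + m 1 := by
      show m 0 + w + (m 1 - w) = _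
      have := hm 1
      omega
    have h2 : X ^ (m 0 + m 1) * (S 0 0 * S 1 1 - S 0 1 * S 1 0) = 0 := by
      have f1 : (X : ℚ⟦X⟧) ^ ex w m 0 0 * X ^ ex w m 1 1 = X ^ (m 0 + m 1) := by rw [← pow_add, e1]
      have f2 : (X : ℚ⟦X⟧) ^ ex w m 0 1 * X ^ ex w m 1 0 = X ^ (m 0 + m 1) := by rw [← pow_add, e2]
      linear_combination h1 - (S 0 0 * S 1 1) * f1 + (S 0 1 * S 1 0) * f2
    have h3 := (mul_eq_zero.1 h2).resolve_left (pow_ne_zero _ X_ne_zero)
    have h4 := congrArg constantCoeff h3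
    rw [map_sub, map_mul, map_mul, hS.c0, hS.c0, hS.c0, hS.c0, map_zero] at h4
    simp at h4
  · intro j
    funext i
    apply xp_inj
    apply mul_left_cancel₀ hC12
    rw [Pi.smul_apply, smul_eq_mul, Dc_apply, Finset.sum_apply]
    simp only [Pi.smul_apply, smul_eq_mul]
    -- the right side
    have hr : PowerSeries.C 12 * xp (∑ k, X * (AE a b k j : ℚ⟦X⟧) * Z i k) =
        ∑ k, (PowerSeries.C 12 * (X ^ 12 * xp (AE a b k j : ℚ⟦X⟧)) * X ^ ex w m i k) * S i k := by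
      rw [map_sum, Finset.mul_sum]
      refine Finset.sum_congr rfl fun k _ => ?_
      rw [map_mul, map_mul, hxZ, xp_X]
      ring
    rw [hr]
    simp only [gauge hA hB i (hm i)]
    -- the left side
    have hl1 : PowerSeries.C 12 * xp (X * d⁄dX ℚ (Z i j)) = X ^ ex w m i j * ((ex w m i j : ℚ⟦X⟧) * S i j + X * d⁄dX ℚ (S i j)) := by
      rw [← der_xp, hxZ, Derivation.leibniz, Derivation.leibniz_pow, derivative_X]
      simp only [smul_eq_mul, nsmul_eq_mul, mul_one]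
      generalize ex w m i j = k
      rcases k with _ | k
      · simp
      · rw [Nat.add_sub_cancel]
        push_cast
        ring
    have hl2 : PowerSeries.C 12 * xp (∑ k, PowerSeries.C (cN (fun i => (m i : ℚ) / 12) ((1 / 12 : ℚ) • N) i k) * Z k j) =
        X ^ ex w m i j * (PowerSeries.C (m i : ℚ) * S i j - ∑ k, PowerSeries.C (N i k) * S k j) := by
      have h3 : ∀ k, PowerSeries.C 12 * (PowerSeries.C (cN (fun i => (m i : ℚ) / 12) ((1 / 12 : ℚ) • N) i k) * (X ^ ex w m k j * S k j)) =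
          X ^ ex w m i j * ((if i = k then PowerSeries.C (m i : ℚ) * S k j else 0) - PowerSeries.C (N i k) * S k j) := by
        intro k
        have h4 : PowerSeries.C 12 * PowerSeries.C (cN (fun i => (m i : ℚ) / 12) ((1 / 12 : ℚ) • N) i k) =
            (if i = k then PowerSeries.C (m i : ℚ) else 0) - PowerSeries.C (N i k) := by
          rw [← map_mul, cN, Matrix.sub_apply, Matrix.diagonal_apply, Matrix.smul_apply, smul_eq_mul]
          split_ifs
          · rw [← map_sub]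
            congr 1
            ring
          · have h7 : (12 * (0 - 1 / 12 * N i k) : ℚ) = -(N i k) := by ring
            rw [h7, map_neg, zero_sub]
        by_cases hik : i = k
        · subst hik
          rw [if_pos rfl] at h4 ⊢
          linear_combination (X ^ ex w m i j * S i j) * h4
        · rw [if_neg hik] at h4 ⊢
          by_cases hNik : N i k = 0
          · rw [hNik, map_zero] at h4 ⊢
            linear_combination (X ^ ex w m k j * S k j) * h4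
          · have h5 : ex w m k j = ex w m i j := by
              rw [ex, ex, hmN i k hNik]
            rw [h5]
            linear_combination (X ^ ex w m i j * S k j) * h4
      rw [map_sum, Finset.mul_sum]
      simp only [map_mul, xp_C, hxZ]
      rw [Finset.sum_congr rfl fun k _ => h3 k, ← Finset.mul_sum, Finset.sum_sub_distrib]
      congr 2
      simp
    have hex : ((ex w m i j : ℕ) : ℚ⟦X⟧) = PowerSeries.C (m i : ℚ) - PowerSeries.C (gq w j) := by
      rw [← map_sub, ← map_natCast (PowerSeries.C (R := ℚ))]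
      congr 1
      fin_cases j
      · show ((m i - w : ℕ) : ℚ) = (m i : ℚ) - (w : ℚ)
        rw [Nat.cast_sub (hm i)]
      · show ((m i + w : ℕ) : ℚ) = (m i : ℚ) - (-(w : ℚ))
        push_cast
        ring
    have hode := hS.ode i j
    have hL : PowerSeries.C 12 * xp ((De a b : ℚ⟦X⟧) * (X * d⁄dX ℚ (Z i j) -
        ∑ k, PowerSeries.C (cN (fun i => (m i : ℚ) / 12) ((1 / 12 : ℚ) • N) i k) * Z k j)) =
        X ^ (12 * w) * X ^ ex w m i j * ((De A B : ℚ⟦X⟧) * (X * d⁄dX ℚ (S i j) + ∑ k, PowerSeries.C (N i k) * S k j) -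
          PowerSeries.C (gq w j) * ((De A B : ℚ⟦X⟧) * S i j)) := by
      rw [map_mul, map_sub, xp_De hA hB]
      linear_combination (X ^ (12 * w) * (De A B : ℚ⟦X⟧)) * hl1 - (X ^ (12 * w) * (De A B : ℚ⟦X⟧)) * hl2 +
        (X ^ (12 * w) * (De A B : ℚ⟦X⟧) * X ^ ex w m i j * S i j) * hex
    rw [hL, hode]
    have hs : ∑ k, X ^ (12 * w) * X ^ ex w m i j * (X * (AE A B k j : ℚ⟦X⟧) - PowerSeries.C (gq w j) *
        ((if k = j then 1 else 0) * (De A B : ℚ⟦X⟧))) * S i k = X ^ (12 * w) * X ^ ex w m i j * (∑ k, X * (AE A B k j : ℚ⟦X⟧) * S i k -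
          PowerSeries.C (gq w j) * ((De A B : ℚ⟦X⟧) * S i j)) := by
      rw [mul_sub, Finset.mul_sum]
      have h6 : ∀ k, X ^ (12 * w) * X ^ ex w m i j * (X * (AE A B k j : ℚ⟦X⟧) - PowerSeries.C (gq w j) *
        ((if k = j then 1 else 0) * (De A B : ℚ⟦X⟧))) * S i k = X ^ (12 * w) * X ^ ex w m i j * (X * (AE A B k j : ℚ⟦X⟧) * S i k) -
          (if k = j then X ^ (12 * w) * X ^ ex w m i j * (PowerSeries.C (gq w j) * ((De A B : ℚ⟦X⟧) * S i k)) else 0) := by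
        intro k
        split_ifs <;> ring
      simp only [h6]
      rw [Finset.sum_sub_distrib]
      congr 1
      simp
    rw [hs]

end Pool.Agent.Y124.GE
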