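import Pool.Agent.Y124.GE.An
import Pool.Agent.Y124.FamK

/-!
# The connection coefficients are locally constant
-/

set_option autoImplicit false

open Filter Topology Complex

namespace Pool.Agent.Y124.GE

open Pool.Agent.Y124 Pool.Agent.Y120.GH

variable {a b : Polynomial ℚ}

lemma wr_deriv {r q : Fin 2 → ℂ → ℂ} {s : ℂ} (hD : (cp (De a b)).eval s ≠ 0) (hr : RS a b r s) (hq : RS a b q s) :
    HasDerivAt (fun u => r 0 u * q 1 u - r 1 u * q 0 u) 0 s := by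
  obtain ⟨r0, hr0, er0⟩ := hr 0
  obtain ⟨r1, hr1, er1⟩ := hr 1
  obtain ⟨q0, hq0, eq0⟩ := hq 0
  obtain ⟨q1, hq1, eq1⟩ := hq 1
  have h := (hr0.mul hq1).sub (hr1.mul hq0)
  refine h.congr_deriv ?_
  apply mul_left_cancel₀ hD
  rw [mul_zero]
  rw [Fin.sum_univ_two] at er0 er1 eq0 eq1
  have htr : (cp (AE a b 0 0)).eval s + (cp (AE a b 1 1)).eval s = 0 := by
    rw [← Polynomial.eval_add, cp, cp, ← Polynomial.map_add]
    have : AE a b 0 0 + AE a b 1 1 = 0 := by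
      simp only [AE, Matrix.cons_val_zero, Matrix.cons_val_one]
      ring
    rw [this, Polynomial.map_zero, Polynomial.eval_zero]
  linear_combination (q 1 s) * er0 + (r 0 s) * eq1 - (q 0 s) * er1 - (r 1 s) * eq0 +
    (r 0 s * q 1 s - r 1 s * q 0 s) * htr

lemma const_near {f : ℂ → ℂ} {s : ℂ} (h : ∀ᶠ u in 𝓝 s, HasDerivAt f 0 u) : ∀ᶠ u in 𝓝 s, f u = f s := by
  obtain ⟨ρ, hρ, hB⟩ := Metric.eventually_nhds_iff_ball.1 h
  filter_upwards [Metric.ball_mem_nhds s hρ] with u hu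
  exact Metric.isOpen_ball.is_const_of_deriv_eq_zero (convex_ball s ρ).isPreconnected
    (fun x hx => (hB x hx).differentiableAt.differentiableWithinAt) (fun x hx => (hB x hx).deriv) hu
    (Metric.mem_ball_self hρ)

/-- the coefficients of a row -/
noncomputable def cf (L : LD a b) (u : ℂ) (ρ : Fin 2 → ℂ) : Fin 2 → ℂ :=
  ![(ρ 0 * Yan L 1 1 u - ρ 1 * Yan L 1 0 u) / (Yan L 0 0 u * Yan L 1 1 u - Yan L 0 1 u * Yan L 1 0 u),
    (Yan L 0 0 u * ρ 1 - Yan L 0 1 u * ρ 0) / (Yan L 0 0 u * Yan L 1 1 u - Yan L 0 1 u * Yan L 1 0 u)]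

lemma cf_recon (L : LD a b) {u : ℂ} (hW : Yan L 0 0 u * Yan L 1 1 u - Yan L 0 1 u * Yan L 1 0 u ≠ 0) (ρ : Fin 2 → ℂ) (j : Fin 2) :
    ρ j = ∑ i, cf L u ρ i * Yan L i j u := by
  rw [Fin.sum_univ_two]
  simp only [cf, Matrix.cons_val_zero, Matrix.cons_val_one]
  rw [div_mul_eq_mul_div, div_mul_eq_mul_div, ← add_div, eq_div_iff hW]
  fin_cases j
  · simp only [Fin.zero_eta]
    ring
  · simp only [Fin.mk_one]
    ring

section
variable (L : LD a b) {R : ℝ} (hR : 1 ≤ R) (hY : ∀ i j, cx (L.Y i j) ∈ Cw R)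
include hR hY

lemma cf_const {r : Fin 2 → ℂ → ℂ} {s : ℂ} (hs : s ∈ slitPlane) (hs1 : ‖s‖ < 1 / R) (hD : (cp (De a b)).eval s ≠ 0)
    (hr : ∀ᶠ u in 𝓝 s, RS a b r u) : ∀ᶠ u in 𝓝 s, cf L u (fun j => r j u) = cf L s (fun j => r j s) := by
  have h1 : ∀ᶠ u in 𝓝 s, u ∈ slitPlane := isOpen_slitPlane.mem_nhds hs
  have h2 : ∀ᶠ u in 𝓝 s, ‖u‖ < 1 / R := continuous_norm.continuousAt.eventually_lt_const hs1
  have h3 : ∀ᶠ u in 𝓝 s, (cp (De a b)).eval u ≠ 0 := (cp (De a b)).continuous.continuousAt.eventually_ne hD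
  have hy : ∀ i, ∀ᶠ u in 𝓝 s, RS a b (fun j => Yan L i j) u := by
    intro i
    filter_upwards [h1, h2] with u k1 k2
    exact (Yan_rs L hR hY k1 k2 i).1
  have e1 : ∀ᶠ u in 𝓝 s, r 0 u * Yan L 1 1 u - r 1 u * Yan L 1 0 u = r 0 s * Yan L 1 1 s - r 1 s * Yan L 1 0 s :=
    const_near (f := fun u => r 0 u * Yan L 1 1 u - r 1 u * Yan L 1 0 u)
      (by filter_upwards [h3, hr, hy 1] with u k1 k2 k3 using wr_deriv k1 k2 k3)
  have e2 : ∀ᶠ u in 𝓝 s, Yan L 0 0 u * r 1 u - Yan L 0 1 u * r 0 u = Yan L 0 0 s * r 1 s - Yan L 0 1 s * r 0 s :=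
    const_near (f := fun u => Yan L 0 0 u * r 1 u - Yan L 0 1 u * r 0 u)
      (by filter_upwards [h3, hy 0, hr] with u k1 k2 k3 using wr_deriv k1 k2 k3)
  have e3 : ∀ᶠ u in 𝓝 s, Yan L 0 0 u * Yan L 1 1 u - Yan L 0 1 u * Yan L 1 0 u =
      Yan L 0 0 s * Yan L 1 1 s - Yan L 0 1 s * Yan L 1 0 s :=
    const_near (f := fun u => Yan L 0 0 u * Yan L 1 1 u - Yan L 0 1 u * Yan L 1 0 u)
      (by filter_upwards [h3, hy 0, hy 1] with u k1 k2 k3 using wr_deriv k1 k2 k3)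
  filter_upwards [e1, e2, e3] with u k1 k2 k3
  simp only [cf, k1, k2, k3]

end

lemma cp_De (s : ℂ) : (cp (De a b)).eval s = 4 * (cp a).eval s ^ 3 + 27 * (cp b).eval s ^ 2 := by
  simp [De, cp]

lemma cp_dDe (s : ℂ) : (cp (Polynomial.derivative (De a b))).eval s =
    12 * (cp a).eval s ^ 2 * (cp a).derivative.eval s + 54 * (cp b).eval s * (cp b).derivative.eval s := by
  rw [derivative_De]
  simp only [cp, Polynomial.derivative_map]
  simp [Polynomial.map_add, Polynomial.map_mul]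

lemma cp_Wr (s : ℂ) : (cp (Wr a b)).eval s =
    2 * (cp a).eval s * (cp b).derivative.eval s - 3 * (cp a).derivative.eval s * (cp b).eval s := by
  simp [Wr, cp, Polynomial.derivative_map]

lemma cp_AE (s : ℂ) : (cp (AE a b 0 0)).eval s = -(1 / 12 * (cp (Polynomial.derivative (De a b))).eval s) ∧
    (cp (AE a b 0 1)).eval s = -(1 / 2 * ((cp a).eval s * (cp (Wr a b)).eval s)) ∧
    (cp (AE a b 1 0)).eval s = -(3 / 2 * (cp (Wr a b)).eval s) ∧
    (cp (AE a b 1 1)).eval s = 1 / 12 * (cp (Polynomial.derivative (De a b))).eval s := by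
  refine ⟨?_, ?_, ?_, ?_⟩ <;> simp [AE, cp]

lemma row_rs {l v : ℂ → ℂ} {s : ℂ} (hl : AnalyticAt ℂ l s) (hv : AnalyticAt ℂ v s) (hD : l s ∈ DK)
    (hl0 : l s ≠ 0) (hv0 : v s ≠ 0) (heq : ∀ᶠ x in 𝓝 s, EQ (cp a) (cp b) x (l x) (v x)) :
    RS a b (fun j x => row (l x) (v x) j) s := by
  obtain ⟨h0, h1⟩ := row_ode hl hv hD hl0 hv0 heq
  obtain ⟨a1, a2, a3, a4⟩ := cp_AE (a := a) (b := b) s
  intro j
  refine ⟨_, (row_analytic hl hv hD hv0 j).differentiableAt.hasDerivAt, ?_⟩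
  rw [Fin.sum_univ_two]
  fin_cases j
  · change _ * deriv (fun x => row (l x) (v x) 0) s = _ * row (l s) (v s) 0 + _ * row (l s) (v s) 1
    rw [cp_De, h0]
    simp only [Fin.zero_eta]
    rw [a1, a3, cp_dDe, cp_Wr]
    ring
  · change _ * deriv (fun x => row (l x) (v x) 1) s = _ * row (l s) (v s) 0 + _ * row (l s) (v s) 1
    rw [cp_De, h1]
    simp only [Fin.mk_one]
    rw [a2, a4, cp_dDe, cp_Wr]
    ring

lemma EQ_swap {a b : Polynomial ℂ} {s l v : ℂ} (h : EQ a b s l v) : EQ a b s (1 - l) (-I * v) := by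
  have h4 : (-I * v) ^ 4 = v ^ 4 := by rw [mul_pow, neg_pow, I_pow_four]; ring
  have h6 : (-I * v) ^ 6 = -v ^ 6 := by
    have : I ^ 6 = -1 := by
      rw [show (6 : ℕ) = 4 + 2 from rfl, pow_add, I_pow_four, I_sq]
      ring
    rw [mul_pow, neg_pow, this]; ring
  constructor
  · rw [h.1, h4]; ring
  · rw [h.2, h6]; ring

lemma Dom_swap {l : ℂ} (h : l ∈ Dom) : 1 - l ∈ Dom := by
  refine ⟨h.2, ?_⟩
  have : (1 : ℂ) - (1 - l) = l := by ring
  rw [this]
  exact h.1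

/-- the matrix of connection coefficients at a point -/
noncomputable def cm (L : LD a b) (s l v : ℂ) : Fin 2 → Fin 2 → ℂ :=
  ![cf L s (row l v), cf L s (row (1 - l) (-I * v))]

lemma cm_const (L : LD a b) {R : ℝ} (hR : 1 ≤ R) (hY : ∀ i j, cx (L.Y i j) ∈ Cw R) {l v : ℂ → ℂ} {s : ℂ} (hs : s ∈ slitPlane)
    (hs1 : ‖s‖ < 1 / R) (hD : (cp (De a b)).eval s ≠ 0) (hl : AnalyticAt ℂ l s) (hv : AnalyticAt ℂ v s) (hDl : l s ∈ Dom)
    (hv0 : v s ≠ 0) (heq : ∀ᶠ x in 𝓝 s, EQ (cp a) (cp b) x (l x) (v x)) :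
    ∀ᶠ u in 𝓝 s, cm L u (l u) (v u) = cm L s (l s) (v s) := by
  have hv' : AnalyticAt ℂ (fun x => -I * v x) s := analyticAt_const.mul hv
  have hl' : AnalyticAt ℂ (fun x => 1 - l x) s := analyticAt_const.sub hl
  have hve : ∀ᶠ x in 𝓝 s, v x ≠ 0 := hv.continuousAt.eventually_ne hv0
  have hle : ∀ᶠ x in 𝓝 s, l x ∈ Dom := hl.continuousAt.eventually_mem (isOpen_Dom.mem_nhds hDl)
  have h1 : ∀ᶠ u in 𝓝 s, RS a b (fun j x => row (l x) (v x) j) u := by
    filter_upwards [hve, hle, hl.eventually_analyticAt, hv.eventually_analyticAt, heq.eventually_nhds] with u k1 k2 k3 k4 k5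
    exact row_rs k3 k4 k2.2 (slitPlane_ne_zero k2.1) k1 k5
  have h2 : ∀ᶠ u in 𝓝 s, RS a b (fun j x => row (1 - l x) (-I * v x) j) u := by
    filter_upwards [hve, hle, hl'.eventually_analyticAt, hv'.eventually_analyticAt, heq.eventually_nhds] with u k1 k2 k3 k4 k5
    refine row_rs k3 k4 (Dom_swap k2).2 (slitPlane_ne_zero (Dom_swap k2).1) (mul_ne_zero (neg_ne_zero.2 I_ne_zero) k1) ?_
    filter_upwards [k5] with x hx
    exact EQ_swap hx
  filter_upwards [cf_const L hR hY hs hs1 hD h1, cf_const L hR hY hs hs1 hD h2] with u k1 k2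
  unfold cm
  rw [show (row (l u) (v u)) = fun j => row (l u) (v u) j from rfl, k1, show (row (1 - l u) (-I * v u)) = fun j => row (1 - l u) (-I * v u) j from rfl, k2]

/-- the three functions -/
noncomputable def fv (L : LD a b) (C : Fin 2 → Fin 2 → ℂ) (y : Fin 3) (u : ℂ) : ℂ :=
  ![∑ i, C 0 i * Yan L i 0 u, ∑ i, C 1 i * Yan L i 0 u, ∑ i, C 0 i * Yan L i 1 u] y

lemma pf_fv (L : LD a b) {u : ℂ} (hW : Yan L 0 0 u * Yan L 1 1 u - Yan L 0 1 u * Yan L 1 0 u ≠ 0) (l v : ℂ) (y : Fin 3) :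
    pf l v y = fv L (cm L u l v) y u := by
  have h0 := cf_recon L hW (row l v)
  have h1 := cf_recon L hW (row (1 - l) (-I * v))
  fin_cases y
  · exact h0 0
  · show 4 * I / v * fC 2 l = _
    refine Eq.trans ?_ (h1 0)
    show 4 * I / v * eK (1 - l) = 4 / (-I * v) * eK (1 - l)
    congr 1
    by_cases hv : v = 0
    · rw [hv]
      simp
    · rw [div_eq_div_iff hv (mul_ne_zero (neg_ne_zero.2 I_ne_zero) hv)]
      linear_combination (-4 * v) * I_sq
  · exact h0 1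

/-! ## the roots -/

lemma three_roots (A B : ℂ) : ∃ r : Fin 3 → ℂ, ∀ X : ℂ, X ^ 3 + A * X + B = (X - r 0) * (X - r 1) * (X - r 2) := by
  obtain ⟨r1, h1⟩ : ∃ r : ℂ, r ^ 3 + A * r + B = 0 := by
    obtain ⟨r, hr⟩ := IsAlgClosed.exists_root (Polynomial.X ^ 3 + Polynomial.C A * Polynomial.X + Polynomial.C B : Polynomial ℂ) (by
      have : (Polynomial.X ^ 3 + Polynomial.C A * Polynomial.X + Polynomial.C B : Polynomial ℂ).degree = 3 := by
        compute_degree!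
      rw [this]
      norm_num)
    exact ⟨r, by simpa using hr⟩
  obtain ⟨z, hz⟩ := IsAlgClosed.exists_pow_nat_eq (-3 * r1 ^ 2 - 4 * A) (n := 2) (by norm_num)
  refine ⟨![r1, (-r1 + z) / 2, (-r1 - z) / 2], fun X => ?_⟩
  simp only [Matrix.cons_val_zero, Matrix.cons_val_one, Matrix.cons_val]
  linear_combination h1 + (X - r1) / 4 * hz

lemma ne_of_disc {A B : ℂ} {r : Fin 3 → ℂ} (h : ∀ X : ℂ, X ^ 3 + A * X + B = (X - r 0) * (X - r 1) * (X - r 2))
    (hd : 4 * A ^ 3 + 27 * B ^ 2 ≠ 0) : Function.Injective r := by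
  have k0 := h 0
  have k1 := h 1
  have k2 := h (-1)
  have s1 : r 0 + r 1 + r 2 = 0 := by linear_combination (k1 + k2) / 2 - k0
  have s3 : B = -(r 0 * r 1 * r 2) := by linear_combination k0
  have s2 : A = r 0 * r 1 + r 0 * r 2 + r 1 * r 2 := by linear_combination (k1 - k2) / 2
  have h4 : r 2 = -r 0 - r 1 := by linear_combination s1
  have hdd : 4 * A ^ 3 + 27 * B ^ 2 = -((r 0 - r 1) ^ 2 * (r 0 - r 2) ^ 2 * (r 1 - r 2) ^ 2) := by
    rw [s2, s3, h4]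
    ring
  rw [hdd] at hd
  have n01 : r 0 ≠ r 1 := fun h => hd (by rw [h]; ring)
  have n02 : r 0 ≠ r 2 := fun h => hd (by rw [h]; ring)
  have n12 : r 1 ≠ r 2 := fun h => hd (by rw [h]; ring)
  intro i j hij
  fin_cases i <;> fin_cases j <;> first
    | rfl
    | exact absurd hij n01
    | exact absurd hij n02
    | exact absurd hij n12
    | exact absurd hij.symm n01
    | exact absurd hij.symm n02
    | exact absurd hij.symm n12

lemma prod_of_roots {A B : ℂ} {r : Fin 3 → ℂ} (h : ∀ i, r i ^ 3 + A * r i + B = 0) (hi : Function.Injective r) (X : ℂ) :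
    X ^ 3 + A * X + B = (X - r 0) * (X - r 1) * (X - r 2) := by
  obtain ⟨s1, s2, s3⟩ := roots_sum (h 0) (h 1) (h 2) (fun h => absurd (hi h) (by decide)) (fun h => absurd (hi h) (by decide))
    (fun h => absurd (hi h) (by decide))
  have h4 : r 2 = -r 0 - r 1 := by linear_combination s1
  rw [s2, s3, h4]
  ring

/-- the three roots near a point -/
lemma roots_near (A B : Polynomial ℂ) (s0 : ℂ) (hd : 4 * A.eval s0 ^ 3 + 27 * B.eval s0 ^ 2 ≠ 0) :
    ∃ e : Fin 3 → ℂ → ℂ, (∀ i, AnalyticAt ℂ (e i) s0) ∧ (∀ᶠ s in 𝓝 s0, (Function.Injective fun i => e i s) ∧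
      ∀ X : ℂ, X ^ 3 + A.eval s * X + B.eval s = (X - e 0 s) * (X - e 1 s) * (X - e 2 s)) ∧
      ∀ i, ∀ᶠ p : ℂ × ℂ in 𝓝 (s0, e i s0), p.2 ^ 3 + A.eval p.1 * p.2 + B.eval p.1 = 0 → p.2 = e i p.1 := by
  obtain ⟨r, hr⟩ := three_roots (A.eval s0) (B.eval s0)
  have hinj := ne_of_disc hr hd
  have k0 := hr 0
  have k1 := hr 1
  have k2 := hr (-1)
  have s1 : r 0 + r 1 + r 2 = 0 := by linear_combination (k1 + k2) / 2 - k0
  have s2 : A.eval s0 = r 0 * r 1 + r 0 * r 2 + r 1 * r 2 := by linear_combination (k1 - k2) / 2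
  have n01 : r 0 - r 1 ≠ 0 := sub_ne_zero.2 fun h => absurd (hinj h) (by decide)
  have n02 : r 0 - r 2 ≠ 0 := sub_ne_zero.2 fun h => absurd (hinj h) (by decide)
  have n12 : r 1 - r 2 ≠ 0 := sub_ne_zero.2 fun h => absurd (hinj h) (by decide)
  have hroot : ∀ i, r i ^ 3 + A.eval s0 * r i + B.eval s0 = 0 := by
    intro i
    rw [hr]
    fin_cases i <;> simp
  have hder : ∀ i, 3 * r i ^ 2 + A.eval s0 ≠ 0 := by
    have h4 : r 2 = -r 0 - r 1 := by linear_combination s1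
    intro i
    fin_cases i
    · have : 3 * r 0 ^ 2 + A.eval s0 = (r 0 - r 1) * (r 0 - r 2) := by rw [s2, h4]; ring
      show 3 * r 0 ^ 2 + A.eval s0 ≠ 0
      rw [this]
      exact mul_ne_zero n01 n02
    · have : 3 * r 1 ^ 2 + A.eval s0 = -((r 0 - r 1) * (r 1 - r 2)) := by rw [s2, h4]; ring
      show 3 * r 1 ^ 2 + A.eval s0 ≠ 0
      rw [this]
      exact neg_ne_zero.2 (mul_ne_zero n01 n12)
    · have : 3 * r 2 ^ 2 + A.eval s0 = (r 0 - r 2) * (r 1 - r 2) := by rw [s2, h4]; ring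
      show 3 * r 2 ^ 2 + A.eval s0 ≠ 0
      rw [this]
      exact mul_ne_zero n02 n12
  have hch := fun i => root_chart A B s0 (r i) (hroot i) (hder i)
  choose e he1 he2 he3 he4 using hch
  refine ⟨e, he1, ?_, fun i => by rw [he2]; exact he4 i⟩
  have hne : ∀ i j, i ≠ j → ∀ᶠ s in 𝓝 s0, e i s ≠ e j s := by
    intro i j hij
    have : ∀ᶠ s in 𝓝 s0, e i s - e j s ≠ 0 := ((he1 i).continuousAt.sub (he1 j).continuousAt).eventually_ne (by
      change e i s0 - e j s0 ≠ 0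
      rw [he2, he2]
      exact sub_ne_zero.2 fun h => hij (hinj h))
    filter_upwards [this] with s hs
    exact sub_ne_zero.1 hs
  have hne' : ∀ᶠ s in 𝓝 s0, ∀ i j, i ≠ j → e i s ≠ e j s := by
    rw [eventually_all]
    intro i
    rw [eventually_all]
    intro j
    by_cases hij : i = j
    · exact Eventually.of_forall fun s h => absurd hij h
    · filter_upwards [hne i j hij] with s hs _
      exact hs
  filter_upwards [hne', eventually_all.2 he3] with s h1 h2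
  have h3 : Function.Injective fun i => e i s := by
    intro i j hij
    by_contra h
    exact h1 i j h hij
  exact ⟨h3, fun X => prod_of_roots (r := fun i => e i s) h2 h3 X⟩

/-- a square root near a point -/
lemma sqrt_branch {d : ℂ → ℂ} {s0 : ℂ} (hd : AnalyticAt ℂ d s0) (h0 : d s0 ≠ 0) :
    ∃ w : ℂ → ℂ, AnalyticAt ℂ w s0 ∧ w s0 ≠ 0 ∧ ∀ s, w s ^ 2 = d s := by
  obtain ⟨v0, hv0⟩ := IsAlgClosed.exists_pow_nat_eq (d s0) (n := 2) (by norm_num)
  have hv0' : v0 ≠ 0 := by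
    intro h
    rw [h] at hv0
    exact h0 (by rw [← hv0]; ring)
  refine ⟨fun s => v0 * (d s / v0 ^ 2) ^ ((2 : ℂ)⁻¹), ?_, ?_, ?_⟩
  · refine analyticAt_const.mul ((hd.fun_div analyticAt_const (pow_ne_zero _ hv0')).cpow analyticAt_const ?_)
    rw [hv0, div_self h0]
    exact one_mem_slitPlane
  · show v0 * (d s0 / v0 ^ 2) ^ ((2 : ℂ)⁻¹) ≠ 0
    rw [hv0, div_self h0, one_cpow, mul_one]
    exact hv0'
  · intro s
    have h5 := Complex.cpow_nat_inv_pow (d s / v0 ^ 2) (n := 2) (by norm_num)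
    rw [mul_pow]
    push_cast at h5
    rw [h5]
    field_simp

end Pool.Agent.Y124.GE
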