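import Pool.Agent.Y124.GE.Of

/-!
# One family, in short intervals
-/

set_option autoImplicit false

open Filter Topology Complex Module

namespace Pool.Agent.Y124.GE

open Pool.Agent.Y124 Pool.Agent.Y120.GH Pool.Agent.Y120.GF Pool.Agent.Y113

/-- few bad integers in all intervals for a family of finite sets of values -/
def OFamB {σ : Type} (S : ℕ → Set (σ → ℂ)) : Prop := ∀ δ D d : ℕ, ∃ c M : ℝ, 0 < c ∧ c ≤ 1 ∧ 0 ≤ M ∧
  ∀ (V : Submodule ℚ ℂ) [Module.Finite ℚ V], finrank ℚ V ≤ D → ∀ x N : ℕ, 1 ≤ N → ∀ A : Finset ℕ,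
    (∀ t ∈ A, x < t ∧ t ≤ x + N ∧ ∃ f ∈ S t, RelL δ d V f) → (A.card : ℝ) ≤ M * (1 + N / ((x : ℝ) + N) ^ c)

lemma mono_c {x N : ℕ} (hN : 1 ≤ N) {c c' : ℝ} (h : c' ≤ c) : (1 : ℝ) + N / ((x : ℝ) + N) ^ c ≤ 1 + N / ((x : ℝ) + N) ^ c' := by
  have h1 : (1 : ℝ) ≤ (x : ℝ) + N := by
    have : (1 : ℝ) ≤ N := by exact_mod_cast hN
    have : (0 : ℝ) ≤ x := Nat.cast_nonneg x
    linarith
  have h2 : ((x : ℝ) + N) ^ c' ≤ ((x : ℝ) + N) ^ c := Real.rpow_le_rpow_of_exponent_le h1 h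
  have h3 : (0 : ℝ) < ((x : ℝ) + N) ^ c' := Real.rpow_pos_of_pos (by linarith) _
  have h4 := div_le_div_of_nonneg_left (Nat.cast_nonneg (α := ℝ) N) h3 h2
  linarith

theorem ofB_ld {a b : Polynomial ℚ} (L : LD a b) (ha : a ≠ 0) (hb : b ≠ 0) (hD : De a b ≠ 0) (hnc : ∀ c : ℂ, cp a ^ 3 ≠ Polynomial.C c * cp b ^ 2) :
    OFamB (Val a b) := by
  classical
  obtain ⟨R, hR, hY⟩ := exists_rad L ha hD
  obtain ⟨n, w0, hw0, -, hdet⟩ := det_mono L hD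
  obtain ⟨u0, F, hu0, hu0R, hF, hF1, hF2⟩ := link L hb hD hR hY
  have hmain : ∀ C ∈ F, (∀ u : ℝ, 0 < u → u < u0 → LocInd (fun p s => xs L p s) (u : ℂ)) ∧ C 0 0 * C 1 1 - C 0 1 * C 1 0 ≠ 0 := by
    intro C hC
    have hk : ∀ u : ℝ, 0 < u → u < u0 → LocInd (fun p s => xs L p s) (u : ℂ) ∧ C 0 0 * C 1 1 - C 0 1 * C 1 0 ≠ 0 := by
      intro u h0 h1
      obtain ⟨la, w, k1, k2, k3, k4, k5, k6⟩ := hF2 C hC u h0 h1
      refine xs_locInd L hR hY hb hnc hdet ?_ ?_ k1 k2 k3 k4 k5 k6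
      · rw [ofReal_mem_slitPlane]; exact h0
      · rw [norm_real, Real.norm_of_nonneg h0.le]; exact h1.trans_le hu0R
    exact ⟨fun u h0 h1 => (hk u h0 h1).1, (hk (u0 / 2) (by linarith) (by linarith)).2⟩
  intro δ D d
  set D' := ((D + 4 + 1) ^ (1 + 4 * δ) + 1) ^ δ2 δ d with hD'
  -- each matrix
  have hC1 : ∀ C ∈ F, ∃ c M : ℝ, 0 < c ∧ 0 ≤ M ∧ ∀ (V : Submodule ℚ ℂ) [Module.Finite ℚ V], finrank ℚ V ≤ D → ∀ x N : ℕ, 1 ≤ N →
      ∀ A : Finset ℕ, (∀ t ∈ A, x < t ∧ t ≤ x + N ∧ R < t ∧ RelL δ d V fun y => fv L C y (1 / ((t : ℝ) : ℂ))) →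
        (A.card : ℝ) ≤ M * (1 + N / ((x : ℝ) + N) ^ c) := by
    intro C hC
    obtain ⟨hl, hd⟩ := hmain C hC
    obtain ⟨c, M, hc, hM, H⟩ := one_mono L ha hD hR hY hu0 hl (δ2 δ d) D'
    refine ⟨c, M, hc, hM, fun V _ hV x N hN A hA => ?_⟩
    obtain ⟨hf2, hd2⟩ := V2_dim V C δ d hV
    exact H (V2 V C δ d) hd2 x N hN A fun t ht => by
      obtain ⟨k0, k1, k2, k3⟩ := hA t ht
      exact ⟨k0, k1, bad_of_rel (relL_xs L hR hY hdet hd k2 k3)⟩
  choose! c M hc hM H using hC1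
  -- a common exponent
  obtain ⟨c0, hc0, hc01, hc0c⟩ : ∃ c0 : ℝ, 0 < c0 ∧ c0 ≤ 1 ∧ ∀ C ∈ F, c0 ≤ c C := by
    have : ∀ G : Finset (Fin 2 → Fin 2 → ℂ), (∀ C ∈ G, 0 < c C) → ∃ c0 : ℝ, 0 < c0 ∧ c0 ≤ 1 ∧ ∀ C ∈ G, c0 ≤ c C := by
      intro G
      induction G using Finset.induction_on with
      | empty => exact fun _ => ⟨1, one_pos, le_rfl, fun C hC => absurd hC (Finset.notMem_empty _)⟩
      | insert C G hCG ih =>
        intro h
        obtain ⟨c0, k1, k2, k3⟩ := ih fun C' hC' => h C' (Finset.mem_insert_of_mem hC')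
        refine ⟨min c0 (c C), lt_min k1 (h C (Finset.mem_insert_self _ _)), (min_le_left _ _).trans k2, fun C' hC' => ?_⟩
        rcases Finset.mem_insert.1 hC' with rfl | h'
        · exact min_le_right _ _
        · exact (min_le_left _ _).trans (k3 C' h')
    obtain ⟨c0, k1, k2, k3⟩ := this hF.toFinset fun C hC => hc C (hF.mem_toFinset.1 hC)
    exact ⟨c0, k1, k2, fun C hC => k3 C (hF.mem_toFinset.2 hC)⟩
  obtain ⟨t₀, ht₀⟩ := exists_nat_ge (1 / u0)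
  have hMs : 0 ≤ ∑ C ∈ hF.toFinset, M C := Finset.sum_nonneg fun C hC => hM C (hF.mem_toFinset.1 hC)
  refine ⟨c0, (t₀ + 1) + ∑ C ∈ hF.toFinset, M C, hc0, hc01, by positivity, ?_⟩
  intro V _ hV x N hN A hA
  set A₁ := A.filter fun t => t ≤ t₀ with hA₁
  set AC : (Fin 2 → Fin 2 → ℂ) → Finset ℕ := fun C => A.filter fun t => t₀ < t ∧ RelL δ d V fun y => fv L C y (1 / ((t : ℝ) : ℂ)) with hAC
  have hcov : A ⊆ A₁ ∪ hF.toFinset.biUnion AC := by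
    intro t ht
    rw [Finset.mem_union]
    by_cases h : t ≤ t₀
    · exact Or.inl (Finset.mem_filter.2 ⟨ht, h⟩)
    · right
      push Not at h
      obtain ⟨-, -, f, ⟨x, hx1, hx2, hx3, rfl⟩, hrel⟩ := hA t ht
      have h1 : 1 / u0 < (t : ℝ) := ht₀.trans_lt (by exact_mod_cast h)
      have ht0 : (0 : ℝ) < t := lt_of_le_of_lt (by positivity) h1
      obtain ⟨C, hC, hCe⟩ := hF1 x (1 / (t : ℝ)) (by positivity) (by
        rw [div_lt_iff₀ ht0]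
        rw [div_lt_iff₀ hu0] at h1
        linarith) (by rw [hx1]; push_cast; rfl) hx2 hx3
      refine Finset.mem_biUnion.2 ⟨C, hF.mem_toFinset.2 hC, Finset.mem_filter.2 ⟨ht, h, ?_⟩⟩
      have h2 : (fun y => pf (lam x) x.2.2 y) = fun y => fv L C y (1 / ((t : ℝ) : ℂ)) := by
        funext y
        rw [hCe y]
        push_cast
        rfl
      rwa [h2] at hrel
  have hcard1 : (A₁.card : ℝ) ≤ t₀ + 1 := by
    have : A₁ ⊆ Finset.range (t₀ + 1) := fun t ht => Finset.mem_range.2 (Nat.lt_succ_of_le (Finset.mem_filter.1 ht).2)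
    have h2 : A₁.card ≤ t₀ + 1 := by simpa using Finset.card_le_card this
    exact_mod_cast h2
  have hf1 : (1 : ℝ) ≤ 1 + N / ((x : ℝ) + N) ^ c0 := by
    have : (0 : ℝ) ≤ N / ((x : ℝ) + N) ^ c0 := by positivity
    linarith
  have hcard2 : ∀ C ∈ hF.toFinset, ((AC C).card : ℝ) ≤ M C * (1 + N / ((x : ℝ) + N) ^ c0) := by
    intro C hC
    have hC' := hF.mem_toFinset.1 hC
    have h1 := H C hC' V hV x N hN (AC C) fun t ht => by
      obtain ⟨htA, k1, k2⟩ := Finset.mem_filter.1 ht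
      refine ⟨(hA t htA).1, (hA t htA).2.1, ?_, k2⟩
      have k3 : 1 / u0 < (t : ℝ) := ht₀.trans_lt (by exact_mod_cast k1)
      have k4 : R ≤ 1 / u0 := by
        rw [le_div_iff₀ hu0]
        rw [le_div_iff₀ (by linarith)] at hu0R
        linarith
      linarith
    exact h1.trans (mul_le_mul_of_nonneg_left (mono_c hN (hc0c C hC')) (hM C hC'))
  have hcard3 : (A.card : ℝ) ≤ A₁.card + ∑ C ∈ hF.toFinset, ((AC C).card : ℝ) := by
    have h1 : A.card ≤ A₁.card + ∑ C ∈ hF.toFinset, (AC C).card :=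
      (Finset.card_le_card hcov).trans ((Finset.card_union_le _ _).trans (Nat.add_le_add_left Finset.card_biUnion_le _))
    exact_mod_cast h1
  have h4 : ∑ C ∈ hF.toFinset, ((AC C).card : ℝ) ≤ (∑ C ∈ hF.toFinset, M C) * (1 + N / ((x : ℝ) + N) ^ c0) := by
    rw [Finset.sum_mul]
    exact Finset.sum_le_sum hcard2
  nlinarith

end Pool.Agent.Y124.GE
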