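import Pool.Agent.Y124.GE.Mu
import Pool.Agent.Y124.GE.Ob

/-!
# Several families, in boxes
-/

set_option autoImplicit false

open Complex Module

namespace Pool.Agent.Y124.GE

open Pool.Agent.Y120.GF Pool.Agent.Y113

/-- few bad tuples in all boxes -/
theorem multiB (k : ℕ) : ∀ (S : Fin k → ℕ → Set (Fin 3 → ℂ)), (∀ j, OFamB (S j)) → (∃ K : ℕ, ∀ j t, (S j t).Finite ∧ (S j t).ncard ≤ K) →
    ∀ δ D d : ℕ, ∃ c M : ℝ, 0 < c ∧ c ≤ 1 ∧ 0 ≤ M ∧ ∀ (V : Submodule ℚ ℂ) [Module.Finite ℚ V], finrank ℚ V ≤ D →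
      ∀ (x : Fin k → ℕ) (N : ℕ), 1 ≤ N →
      ∀ A : Finset (Fin k → ℕ), (∀ t ∈ A, (∀ j, x j < t j ∧ t j ≤ x j + N) ∧ ∃ f : Fin k → Fin 3 → ℂ, (∀ j, f j ∈ S j (t j)) ∧
        BadL d V fun b : Fin k → (Fin 3 → Fin (δ + 1)) => ∏ j, mon (f j) (b j)) →
        (A.card : ℝ) ≤ M * (N : ℝ) ^ (k - 1) * ∑ j, (1 + N / ((x j : ℝ) + N) ^ c) := by
  classical
  induction k with
  | zero =>
    intro S _ _ δ D d
    refine ⟨1, 0, one_pos, le_rfl, le_rfl, ?_⟩
    intro V _ _ x N _ A hA
    have : A = ∅ := by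
      rw [Finset.eq_empty_iff_forall_notMem]
      intro t ht
      obtain ⟨-, f, -, L, -, -, v, -, hv0, hv⟩ := hA t ht
      apply hv0
      funext b
      simp only [Finset.univ_eq_empty, Finset.prod_empty, mul_one, Finset.univ_unique, Finset.sum_singleton] at hv
      exact (congrArg v (Subsingleton.elim b _)).trans hv
    rw [this]
    simp
  | succ k ih =>
    intro S hS hfin δ D d
    obtain ⟨K, hK⟩ := hfin
    obtain ⟨c₁, M₁, hc₁, hc₁1, hM₁, h₁⟩ := ih (fun j => S j.succ) (fun j => hS j.succ) ⟨K, fun j t => hK j.succ t⟩ δ D d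
    obtain ⟨c₂, M₂, hc₂, hc₂1, hM₂, h₂⟩ := hS 0 (3 * δ) (Fintype.card (Fin k → (Fin 3 → Fin (δ + 1))) * D) d
    refine ⟨min c₁ c₂, M₁ + (K : ℝ) ^ k * M₂, lt_min hc₁ hc₂, (min_le_left _ _).trans hc₁1, by positivity, ?_⟩
    intro V _ hV x N hN A hA
    have hN1 : (1 : ℝ) ≤ N := by exact_mod_cast hN
    have hN0 : (0 : ℝ) < N := by linarith
    set Pt : (Fin k → Fin 3 → ℂ) → (Fin k → (Fin 3 → Fin (δ + 1))) → ℂ := fun f b => ∏ i, mon (f i) (b i) with hPt
    set TB : (Fin k → ℕ) → Prop := fun τ => ∃ f : Fin k → Fin 3 → ℂ, (∀ j, f j ∈ S j.succ (τ j)) ∧ BadL d V (Pt f) with hTB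
    set Aa := A.filter fun t => TB (Fin.tail t) with hAa
    set Ab := A.filter fun t => ¬ TB (Fin.tail t) with hAb
    have hsum : Aa.card + Ab.card = A.card := Finset.card_filter_add_card_filter_not (s := A) (fun t => TB (Fin.tail t))
    set c := min c₁ c₂ with hc
    set Sg : ℝ := ∑ j : Fin k, (1 + N / ((x j.succ : ℝ) + N) ^ c) with hSg
    have hpos : ∀ (y : ℕ) (e : ℝ), (0 : ℝ) ≤ 1 + N / ((y : ℝ) + N) ^ e := fun y e => by positivity
    have hSg0 : 0 ≤ Sg := Finset.sum_nonneg fun j _ => hpos _ _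
    -- bad tails
    have hAcard : (Aa.card : ℝ) ≤ M₁ * (N : ℝ) ^ k * Sg := by
      have e1 : Aa.card ≤ N * (Aa.image Fin.tail).card := by
        refine Finset.card_le_mul_card_image Aa N fun τ _ => ?_
        have e2 : ((Aa.filter fun t => Fin.tail t = τ).image fun t => t 0).card =
            (Aa.filter fun t => Fin.tail t = τ).card := by
          refine Finset.card_image_of_injOn ?_
          intro t ht t' ht' heq
          have f1 := (Finset.mem_filter.1 ht).2
          have f2 := (Finset.mem_filter.1 ht').2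
          rw [← Fin.cons_self_tail t, ← Fin.cons_self_tail t', f1, f2]
          simp only at heq
          rw [heq]
        rw [← e2]
        have e3 : ((Aa.filter fun t => Fin.tail t = τ).image fun t => t 0) ⊆ Finset.Ioc (x 0) (x 0 + N) := by
          intro y hy
          obtain ⟨t, ht, rfl⟩ := Finset.mem_image.1 hy
          exact Finset.mem_Ioc.2 ((hA t (Finset.mem_filter.1 (Finset.mem_filter.1 ht).1).1).1 0)
        simpa using Finset.card_le_card e3
      have e4 : ((Aa.image Fin.tail).card : ℝ) ≤ M₁ * (N : ℝ) ^ (k - 1) * ∑ j : Fin k, (1 + N / ((x j.succ : ℝ) + N) ^ c₁) := by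
        refine h₁ V hV (fun j => x j.succ) N hN _ fun τ hτ => ?_
        obtain ⟨t, ht, rfl⟩ := Finset.mem_image.1 hτ
        obtain ⟨htS, hb⟩ := Finset.mem_filter.1 ht
        exact ⟨fun i => (hA t htS).1 i.succ, hb⟩
      have e5 : (Aa.card : ℝ) ≤ N * ((Aa.image Fin.tail).card : ℝ) := by exact_mod_cast e1
      have e6 : ∑ j : Fin k, (1 + N / ((x j.succ : ℝ) + N) ^ c₁) ≤ Sg :=
        Finset.sum_le_sum fun j _ => mono_c hN (min_le_left _ _)
      rcases Nat.eq_zero_or_pos k with hk | hk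
      · subst hk
        have : Sg = 0 := by rw [hSg]; simp
        simp only [Finset.univ_eq_empty, Finset.sum_empty, mul_zero] at e4
        rw [this, mul_zero]
        exact e5.trans (mul_nonpos_of_nonneg_of_nonpos hN0.le e4)
      · calc (Aa.card : ℝ) ≤ N * (M₁ * (N : ℝ) ^ (k - 1) * ∑ j : Fin k, (1 + N / ((x j.succ : ℝ) + N) ^ c₁)) :=
            e5.trans (mul_le_mul_of_nonneg_left e4 hN0.le)
          _ = M₁ * (N : ℝ) ^ k * ∑ j : Fin k, (1 + N / ((x j.succ : ℝ) + N) ^ c₁) := by
            have : (N : ℝ) ^ k = N * (N : ℝ) ^ (k - 1) := by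
              rw [← pow_succ']
              congr 1
              omega
            rw [this]
            ring
          _ ≤ _ := mul_le_mul_of_nonneg_left e6 (by positivity)
    -- good tails
    have halt : ∀ t ∈ Ab, ∃ f' : Fin k → Fin 3 → ℂ, (∀ j, f' j ∈ S j.succ (Fin.tail t j)) ∧ ∃ f₀ ∈ S 0 (t 0),
        RelL (3 * δ) d (Ext V (Pt f')) f₀ := by
      intro t ht
      obtain ⟨htS, hnb⟩ := Finset.mem_filter.1 ht
      obtain ⟨-, f, hf, L, hL, hLd, v, hvV, hv0, hv⟩ := hA t htS
      refine ⟨fun j => f j.succ, fun j => hf j.succ, f 0, hf 0, ?_⟩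
      apply relL_of_badL
      set cf : (Fin 3 → Fin (δ + 1)) → ℂ := fun β => ∑ b' : Fin k → (Fin 3 → Fin (δ + 1)), v (Fin.cons β b') * Pt (fun j => f j.succ) b' with hcf
      refine ⟨L, hL, hLd, cf, fun β => span_ext L V _ _ fun b' => hvV _, ?_, ?_⟩
      · intro h0
        apply hnb
        obtain ⟨b, hb⟩ : ∃ b, v b ≠ 0 := by
          by_contra hno
          push Not at hno
          exact hv0 (funext hno)
        refine ⟨fun j => f j.succ, fun j => hf j.succ, L, hL, hLd, fun b' => v (Fin.cons (b 0) b'), fun b' => hvV _, ?_, congrFun h0 (b 0)⟩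
        intro h2
        apply hb
        have h3 := congrFun h2 (Fin.tail b)
        simp only [Fin.cons_self_tail, Pi.zero_apply] at h3
        exact h3
      · rw [← hv, ← Equiv.sum_comp (Fin.consEquiv fun _ => (Fin 3 → Fin (δ + 1))), Fintype.sum_prod_type]
        refine Finset.sum_congr rfl fun β _ => ?_
        rw [hcf]
        simp only
        rw [Finset.sum_mul]
        refine Finset.sum_congr rfl fun b' _ => ?_
        have e0 : (Fin.consEquiv fun _ => (Fin 3 → Fin (δ + 1))) (β, b') = Fin.cons β b' := rfl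
        rw [e0, Fin.prod_univ_succ]
        simp only [Fin.cons_zero, Fin.cons_succ]
        have : Pt (fun j => f j.succ) b' = ∏ i : Fin k, mon (f i.succ) (b' i) := rfl
        rw [this]
        ring
    have hBcard : (Ab.card : ℝ) ≤ (K : ℝ) ^ k * M₂ * (N : ℝ) ^ k * (1 + N / ((x 0 : ℝ) + N) ^ c) := by
      set B : ℝ := (K : ℝ) ^ k * (M₂ * (1 + N / ((x 0 : ℝ) + N) ^ c₂)) with hB
      have hB0 : 0 ≤ B := mul_nonneg (by positivity) (mul_nonneg hM₂ (hpos _ _))
      set N' : ℕ := ⌊B⌋₊ with hN'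
      have hN1' : (N' : ℝ) ≤ B := Nat.floor_le hB0
      have e1 : Ab.card ≤ N' * (Ab.image Fin.tail).card := by
        refine Finset.card_le_mul_card_image Ab N' fun τ _ => ?_
        have e2 : ((Ab.filter fun t => Fin.tail t = τ).image fun t => t 0).card =
            (Ab.filter fun t => Fin.tail t = τ).card := by
          refine Finset.card_image_of_injOn ?_
          intro t ht t' ht' heq
          have f1 := (Finset.mem_filter.1 ht).2
          have f2 := (Finset.mem_filter.1 ht').2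
          rw [← Fin.cons_self_tail t, ← Fin.cons_self_tail t', f1, f2]
          simp only at heq
          rw [heq]
        rw [← e2]
        set H := ((Ab.filter fun t => Fin.tail t = τ).image fun t => t 0) with hH
        -- the choices of the values at the tail
        set Fs : Finset (Fin k → Fin 3 → ℂ) := Fintype.piFinset fun j => (hK j.succ (τ j)).1.toFinset with hFs
        have hFs1 : Fs.card ≤ K ^ k := by
          rw [hFs, Fintype.card_piFinset]
          refine (Finset.prod_le_prod' fun j _ => ?_).trans (le_of_eq (?_ : ∏ _j : Fin k, K = K ^ k))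
          · rw [← Set.ncard_eq_toFinset_card _ (hK j.succ (τ j)).1]
            exact (hK j.succ (τ j)).2
          · simp
        set HF : (Fin k → Fin 3 → ℂ) → Finset ℕ := fun f' => H.filter fun y => ∃ f₀ ∈ S 0 y, RelL (3 * δ) d (Ext V (Pt f')) f₀ with hHF
        have hcov : H ⊆ Fs.biUnion HF := by
          intro y hy
          obtain ⟨t, ht, hty⟩ := Finset.mem_image.1 hy
          obtain ⟨htA, htτ⟩ := Finset.mem_filter.1 ht
          obtain ⟨f', hf', f₀, hf₀, hr⟩ := halt t htA
          refine Finset.mem_biUnion.2 ⟨f', ?_, Finset.mem_filter.2 ⟨hy, ?_⟩⟩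
          · rw [hFs, Fintype.mem_piFinset]
            intro j
            rw [Set.Finite.mem_toFinset, ← htτ]
            exact hf' j
          · rw [← hty]
            exact ⟨f₀, hf₀, hr⟩
        have hHFc : ∀ f' ∈ Fs, ((HF f').card : ℝ) ≤ M₂ * (1 + N / ((x 0 : ℝ) + N) ^ c₂) := by
          intro f' _
          refine h₂ (Ext V (Pt f')) ((finrank_Ext V _).trans (Nat.mul_le_mul_left _ hV)) (x 0) N hN _ fun y hy => ?_
          obtain ⟨hyH, hyr⟩ := Finset.mem_filter.1 hy
          obtain ⟨t, ht, rfl⟩ := Finset.mem_image.1 hyH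
          have h5 := (hA t (Finset.mem_filter.1 (Finset.mem_filter.1 ht).1).1).1 0
          exact ⟨h5.1, h5.2, hyr⟩
        rw [hN']
        apply Nat.le_floor
        have hc1 : (H.card : ℝ) ≤ ∑ f' ∈ Fs, ((HF f').card : ℝ) := by
          have := (Finset.card_le_card hcov).trans Finset.card_biUnion_le
          exact_mod_cast this
        have hc2 : ∑ f' ∈ Fs, ((HF f').card : ℝ) ≤ Fs.card * (M₂ * (1 + N / ((x 0 : ℝ) + N) ^ c₂)) := by
          refine (Finset.sum_le_sum hHFc).trans (le_of_eq ?_)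
          rw [Finset.sum_const, nsmul_eq_mul]
        have hc3 : (Fs.card : ℝ) ≤ (K : ℝ) ^ k := by exact_mod_cast hFs1
        exact hc1.trans (hc2.trans (mul_le_mul_of_nonneg_right hc3 (mul_nonneg hM₂ (hpos _ _))))
      have e3 : (Ab.image Fin.tail).card ≤ N ^ k := by
        have : Ab.image Fin.tail ⊆ Fintype.piFinset fun i : Fin k => Finset.Ioc (x i.succ) (x i.succ + N) := by
          intro τ hτ
          obtain ⟨t, ht, rfl⟩ := Finset.mem_image.1 hτ
          rw [Fintype.mem_piFinset]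
          intro j
          exact Finset.mem_Ioc.2 ((hA t (Finset.mem_filter.1 ht).1).1 j.succ)
        refine (Finset.card_le_card this).trans (le_of_eq ?_)
        rw [Fintype.card_piFinset]
        simp
      have e4 : (Ab.card : ℝ) ≤ B * (N : ℝ) ^ k := by
        have f1 : (Ab.card : ℝ) ≤ N' * ((Ab.image Fin.tail).card : ℝ) := by exact_mod_cast e1
        have f2 : ((Ab.image Fin.tail).card : ℝ) ≤ (N : ℝ) ^ k := by exact_mod_cast e3
        calc (Ab.card : ℝ) ≤ N' * ((Ab.image Fin.tail).card : ℝ) := f1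
          _ ≤ B * (N : ℝ) ^ k := mul_le_mul hN1' f2 (by positivity) hB0
      have e5 : B * (N : ℝ) ^ k = (K : ℝ) ^ k * M₂ * (N : ℝ) ^ k * (1 + N / ((x 0 : ℝ) + N) ^ c₂) := by
        rw [hB]
        ring
      rw [e5] at e4
      exact e4.trans (mul_le_mul_of_nonneg_left (mono_c hN (min_le_right _ _)) (by positivity))
    have hs : (A.card : ℝ) = Aa.card + Ab.card := by exact_mod_cast hsum.symm
    rw [hs, Nat.add_sub_cancel, Fin.sum_univ_succ, ← hSg]
    have h5 := hpos (x 0) c
    have h6 : 0 ≤ M₁ * (N : ℝ) ^ k * (1 + N / ((x 0 : ℝ) + N) ^ c) := by positivity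
    have h7 : 0 ≤ (K : ℝ) ^ k * M₂ * (N : ℝ) ^ k * Sg := by positivity
    linarith

end Pool.Agent.Y124.GE
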