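import Pool.Agent.Y124.GE.Of

/-!
# Several families
-/

set_option autoImplicit false

open Complex Module

namespace Pool.Agent.Y124.GE

open Pool.Agent.Y120.GF Pool.Agent.Y113

/-- a nontrivial linear relation with coefficients in `L V` -/
def BadL (d : ℕ) {β : Type} [Fintype β] (V : Submodule ℚ ℂ) (x : β → ℂ) : Prop :=
  ∃ L : IntermediateField ℚ ℂ, FiniteDimensional ℚ L ∧ finrank ℚ L ≤ d ∧
    ∃ v : β → ℂ, (∀ b, v b ∈ Submodule.span L (V : Set ℂ)) ∧ v ≠ 0 ∧ ∑ b, v b * x b = 0

/-- the monomials in a box -/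
def mon {δ : ℕ} (x : Fin 3 → ℂ) (s : Fin 3 → Fin (δ + 1)) : ℂ := ∏ p, x p ^ (s p : ℕ)

lemma relL_of_badL {δ d : ℕ} {V : Submodule ℚ ℂ} {x : Fin 3 → ℂ} (h : BadL d V (mon (δ := δ) x)) : RelL (3 * δ) d V x := by
  classical
  obtain ⟨L, hL, hLd, v, hv, hv0, hvs⟩ := h
  set tf : (Fin 3 → Fin (δ + 1)) → (Fin 3 →₀ ℕ) := fun s => Finsupp.equivFunOnFinite.symm fun p => (s p : ℕ) with htf
  have htfi : Function.Injective tf := by
    intro s s' hss
    funext p
    have := DFunLike.congr_fun hss p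
    exact Fin.ext this
  set Q : MvPolynomial (Fin 3) ℂ := ∑ s, MvPolynomial.monomial (tf s) (v s) with hQ
  have hco : ∀ s, Q.coeff (tf s) = v s := by
    intro s
    rw [hQ, MvPolynomial.coeff_sum, Finset.sum_eq_single s]
    · rw [MvPolynomial.coeff_monomial, if_pos rfl]
    · intro s' _ hs
      rw [MvPolynomial.coeff_monomial, if_neg fun h => hs (htfi h)]
    · intro h
      exact absurd (Finset.mem_univ _) h
  refine ⟨L, hL, hLd, Q, ?_, ?_, ?_, ?_⟩
  · intro h0
    apply hv0
    funext s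
    rw [← hco s, h0]
    simp
  · refine (MvPolynomial.totalDegree_finsetSum _ _).trans (Finset.sup_le fun s _ => ?_)
    refine (MvPolynomial.totalDegree_monomial_le _ _).trans ?_
    rw [Finsupp.sum_fintype _ _ (fun _ => rfl), Fin.sum_univ_three]
    have h0 : (tf s) 0 = (s 0 : ℕ) := rfl
    have h1 : (tf s) 1 = (s 1 : ℕ) := rfl
    have h2 : (tf s) 2 = (s 2 : ℕ) := rfl
    simp only [id_eq]
    rw [h0, h1, h2]
    have := (s 0).2
    have := (s 1).2
    have := (s 2).2
    omega
  · intro e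
    rw [hQ, MvPolynomial.coeff_sum]
    refine Submodule.sum_mem _ fun s _ => ?_
    rw [MvPolynomial.coeff_monomial]
    split_ifs
    · exact hv s
    · exact Submodule.zero_mem _
  · rw [← hvs, hQ, map_sum]
    refine Finset.sum_congr rfl fun s _ => ?_
    rw [MvPolynomial.aeval_monomial, Finsupp.prod_fintype _ _ (fun p => pow_zero _)]
    rfl

lemma span_ext (L : IntermediateField ℚ ℂ) {β : Type} [Fintype β] (V : Submodule ℚ ℂ) (x : β → ℂ) (v : β → ℂ)
    (hv : ∀ b, v b ∈ Submodule.span L (V : Set ℂ)) : ∑ b, v b * x b ∈ Submodule.span L (Ext V x : Set ℂ) := by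
  classical
  refine Submodule.sum_mem _ fun b _ => ?_
  have key : ∀ c ∈ Submodule.span L (V : Set ℂ), c * x b ∈ Submodule.span L (Ext V x : Set ℂ) := by
    intro c hc
    refine Submodule.span_induction (p := fun c _ => c * x b ∈ Submodule.span L (Ext V x : Set ℂ)) ?_ ?_ ?_ ?_ hc
    · intro c hc
      refine Submodule.subset_span ?_
      have h1 := mem_Ext V x (v := fun b' => if b' = b then c else 0) (fun b' => by
        show (if b' = b then c else 0) ∈ V
        split_ifs
        · exact hc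
        · exact V.zero_mem)
      have h2 : ∑ b', (if b' = b then c else 0) * x b' = c * x b := by
        rw [Finset.sum_eq_single b]
        · rw [if_pos rfl]
        · intro b' _ hb'
          rw [if_neg hb', zero_mul]
        · intro h
          exact absurd (Finset.mem_univ _) h
      rw [h2] at h1
      exact h1
    · rw [zero_mul]
      exact Submodule.zero_mem _
    · intro c c' _ _ h h'
      rw [add_mul]
      exact Submodule.add_mem _ h h'
    · intro l c _ h
      rw [smul_mul_assoc]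
      exact Submodule.smul_mem _ _ h
  exact key _ (hv b)

/-- few bad tuples -/
theorem multi (k : ℕ) : ∀ (S : Fin k → ℕ → Set (Fin 3 → ℂ)), (∀ j, OFam (S j)) → (∃ K : ℕ, ∀ j t, (S j t).Finite ∧ (S j t).ncard ≤ K) →
    ∀ δ D d : ℕ, ∃ c M : ℝ, 0 < c ∧ c ≤ 1 ∧ 0 ≤ M ∧ ∀ (V : Submodule ℚ ℂ) [Module.Finite ℚ V], finrank ℚ V ≤ D → ∀ T : ℕ, 1 ≤ T →
      ∀ A : Finset (Fin k → ℕ), (∀ t ∈ A, (∀ j, t j ≤ T) ∧ ∃ f : Fin k → Fin 3 → ℂ, (∀ j, f j ∈ S j (t j)) ∧
        BadL d V fun b : Fin k → (Fin 3 → Fin (δ + 1)) => ∏ j, mon (f j) (b j)) → (A.card : ℝ) ≤ M * (T : ℝ) ^ ((k : ℝ) - c) := by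
  classical
  induction k with
  | zero =>
    intro S _ _ δ D d
    refine ⟨1, 0, one_pos, le_rfl, le_rfl, ?_⟩
    intro V _ _ T _ A hA
    have : A = ∅ := by
      rw [Finset.eq_empty_iff_forall_notMem]
      intro t ht
      obtain ⟨-, f, -, L, -, -, v, -, hv0, hv⟩ := hA t ht
      apply hv0
      funext b
      simp only [Finset.univ_eq_empty, Finset.prod_empty, mul_one, Finset.univ_unique, Finset.sum_singleton] at hv
      exact (congrArg v (Subsingleton.elim b _)).trans hv
    rw [this]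
    simp
  | succ k ih =>
    intro S hS hfin δ D d
    obtain ⟨K, hK⟩ := hfin
    obtain ⟨c₁, M₁, hc₁, hc₁1, hM₁, h₁⟩ := ih (fun j => S j.succ) (fun j => hS j.succ) ⟨K, fun j t => hK j.succ t⟩ δ D d
    obtain ⟨c₂, M₂, hc₂, hc₂1, hM₂, h₂⟩ := hS 0 (3 * δ) (Fintype.card (Fin k → (Fin 3 → Fin (δ + 1))) * D) d
    refine ⟨min c₁ c₂, 2 * M₁ + 2 ^ k * ((K : ℝ) ^ k * M₂), lt_min hc₁ hc₂, (min_le_left _ _).trans hc₁1, by positivity, ?_⟩
    intro V _ hV T hT A hA
    have hT1 : (1 : ℝ) ≤ T := by exact_mod_cast hT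
    have hT0 : (0 : ℝ) < T := by linarith
    set Pt : (Fin k → Fin 3 → ℂ) → (Fin k → (Fin 3 → Fin (δ + 1))) → ℂ := fun f b => ∏ i, mon (f i) (b i) with hPt
    set TB : (Fin k → ℕ) → Prop := fun τ => ∃ f : Fin k → Fin 3 → ℂ, (∀ j, f j ∈ S j.succ (τ j)) ∧ BadL d V (Pt f) with hTB
    set Aa := A.filter fun t => TB (Fin.tail t) with hAa
    set Ab := A.filter fun t => ¬ TB (Fin.tail t) with hAb
    have hsum : Aa.card + Ab.card = A.card := Finset.card_filter_add_card_filter_not (s := A) (fun t => TB (Fin.tail t))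
    -- bad tails
    have hAcard : (Aa.card : ℝ) ≤ 2 * M₁ * (T : ℝ) ^ (((k + 1 : ℕ) : ℝ) - min c₁ c₂) := by
      have e1 : Aa.card ≤ (T + 1) * (Aa.image Fin.tail).card := by
        refine Finset.card_le_mul_card_image Aa (T + 1) fun τ _ => ?_
        have e2 : ((Aa.filter fun t => Fin.tail t = τ).image fun t => t 0).card =
            (Aa.filter fun t => Fin.tail t = τ).card := by
          refine Finset.card_image_of_injOn ?_
          intro t ht t' ht' heq
          have f1 := (Finset.mem_filter.1 ht).2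
          have f2 := (Finset.mem_filter.1 ht').2
          rw [← Fin.cons_self_tail t, ← Fin.cons_self_tail t', f1, f2]
          simp only at heq
          rw [heq]
        rw [← e2]
        have e3 : ((Aa.filter fun t => Fin.tail t = τ).image fun t => t 0) ⊆ Finset.range (T + 1) := by
          intro y hy
          obtain ⟨t, ht, rfl⟩ := Finset.mem_image.1 hy
          exact Finset.mem_range.2 (Nat.lt_succ_of_le ((hA t (Finset.mem_filter.1 (Finset.mem_filter.1 ht).1).1).1 0))
        simpa using Finset.card_le_card e3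
      have e4 : ((Aa.image Fin.tail).card : ℝ) ≤ M₁ * (T : ℝ) ^ ((k : ℝ) - c₁) := by
        refine h₁ V hV T hT _ fun τ hτ => ?_
        obtain ⟨t, ht, rfl⟩ := Finset.mem_image.1 hτ
        obtain ⟨htS, hb⟩ := Finset.mem_filter.1 ht
        exact ⟨fun i => (hA t htS).1 i.succ, hb⟩
      have e5 : (Aa.card : ℝ) ≤ (T + 1 : ℝ) * ((Aa.image Fin.tail).card : ℝ) := by exact_mod_cast e1
      have e6 : (T : ℝ) * (T : ℝ) ^ ((k : ℝ) - c₁) = (T : ℝ) ^ (((k + 1 : ℕ) : ℝ) - c₁) := by
        have : (((k + 1 : ℕ) : ℝ) - c₁) = 1 + ((k : ℝ) - c₁) := by push_cast; ring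
        rw [this, Real.rpow_add hT0, Real.rpow_one]
      have e7 : (T : ℝ) ^ (((k + 1 : ℕ) : ℝ) - c₁) ≤ (T : ℝ) ^ (((k + 1 : ℕ) : ℝ) - min c₁ c₂) :=
        Real.rpow_le_rpow_of_exponent_le hT1 (by linarith [min_le_left c₁ c₂])
      calc (Aa.card : ℝ) ≤ (T + 1 : ℝ) * (M₁ * (T : ℝ) ^ ((k : ℝ) - c₁)) := e5.trans (mul_le_mul_of_nonneg_left e4 (by positivity))
        _ ≤ (2 * T) * (M₁ * (T : ℝ) ^ ((k : ℝ) - c₁)) := mul_le_mul_of_nonneg_right (by linarith) (by positivity)
        _ = 2 * M₁ * (T * (T : ℝ) ^ ((k : ℝ) - c₁)) := by ring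
        _ ≤ _ := by
          rw [e6]
          exact mul_le_mul_of_nonneg_left e7 (by positivity)
    -- good tails
    have halt : ∀ t ∈ Ab, ∃ f' : Fin k → Fin 3 → ℂ, (∀ j, f' j ∈ S j.succ (Fin.tail t j)) ∧ ∃ f₀ ∈ S 0 (t 0),
        RelL (3 * δ) d (Ext V (Pt f')) f₀ := by
      intro t ht
      obtain ⟨htS, hnb⟩ := Finset.mem_filter.1 ht
      obtain ⟨-, f, hf, L, hL, hLd, v, hvV, hv0, hv⟩ := hA t htS
      refine ⟨fun j => f j.succ, fun j => hf j.succ, f 0, hf 0, ?_⟩
      apply relL_of_badL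
      set cf : (Fin 3 → Fin (δ + 1)) → ℂ := fun β => ∑ b' : Fin k → (Fin 3 → Fin (δ + 1)), v (Fin.cons β b') * Pt (fun j => f j.succ) b' with hcf
      refine ⟨L, hL, hLd, cf, fun β => span_ext L V _ _ fun b' => hvV _, ?_, ?_⟩
      · intro h0
        apply hnb
        obtain ⟨b, hb⟩ : ∃ b, v b ≠ 0 := by
          by_contra hno
          push Not at hno
          exact hv0 (funext hno)
        refine ⟨fun j => f j.succ, fun j => hf j.succ, L, hL, hLd, fun b' => v (Fin.cons (b 0) b'), fun b' => hvV _, ?_, congrFun h0 (b 0)⟩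
        intro h2
        apply hb
        have h3 := congrFun h2 (Fin.tail b)
        simp only [Fin.cons_self_tail, Pi.zero_apply] at h3
        exact h3
      · rw [← hv, ← Equiv.sum_comp (Fin.consEquiv fun _ => (Fin 3 → Fin (δ + 1))), Fintype.sum_prod_type]
        refine Finset.sum_congr rfl fun β _ => ?_
        rw [hcf]
        simp only
        rw [Finset.sum_mul]
        refine Finset.sum_congr rfl fun b' _ => ?_
        have e0 : (Fin.consEquiv fun _ => (Fin 3 → Fin (δ + 1))) (β, b') = Fin.cons β b' := rfl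
        rw [e0, Fin.prod_univ_succ]
        simp only [Fin.cons_zero, Fin.cons_succ]
        have : Pt (fun j => f j.succ) b' = ∏ i : Fin k, mon (f i.succ) (b' i) := rfl
        rw [this]
        ring
    have hBcard : (Ab.card : ℝ) ≤ 2 ^ k * ((K : ℝ) ^ k * M₂) * (T : ℝ) ^ (((k + 1 : ℕ) : ℝ) - min c₁ c₂) := by
      set B : ℝ := (K : ℝ) ^ k * (M₂ * (T : ℝ) ^ (1 - c₂)) with hB
      have hB0 : 0 ≤ B := by positivity
      set N' : ℕ := ⌊B⌋₊ with hN'
      have hN1' : (N' : ℝ) ≤ B := Nat.floor_le hB0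
      have e1 : Ab.card ≤ N' * (Ab.image Fin.tail).card := by
        refine Finset.card_le_mul_card_image Ab N' fun τ _ => ?_
        have e2 : ((Ab.filter fun t => Fin.tail t = τ).image fun t => t 0).card =
            (Ab.filter fun t => Fin.tail t = τ).card := by
          refine Finset.card_image_of_injOn ?_
          intro t ht t' ht' heq
          have f1 := (Finset.mem_filter.1 ht).2
          have f2 := (Finset.mem_filter.1 ht').2
          rw [← Fin.cons_self_tail t, ← Fin.cons_self_tail t', f1, f2]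
          simp only at heq
          rw [heq]
        rw [← e2]
        set H := ((Ab.filter fun t => Fin.tail t = τ).image fun t => t 0) with hH
        -- the choices of the values at the tail
        set Fs : Finset (Fin k → Fin 3 → ℂ) := Fintype.piFinset fun j => (hK j.succ (τ j)).1.toFinset with hFs
        have hFs1 : Fs.card ≤ K ^ k := by
          rw [hFs, Fintype.card_piFinset]
          refine (Finset.prod_le_prod' fun j _ => ?_).trans (le_of_eq (?_ : ∏ _j : Fin k, K = K ^ k))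
          · rw [← Set.ncard_eq_toFinset_card _ (hK j.succ (τ j)).1]
            exact (hK j.succ (τ j)).2
          · simp
        set HF : (Fin k → Fin 3 → ℂ) → Finset ℕ := fun f' => H.filter fun y => ∃ f₀ ∈ S 0 y, RelL (3 * δ) d (Ext V (Pt f')) f₀ with hHF
        have hcov : H ⊆ Fs.biUnion HF := by
          intro y hy
          obtain ⟨t, ht, hty⟩ := Finset.mem_image.1 hy
          obtain ⟨htA, htτ⟩ := Finset.mem_filter.1 ht
          obtain ⟨f', hf', f₀, hf₀, hr⟩ := halt t htA
          refine Finset.mem_biUnion.2 ⟨f', ?_, Finset.mem_filter.2 ⟨hy, ?_⟩⟩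
          · rw [hFs, Fintype.mem_piFinset]
            intro j
            rw [Set.Finite.mem_toFinset, ← htτ]
            exact hf' j
          · rw [← hty]
            exact ⟨f₀, hf₀, hr⟩
        have hHFc : ∀ f' ∈ Fs, ((HF f').card : ℝ) ≤ M₂ * (T : ℝ) ^ (1 - c₂) := by
          intro f' _
          refine h₂ (Ext V (Pt f')) ((finrank_Ext V _).trans (Nat.mul_le_mul_left _ hV)) T hT _ fun y hy => ?_
          obtain ⟨hyH, hyr⟩ := Finset.mem_filter.1 hy
          obtain ⟨t, ht, rfl⟩ := Finset.mem_image.1 hyH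
          exact ⟨(hA t (Finset.mem_filter.1 (Finset.mem_filter.1 ht).1).1).1 0, hyr⟩
        rw [hN']
        apply Nat.le_floor
        have hc1 : (H.card : ℝ) ≤ ∑ f' ∈ Fs, ((HF f').card : ℝ) := by
          have := (Finset.card_le_card hcov).trans Finset.card_biUnion_le
          exact_mod_cast this
        have hc2 : ∑ f' ∈ Fs, ((HF f').card : ℝ) ≤ Fs.card * (M₂ * (T : ℝ) ^ (1 - c₂)) := by
          refine (Finset.sum_le_sum hHFc).trans (le_of_eq ?_)
          rw [Finset.sum_const, nsmul_eq_mul]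
        have hc3 : (Fs.card : ℝ) ≤ (K : ℝ) ^ k := by exact_mod_cast hFs1
        exact hc1.trans (hc2.trans (mul_le_mul_of_nonneg_right hc3 (by positivity)))
      have e3 : (Ab.image Fin.tail).card ≤ (T + 1) ^ k := by
        have : Ab.image Fin.tail ⊆ Fintype.piFinset fun _ : Fin k => Finset.range (T + 1) := by
          intro τ hτ
          obtain ⟨t, ht, rfl⟩ := Finset.mem_image.1 hτ
          rw [Fintype.mem_piFinset]
          intro j
          exact Finset.mem_range.2 (Nat.lt_succ_of_le ((hA t (Finset.mem_filter.1 ht).1).1 j.succ))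
        refine (Finset.card_le_card this).trans (le_of_eq ?_)
        rw [Fintype.card_piFinset]
        simp
      have e4 : (Ab.card : ℝ) ≤ B * (2 * T) ^ k := by
        have f1 : (Ab.card : ℝ) ≤ N' * ((Ab.image Fin.tail).card : ℝ) := by exact_mod_cast e1
        have f2 : ((Ab.image Fin.tail).card : ℝ) ≤ (T + 1 : ℝ) ^ k := by exact_mod_cast e3
        have f3 : (T + 1 : ℝ) ^ k ≤ (2 * T) ^ k := pow_le_pow_left₀ (by positivity) (by linarith) _
        calc (Ab.card : ℝ) ≤ N' * ((Ab.image Fin.tail).card : ℝ) := f1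
          _ ≤ B * (2 * T) ^ k := mul_le_mul hN1' (f2.trans f3) (by positivity) hB0
      have e5 : B * (2 * (T : ℝ)) ^ k = 2 ^ k * ((K : ℝ) ^ k * M₂) * ((T : ℝ) ^ k * (T : ℝ) ^ (1 - c₂)) := by
        rw [hB, mul_pow]
        ring
      have e6 : (T : ℝ) ^ k * (T : ℝ) ^ (1 - c₂) = (T : ℝ) ^ (((k + 1 : ℕ) : ℝ) - c₂) := by
        rw [← Real.rpow_natCast, ← Real.rpow_add hT0]
        congr 1
        push_cast
        ring
      have e7 : (T : ℝ) ^ (((k + 1 : ℕ) : ℝ) - c₂) ≤ (T : ℝ) ^ (((k + 1 : ℕ) : ℝ) - min c₁ c₂) :=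
        Real.rpow_le_rpow_of_exponent_le hT1 (by linarith [min_le_right c₁ c₂])
      rw [e5, e6] at e4
      exact e4.trans (mul_le_mul_of_nonneg_left e7 (by positivity))
    have hs : (A.card : ℝ) = Aa.card + Ab.card := by exact_mod_cast hsum.symm
    rw [hs, add_mul]
    exact add_le_add hAcard hBcard

/-- relations between `3 k` numbers -/
lemma badL_of_relL {k δ d : ℕ} {V : Submodule ℚ ℂ} {f : Fin k → Fin 3 → ℂ}
    (h : RelL δ d V fun x : Fin k × Fin 3 => f x.1 x.2) :
    BadL d V fun b : Fin k → (Fin 3 → Fin (δ + 1)) => ∏ j, mon (f j) (b j) := by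
  classical
  obtain ⟨L, hL, hLd, P, hP0, hPd, hPc, hPv⟩ := h
  set tf : (Fin k → (Fin 3 → Fin (δ + 1))) → (Fin k × Fin 3 →₀ ℕ) := fun s => Finsupp.equivFunOnFinite.symm fun x => (s x.1 x.2 : ℕ) with htf
  have htfi : Function.Injective tf := by
    intro s s' hss
    funext j p
    have := DFunLike.congr_fun hss (j, p)
    exact Fin.ext this
  have hsupp : P.support ⊆ Finset.univ.image tf := by
    intro e he
    have h4 := (MvPolynomial.le_totalDegree he).trans hPd
    rw [Finsupp.sum_fintype _ _ (fun _ => rfl)] at h4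
    refine Finset.mem_image.2 ⟨fun j p => ⟨e (j, p), ?_⟩, Finset.mem_univ _, ?_⟩
    · have := Finset.single_le_sum (f := fun x => e x) (fun _ _ => Nat.zero_le _) (Finset.mem_univ (j, p))
      omega
    · ext x
      rfl
  refine ⟨L, hL, hLd, fun s => P.coeff (tf s), fun s => hPc _, ?_, ?_⟩
  · intro h0
    apply hP0
    ext e
    rw [MvPolynomial.coeff_zero]
    by_contra he
    obtain ⟨s, -, rfl⟩ := Finset.mem_image.1 (hsupp (MvPolynomial.mem_support_iff.2 he))
    exact he (congrFun h0 s)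
  · have h1 : MvPolynomial.aeval (fun x : Fin k × Fin 3 => f x.1 x.2) P = MvPolynomial.eval (fun x : Fin k × Fin 3 => f x.1 x.2) P := rfl
    rw [← hPv, h1, MvPolynomial.eval_eq', Finset.sum_subset hsupp]
    · rw [Finset.sum_image fun s _ s' _ h => htfi h]
      refine Finset.sum_congr rfl fun s _ => ?_
      rw [Fintype.prod_prod_type]
      rfl
    · intro e _ he
      rw [MvPolynomial.notMem_support_iff.1 he, zero_mul]

end Pool.Agent.Y124.GE
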