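import Pool.Agent.Y124.GE.El2

/-!
# One family: few integers at which the periods satisfy a relation
-/

set_option autoImplicit false

open Filter Topology Complex Module

namespace Pool.Agent.Y124.GE

open Pool.Agent.Y124 Pool.Agent.Y120.GH Pool.Agent.Y120.GF Pool.Agent.Y113

lemma one_congr {σ : Type} [Fintype σ] {X X' : ℕ → σ → ℂ} (h : One X) {t₀ : ℕ} (hX : ∀ t, t₀ < t → X' t = X t) : One X' := by
  intro D
  obtain ⟨c, C, hc, hC, H⟩ := h D
  refine ⟨c, C + (t₀ + 1), hc, by positivity, ?_⟩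
  intro V _ hV x N hN S hS
  set S₁ := S.filter fun t => t ≤ t₀ with hS₁
  set S₂ := S.filter fun t => ¬ t ≤ t₀ with hS₂
  have hcard : S₁.card + S₂.card = S.card := Finset.card_filter_add_card_filter_not (s := S) (fun t => t ≤ t₀)
  have hcard1 : S₁.card ≤ t₀ + 1 := by
    have : S₁ ⊆ Finset.range (t₀ + 1) := fun t ht => Finset.mem_range.2 (Nat.lt_succ_of_le (Finset.mem_filter.1 ht).2)
    simpa using Finset.card_le_card this
  have h2 := H V hV x N hN S₂ fun t ht => by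
    obtain ⟨htS, hlt⟩ := Finset.mem_filter.1 ht
    obtain ⟨h1, h2, h3⟩ := hS t htS
    rw [hX t (Nat.lt_of_not_le hlt)] at h3
    exact ⟨h1, h2, h3⟩
  have hf : (1 : ℝ) ≤ 1 + N / ((x : ℝ) + N) ^ c := by
    have : (0 : ℝ) ≤ N / ((x : ℝ) + N) ^ c := by positivity
    linarith
  have h3 : (S₁.card : ℝ) ≤ (t₀ + 1) * (1 + N / ((x : ℝ) + N) ^ c) := by
    have h11 : (S₁.card : ℝ) ≤ t₀ + 1 := by exact_mod_cast hcard1
    calc (S₁.card : ℝ) ≤ (t₀ + 1) * 1 := by rw [mul_one]; exact h11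
      _ ≤ _ := mul_le_mul_of_nonneg_left hf (by positivity)
  have h4 : (S.card : ℝ) = S₁.card + S₂.card := by exact_mod_cast hcard.symm
  rw [h4, add_mul]
  linarith

variable {a b : Polynomial ℚ}

/-- few bad integers for the monomials in the free entries -/
theorem one_mono (L : LD a b) (ha : a ≠ 0) (hD : De a b ≠ 0) {R : ℝ} (hR : 1 ≤ R) (hY : ∀ i j, cx (L.Y i j) ∈ Cw R) {u0 : ℝ}
    (hu0 : 0 < u0) (h : ∀ u : ℝ, 0 < u → u < u0 → LocInd (fun p s => xs L p s) (u : ℂ)) (δ : ℕ) :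
    One (fun (t : ℕ) (s : Fin 3 → Fin (δ + 1)) => ∏ p, xs L p (1 / ((t : ℝ) : ℂ)) ^ (s p : ℕ)) := by
  classical
  obtain ⟨q, C, T, hT, hG⟩ := gsys_ld L ha hD
  have hTc : Tld a b ≠ 0 := by
    intro h0
    have h1 := (Polynomial.map_eq_zero_iff (algebraMap ℚ ℂ).injective).1 h0
    exact (mul_ne_zero Polynomial.X_ne_zero hD) h1
  have hc := mono_hv L hR hY δ
  choose c hc using hc
  have h1 := one_gen h12 (y := fun x : Fin 2 × Fin 2 => L.Y x.1 x.2) hT hG hTc (fun x => ode_ld L x)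
    (fun τ hτ hτY => qu_ld L hτ fun i j => hτY (i, j)) (3 * δ) (3 * δ) c (fun T₀ r hr => by
      refine li_mono L hR hY hu0 h δ (max T₀ R) r fun t ht => ?_
      have h2 := hr t ((le_max_left _ _).trans_lt ht)
      rw [← h2]
      refine Finset.sum_congr rfl fun s _ => ?_
      have h3 := hc s t ((le_max_right _ _).trans_lt ht)
      dsimp only at h3
      rw [h3]
      rfl)
  obtain ⟨t₀, ht₀⟩ := exists_nat_ge R
  refine one_congr h1 (t₀ := t₀) fun t ht => ?_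
  funext s
  have h2 : R < (t : ℝ) := ht₀.trans_lt (by exact_mod_cast ht)
  exact hc s t h2

/-- few bad integers for a family of finite sets of values -/
def OFam {σ : Type} (S : ℕ → Set (σ → ℂ)) : Prop := ∀ δ D d : ℕ, ∃ c M : ℝ, 0 < c ∧ c ≤ 1 ∧ 0 ≤ M ∧
  ∀ (V : Submodule ℚ ℂ) [Module.Finite ℚ V], finrank ℚ V ≤ D → ∀ T : ℕ, 1 ≤ T → ∀ A : Finset ℕ,
    (∀ t ∈ A, t ≤ T ∧ ∃ f ∈ S t, RelL δ d V f) → (A.card : ℝ) ≤ M * (T : ℝ) ^ (1 - c)

/-- the values of the periods at `u = 1 / t` -/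
def Val (a b : Polynomial ℚ) (t : ℕ) : Set (Fin 3 → ℂ) :=
  {f | ∃ x : MC, x.1 = 1 / (t : ℂ) ∧ Cv (cp a) (cp b) x ∧ lam x ∈ Dom ∧ f = fun y => pf (lam x) x.2.2 y}

theorem of_ld (L : LD a b) (ha : a ≠ 0) (hb : b ≠ 0) (hD : De a b ≠ 0) (hnc : ∀ c : ℂ, cp a ^ 3 ≠ Polynomial.C c * cp b ^ 2) :
    OFam (Val a b) := by
  classical
  obtain ⟨R, hR, hY⟩ := exists_rad L ha hD
  obtain ⟨n, w0, hw0, -, hdet⟩ := det_mono L hD
  obtain ⟨u0, F, hu0, hu0R, hF, hF1, hF2⟩ := link L hb hD hR hY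
  have hmain : ∀ C ∈ F, (∀ u : ℝ, 0 < u → u < u0 → LocInd (fun p s => xs L p s) (u : ℂ)) ∧ C 0 0 * C 1 1 - C 0 1 * C 1 0 ≠ 0 := by
    intro C hC
    have hk : ∀ u : ℝ, 0 < u → u < u0 → LocInd (fun p s => xs L p s) (u : ℂ) ∧ C 0 0 * C 1 1 - C 0 1 * C 1 0 ≠ 0 := by
      intro u h0 h1
      obtain ⟨la, w, k1, k2, k3, k4, k5, k6⟩ := hF2 C hC u h0 h1
      refine xs_locInd L hR hY hb hnc hdet ?_ ?_ k1 k2 k3 k4 k5 k6
      · rw [ofReal_mem_slitPlane]; exact h0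
      · rw [norm_real, Real.norm_of_nonneg h0.le]; exact h1.trans_le hu0R
    exact ⟨fun u h0 h1 => (hk u h0 h1).1, (hk (u0 / 2) (by linarith) (by linarith)).2⟩
  intro δ D d
  set D' := ((D + 4 + 1) ^ (1 + 4 * δ) + 1) ^ δ2 δ d with hD'
  -- each matrix
  have hC1 : ∀ C ∈ F, ∃ c M : ℝ, 0 < c ∧ 0 ≤ M ∧ ∀ (V : Submodule ℚ ℂ) [Module.Finite ℚ V], finrank ℚ V ≤ D → ∀ T : ℕ, 1 ≤ T →
      ∀ A : Finset ℕ, (∀ t ∈ A, t ≤ T ∧ R < t ∧ RelL δ d V fun y => fv L C y (1 / ((t : ℝ) : ℂ))) →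
        (A.card : ℝ) ≤ M * (1 + T / (T : ℝ) ^ c) := by
    intro C hC
    obtain ⟨hl, hd⟩ := hmain C hC
    obtain ⟨c, M, hc, hM, H⟩ := one_mono L ha hD hR hY hu0 hl (δ2 δ d) D'
    refine ⟨c, M, hc, hM, fun V _ hV T hT A hA => ?_⟩
    obtain ⟨hf2, hd2⟩ := V2_dim V C δ d hV
    have h1 := H (V2 V C δ d) hd2 0 T hT A fun t ht => by
      obtain ⟨k1, k2, k3⟩ := hA t ht
      refine ⟨?_, by omega, bad_of_rel (relL_xs L hR hY hdet hd k2 k3)⟩
      have : (0 : ℝ) < t := by linarith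
      exact_mod_cast this
    simpa using h1
  choose! c M hc hM H using hC1
  -- a common exponent
  obtain ⟨c0, hc0, hc01, hc0c⟩ : ∃ c0 : ℝ, 0 < c0 ∧ c0 ≤ 1 ∧ ∀ C ∈ F, c0 ≤ c C := by
    have : ∀ G : Finset (Fin 2 → Fin 2 → ℂ), (∀ C ∈ G, 0 < c C) → ∃ c0 : ℝ, 0 < c0 ∧ c0 ≤ 1 ∧ ∀ C ∈ G, c0 ≤ c C := by
      intro G
      induction G using Finset.induction_on with
      | empty => exact fun _ => ⟨1, one_pos, le_rfl, fun C hC => absurd hC (Finset.notMem_empty _)⟩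
      | insert C G hCG ih =>
        intro h
        obtain ⟨c0, k1, k2, k3⟩ := ih fun C' hC' => h C' (Finset.mem_insert_of_mem hC')
        refine ⟨min c0 (c C), lt_min k1 (h C (Finset.mem_insert_self _ _)), (min_le_left _ _).trans k2, fun C' hC' => ?_⟩
        rcases Finset.mem_insert.1 hC' with rfl | h'
        · exact min_le_right _ _
        · exact (min_le_left _ _).trans (k3 C' h')
    obtain ⟨c0, k1, k2, k3⟩ := this hF.toFinset fun C hC => hc C (hF.mem_toFinset.1 hC)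
    exact ⟨c0, k1, k2, fun C hC => k3 C (hF.mem_toFinset.2 hC)⟩
  obtain ⟨t₀, ht₀⟩ := exists_nat_ge (1 / u0)
  have hMs : 0 ≤ ∑ C ∈ hF.toFinset, M C := Finset.sum_nonneg fun C hC => hM C (hF.mem_toFinset.1 hC)
  refine ⟨c0, (t₀ + 1) + 2 * ∑ C ∈ hF.toFinset, M C, hc0, hc01, by positivity, ?_⟩
  intro V _ hV T hT A hA
  have hT1 : (1 : ℝ) ≤ T := by exact_mod_cast hT
  have hT0 : (0 : ℝ) < T := by linarith
  set A₁ := A.filter fun t => t ≤ t₀ with hA₁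
  set AC : (Fin 2 → Fin 2 → ℂ) → Finset ℕ := fun C => A.filter fun t => t₀ < t ∧ RelL δ d V fun y => fv L C y (1 / ((t : ℝ) : ℂ)) with hAC
  have hcov : A ⊆ A₁ ∪ hF.toFinset.biUnion AC := by
    intro t ht
    rw [Finset.mem_union]
    by_cases h : t ≤ t₀
    · exact Or.inl (Finset.mem_filter.2 ⟨ht, h⟩)
    · right
      push Not at h
      obtain ⟨-, f, ⟨x, hx1, hx2, hx3, rfl⟩, hrel⟩ := hA t ht
      have h1 : 1 / u0 < (t : ℝ) := ht₀.trans_lt (by exact_mod_cast h)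
      have ht0 : (0 : ℝ) < t := lt_of_le_of_lt (by positivity) h1
      obtain ⟨C, hC, hCe⟩ := hF1 x (1 / (t : ℝ)) (by positivity) (by
        rw [div_lt_iff₀ ht0]
        rw [div_lt_iff₀ hu0] at h1
        linarith) (by rw [hx1]; push_cast; rfl) hx2 hx3
      refine Finset.mem_biUnion.2 ⟨C, hF.mem_toFinset.2 hC, Finset.mem_filter.2 ⟨ht, h, ?_⟩⟩
      have h2 : (fun y => pf (lam x) x.2.2 y) = fun y => fv L C y (1 / ((t : ℝ) : ℂ)) := by
        funext y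
        rw [hCe y]
        push_cast
        rfl
      rwa [h2] at hrel
  have hcard1 : (A₁.card : ℝ) ≤ t₀ + 1 := by
    have : A₁ ⊆ Finset.range (t₀ + 1) := fun t ht => Finset.mem_range.2 (Nat.lt_succ_of_le (Finset.mem_filter.1 ht).2)
    have h2 : A₁.card ≤ t₀ + 1 := by simpa using Finset.card_le_card this
    exact_mod_cast h2
  have hpow1 : (1 : ℝ) ≤ (T : ℝ) ^ (1 - c0) := Real.one_le_rpow hT1 (by linarith)
  have hcard2 : ∀ C ∈ hF.toFinset, ((AC C).card : ℝ) ≤ M C * (2 * (T : ℝ) ^ (1 - c0)) := by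
    intro C hC
    have hC' := hF.mem_toFinset.1 hC
    have h1 := H C hC' V hV T hT (AC C) fun t ht => by
      obtain ⟨htA, k1, k2⟩ := Finset.mem_filter.1 ht
      refine ⟨(hA t htA).1, ?_, k2⟩
      have k3 : 1 / u0 < (t : ℝ) := ht₀.trans_lt (by exact_mod_cast k1)
      have k4 : R ≤ 1 / u0 := by
        rw [le_div_iff₀ hu0]
        rw [le_div_iff₀ (by linarith)] at hu0R
        linarith
      linarith
    refine h1.trans (mul_le_mul_of_nonneg_left ?_ (hM C hC'))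
    have h2 : (T : ℝ) / (T : ℝ) ^ c C = (T : ℝ) ^ (1 - c C) := by
      rw [Real.rpow_sub hT0, Real.rpow_one]
    have h3 : (T : ℝ) ^ (1 - c C) ≤ (T : ℝ) ^ (1 - c0) := Real.rpow_le_rpow_of_exponent_le hT1 (by linarith [hc0c C hC'])
    rw [h2]
    linarith
  have hcard3 : (A.card : ℝ) ≤ A₁.card + ∑ C ∈ hF.toFinset, ((AC C).card : ℝ) := by
    have h1 : A.card ≤ A₁.card + ∑ C ∈ hF.toFinset, (AC C).card :=
      (Finset.card_le_card hcov).trans ((Finset.card_union_le _ _).trans (Nat.add_le_add_left Finset.card_biUnion_le _))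
    exact_mod_cast h1
  have h4 : ∑ C ∈ hF.toFinset, ((AC C).card : ℝ) ≤ (∑ C ∈ hF.toFinset, M C) * (2 * (T : ℝ) ^ (1 - c0)) := by
    rw [Finset.sum_mul]
    exact Finset.sum_le_sum hcard2
  nlinarith

end Pool.Agent.Y124.GE
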