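import Pool.Agent.Y124.GE.El
import Pool.Agent.Y141.GF.Wr

/-!
# From one point to another
-/

set_option autoImplicit false

namespace Pool.Agent.Y124.GE

open PowerSeries Finset Pool.Agent.Y113 Pool.Agent.Y113.HGG Pool.Agent.Y655.HG

lemma De_comp (a b p : Polynomial ℚ) : (De a b).comp p = De (a.comp p) (b.comp p) := by
  simp [De]

lemma Wr_comp (a b : Polynomial ℚ) (x : ℚ) : (Wr a b).comp (Polynomial.X + Polynomial.C x) =
    Wr (a.comp (Polynomial.X + Polynomial.C x)) (b.comp (Polynomial.X + Polynomial.C x)) := by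
  simp [Wr, Polynomial.derivative_comp]

lemma AE_comp (a b : Polynomial ℚ) (x : ℚ) (i j : Fin 2) : (AE a b i j).comp (Polynomial.X + Polynomial.C x) =
    AE (a.comp (Polynomial.X + Polynomial.C x)) (b.comp (Polynomial.X + Polynomial.C x)) i j := by
  have h1 : (Polynomial.derivative (De a b)).comp (Polynomial.X + Polynomial.C x) =
      Polynomial.derivative (De (a.comp (Polynomial.X + Polynomial.C x)) (b.comp (Polynomial.X + Polynomial.C x))) := by
    rw [← De_comp, Polynomial.derivative_comp]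
    simp
  fin_cases i <;> fin_cases j
  · change (-(Polynomial.C (1 / 12) * Polynomial.derivative (De a b))).comp _ = -(Polynomial.C (1 / 12) * Polynomial.derivative (De _ _))
    rw [Polynomial.neg_comp, Polynomial.mul_comp, Polynomial.C_comp, h1]
  · change (-(Polynomial.C (1 / 2) * (a * Wr a b))).comp _ = -(Polynomial.C (1 / 2) * (_ * Wr _ _))
    rw [Polynomial.neg_comp, Polynomial.mul_comp, Polynomial.C_comp, Polynomial.mul_comp, Wr_comp]
  · change (-(Polynomial.C (3 / 2) * Wr a b)).comp _ = -(Polynomial.C (3 / 2) * Wr _ _)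
    rw [Polynomial.neg_comp, Polynomial.mul_comp, Polynomial.C_comp, Wr_comp]
  · change (Polynomial.C (1 / 12) * Polynomial.derivative (De a b)).comp _ = Polynomial.C (1 / 12) * Polynomial.derivative (De _ _)
    rw [Polynomial.mul_comp, Polynomial.C_comp, h1]

/-- existence of the formal solution -/
theorem exists_sol (a b : Polynomial ℚ) (h : (De a b).eval 0 ≠ 0) : ∃ Y, Sol a b Y := by
  have h1 : ∀ i : Fin 2, ∃ w : Fin 2 → ℚ⟦X⟧, (∀ j, constantCoeff (w j) = if i = j then 1 else 0) ∧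
      ∀ j, (De a b : ℚ⟦X⟧) * (d⁄dX ℚ (w j)) = ∑ k, (AE a b k j : ℚ⟦X⟧) * w k := fun i =>
    Pool.Agent.Y141.GF.t_loc ℚ 2 (De a b) (fun j k => AE a b k j) (fun j => if i = j then 1 else 0) h
  choose Y h2 h3 using h1
  refine ⟨Y, h2, fun i j => ?_⟩
  rw [h3]
  exact Finset.sum_congr rfl fun k _ => mul_comm _ _

lemma ne_zero_of_eval {P : Polynomial ℚ} {x : ℚ} (h : P.eval x ≠ 0) : P ≠ 0 := by
  intro h0
  rw [h0, Polynomial.eval_zero] at h
  exact h rfl

lemma coe_ne_zero {P : Polynomial ℚ} (h : P ≠ 0) : (P : ℚ⟦X⟧) ≠ 0 := by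
  intro h0
  apply h
  exact Polynomial.coe_injective ℚ (by rw [h0, Polynomial.coe_zero])

/-- the determinant is `1` -/
theorem sol_det {a b : Polynomial ℚ} {Y : Fin 2 → Fin 2 → ℚ⟦X⟧} (hD : De a b ≠ 0) (h : Sol a b Y) :
    Y 0 0 * Y 1 1 - Y 0 1 * Y 1 0 = 1 := by
  have hD' := coe_ne_zero hD
  have htr : ((AE a b 1 1 : Polynomial ℚ) : ℚ⟦X⟧) = -((AE a b 0 0 : Polynomial ℚ) : ℚ⟦X⟧) := by
    change ((Polynomial.C (1 / 12) * Polynomial.derivative (De a b) : Polynomial ℚ) : ℚ⟦X⟧) =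
      -((-(Polynomial.C (1 / 12) * Polynomial.derivative (De a b)) : Polynomial ℚ) : ℚ⟦X⟧)
    rw [Polynomial.coe_neg, neg_neg]
  have h00 := h.2 0 0
  have h01 := h.2 0 1
  have h10 := h.2 1 0
  have h11 := h.2 1 1
  rw [Fin.sum_univ_two] at h00 h01 h10 h11
  have hder : d⁄dX ℚ (Y 0 0 * Y 1 1 - Y 0 1 * Y 1 0) = 0 := by
    apply (mul_eq_zero.1 (?_ : (De a b : ℚ⟦X⟧) * d⁄dX ℚ (Y 0 0 * Y 1 1 - Y 0 1 * Y 1 0) = 0)).resolve_left hD'
    rw [map_sub, Derivation.leibniz, Derivation.leibniz]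
    simp only [smul_eq_mul]
    rw [htr] at h01 h11
    linear_combination (Y 1 1) * h00 + (Y 0 0) * h11 - (Y 0 1) * h10 - (Y 1 0) * h01
  have h1 := PowerSeries.derivative.ext (R := ℚ) (f := Y 0 0 * Y 1 1 - Y 0 1 * Y 1 0) (g := 1) (by
    rw [hder]
    exact ((PowerSeries.derivative ℚ).map_one_eq_zero).symm) (by
    rw [map_sub, map_mul, map_mul, h.1, h.1, h.1, h.1]
    simp)
  exact h1

/-- the inverse matrix -/
noncomputable def adj (Y : Fin 2 → Fin 2 → ℚ⟦X⟧) : Fin 2 → Fin 2 → ℚ⟦X⟧ := ![![Y 1 1, -Y 0 1], ![-Y 1 0, Y 0 0]]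

lemma adj_mul {a b : Polynomial ℚ} {Y : Fin 2 → Fin 2 → ℚ⟦X⟧} (hD : De a b ≠ 0) (h : Sol a b Y) (i j : Fin 2) :
    ∑ k, adj Y i k * Y k j = if i = j then 1 else 0 := by
  have h1 := sol_det hD h
  rw [Fin.sum_univ_two]
  fin_cases i <;> fin_cases j
  · change Y 1 1 * Y 0 0 + -Y 0 1 * Y 1 0 = 1
    linear_combination h1
  · change Y 1 1 * Y 0 1 + -Y 0 1 * Y 1 1 = 0
    ring
  · change -Y 1 0 * Y 0 0 + Y 0 0 * Y 1 0 = 0
    ring
  · change -Y 1 0 * Y 0 1 + Y 0 0 * Y 1 1 = 1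
    linear_combination h1

lemma SDc_neg {f : ℚ⟦X⟧} (h : SDc f) : SDc (-f) := by
  have := (SDc_const (-1)).mul h
  rw [map_neg, map_one, neg_one_mul] at this
  exact this

lemma SDc_adj {Y : Fin 2 → Fin 2 → ℚ⟦X⟧} (h : ∀ i j, SDc (Y i j)) (i j : Fin 2) : SDc (adj Y i j) := by
  fin_cases i <;> fin_cases j
  · exact h 1 1
  · exact SDc_neg (h 0 1)
  · exact SDc_neg (h 1 0)
  · exact h 0 0

lemma exists_int {ι : Type*} [Fintype ι] (P : ι → Polynomial ℚ) : ∃ c : ℕ, 0 < c ∧ ∀ i, ∃ Q : Polynomial ℤ,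
    Q.map (Int.castRingHom ℚ) = Polynomial.C (c : ℚ) * P i := by
  classical
  have h1 : ∀ P : Polynomial ℚ, ∃ c : ℕ, 0 < c ∧ ∃ Q : Polynomial ℤ, Q.map (Int.castRingHom ℚ) = Polynomial.C (c : ℚ) * P := by
    intro P
    refine ⟨∏ l ∈ P.support, (P.coeff l).den, Finset.prod_pos fun l _ => (P.coeff l).pos, ?_⟩
    have h2 : IP (∏ l ∈ P.support, (P.coeff l).den) P := IP.of_coeff fun l => by
      by_cases hl : l ∈ P.support
      · refine ⟨(∏ l' ∈ P.support.erase l, (P.coeff l').den : ℕ) * (P.coeff l).num, ?_⟩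
        rw [← Finset.mul_prod_erase _ _ hl]
        push_cast
        have : (P.coeff l) * ((P.coeff l).den : ℚ) = (P.coeff l).num := Rat.mul_den_eq_num _
        rw [← this]
        ring
      · rw [Polynomial.notMem_support_iff.1 hl]
        exact ⟨0, by simp⟩
    exact h2
  choose c hc Q hQ using fun i => h1 (P i)
  refine ⟨∏ i, c i, Finset.prod_pos fun i _ => hc i, fun i => ⟨Polynomial.C ((∏ j ∈ Finset.univ.erase i, c j : ℕ) : ℤ) * Q i, ?_⟩⟩
  rw [Polynomial.map_mul, hQ, Polynomial.map_C, ← Finset.mul_prod_erase _ _ (Finset.mem_univ i)]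
  push_cast
  rw [← mul_assoc, ← Polynomial.C_mul]
  congr 2
  simp only [eq_intCast]
  push_cast
  ring

/-- integral multiples and Galochkin's condition for the family -/
theorem fam_gc {a b : Polynomial ℚ} (hD : De a b ≠ 0) {Y : Fin 2 → Fin 2 → ℚ⟦X⟧} (hY : Sol a b Y) (hS : ∀ i j, SDc (Y i j)) :
    ∃ (c : ℚ) (q : ℕ) (T : Polynomial ℤ) (A : Fin 2 → Fin 2 → Polynomial ℤ), c ≠ 0 ∧ tq T = Polynomial.C c * De a b ∧
      (∀ j k, aq A j k = Polynomial.C c * AE a b k j) ∧ GC q T A := by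
  obtain ⟨c, hc, hQ⟩ := exists_int (fun o : Option (Fin 2 × Fin 2) => o.elim (De a b) fun p => AE a b p.1 p.2)
  choose Q hQ using hQ
  have hT : tq (Q none) = Polynomial.C (c : ℚ) * De a b := hQ none
  have hA : ∀ j k, aq (fun k j => Q (some (k, j))) j k = Polynomial.C (c : ℚ) * AE a b k j := fun j k => hQ (some (k, j))
  refine ⟨c, (Q none).natDegree + ∑ p : Fin 2 × Fin 2, (Q (some p)).natDegree, Q none, fun k j => Q (some (k, j)),
    by exact_mod_cast hc.ne', hT, hA, ?_⟩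
  refine gc_of (y := Y) (w := adj Y) (by omega) (fun i j => ?_) (fun i j => ?_) (adj_mul hD hY) hS (SDc_adj hS)
  · have := Finset.single_le_sum (f := fun p : Fin 2 × Fin 2 => (Q (some p)).natDegree) (fun _ _ => Nat.zero_le _)
      (Finset.mem_univ (i, j))
    omega
  · have e1 : ps (Q none) = ((Polynomial.C (c : ℚ) * De a b : Polynomial ℚ) : ℚ⟦X⟧) := by rw [← hT]; rfl
    have e2 : ∀ k, ps (Q (some (k, j))) = ((Polynomial.C (c : ℚ) * AE a b k j : Polynomial ℚ) : ℚ⟦X⟧) := fun k => by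
      rw [← hA j k]; rfl
    simp only [e2]
    rw [e1, Polynomial.coe_mul, mul_assoc, hY.2 i j, Finset.mul_sum]
    refine Finset.sum_congr rfl fun k _ => ?_
    rw [Polynomial.coe_mul]
    ring

/-- G-functions at one point: G-functions at all points -/
theorem trans {a b : Polynomial ℚ} (hD : De a b ≠ 0) {Y : Fin 2 → Fin 2 → ℚ⟦X⟧} (hY : Sol a b Y) (hS : ∀ i j, SDc (Y i j))
    (x : ℚ) (hx : (De a b).eval x ≠ 0) {Z : Fin 2 → Fin 2 → ℚ⟦X⟧}
    (hZ : Sol (a.comp (Polynomial.X + Polynomial.C x)) (b.comp (Polynomial.X + Polynomial.C x)) Z) (i j : Fin 2) :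
    SDc (Z i j) := by
  obtain ⟨c, q, T, A, hc, hT, hA, hG⟩ := fam_gc hD hY hS
  refine gc_eval hG x ?_ (Z := Z) (fun i j => ?_) hZ.1 i j
  · rw [hT, Polynomial.eval_mul, Polynomial.eval_C]
    exact mul_ne_zero hc hx
  · have h1 := hZ.2 i j
    rw [hT, map_mul]
    simp only [hA, map_mul]
    rw [mul_assoc]
    have e1 : tau x (De a b) = ((De (a.comp (Polynomial.X + Polynomial.C x)) (b.comp (Polynomial.X + Polynomial.C x)) : Polynomial ℚ) : ℚ⟦X⟧) := by
      rw [tau_apply, De_comp]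
    have e2 : ∀ k, tau x (AE a b k j) = ((AE (a.comp (Polynomial.X + Polynomial.C x)) (b.comp (Polynomial.X + Polynomial.C x)) k j : Polynomial ℚ) : ℚ⟦X⟧) := by
      intro k
      rw [tau_apply, AE_comp]
    rw [e1, h1, Finset.mul_sum]
    refine Finset.sum_congr rfl fun k _ => ?_
    rw [e2]
    ring

end Pool.Agent.Y124.GE
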