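import Pool.Agent.Y124.GE.Ld

/-!
# The formal solutions are G-functions
-/

set_option autoImplicit false

namespace Pool.Agent.Y124.GE

open PowerSeries Finset Pool.Agent.Y113 Pool.Agent.Y113.HGG Pool.Agent.Y655.HG

/-- the coefficients of a vector -/
noncomputable def cfL (n : ℕ) : VV →ₗ[ℚ] (Fin 2 → ℚ) where
  toFun v i := coeff n (v i)
  map_add' v w := by
    funext i
    simp
  map_smul' r v := by
    funext i
    simp

lemma cfL_apply (n : ℕ) (v : VV) (i : Fin 2) : cfL n v i = coeff n (v i) := rfl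

lemma cfL_Dc (c : M2) (n : ℕ) (v : VV) : cfL n (Dc c v) = ((n : ℚ) • (1 : M2) - c).mulVec (cfL n v) := by
  funext i
  rw [cfL_apply, Dc_apply, map_sub, map_sum]
  have h3 : coeff n (X * d⁄dX ℚ (v i)) = (n : ℚ) * coeff n (v i) := by
    cases n with
    | zero => simp
    | succ n =>
      rw [coeff_succ_X_mul, coeff_derivative]
      push_cast
      ring
  rw [h3, Matrix.sub_mulVec, Matrix.smul_mulVec, Matrix.one_mulVec, Pi.sub_apply, Pi.smul_apply, cfL_apply, smul_eq_mul]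
  congr 1
  rw [Matrix.mulVec, dotProduct]
  refine Finset.sum_congr rfl fun k _ => ?_
  rw [coeff_C_mul]
  rfl

lemma cfL_aeval (c : M2) (n : ℕ) (p : Polynomial ℚ) (v : VV) :
    cfL n (Polynomial.aeval (Dc c) p v) = (Polynomial.aeval ((n : ℚ) • (1 : M2) - c) p).mulVec (cfL n v) := by
  have hpow : ∀ k : ℕ, cfL n ((Dc c ^ k) v) = (((n : ℚ) • (1 : M2) - c) ^ k).mulVec (cfL n v) := by
    intro k
    induction k with
    | zero => simp
    | succ k ih =>
      rw [pow_succ', pow_succ', Module.End.mul_apply, cfL_Dc, ih, Matrix.mulVec_mulVec]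
  induction p using Polynomial.induction_on' with
  | add p q hp hq => rw [map_add, map_add, LinearMap.add_apply, map_add, hp, hq, Matrix.add_mulVec]
  | monomial k a =>
    rw [Polynomial.aeval_monomial, Polynomial.aeval_monomial]
    have h1 : (algebraMap ℚ (Module.End ℚ VV) a * Dc c ^ k) v = a • ((Dc c ^ k) v) := by
      rw [Module.End.mul_apply, Module.algebraMap_end_apply]
    have h2 : (algebraMap ℚ M2 a * ((n : ℚ) • (1 : M2) - c) ^ k) = a • ((n : ℚ) • (1 : M2) - c) ^ k :=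
      (Algebra.smul_def a _).symm
    rw [h1, h2, map_smul, hpow, Matrix.smul_mulVec]

lemma aeval_nN {N : M2} (hN : N * N = 0) (n : ℕ) (p : Polynomial ℚ) :
    Polynomial.aeval ((n : ℚ) • (1 : M2) - -N) p = (p.eval (n : ℚ)) • (1 : M2) + ((Polynomial.derivative p).eval (n : ℚ)) • N := by
  have h1 := aeval_cN (r := fun _ => (n : ℚ)) (N := -N) (by rw [neg_mul_neg, hN]) (fun _ _ _ => rfl) p
  have h2 : cN (fun _ => (n : ℚ)) (-N) = (n : ℚ) • (1 : M2) - -N := by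
    rw [cN, Matrix.smul_one_eq_diagonal]
  rw [h2] at h1
  rw [h1]
  have h3 : ∀ x : ℚ, Matrix.diagonal (fun _ : Fin 2 => x) = x • (1 : M2) := fun x => (Matrix.smul_one_eq_diagonal x).symm
  rw [h3, h3, smul_mul_assoc, one_mul, smul_neg, sub_neg_eq_add]

lemma bp_sq_eval {n m : ℕ} (h : n < m) : (bp m ^ 2).eval (n : ℚ) = 0 ∧ (Polynomial.derivative (bp m ^ 2)).eval (n : ℚ) = 0 := by
  have h1 : (bp m).eval (n : ℚ) = 0 := by
    rw [bp_eval, Nat.choose_eq_zero_of_lt h]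
    simp
  refine ⟨by rw [Polynomial.eval_pow, h1]; ring, ?_⟩
  rw [pow_two, Polynomial.derivative_mul, Polynomial.eval_add, Polynomial.eval_mul, Polynomial.eval_mul, h1]
  ring

lemma bp_sq_self (m : ℕ) : (bp m ^ 2).eval (m : ℚ) = 1 ∧ (Polynomial.derivative (bp m ^ 2)).eval (m : ℚ) = 2 * hh m := by
  have h1 : (bp m).eval (m : ℚ) = 1 := by
    rw [bp_eval, Nat.choose_self]
    simp
  refine ⟨by rw [Polynomial.eval_pow, h1]; ring, ?_⟩
  rw [pow_two, Polynomial.derivative_mul, Polynomial.eval_add, Polynomial.eval_mul, Polynomial.eval_mul, h1, hh]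
  ring

section
variable (T : Polynomial ℤ) (A : Fin 2 → Fin 2 → Polynomial ℤ)

/-- the polynomials of the trick -/
noncomputable def Rm (m : ℕ) (j l : Fin 2) : Polynomial ℚ :=
  ∑ i ∈ range (m + 1), tq T ^ (m - i) * (Polynomial.C ((m.choose i * (m + i).choose m : ℕ) : ℚ) *
    (Polynomial.X ^ (m + i) * ah T A (m + i) j l))

variable {T A}

lemma Rm_spec {c : M2} {y : Fin 2 → VV}
    (hy : ∀ j, (tq T : ℚ⟦X⟧) • Dc c (y j) = ∑ k, ((X : ℚ⟦X⟧) * (aq A j k : ℚ⟦X⟧)) • y k) (m : ℕ) (j : Fin 2) :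
    (tq T : ℚ⟦X⟧) ^ (2 * m) • Polynomial.aeval (Dc c) (bp m ^ 2) (y j) = ∑ l, (Rm T A m j l : ℚ⟦X⟧) • y l := by
  rw [bp_sq, map_sum, LinearMap.sum_apply, Finset.smul_sum]
  have h1 : ∀ i ∈ range (m + 1), (tq T : ℚ⟦X⟧) ^ (2 * m) • (Polynomial.aeval (Dc c)
      (Polynomial.C ((m.choose i * (m + i).choose m : ℕ) : ℚ) * bp (m + i)) (y j)) =
      ∑ l, (((tq T ^ (m - i) * (Polynomial.C ((m.choose i * (m + i).choose m : ℕ) : ℚ) *
    (Polynomial.X ^ (m + i) * ah T A (m + i) j l)) : Polynomial ℚ)) : ℚ⟦X⟧) • y l := by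
    intro i hi
    rw [mem_range] at hi
    have e1 : Polynomial.aeval (Dc c) (Polynomial.C ((m.choose i * (m + i).choose m : ℕ) : ℚ) * bp (m + i)) (y j) =
        ((m.choose i * (m + i).choose m : ℕ) : ℚ) • ap c (m + i) (y j) := by
      rw [map_mul, Polynomial.aeval_C, Module.End.mul_apply, Module.algebraMap_end_apply]
      rfl
    have e2 : 2 * m = (m - i) + (m + i) := by omega
    rw [e1, rat_smul, smul_smul, e2, pow_add, mul_assoc, mul_comm ((tq T : ℚ⟦X⟧) ^ (m + i)), ← mul_assoc, ← smul_smul, star hy,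
      Finset.smul_sum]
    refine Finset.sum_congr rfl fun l _ => ?_
    rw [smul_smul]
    congr 1
    simp only [Polynomial.coe_mul, Polynomial.coe_pow, Polynomial.coe_C, Polynomial.coe_X]
    ring
  rw [Finset.sum_congr rfl h1, Finset.sum_comm]
  refine Finset.sum_congr rfl fun l _ => ?_
  rw [← Finset.sum_smul]
  congr 1
  rw [Rm]
  exact (map_sum (Polynomial.coeToPowerSeries.ringHom (R := ℚ)) _ _).symm

lemma Rm_bounds {q : ℕ} (hTq : T.natDegree ≤ q) (hG : GC q T A) : ∃ M : ℝ, 1 ≤ M ∧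
    (∀ K, ∃ g : ℕ, 0 < g ∧ (g : ℝ) ≤ M ^ (K + 1) ∧ ∀ m ≤ K, ∀ j l, IP g (Rm T A m j l)) ∧
    ∀ m l, ∀ j k, |(((Rm T A m j k).coeff l : ℚ) : ℝ)| ≤ M ^ (m + 1) := by
  obtain ⟨M, hM, hG⟩ := hG
  obtain ⟨n3, h3⟩ := exists_bd T
  have hBT : Bq q (2 ^ n3) (tq T) := (show Bd q (2 ^ n3) T from ⟨hTq, h3⟩).toBq
  set MT : ℝ := 2 ^ n3 with hMT
  have hMT1 : 1 ≤ MT := one_le_pow₀ (by norm_num)
  have hq1 : (1 : ℝ) ≤ (q : ℝ) + 1 := by
    have : (0 : ℝ) ≤ (q : ℝ) := by positivity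
    linarith
  have hq2 : (1 : ℝ) ≤ 2 ^ q * 2 := by
    have : (1 : ℝ) ≤ 2 ^ q := one_le_pow₀ (by norm_num)
    linarith
  set W : ℝ := 2 * ((2 ^ q * 2) * ((((q : ℝ) + 1) * MT) * (8 * M ^ 2))) with hW
  have hM2 : 1 ≤ M ^ 2 := one_le_pow₀ hM
  have h8 : (1 : ℝ) ≤ 8 * M ^ 2 := one_le_mul_of_one_le_of_one_le (by norm_num) hM2
  have hW1 : M ^ 2 ≤ W := by
    rw [hW]
    calc M ^ 2 = 1 * (1 * ((1 * 1) * (1 * M ^ 2))) := by ring
      _ ≤ _ := by
        gcongr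
        · norm_num
        · norm_num
  have hW0 : 1 ≤ W := hM2.trans hW1
  refine ⟨W, hW0, fun K => ?_, fun m l j k => ?_⟩
  · obtain ⟨g, hg0, hg, hgs⟩ := hG (2 * K)
    refine ⟨g, hg0, hg.trans ?_, fun m hm j l => ?_⟩
    · calc M ^ (2 * K + 1) ≤ M ^ (2 * (K + 1)) := pow_le_pow_right₀ hM (by omega)
        _ = (M ^ 2) ^ (K + 1) := pow_mul _ _ _
        _ ≤ W ^ (K + 1) := pow_le_pow_left₀ (by positivity) hW1 _
    · rw [Rm]
      refine IP.sum _ fun i hi => ?_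
      rw [mem_range] at hi
      refine IP_tq T _ _ ?_
      have h1 := IP_C (d := 1) (c := ((m.choose i * (m + i).choose m : ℕ) : ℚ)) (IP_X (hgs (m + i) (by omega) j l).1 (m + i))
        ⟨((m.choose i * (m + i).choose m : ℕ) : ℤ), by push_cast; ring⟩
      rwa [one_mul] at h1
  · obtain ⟨g, hg0, hg, hgs⟩ := hG (2 * m)
    have hterm : ∀ i ∈ range (m + 1), Bq ((q + 1) * (2 * m)) ((2 ^ q * 2) ^ (m + 1) * ((((q : ℝ) + 1) * MT) ^ (m + 1) *
        (8 * M ^ 2) ^ (m + 1))) (tq T ^ (m - i) * (Polynomial.C ((m.choose i * (m + i).choose m : ℕ) : ℚ) *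
        (Polynomial.X ^ (m + i) * ah T A (m + i) j k))) := by
      intro i hi
      rw [mem_range] at hi
      have t1 := hBT.pow (m - i)
      have t2 := Bq_X_mul (hgs (m + i) (by omega) j k).2 (m + i)
      have hch : |((((m.choose i * (m + i).choose m : ℕ) : ℚ)) : ℝ)| ≤ 8 ^ m := by
        rw [abs_of_nonneg (by positivity)]
        have e1 : m.choose i ≤ 2 ^ m := Nat.choose_le_two_pow m i
        have e2 : (m + i).choose m ≤ 4 ^ m := by
          calc (m + i).choose m ≤ 2 ^ (m + i) := Nat.choose_le_two_pow _ _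
            _ ≤ 2 ^ (2 * m) := Nat.pow_le_pow_right (by norm_num) (by omega)
            _ = 4 ^ m := by rw [pow_mul]; norm_num
        have e3 : m.choose i * (m + i).choose m ≤ 8 ^ m := by
          calc m.choose i * (m + i).choose m ≤ 2 ^ m * 4 ^ m := Nat.mul_le_mul e1 e2
            _ = 8 ^ m := by rw [← mul_pow]; norm_num
        exact_mod_cast e3
      have t3 := t2.C_mul (c := ((m.choose i * (m + i).choose m : ℕ) : ℚ)) hch
      refine (t1.mul t3).mono ?_ ?_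
      · have e1 : q * (m - i) + (m + i + q * (m + i)) = q * ((m - i) + (m + i)) + (m + i) := by ring
        have e4 : (m - i) + (m + i) = 2 * m := by omega
        rw [e1, e4, add_mul, one_mul]
        omega
      · have e2 := lin_le_pow q (m - i) m (by omega)
        have e3 : (((q : ℝ) + 1) * MT) ^ (m - i) ≤ (((q : ℝ) + 1) * MT) ^ (m + 1) :=
          pow_le_pow_right₀ (one_le_mul_of_one_le_of_one_le hq1 hMT1) (by omega)
        have e5 : (8 : ℝ) ^ m * M ^ (2 * m + 1) ≤ (8 * M ^ 2) ^ (m + 1) := by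
          rw [mul_pow, ← pow_mul]
          exact mul_le_mul (pow_le_pow_right₀ (by norm_num) (by omega)) (pow_le_pow_right₀ hM (by omega)) (by positivity) (by positivity)
        gcongr
    have h5 := (Bq.sum _ hterm).2 l
    rw [← Rm] at h5
    refine h5.trans ?_
    have eR : W ^ (m + 1) = 2 ^ (m + 1) * ((2 ^ q * 2) ^ (m + 1) * ((((q : ℝ) + 1) * MT) ^ (m + 1) *
        (8 * M ^ 2) ^ (m + 1))) := by
      rw [hW, mul_pow 2, mul_pow (2 ^ q * 2), mul_pow (((q : ℝ) + 1) * MT)]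
    rw [Finset.card_range, eR]
    refine mul_le_mul_of_nonneg_right ?_ (by positivity)
    push_cast
    exact (succ_le_two_pow m).trans (pow_le_pow_right₀ (by norm_num) (by omega))

end

lemma exists_D1 {P : Polynomial ℚ} (hP : P ≠ 0) : ∃ (k : ℕ) (Q : Polynomial ℚ), P = Polynomial.X ^ k * Q ∧ Q.eval 0 ≠ 0 := by
  obtain ⟨Q, hQ, hd⟩ := Polynomial.exists_eq_pow_rootMultiplicity_mul_and_not_dvd P hP 0
  rw [Polynomial.C_0, sub_zero] at hQ hd
  exact ⟨_, Q, hQ, fun h => hd (Polynomial.X_dvd_iff.2 (by rwa [Polynomial.coeff_zero_eq_eval_zero]))⟩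

/-- **The formal solutions are G-functions.** -/
theorem sd_frob {a b : Polynomial ℚ} (ha : a ≠ 0) (hD : De a b ≠ 0) {N : M2} (hN : N * N = 0) {S : Fin 2 → Fin 2 → ℚ⟦X⟧}
    (hS : FD a b N S) (i j : Fin 2) : SDc (S i j) := by
  obtain ⟨κ, q, T, A, hκ, hT, hA, hTq, hG⟩ := gc_all ha hD
  obtain ⟨k, D1, hD1, hD10⟩ := exists_D1 hD
  obtain ⟨M, hM, hM1, hM2⟩ := Rm_bounds hTq hG
  set y : Fin 2 → VV := fun j i => S i j with hydef
  have hy : ∀ j, (tq T : ℚ⟦X⟧) • Dc (-N) (y j) = ∑ l, ((X : ℚ⟦X⟧) * (aq A j l : ℚ⟦X⟧)) • y l := by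
    intro j
    funext i
    rw [Pi.smul_apply, Dc_apply, Finset.sum_apply, smul_eq_mul]
    simp only [Pi.smul_apply, smul_eq_mul]
    have h1 := hS.ode i j
    rw [hT, Polynomial.coe_mul, Polynomial.coe_C]
    have h2 : X * d⁄dX ℚ (y j i) - ∑ l, PowerSeries.C ((-N) i l) * y j l = X * d⁄dX ℚ (S i j) + ∑ l, PowerSeries.C (N i l) * S l j := by
      simp only [Matrix.neg_apply, map_neg, neg_mul, Finset.sum_neg_distrib, sub_neg_eq_add]
      rfl
    rw [h2, mul_assoc, h1, Finset.mul_sum]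
    refine Finset.sum_congr rfl fun l _ => ?_
    rw [hA, Polynomial.coe_mul, Polynomial.coe_C]
    show _ = X * (PowerSeries.C κ * (AE a b l j : ℚ⟦X⟧)) * S i l
    ring
  -- the vectors of the trick
  set v : ℕ → Fin 2 → VV := fun m j => Polynomial.aeval (Dc (-N)) (bp m ^ 2) (y j) with hv
  have hcf : ∀ m n j, cfL n (v m j) = (((bp m ^ 2).eval (n : ℚ)) • (1 : M2) + ((Polynomial.derivative (bp m ^ 2)).eval (n : ℚ)) • N).mulVec
      (cfL n (y j)) := by
    intro m n j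
    rw [hv, cfL_aeval, aeval_nN hN]
  have hv0 : ∀ m j i n, n < m → coeff n (v m j i) = 0 := by
    intro m j i n hn
    have h1 := hcf m n j
    rw [(bp_sq_eval hn).1, (bp_sq_eval hn).2, zero_smul, zero_smul, add_zero, Matrix.zero_mulVec] at h1
    exact congrFun h1 i
  have hvm : ∀ m j i, coeff m (v m j i) = coeff m (S i j) + 2 * hh m * ∑ l, N i l * coeff m (S l j) := by
    intro m j i
    have h1 := hcf m m j
    rw [(bp_sq_self m).1, (bp_sq_self m).2, one_smul, Matrix.add_mulVec, Matrix.one_mulVec, Matrix.smul_mulVec] at h1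
    exact congrFun h1 i
  have hspec : ∀ m j i, (tq T : ℚ⟦X⟧) ^ (2 * m) * v m j i = ∑ l, (Rm T A m j l : ℚ⟦X⟧) * S i l := by
    intro m j i
    have h1 := congrFun (Rm_spec hy m j) i
    rw [Pi.smul_apply, smul_eq_mul, Finset.sum_apply] at h1
    exact h1
  -- orders
  have hTs : (tq T : ℚ⟦X⟧) = X ^ k * (PowerSeries.C κ * (D1 : ℚ⟦X⟧)) := by
    rw [hT, hD1]
    simp only [Polynomial.coe_mul, Polynomial.coe_pow, Polynomial.coe_C, Polynomial.coe_X]
    ring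
  set Δ : ℚ := κ * D1.eval 0 with hΔ
  have hΔ0 : Δ ≠ 0 := mul_ne_zero hκ hD10
  have hcD : constantCoeff (PowerSeries.C κ * (D1 : ℚ⟦X⟧)) = Δ := by
    rw [map_mul, constantCoeff_C, Polynomial.constantCoeff_coe, Polynomial.coeff_zero_eq_eval_zero]
  have hfac : ∀ m j i, ∃ w : ℚ⟦X⟧, v m j i = X ^ m * w ∧ constantCoeff w = coeff m (v m j i) := by
    intro m j i
    obtain ⟨w, hw⟩ := X_pow_dvd_iff.2 (hv0 m j i)
    refine ⟨w, hw, ?_⟩
    rw [hw, coeff_X_pow_mul', if_pos le_rfl, Nat.sub_self, coeff_zero_eq_constantCoeff_apply]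
  set E : ℕ → ℕ := fun m => k * (2 * m) + m with hE
  have hL : ∀ m j i, ∃ w : ℚ⟦X⟧, (tq T : ℚ⟦X⟧) ^ (2 * m) * v m j i = X ^ E m * w ∧ constantCoeff w = Δ ^ (2 * m) * coeff m (v m j i) := by
    intro m j i
    obtain ⟨w, hw, hw0⟩ := hfac m j i
    refine ⟨(PowerSeries.C κ * (D1 : ℚ⟦X⟧)) ^ (2 * m) * w, ?_, ?_⟩
    · rw [hw, hTs, mul_pow, ← pow_mul, hE]
      simp only [pow_add]
      ring
    · rw [map_mul, map_pow, hcD, hw0]
  have hdet : constantCoeff (S 0 0 * S 1 1 - S 0 1 * S 1 0) ≠ 0 := by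
    rw [map_sub, map_mul, map_mul, hS.c0, hS.c0, hS.c0, hS.c0]
    simp
  have hRd : ∀ m j l, ∃ ρ : ℚ⟦X⟧, (Rm T A m j l : ℚ⟦X⟧) = X ^ E m * ρ := by
    intro m j l
    obtain ⟨w0, h0, -⟩ := hL m j 0
    obtain ⟨w1, h1, -⟩ := hL m j 1
    rw [hspec, Fin.sum_univ_two] at h0 h1
    set dS := S 0 0 * S 1 1 - S 0 1 * S 1 0 with hdS
    have hinv : dS * dS⁻¹ = 1 := PowerSeries.mul_inv_cancel _ hdet
    have e0 : (Rm T A m j 0 : ℚ⟦X⟧) = X ^ E m * ((S 1 1 * w0 - S 0 1 * w1) * dS⁻¹) := by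
      have : (Rm T A m j 0 : ℚ⟦X⟧) * dS = X ^ E m * (S 1 1 * w0 - S 0 1 * w1) := by
        rw [hdS]
        linear_combination (S 1 1) * h0 - (S 0 1) * h1
      calc (Rm T A m j 0 : ℚ⟦X⟧) = (Rm T A m j 0 : ℚ⟦X⟧) * dS * dS⁻¹ := by rw [mul_assoc, hinv, mul_one]
        _ = _ := by rw [this, mul_assoc]
    have e1 : (Rm T A m j 1 : ℚ⟦X⟧) = X ^ E m * ((S 0 0 * w1 - S 1 0 * w0) * dS⁻¹) := by
      have : (Rm T A m j 1 : ℚ⟦X⟧) * dS = X ^ E m * (S 0 0 * w1 - S 1 0 * w0) := by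
        rw [hdS]
        linear_combination (S 0 0) * h1 - (S 1 0) * h0
      calc (Rm T A m j 1 : ℚ⟦X⟧) = (Rm T A m j 1 : ℚ⟦X⟧) * dS * dS⁻¹ := by rw [mul_assoc, hinv, mul_one]
        _ = _ := by rw [this, mul_assoc]
    fin_cases l
    · exact ⟨_, e0⟩
    · exact ⟨_, e1⟩
  -- the key formula
  have hkey : ∀ m j i, Δ ^ (2 * m) * coeff m (v m j i) = (Rm T A m j i).coeff (E m) := by
    intro m j i
    obtain ⟨w, hw, hw0⟩ := hL m j i
    choose ρ hρ using fun l => hRd m j l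
    rw [hspec] at hw
    have h1 : X ^ E m * w = X ^ E m * ∑ l, ρ l * S i l := by
      rw [← hw, Finset.mul_sum]
      refine Finset.sum_congr rfl fun l _ => ?_
      rw [hρ]
      ring
    have h2 := mul_left_cancel₀ (pow_ne_zero _ X_ne_zero) h1
    have h3 : constantCoeff w = constantCoeff (ρ i) := by
      rw [h2, map_sum]
      simp only [map_mul, hS.c0]
      simp
    rw [← hw0, h3, ← Polynomial.coeff_coe, hρ, coeff_X_pow_mul', if_pos le_rfl, Nat.sub_self, coeff_zero_eq_constantCoeff_apply]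
  -- the inverse
  have hNN : ∀ i l, N i 0 * N 0 l + N i 1 * N 1 l = 0 := by
    intro i l
    have h1 := congrFun (congrFun hN i) l
    rwa [Matrix.mul_apply, Fin.sum_univ_two, Matrix.zero_apply] at h1
  have hform : ∀ m i j, coeff m (S i j) = (Δ ^ 2)⁻¹ ^ m * ((Rm T A m j i).coeff (E m) - 2 * hh m * ∑ l, N i l * (Rm T A m j l).coeff (E m)) := by
    intro m i j
    have h1 : ∀ l, (Rm T A m j l).coeff (E m) = (Δ ^ 2) ^ m * coeff m (v m j l) := fun l => by rw [← hkey, pow_mul]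
    have h2 : (Δ ^ 2)⁻¹ ^ m * (Δ ^ 2) ^ m = 1 := by
      rw [← mul_pow, inv_mul_cancel₀ (pow_ne_zero _ hΔ0), one_pow]
    simp only [h1]
    have h3 : (Δ ^ 2)⁻¹ ^ m * ((Δ ^ 2) ^ m * coeff m (v m j i) - 2 * hh m * ∑ l, N i l * ((Δ ^ 2) ^ m * coeff m (v m j l))) =
        ((Δ ^ 2)⁻¹ ^ m * (Δ ^ 2) ^ m) * (coeff m (v m j i) - 2 * hh m * ∑ l, N i l * coeff m (v m j l)) := by
      rw [Fin.sum_univ_two, Fin.sum_univ_two]
      ring
    rw [h3, h2, one_mul, Fin.sum_univ_two, hvm, hvm, hvm, Fin.sum_univ_two, Fin.sum_univ_two, Fin.sum_univ_two]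
    linear_combination (4 * hh m ^ 2 * coeff m (S 0 j)) * hNN i 0 + (4 * hh m ^ 2 * coeff m (S 1 j)) * hNN i 1
  -- the conclusion
  have hPP : ∀ i j, SDc (PowerSeries.mk fun m => (Rm T A m j i).coeff (E m)) := fun i j =>
    SDc_extract hM (fun K => by
      obtain ⟨g, h1, h2, h3⟩ := hM1 K
      exact ⟨g, h1, h2, fun m hm => h3 m hm j i⟩) (fun m l => hM2 m l j i) E
  have hfin : S i j = had (PowerSeries.mk fun m => ((Δ ^ 2)⁻¹) ^ m) ((PowerSeries.mk fun m => (Rm T A m j i).coeff (E m)) +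
      ∑ l, PowerSeries.C (-2 * N i l) * had (PowerSeries.mk hh) (PowerSeries.mk fun m => (Rm T A m j l).coeff (E m))) := by
    ext m
    rw [hform, had, coeff_mk, coeff_mk, map_add, map_sum, coeff_mk]
    congr 1
    rw [Finset.mul_sum, sub_eq_add_neg, ← Finset.sum_neg_distrib]
    congr 1
    refine Finset.sum_congr rfl fun l _ => ?_
    rw [coeff_C_mul, had, coeff_mk, coeff_mk, coeff_mk]
    ring
  rw [hfin]
  refine SDc_had (SDc_geo _) ((hPP i j).add (SDc_sum _ _ fun l _ => (SDc_const _).mul (SDc_had SDc_hh (hPP l j))))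

end Pool.Agent.Y124.GE
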