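import Pool.Agent.Y124.GE.Star

/-!
# More G-function series: harmonic numbers, binomial matrices
-/

set_option autoImplicit false

namespace Pool.Agent.Y124.GE

open PowerSeries Finset Pool.Agent.Y113 Pool.Agent.Y113.HGG Pool.Agent.Y655.HG

/-- an easy criterion -/
lemma SDc_of {f : ℚ⟦X⟧} {M : ℝ} (hM : 1 ≤ M) (h : ∀ m, |((coeff m f : ℚ) : ℝ)| ≤ M ^ (m + 1))
    (h' : ∀ m, ∃ d : ℕ, 0 < d ∧ (d : ℝ) ≤ M ^ (m + 1) ∧ ∀ j ≤ m, ∃ a : ℤ, (d : ℚ) * coeff j f = a) : SDc f := by
  obtain ⟨k, hk⟩ := pow_unbounded_of_one_lt M (show (1 : ℝ) < 2 by norm_num)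
  exact ⟨k, SDp.mono ⟨h, h'⟩ hk.le⟩

lemma SDc_data {f : ℚ⟦X⟧} (h : SDc f) : ∃ M : ℝ, 1 ≤ M ∧ (∀ m, |((coeff m f : ℚ) : ℝ)| ≤ M ^ (m + 1)) ∧
    ∀ m, ∃ d : ℕ, 0 < d ∧ (d : ℝ) ≤ M ^ (m + 1) ∧ ∀ j ≤ m, ∃ a : ℤ, (d : ℚ) * coeff j f = a := by
  obtain ⟨k, hk⟩ := h
  exact ⟨2 ^ k, one_le_pow₀ (by norm_num), hk.1, hk.2⟩

/-- Hadamard product -/
noncomputable def had (f g : ℚ⟦X⟧) : ℚ⟦X⟧ := PowerSeries.mk fun m => coeff m f * coeff m g

lemma SDc_had {f g : ℚ⟦X⟧} (h : SDc f) (h' : SDc g) : SDc (had f g) := by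
  obtain ⟨M, hM, h1, h2⟩ := SDc_data h
  obtain ⟨M', hM', h1', h2'⟩ := SDc_data h'
  refine SDc_of (one_le_mul_of_one_le_of_one_le hM hM') (fun m => ?_) fun m => ?_
  · rw [had, coeff_mk]
    push_cast
    rw [abs_mul, mul_pow]
    exact mul_le_mul (h1 m) (h1' m) (abs_nonneg _) (by positivity)
  · obtain ⟨d, hd0, hd, hd'⟩ := h2 m
    obtain ⟨e, he0, he, he'⟩ := h2' m
    refine ⟨d * e, Nat.mul_pos hd0 he0, ?_, fun j hj => ?_⟩
    · push_cast
      rw [mul_pow]
      exact mul_le_mul hd he (by positivity) (by positivity)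
    · obtain ⟨a, ha⟩ := hd' j hj
      obtain ⟨b, hb⟩ := he' j hj
      refine ⟨a * b, ?_⟩
      rw [had, coeff_mk]
      push_cast
      rw [← ha, ← hb]
      ring

lemma SDc_sum {ι : Type*} (s : Finset ι) (F : ι → ℚ⟦X⟧) (h : ∀ i ∈ s, SDc (F i)) : SDc (∑ i ∈ s, F i) := by
  classical
  induction s using Finset.induction_on with
  | empty =>
    rw [sum_empty]
    have := SDc_const 0
    rwa [map_zero] at this
  | insert a s ha ih =>
    rw [sum_insert ha]
    exact (h a (mem_insert_self _ _)).add (ih fun i hi => h i (mem_insert_of_mem hi))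

lemma SDc_geo (r : ℚ) : SDc (PowerSeries.mk fun m => r ^ m) := by
  have hd : (1 : ℝ) ≤ r.den := by exact_mod_cast r.pos
  have hM : 1 ≤ (1 + |(r : ℝ)|) * r.den := one_le_mul_of_one_le_of_one_le (by linarith [abs_nonneg (r : ℝ)]) hd
  refine SDc_of hM (fun m => ?_) fun m => ⟨r.den ^ m, by have := r.pos; positivity, ?_, fun j hj => ?_⟩
  · rw [coeff_mk]
    push_cast
    rw [abs_pow]
    calc |(r : ℝ)| ^ m ≤ (1 + |(r : ℝ)|) ^ m := pow_le_pow_left₀ (abs_nonneg _) (by linarith) _
      _ ≤ (1 + |(r : ℝ)|) ^ (m + 1) := pow_le_pow_right₀ (by linarith [abs_nonneg (r : ℝ)]) (by omega)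
      _ ≤ ((1 + |(r : ℝ)|) * r.den) ^ (m + 1) := pow_le_pow_left₀ (by positivity) (le_mul_of_one_le_right (by positivity) hd) _
  · push_cast
    calc (r.den : ℝ) ^ m ≤ (r.den : ℝ) ^ (m + 1) := pow_le_pow_right₀ hd (by omega)
      _ ≤ _ := pow_le_pow_left₀ (by positivity) (le_mul_of_one_le_left (by positivity) (by linarith [abs_nonneg (r : ℝ)])) _
  · refine ⟨(r.den : ℤ) ^ (m - j) * r.num ^ j, ?_⟩
    rw [coeff_mk]
    have h1 : (r.num : ℚ) = r.den * r := by rw [mul_comm]; exact (Rat.mul_den_eq_num r).symm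
    have e1 : (r.den : ℚ) ^ m = (r.den : ℚ) ^ (m - j) * (r.den : ℚ) ^ j := by
      rw [← pow_add]
      congr 1
      omega
    push_cast
    rw [h1, mul_pow, e1]
    ring

/-- the logarithmic series -/
noncomputable def lgs : ℚ⟦X⟧ := PowerSeries.mk fun n => if n = 0 then 0 else 1 / (n : ℚ)

lemma SDc_lgs : SDc lgs := by
  refine SDc_of (M := 2 ^ 8) (one_le_pow₀ (by norm_num)) (fun m => ?_) fun m => ⟨Nat.lcmUpto m, Nat.lcmUpto_pos m, ?_, fun j hj => ?_⟩
  · rw [lgs, coeff_mk]
    split_ifs with h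
    · simp only [Rat.cast_zero, abs_zero]
      positivity
    · have hm : (1 : ℝ) ≤ m := by exact_mod_cast Nat.one_le_iff_ne_zero.2 h
      push_cast
      rw [abs_of_nonneg (by positivity)]
      calc 1 / (m : ℝ) ≤ 1 := by rw [div_le_one (by positivity)]; exact hm
        _ ≤ _ := one_le_pow₀ (one_le_pow₀ (by norm_num))
  · exact (lcm_bound m).trans (pow_le_pow_right₀ (one_le_pow₀ (by norm_num)) (by omega))
  · rw [lgs, coeff_mk]
    split_ifs with h
    · exact ⟨0, by simp⟩
    · have h1 : j ∣ Nat.lcmUpto m := Finset.dvd_lcm (Finset.mem_Icc.2 ⟨Nat.pos_of_ne_zero h, hj⟩)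
      obtain ⟨c, hc⟩ := h1
      refine ⟨c, ?_⟩
      rw [hc]
      have : (j : ℚ) ≠ 0 := by exact_mod_cast h
      push_cast
      field_simp

lemma SDc_hh : SDc (PowerSeries.mk hh) := by
  have h1 : PowerSeries.mk hh = lgs * PowerSeries.mk fun m => (1 : ℚ) ^ m := by
    ext m
    rw [coeff_mk, coeff_mul, Finset.Nat.sum_antidiagonal_eq_sum_range_succ (fun i j => coeff i lgs * coeff j (PowerSeries.mk fun m => (1 : ℚ) ^ m))]
    simp only [lgs, coeff_mk, one_pow, mul_one]
    induction m with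
    | zero =>
      simp [hh, bp]
    | succ m ih =>
      rw [hh_succ, ih, Finset.sum_range_succ _ (m + 1), if_neg (Nat.succ_ne_zero m)]
      push_cast
      rfl
  rw [h1]
  exact SDc_lgs.mul (SDc_geo 1)

lemma SDc_bp (r : ℚ) : SDc (PowerSeries.mk fun m => (bp m).eval r) := by
  have hd0 : (r.den : ℚ) ≠ 0 := by exact_mod_cast r.pos.ne'
  have h1 : (PowerSeries.mk fun m => (bp m).eval r) = had (PowerSeries.mk fun m => (-1 : ℚ) ^ m) (R (-r.num) r.den) := by
    ext m
    rw [had, coeff_mk, coeff_mk, coeff_mk]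
    induction m with
    | zero => simp [bp, R_zero]
    | succ m ih =>
      have h2 := congrArg (Polynomial.eval r) (bp_succ m)
      simp only [Polynomial.eval_mul, Polynomial.eval_C, Polynomial.eval_sub, Polynomial.eval_X, ih] at h2
      have hm : ((m : ℚ) + 1) ≠ 0 := by positivity
      apply mul_left_cancel₀ hm
      rw [h2, R_succ]
      have h3 : (r.num : ℚ) = r.den * r := by rw [mul_comm]; exact (Rat.mul_den_eq_num r).symm
      push_cast
      rw [h3, pow_succ]
      field_simp
      ring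
  rw [h1]
  exact SDc_had (SDc_geo (-1)) (NIc_R _ _ r.pos).SDc

lemma dbp_zero (j : ℕ) : (Polynomial.derivative (bp j)).eval 0 = if j = 0 then 0 else (-1) ^ (j + 1) / (j : ℚ) := by
  induction j with
  | zero => simp [bp]
  | succ j ih =>
    have h2 := congrArg (fun P => (Polynomial.derivative P).eval 0) (bp_succ j)
    simp only [Polynomial.derivative_mul, Polynomial.derivative_sub, Polynomial.derivative_X, Polynomial.derivative_C,
      Polynomial.eval_add, Polynomial.eval_mul, Polynomial.eval_sub, Polynomial.eval_X, Polynomial.eval_C, sub_zero,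
      zero_mul, zero_add, Polynomial.eval_one, one_mul] at h2
    have hm : ((j : ℚ) + 1) ≠ 0 := by positivity
    apply mul_left_cancel₀ hm
    rw [h2, ih, if_neg (Nat.succ_ne_zero j)]
    have h3 := bp_eval j 0
    push_cast at h3
    rw [h3]
    rcases Nat.eq_zero_or_pos j with rfl | hj
    · simp
    · rw [if_neg hj.ne', Nat.choose_eq_zero_of_lt hj]
      have : (j : ℚ) ≠ 0 := by exact_mod_cast hj.ne'
      push_cast
      field_simp
      ring

lemma dbp_eval (r : ℚ) (m : ℕ) : (Polynomial.derivative (bp m)).eval r =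
    ∑ p ∈ HasAntidiagonal.antidiagonal m, (bp p.1).eval r * (Polynomial.derivative (bp p.2)).eval 0 := by
  have h1 := vander (R := Polynomial ℚ) (x := Polynomial.C r) (y := Polynomial.X) (Commute.all _ _) m
  have hC : ∀ p : Polynomial ℚ, Polynomial.aeval (Polynomial.C r) p = Polynomial.C (p.eval r) := fun p => by
    have := Polynomial.aeval_algebraMap_apply (Polynomial ℚ) r p
    simpa using this
  have hX : ∀ p : Polynomial ℚ, Polynomial.aeval (Polynomial.X : Polynomial ℚ) p = p := fun p => Polynomial.aeval_X_left_apply p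
  have hCX : Polynomial.aeval (Polynomial.C r + Polynomial.X) (bp m) = (bp m).comp (Polynomial.C r + Polynomial.X) :=
    (Polynomial.comp_eq_aeval).symm
  rw [hCX] at h1
  simp only [hC, hX] at h1
  have h2 := congrArg (fun P => (Polynomial.derivative P).eval 0) h1
  simp only [Polynomial.derivative_comp, Polynomial.derivative_add, Polynomial.derivative_X, Polynomial.derivative_C,
    Polynomial.eval_mul, Polynomial.eval_comp, Polynomial.eval_add, Polynomial.eval_X, Polynomial.eval_C, add_zero, zero_add,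
    Polynomial.eval_one, one_mul, Polynomial.derivative_sum, Polynomial.eval_finsetSum, Polynomial.derivative_C_mul] at h2
  exact h2

lemma SDc_dbp (r : ℚ) : SDc (PowerSeries.mk fun m => (Polynomial.derivative (bp m)).eval r) := by
  have h1 : (PowerSeries.mk fun m => (Polynomial.derivative (bp m)).eval r) = (PowerSeries.mk fun m => (bp m).eval r) *
      (PowerSeries.C (-1) * had lgs (PowerSeries.mk fun m => (-1 : ℚ) ^ m)) := by
    ext m
    rw [coeff_mk, coeff_mul, dbp_eval]
    refine Finset.sum_congr rfl fun p _ => ?_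
    rw [coeff_mk, coeff_C_mul, had, coeff_mk, lgs, coeff_mk, coeff_mk, dbp_zero]
    congr 1
    split_ifs
    · simp
    · rw [pow_succ]
      ring
  rw [h1]
  exact (SDc_bp r).mul ((SDc_const _).mul (SDc_had SDc_lgs (SDc_geo _)))

/-! ## polynomials in a matrix which is diagonal plus nilpotent -/

/-- `diag r - N` -/
def cN (r : Fin 2 → ℚ) (N : Matrix (Fin 2) (Fin 2) ℚ) : Matrix (Fin 2) (Fin 2) ℚ := Matrix.diagonal r - N

lemma aeval_cN {r : Fin 2 → ℚ} {N : Matrix (Fin 2) (Fin 2) ℚ} (hN : N * N = 0) (hr : ∀ i k, N i k ≠ 0 → r i = r k)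
    (p : Polynomial ℚ) : Polynomial.aeval (cN r N) p = Matrix.diagonal (fun i => p.eval (r i)) -
      Matrix.diagonal (fun i => (Polynomial.derivative p).eval (r i)) * N := by
  have hc : ∀ f : ℚ → ℚ, N * Matrix.diagonal (fun i => f (r i)) = Matrix.diagonal (fun i => f (r i)) * N := by
    intro f
    ext i k
    rw [Matrix.mul_diagonal, Matrix.diagonal_mul]
    by_cases h : N i k = 0
    · rw [h]; ring
    · rw [hr i k h]; ring
  have hd : ∀ f g : ℚ → ℚ, Matrix.diagonal (fun i => f (r i)) * Matrix.diagonal (fun i => g (r i)) =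
      Matrix.diagonal (fun i => f (r i) * g (r i)) := fun f g => Matrix.diagonal_mul_diagonal _ _
  induction p using Polynomial.induction_on' with
  | add p q hp hq =>
    rw [map_add, hp, hq]
    ext i k
    simp only [Matrix.add_apply, Matrix.sub_apply, Matrix.diagonal_mul, Matrix.diagonal_apply, Polynomial.derivative_add,
      Polynomial.eval_add]
    split_ifs <;> ring
  | monomial n a =>
    induction n generalizing a with
    | zero =>
      rw [Polynomial.aeval_monomial, pow_zero, mul_one]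
      ext i k
      simp only [Matrix.algebraMap_matrix_apply, Matrix.sub_apply, Matrix.diagonal_mul, Matrix.diagonal_apply,
        Polynomial.monomial_zero_left, Polynomial.derivative_C, Polynomial.eval_C, Polynomial.eval_zero, zero_mul, sub_zero]
      simp
    | succ n ih =>
      have h1 : Polynomial.monomial (n + 1) a = Polynomial.monomial n a * Polynomial.X := by
        rw [Polynomial.monomial_mul_X]
      rw [h1, map_mul, Polynomial.aeval_X, ih a, cN]
      set P := Polynomial.monomial n a with hP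
      have e1 : (fun i => (P * Polynomial.X).eval (r i)) = fun i => P.eval (r i) * r i := by
        funext i
        simp
      have e2 : (fun i => (Polynomial.derivative (P * Polynomial.X)).eval (r i)) =
          fun i => (Polynomial.derivative P).eval (r i) * r i + P.eval (r i) := by
        funext i
        simp
      rw [e1, e2]
      have e3 : N * Matrix.diagonal r = Matrix.diagonal r * N := hc id
      have e4 : Matrix.diagonal (fun i => (Polynomial.derivative P).eval (r i) * r i + P.eval (r i)) =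
          Matrix.diagonal (fun i => (Polynomial.derivative P).eval (r i)) * Matrix.diagonal r +
            Matrix.diagonal (fun i => P.eval (r i)) := by
        rw [Matrix.diagonal_mul_diagonal, Matrix.diagonal_add]
      have e5 : Matrix.diagonal (fun i => P.eval (r i) * r i) = Matrix.diagonal (fun i => P.eval (r i)) * Matrix.diagonal r := by
        rw [Matrix.diagonal_mul_diagonal]
      rw [e4, e5]
      set D0 := Matrix.diagonal (fun i => P.eval (r i)) with hD0
      set D1 := Matrix.diagonal (fun i => (Polynomial.derivative P).eval (r i)) with hD1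
      have e6 : D1 * N * N = 0 := by rw [mul_assoc, hN, mul_zero]
      calc (D0 - D1 * N) * (Matrix.diagonal r - N) = D0 * Matrix.diagonal r - D0 * N - D1 * (N * Matrix.diagonal r) + D1 * N * N := by
            noncomm_ring
        _ = _ := by
            rw [e3, e6]
            noncomm_ring

/-- the series of the entries -/
noncomputable def EE (c : Matrix (Fin 2) (Fin 2) ℚ) (i k : Fin 2) : ℚ⟦X⟧ :=
  PowerSeries.mk fun m => (Polynomial.aeval c (bp m)) i k

lemma SDc_EE {r : Fin 2 → ℚ} {N : Matrix (Fin 2) (Fin 2) ℚ} (hN : N * N = 0) (hr : ∀ i k, N i k ≠ 0 → r i = r k)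
    (i k : Fin 2) : SDc (EE (cN r N) i k) := by
  have h1 : EE (cN r N) i k = (if i = k then (PowerSeries.mk fun m => (bp m).eval (r i)) else 0) +
      PowerSeries.C (- N i k) * (PowerSeries.mk fun m => (Polynomial.derivative (bp m)).eval (r i)) := by
    ext m
    rw [EE, coeff_mk, aeval_cN hN hr, map_add, coeff_C_mul, coeff_mk, Matrix.sub_apply, Matrix.diagonal_mul, Matrix.diagonal_apply]
    split_ifs
    · rw [coeff_mk]; ring
    · rw [map_zero]; ring
  rw [h1]
  refine SDc.add ?_ ((SDc_const _).mul (SDc_dbp _))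
  split_ifs
  · exact SDc_bp _
  · have := SDc_const 0
    rwa [map_zero] at this

/-- extraction of coefficients of polynomials -/
lemma SDc_extract {P : ℕ → Polynomial ℚ} {M : ℝ} (hM : 1 ≤ M) (h : ∀ K, ∃ g : ℕ, 0 < g ∧ (g : ℝ) ≤ M ^ (K + 1) ∧ ∀ m ≤ K, IP g (P m))
    (h' : ∀ m l, |(((P m).coeff l : ℚ) : ℝ)| ≤ M ^ (m + 1)) (e : ℕ → ℕ) : SDc (PowerSeries.mk fun m => (P m).coeff (e m)) := by
  refine SDc_of hM (fun m => ?_) fun m => ?_
  · rw [coeff_mk]
    exact h' m _
  · obtain ⟨g, hg0, hg, hg'⟩ := h m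
    refine ⟨g, hg0, hg, fun j hj => ?_⟩
    obtain ⟨Q, hQ⟩ := hg' j hj
    refine ⟨Q.coeff (e j), ?_⟩
    have := congrArg (fun R : Polynomial ℚ => R.coeff (e j)) hQ
    simp only [Polynomial.coeff_map, Polynomial.coeff_C_mul] at this
    rw [coeff_mk, ← this]
    rfl

end Pool.Agent.Y124.GE
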