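import Pool.Agent.Y124.GE.Good

/-!
# Twisted Galochkin formulas
-/

set_option autoImplicit false

namespace Pool.Agent.Y124.GE

open PowerSeries Finset Pool.Agent.Y113 Pool.Agent.Y113.HGG Pool.Agent.Y655.HG

/-! ## binomial polynomials -/

/-- the binomial polynomials -/
noncomputable def bp : ℕ → Polynomial ℚ
  | 0 => 1
  | s + 1 => Polynomial.C (1 / ((s : ℚ) + 1)) * ((Polynomial.X - Polynomial.C (s : ℚ)) * bp s)

lemma bp_succ (s : ℕ) : Polynomial.C ((s : ℚ) + 1) * bp (s + 1) = (Polynomial.X - Polynomial.C (s : ℚ)) * bp s := by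
  rw [bp, ← mul_assoc, ← Polynomial.C_mul]
  have : ((s : ℚ) + 1) ≠ 0 := by positivity
  rw [mul_one_div_cancel this, Polynomial.C_1, one_mul]

lemma bp_eval (s n : ℕ) : (bp s).eval (n : ℚ) = (n.choose s : ℚ) := by
  induction s with
  | zero => simp [bp]
  | succ s ih =>
    have h1 := congrArg (Polynomial.eval (n : ℚ)) (bp_succ s)
    simp only [Polynomial.eval_mul, Polynomial.eval_C, Polynomial.eval_sub, Polynomial.eval_X, ih] at h1
    have hs : ((s : ℚ) + 1) ≠ 0 := by positivity
    apply mul_left_cancel₀ hs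
    rw [h1]
    rcases Nat.lt_or_ge n s with h | h
    · rw [Nat.choose_eq_zero_of_lt h, Nat.choose_eq_zero_of_lt (by omega)]
      simp
    · have h2 := Nat.choose_succ_right_eq n s
      have h3 : ((n.choose (s + 1) * (s + 1) : ℕ) : ℚ) = ((n.choose s * (n - s) : ℕ) : ℚ) := by exact_mod_cast h2
      push_cast at h3
      rw [Nat.cast_sub h] at h3
      linear_combination -h3

lemma choose_sq (n m : ℕ) : n.choose m * n.choose m =
    ∑ j ∈ range (m + 1), (m.choose j * (m + j).choose m) * n.choose (m + j) := by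
  rcases Nat.lt_or_ge n m with h | h
  · rw [Nat.choose_eq_zero_of_lt h, zero_mul]
    symm
    refine Finset.sum_eq_zero fun j _ => ?_
    rw [Nat.choose_eq_zero_of_lt (by omega : n < m + j), mul_zero]
  · have h1 : ∀ j, (m.choose j * (m + j).choose m) * n.choose (m + j) = n.choose m * (m.choose j * (n - m).choose j) := by
      intro j
      rcases Nat.lt_or_ge n (m + j) with h2 | h2
      · rw [Nat.choose_eq_zero_of_lt h2, Nat.choose_eq_zero_of_lt (by omega : n - m < j)]
        ring
      · have h3 := Nat.choose_mul (n := n) (k := m + j) (s := m) (by omega)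
        rw [Nat.add_sub_cancel_left] at h3
        calc (m.choose j * (m + j).choose m) * n.choose (m + j) = m.choose j * (n.choose (m + j) * (m + j).choose m) := by ring
          _ = m.choose j * (n.choose m * (n - m).choose j) := by rw [h3]
          _ = _ := by ring
    simp only [h1]
    rw [← Finset.mul_sum]
    congr 1
    have h4 := Nat.add_choose_eq m (n - m) m
    rw [Nat.add_sub_cancel' h] at h4
    rw [h4, Finset.Nat.sum_antidiagonal_eq_sum_range_succ (fun i j => m.choose i * (n - m).choose j)]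
    rw [← Finset.sum_range_reflect]
    refine Finset.sum_congr rfl fun j hj => ?_
    rw [Finset.mem_range] at hj
    have e1 : m + 1 - 1 - j = m - j := by omega
    have e2 : m - (m - j) = j := by omega
    rw [e1, Nat.choose_symm (by omega), e2]

lemma bp_sq (m : ℕ) : bp m ^ 2 = ∑ j ∈ range (m + 1), Polynomial.C ((m.choose j * (m + j).choose m : ℕ) : ℚ) * bp (m + j) := by
  apply Polynomial.eq_of_infinite_eval_eq
  refine Set.infinite_of_injective_forall_mem (f := fun n : ℕ => (n : ℚ)) Nat.cast_injective fun n => ?_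
  simp only [Set.mem_ofPred_eq]
  rw [Polynomial.eval_pow, Polynomial.eval_finsetSum, bp_eval]
  simp only [Polynomial.eval_mul, Polynomial.eval_C, bp_eval]
  have h1 := choose_sq n m
  rw [sq]
  exact_mod_cast h1

/-- derivatives of the binomial polynomials -/
noncomputable def hh (m : ℕ) : ℚ := (Polynomial.derivative (bp m)).eval (m : ℚ)

lemma bp_pascal (s : ℕ) : (bp (s + 1)).comp (Polynomial.X + Polynomial.C 1) = bp (s + 1) + bp s := by
  apply Polynomial.eq_of_infinite_eval_eq
  refine Set.infinite_of_injective_forall_mem (f := fun n : ℕ => (n : ℚ)) Nat.cast_injective fun n => ?_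
  simp only [Set.mem_ofPred_eq]
  rw [Polynomial.eval_comp, Polynomial.eval_add, Polynomial.eval_add, Polynomial.eval_X, Polynomial.eval_C, bp_eval, bp_eval]
  have h1 : ((n : ℚ) + 1) = ((n + 1 : ℕ) : ℚ) := by push_cast; rfl
  rw [h1, bp_eval, Nat.choose_succ_succ]
  push_cast
  ring

lemma hh_succ (m : ℕ) : hh (m + 1) = hh m + 1 / ((m : ℚ) + 1) := by
  have h1 := congrArg (fun P => (Polynomial.derivative P).eval (m : ℚ)) (bp_pascal m)
  simp only [Polynomial.derivative_comp, Polynomial.derivative_add, Polynomial.derivative_X, Polynomial.derivative_C,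
    add_zero, one_mul, Polynomial.eval_add, Polynomial.eval_comp, Polynomial.eval_X, Polynomial.eval_C] at h1
  have h2 := congrArg (fun P => (Polynomial.derivative P).eval (m : ℚ)) (bp_succ m)
  simp only [Polynomial.derivative_mul, Polynomial.derivative_sub, Polynomial.derivative_X, Polynomial.derivative_C,
    Polynomial.eval_add, Polynomial.eval_mul, Polynomial.eval_sub, Polynomial.eval_X, Polynomial.eval_C, sub_zero, one_mul,
    zero_mul, zero_add, sub_self, add_zero, bp_eval, Nat.choose_self, Nat.cast_one] at h2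
  have hm : ((m : ℚ) + 1) ≠ 0 := by positivity
  have h3 : (Polynomial.derivative (bp (m + 1))).eval (m : ℚ) = 1 / ((m : ℚ) + 1) := by
    field_simp
    linear_combination h2
  unfold hh
  rw [h3] at h1
  push_cast
  rw [h1]
  ring

lemma commute_aeval {R : Type*} [Ring R] [Algebra ℚ R] {x y : R} (h : Commute x y) (p : Polynomial ℚ) :
    Commute y (Polynomial.aeval x p) := by
  induction p using Polynomial.induction_on' with
  | add p q hp hq => rw [map_add]; exact hp.add_right hq
  | monomial n a =>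
    rw [Polynomial.aeval_monomial]
    exact (Algebra.commute_algebraMap_right a y).mul_right (h.symm.pow_right n)

/-- Vandermonde's identity -/
theorem vander {R : Type*} [Ring R] [Algebra ℚ R] {x y : R} (h : Commute x y) (s : ℕ) :
    Polynomial.aeval (x + y) (bp s) = ∑ p ∈ HasAntidiagonal.antidiagonal s, Polynomial.aeval x (bp p.1) * Polynomial.aeval y (bp p.2) := by
  have hrec : ∀ (z : R) (s : ℕ), ((s : R) + 1) * Polynomial.aeval z (bp (s + 1)) = (z - s) * Polynomial.aeval z (bp s) := by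
    intro z s
    have h1 := congrArg (Polynomial.aeval z) (bp_succ s)
    simp only [map_mul, map_sub, Polynomial.aeval_X, map_add, map_natCast, map_one] at h1
    exact h1
  induction s with
  | zero => simp [bp]
  | succ s ih =>
    have hu : IsUnit (((s : R) + 1)) := by
      have : ((s : R) + 1) = algebraMap ℚ R ((s : ℚ) + 1) := by simp
      rw [this]
      exact (IsUnit.mk0 ((s : ℚ) + 1) (by positivity)).map (algebraMap ℚ R)
    apply hu.mul_left_cancel
    rw [hrec, ih]
    have e1 : (∑ p ∈ HasAntidiagonal.antidiagonal (s + 1), (p.1 : R) * (Polynomial.aeval x (bp p.1) * Polynomial.aeval y (bp p.2))) =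
        ∑ p ∈ HasAntidiagonal.antidiagonal s, ((p.1 : R) + 1) * (Polynomial.aeval x (bp (p.1 + 1)) * Polynomial.aeval y (bp p.2)) := by
      rw [Finset.Nat.sum_antidiagonal_succ]
      simp
    have e2 : (∑ p ∈ HasAntidiagonal.antidiagonal (s + 1), (p.2 : R) * (Polynomial.aeval x (bp p.1) * Polynomial.aeval y (bp p.2))) =
        ∑ p ∈ HasAntidiagonal.antidiagonal s, ((p.2 : R) + 1) * (Polynomial.aeval x (bp p.1) * Polynomial.aeval y (bp (p.2 + 1))) := by
      rw [Finset.Nat.sum_antidiagonal_succ']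
      simp
    have e3 : ((s : R) + 1) * ∑ p ∈ HasAntidiagonal.antidiagonal (s + 1), Polynomial.aeval x (bp p.1) * Polynomial.aeval y (bp p.2) =
        (∑ p ∈ HasAntidiagonal.antidiagonal (s + 1), (p.1 : R) * (Polynomial.aeval x (bp p.1) * Polynomial.aeval y (bp p.2))) +
        ∑ p ∈ HasAntidiagonal.antidiagonal (s + 1), (p.2 : R) * (Polynomial.aeval x (bp p.1) * Polynomial.aeval y (bp p.2)) := by
      rw [Finset.mul_sum, ← Finset.sum_add_distrib]
      refine Finset.sum_congr rfl fun p hp => ?_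
      rw [Finset.HasAntidiagonal.mem_antidiagonal] at hp
      rw [← add_mul]
      congr 1
      exact_mod_cast congrArg (fun n : ℕ => (n : R)) hp.symm
    rw [e3, e1, e2, ← Finset.sum_add_distrib, Finset.mul_sum]
    refine Finset.sum_congr rfl fun p hp => ?_
    rw [Finset.HasAntidiagonal.mem_antidiagonal] at hp
    have h1 := hrec x p.1
    have h2 := hrec y p.2
    have h3 : (x + y - (s : R)) = (x - (p.1 : R)) + (y - (p.2 : R)) := by
      rw [← hp]
      push_cast
      abel
    have h4 : Commute (y - (p.2 : R)) (Polynomial.aeval x (bp p.1)) :=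
      (commute_aeval h _).sub_left ((Nat.cast_commute _ _))
    have h5 : Commute ((p.2 : R) + 1) (Polynomial.aeval x (bp p.1)) := by
      have := Nat.cast_commute (p.2 + 1) (Polynomial.aeval x (bp p.1))
      push_cast at this
      exact this
    rw [h3, add_mul, ← mul_assoc, ← h1, ← mul_assoc, h4.eq, mul_assoc (Polynomial.aeval x (bp p.1)), ← h2,
      ← mul_assoc (Polynomial.aeval x (bp p.1)), ← h5.eq, mul_assoc, mul_assoc]

/-! ## the twisted derivation -/

/-- vectors of power series -/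
abbrev VV := Fin 2 → ℚ⟦X⟧

/-- `θ - c` -/
noncomputable def Dc (c : Matrix (Fin 2) (Fin 2) ℚ) : VV →ₗ[ℚ] VV where
  toFun v i := X * d⁄dX ℚ (v i) - ∑ k, PowerSeries.C (c i k) * v k
  map_add' v w := by
    funext i
    simp only [Pi.add_apply, map_add, mul_add, Finset.sum_add_distrib]
    ring
  map_smul' r v := by
    funext i
    have h1 : d⁄dX ℚ (r • v i) = r • d⁄dX ℚ (v i) := Derivation.map_smul _ _ _
    simp only [Pi.smul_apply, RingHom.id_apply, smul_sub, Finset.smul_sum, mul_smul_comm, h1]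

lemma Dc_apply (c : Matrix (Fin 2) (Fin 2) ℚ) (v : VV) (i : Fin 2) :
    Dc c v i = X * d⁄dX ℚ (v i) - ∑ k, PowerSeries.C (c i k) * v k := rfl

lemma Dc_smul (c : Matrix (Fin 2) (Fin 2) ℚ) (f : ℚ⟦X⟧) (v : VV) :
    Dc c (f • v) = (X * d⁄dX ℚ f) • v + f • Dc c v := by
  funext i
  simp only [Dc_apply, Pi.smul_apply, Pi.add_apply, smul_eq_mul, Derivation.leibniz, mul_sub, Finset.mul_sum]
  have : ∀ k, PowerSeries.C (c i k) * (f * v k) = f * (PowerSeries.C (c i k) * v k) := fun k => by ring
  simp only [this]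
  ring

/-- `binom(θ - c, s) v` -/
noncomputable def ap (c : Matrix (Fin 2) (Fin 2) ℚ) (s : ℕ) (v : VV) : VV := Polynomial.aeval (Dc c) (bp s) v

lemma ap_zero (c : Matrix (Fin 2) (Fin 2) ℚ) (v : VV) : ap c 0 v = v := by
  simp [ap, bp]

lemma ap_succ (c : Matrix (Fin 2) (Fin 2) ℚ) (s : ℕ) (v : VV) :
    ((s : ℚ) + 1) • ap c (s + 1) v = Dc c (ap c s v) - (s : ℚ) • ap c s v := by
  have h1 := congrArg (fun P => Polynomial.aeval (Dc c) P v) (bp_succ s)
  simp only [map_mul, map_sub, Polynomial.aeval_X, map_add, map_natCast, map_one, Module.End.mul_apply, LinearMap.sub_apply,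
    LinearMap.add_apply, Module.End.one_apply, Module.End.natCast_apply] at h1
  unfold ap
  rw [add_smul, one_smul, Nat.cast_smul_eq_nsmul, Nat.cast_smul_eq_nsmul]
  exact h1

lemma rat_smul (r : ℚ) (v : VV) : r • v = (PowerSeries.C r : ℚ⟦X⟧) • v := by
  funext i
  simp only [Pi.smul_apply, smul_eq_mul, PowerSeries.smul_eq_C_mul]

theorem star {n : ℕ} {T : Polynomial ℤ} {A : Fin n → Fin n → Polynomial ℤ} {c : Matrix (Fin 2) (Fin 2) ℚ} {y : Fin n → VV}
    (hy : ∀ j, (tq T : ℚ⟦X⟧) • Dc c (y j) = ∑ k, ((X : ℚ⟦X⟧) * (aq A j k : ℚ⟦X⟧)) • y k) (s : ℕ) (j : Fin n) :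
    (tq T : ℚ⟦X⟧) ^ s • ap c s (y j) = ∑ k, (X ^ s * (ah T A s j k : ℚ⟦X⟧)) • y k := by
  induction s with
  | zero =>
    rw [pow_zero, one_smul, ap_zero, Finset.sum_eq_single j]
    · rw [ah_zero, if_pos rfl, pow_zero, Polynomial.coe_one, one_mul, one_smul]
    · intro k _ hk
      rw [ah_zero, if_neg (Ne.symm hk), Polynomial.coe_zero, mul_zero, zero_smul]
    · intro h
      exact absurd (Finset.mem_univ _) h
  | succ s ih =>
    have hs : ((s : ℚ) + 1) ≠ 0 := by positivity
    set t : ℚ⟦X⟧ := (tq T : ℚ⟦X⟧) with ht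
    -- apply the derivation to the induction hypothesis
    have h1 := congrArg (fun v => t • Dc c v) ih
    beta_reduce at h1
    rw [Dc_smul, map_sum, smul_add, Finset.smul_sum] at h1
    simp only [Dc_smul, smul_add] at h1
    rw [Finset.sum_add_distrib] at h1
    have h2 : ∑ k, t • (X ^ s * (ah T A s j k : ℚ⟦X⟧)) • Dc c (y k) =
        ∑ l, (X ^ (s + 1) * ∑ k, (aq A k l : ℚ⟦X⟧) * (ah T A s j k : ℚ⟦X⟧)) • y l := by
      have e1 : ∀ k, t • (X ^ s * (ah T A s j k : ℚ⟦X⟧)) • Dc c (y k) =
          ∑ l, (X ^ (s + 1) * ((aq A k l : ℚ⟦X⟧) * (ah T A s j k : ℚ⟦X⟧))) • y l := by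
        intro k
        rw [smul_comm, hy k, Finset.smul_sum]
        refine Finset.sum_congr rfl fun l _ => ?_
        rw [smul_smul]
        congr 1
        ring
      simp only [e1]
      rw [Finset.sum_comm]
      refine Finset.sum_congr rfl fun l _ => ?_
      rw [← Finset.sum_smul, Finset.mul_sum]
    rw [h2] at h1
    -- the power of t
    have hdt : X * d⁄dX ℚ (t ^ s) * t = (PowerSeries.C (s : ℚ) * X * d⁄dX ℚ t) * t ^ s := by
      rw [Derivation.leibniz_pow, nsmul_eq_mul, smul_eq_mul]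
      have : (PowerSeries.C (s : ℚ) : ℚ⟦X⟧) = (s : ℚ⟦X⟧) := by simp
      rw [this]
      rcases s with _ | s
      · simp
      · rw [Nat.add_sub_cancel, pow_succ]
        ring
    have h3 : t ^ (s + 1) • Dc c (ap c s (y j)) = ∑ k, t • (X * d⁄dX ℚ (X ^ s * (ah T A s j k : ℚ⟦X⟧))) • y k +
        ∑ l, (X ^ (s + 1) * ∑ k, (aq A k l : ℚ⟦X⟧) * (ah T A s j k : ℚ⟦X⟧)) • y l -
        (PowerSeries.C (s : ℚ) * X * d⁄dX ℚ t) • ∑ k, (X ^ s * (ah T A s j k : ℚ⟦X⟧)) • y k := by
      rw [← h1, ← ih, smul_smul, smul_smul, smul_smul, pow_succ]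
      have : t * (X * d⁄dX ℚ (t ^ s)) = (PowerSeries.C (s : ℚ) * X * d⁄dX ℚ t) * t ^ s := by rw [← hdt]; ring
      rw [this, mul_comm t (t ^ s)]
      abel
    have h4 : t ^ (s + 1) • ((s : ℚ) • ap c s (y j)) = (PowerSeries.C (s : ℚ) * t) • ∑ k, (X ^ s * (ah T A s j k : ℚ⟦X⟧)) • y k := by
      rw [← ih, rat_smul, smul_smul, smul_smul]
      congr 1
      ring
    have h5 : (PowerSeries.C ((s : ℚ) + 1) : ℚ⟦X⟧) • (t ^ (s + 1) • ap c (s + 1) (y j)) =
        (PowerSeries.C ((s : ℚ) + 1) : ℚ⟦X⟧) • ∑ k, (X ^ (s + 1) * (ah T A (s + 1) j k : ℚ⟦X⟧)) • y k := by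
      rw [smul_comm, ← rat_smul, ap_succ, smul_sub, h3, h4, Finset.smul_sum, Finset.smul_sum, Finset.smul_sum,
        ← Finset.sum_add_distrib, ← Finset.sum_sub_distrib, ← Finset.sum_sub_distrib]
      refine Finset.sum_congr rfl fun k _ => ?_
      rw [smul_smul, smul_smul, smul_smul, smul_smul, ← add_smul, ← sub_smul, ← sub_smul]
      congr 1
      have hx : X * d⁄dX ℚ (X ^ s * (ah T A s j k : ℚ⟦X⟧)) = PowerSeries.C (s : ℚ) * X ^ s * (ah T A s j k : ℚ⟦X⟧) +
          X ^ (s + 1) * d⁄dX ℚ (ah T A s j k : ℚ⟦X⟧) := by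
        rw [Derivation.leibniz, Derivation.leibniz_pow, nsmul_eq_mul, smul_eq_mul, smul_eq_mul, smul_eq_mul, derivative_X]
        have : (PowerSeries.C (s : ℚ) : ℚ⟦X⟧) = (s : ℚ⟦X⟧) := by simp
        rw [this]
        rcases s with _ | s
        · simp
        · rw [Nat.add_sub_cancel, pow_succ]
          ring
      have hah : PowerSeries.C ((s : ℚ) + 1) * (ah T A (s + 1) j k : ℚ⟦X⟧) = t * d⁄dX ℚ (ah T A s j k : ℚ⟦X⟧) -
          PowerSeries.C (s : ℚ) * (d⁄dX ℚ t * (ah T A s j k : ℚ⟦X⟧)) + ∑ l, (aq A l k : ℚ⟦X⟧) * (ah T A s j l : ℚ⟦X⟧) := by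
        rw [ah_succ, Polynomial.coe_mul, Polynomial.coe_C, ← mul_assoc, ← map_mul, mul_one_div_cancel hs, map_one, one_mul]
        rw [Polynomial.coe_add, Polynomial.coe_sub, Polynomial.coe_mul, Polynomial.coe_mul, Polynomial.coe_mul,
          Polynomial.coe_C, ht, PowerSeries.derivative_coe, PowerSeries.derivative_coe]
        congr 1
        have := map_sum (Polynomial.coeToPowerSeries.ringHom (R := ℚ)) (fun l => aq A l k * ah T A s j l) Finset.univ
        refine this.trans ?_
        refine Finset.sum_congr rfl fun l _ => ?_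
        exact Polynomial.coe_mul _ _
      rw [hx]
      have e2 : PowerSeries.C ((s : ℚ) + 1) * (X ^ (s + 1) * (ah T A (s + 1) j k : ℚ⟦X⟧)) =
          X ^ (s + 1) * (PowerSeries.C ((s : ℚ) + 1) * (ah T A (s + 1) j k : ℚ⟦X⟧)) := by ring
      rw [e2, hah]
      ring
    rw [← rat_smul, ← rat_smul] at h5
    exact (smul_right_injective _ hs) h5

end Pool.Agent.Y124.GE
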