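import Pool.Agent.Y124.GE.El2

/-!
# Relations which do not hold on the torsor: elimination of the last entries
-/

set_option autoImplicit false

open Complex Module

namespace Pool.Agent.Y124.GE

open Pool.Agent.Y916.Fld Pool.Agent.Y916.Gre Pool.Agent.Y916.Hil

/-- the transformed polynomial -/
noncomputable def QT (τ : ℂ) {k : ℕ} (δ : ℕ) (P : MvPolynomial (Fin k × Fin 2 × Fin 2) ℂ) : MvPolynomial (Fin k × Fin 3) ℂ :=
  ∑ m ∈ P.support, MvPolynomial.C (P.coeff m) * ∏ j, (MvPolynomial.X (j, (0 : Fin 3)) ^ (m (j, 0, 0) + (δ - m (j, 1, 1))) *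
    MvPolynomial.X (j, (1 : Fin 3)) ^ m (j, 1, 0) * MvPolynomial.X (j, (2 : Fin 3)) ^ m (j, 0, 1) *
    (MvPolynomial.C τ + MvPolynomial.X (j, (1 : Fin 3)) * MvPolynomial.X (j, (2 : Fin 3))) ^ m (j, 1, 1))

/-- the three entries -/
def e3 {k : ℕ} (g : Fin k → Matrix (Fin 2) (Fin 2) ℂ) (x : Fin k × Fin 3) : ℂ := ![g x.1 0 0, g x.1 1 0, g x.1 0 1] x.2

lemma sum_m {k : ℕ} {δ : ℕ} {P : MvPolynomial (Fin k × Fin 2 × Fin 2) ℂ} (hP : P.totalDegree ≤ δ) {m : Fin k × Fin 2 × Fin 2 →₀ ℕ}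
    (hm : m ∈ P.support) : ∑ j, (m (j, 0, 0) + m (j, 0, 1) + (m (j, 1, 0) + m (j, 1, 1))) ≤ δ := by
  have h4 := (MvPolynomial.le_totalDegree hm).trans hP
  rw [Finsupp.sum_fintype _ _ (fun _ => rfl), Fintype.sum_prod_type] at h4
  refine le_trans (le_of_eq (Finset.sum_congr rfl fun j _ => ?_)) h4
  rw [Fintype.sum_prod_type, Fin.sum_univ_two, Fin.sum_univ_two, Fin.sum_univ_two]

lemma m_le {k : ℕ} {δ : ℕ} {P : MvPolynomial (Fin k × Fin 2 × Fin 2) ℂ} (hP : P.totalDegree ≤ δ) {m : Fin k × Fin 2 × Fin 2 →₀ ℕ}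
    (hm : m ∈ P.support) (j : Fin k) : m (j, 1, 1) ≤ δ := by
  have h1 := sum_m hP hm
  have h2 := Finset.single_le_sum (f := fun j => m (j, 0, 0) + m (j, 0, 1) + (m (j, 1, 0) + m (j, 1, 1))) (fun _ _ => Nat.zero_le _)
    (Finset.mem_univ j)
  have h3 : m (j, 0, 0) + m (j, 0, 1) + (m (j, 1, 0) + m (j, 1, 1)) ≤ δ := h2.trans h1
  omega

lemma eval_QT {τ : ℂ} {k δ : ℕ} {P : MvPolynomial (Fin k × Fin 2 × Fin 2) ℂ} (hP : P.totalDegree ≤ δ)
    {g : Fin k → Matrix (Fin 2) (Fin 2) ℂ} (hg : ∀ j, (g j).det = τ) :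
    MvPolynomial.eval (e3 g) (QT τ δ P) = (∏ j, (g j 0 0) ^ δ) * MvPolynomial.eval (fun x => g x.1 x.2.1 x.2.2) P := by
  rw [QT, map_sum, MvPolynomial.eval_eq' _ P, Finset.mul_sum]
  refine Finset.sum_congr rfl fun m hm => ?_
  rw [map_mul, MvPolynomial.eval_C, map_prod, Fintype.prod_prod_type, mul_left_comm, ← Finset.prod_mul_distrib]
  congr 1
  refine Finset.prod_congr rfl fun j _ => ?_
  rw [Fintype.prod_prod_type, Fin.prod_univ_two, Fin.prod_univ_two, Fin.prod_univ_two]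
  simp only [map_mul, map_pow, map_add, MvPolynomial.eval_C, MvPolynomial.eval_X]
  have h0 : e3 g (j, 0) = g j 0 0 := rfl
  have h1 : e3 g (j, 1) = g j 1 0 := rfl
  have h2 : e3 g (j, 2) = g j 0 1 := rfl
  rw [h0, h1, h2]
  have h3 : τ + g j 1 0 * g j 0 1 = g j 0 0 * g j 1 1 := by
    have := hg j
    rw [Matrix.det_fin_two] at this
    linear_combination -this
  have h4 : (g j 0 0) ^ δ = (g j 0 0) ^ (δ - m (j, 1, 1)) * (g j 0 0) ^ m (j, 1, 1) := by
    rw [← pow_add]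
    congr 1
    have := m_le hP hm j
    omega
  rw [h3, h4, pow_add, mul_pow]
  ring

theorem ok_prod' {ι κ : Type} [DecidableEq ι] [DecidableEq κ] {K : Type} [Field K] [Algebra K ℂ] {V : Submodule K ℂ} {A : Finset ι}
    (s : Finset κ) (g : κ → MvPolynomial ι ℂ) (n : κ → ℕ) (hg : ∀ i, Ok ((V ^ n i : Submodule K ℂ) : Set ℂ) (n i) A (g i)) :
    Ok ((V ^ (∑ i ∈ s, n i) : Submodule K ℂ) : Set ℂ) (∑ i ∈ s, n i) A (∏ i ∈ s, g i) := by
  induction s using Finset.induction_on with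
  | empty =>
    rw [Finset.prod_empty, Finset.sum_empty]
    have : (1 : ℂ) ∈ V ^ 0 := by simp
    simpa using ok_C (ι := ι) (A := A) this
  | insert j s hj ih =>
    rw [Finset.prod_insert hj, Finset.sum_insert hj]
    exact ok_mul (hg j) ih

lemma QT_ok {K : Type} [Field K] [Algebra K ℂ] {V : Submodule K ℂ} (h1 : (1 : ℂ) ∈ V) {τ : ℂ} (hτ : τ ∈ V)
    {k δ : ℕ} {P : MvPolynomial (Fin k × Fin 2 × Fin 2) ℂ} (hP : P.totalDegree ≤ δ) (hPc : ∀ e, P.coeff e ∈ V) :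
    Ok ((V ^ (1 + (k + 1) * δ) : Submodule K ℂ) : Set ℂ) (1 + (k + 1) * δ) Finset.univ (QT τ δ P) := by
  classical
  have hX : ∀ i : Fin k × Fin 3, Ok ((V ^ 1 : Submodule K ℂ) : Set ℂ) 1 Finset.univ (MvPolynomial.X i) := fun i => ok_X h1 (Finset.mem_univ i)
  have hC : ∀ c ∈ V, Ok ((V ^ 1 : Submodule K ℂ) : Set ℂ) 1 (Finset.univ : Finset (Fin k × Fin 3)) (MvPolynomial.C c) := fun c hc =>
    ok_C (by rwa [pow_one])
  have hpow : ∀ (q : ℕ) (Q : MvPolynomial (Fin k × Fin 3) ℂ), Ok ((V ^ q : Submodule K ℂ) : Set ℂ) q Finset.univ Q → ∀ m : ℕ,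
      Ok ((V ^ (q * m) : Submodule K ℂ) : Set ℂ) (q * m) Finset.univ (Q ^ m) := by
    intro q Q hQ m
    induction m with
    | zero =>
      have h0 : (Q ^ 0 : MvPolynomial (Fin k × Fin 3) ℂ) = MvPolynomial.C 1 := by rw [pow_zero, MvPolynomial.C_1]
      have h2 : (1 : ℂ) ∈ V ^ (q * 0) := by simp
      rw [h0]
      exact ok_C h2
    | succ m ih =>
      rw [pow_succ, Nat.mul_succ]
      exact ok_mul ih hQ
  have hadd : ∀ {k' : ℕ} {Q Q' : MvPolynomial (Fin k × Fin 3) ℂ}, Ok ((V ^ k' : Submodule K ℂ) : Set ℂ) k' Finset.univ Q →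
      Ok ((V ^ k' : Submodule K ℂ) : Set ℂ) k' Finset.univ Q' → Ok ((V ^ k' : Submodule K ℂ) : Set ℂ) k' Finset.univ (Q + Q') := by
    intro k' Q Q' h h'
    have := ok_sum (V := V) (A := Finset.univ) (a := k') (Finset.univ : Finset (Fin 2)) ![Q, Q'] (by
      intro i _
      fin_cases i
      · exact h
      · exact h')
    rw [Fin.sum_univ_two] at this
    exact this
  refine ok_sum _ _ fun m hm => ?_
  have h5 := ok_mul (hC _ (hPc m)) (ok_prod' (Finset.univ : Finset (Fin k)) _ _ fun j =>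
    ok_mul (ok_mul (ok_mul (hpow 1 _ (hX (j, 0)) (m (j, 0, 0) + (δ - m (j, 1, 1)))) (hpow 1 _ (hX (j, 1)) (m (j, 1, 0))))
      (hpow 1 _ (hX (j, 2)) (m (j, 0, 1)))) (hpow 2 _ (hadd (ok_mono h1 (by norm_num) (hC τ hτ)) (ok_mul (hX (j, 1)) (hX (j, 2)))) (m (j, 1, 1))))
  refine ok_mono h1 (Nat.add_le_add_left ?_ 1) h5
  have h6 := sum_m hP hm
  calc ∑ j, (1 * (m (j, 0, 0) + (δ - m (j, 1, 1))) + 1 * m (j, 1, 0) + 1 * m (j, 0, 1) + 2 * m (j, 1, 1))
      ≤ ∑ j : Fin k, (δ + (m (j, 0, 0) + m (j, 0, 1) + (m (j, 1, 0) + m (j, 1, 1)))) := Finset.sum_le_sum fun j _ => by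
        have := m_le hP hm j
        omega
    _ = k * δ + ∑ j : Fin k, (m (j, 0, 0) + m (j, 0, 1) + (m (j, 1, 0) + m (j, 1, 1))) := by
        rw [Finset.sum_add_distrib]
        simp
    _ ≤ (k + 1) * δ := by
        rw [add_mul, one_mul]
        exact Nat.add_le_add_left h6 _

lemma QT_ne {τ : ℂ} (hτ : τ ≠ 0) {k δ : ℕ} {P : MvPolynomial (Fin k × Fin 2 × Fin 2) ℂ} (hP : P.totalDegree ≤ δ)
    {g : Fin k → Matrix (Fin 2) (Fin 2) ℂ} (hg : ∀ j, (g j).det = τ) (hgv : MvPolynomial.aeval (fun x => g x.1 x.2.1 x.2.2) P ≠ 0) :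
    QT τ δ P ≠ 0 := by
  classical
  intro h0
  -- the perturbation
  set f : Fin k × Fin 2 × Fin 2 → Polynomial ℂ := fun x => if x.2.2 = 0 then Polynomial.C (g x.1 x.2.1 0) + Polynomial.C (g x.1 x.2.1 1) *
    Polynomial.X else Polynomial.C (g x.1 x.2.1 1) with hf
  set p : Polynomial ℂ := MvPolynomial.aeval f P with hp
  set G : ℂ → Fin k → Matrix (Fin 2) (Fin 2) ℂ := fun s j r c => if c = 0 then g j r 0 + g j r 1 * s else g j r 1 with hG
  have hev : ∀ s : ℂ, p.eval s = MvPolynomial.eval (fun x => G s x.1 x.2.1 x.2.2) P := by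
    intro s
    have h1 : Polynomial.aeval s p = MvPolynomial.aeval (fun x => Polynomial.aeval s (f x)) P := by
      rw [hp]
      exact MvPolynomial.comp_aeval_apply _ _ _
    have h2 : (fun x => Polynomial.aeval s (f x)) = fun x => G s x.1 x.2.1 x.2.2 := by
      funext x
      rw [hf, hG]
      dsimp only
      split_ifs <;> simp
    rw [h2] at h1
    exact h1
  have hp0 : p ≠ 0 := by
    intro hp0
    apply hgv
    have h1 := hev 0
    rw [hp0, Polynomial.eval_zero] at h1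
    have h2 : (fun x : Fin k × Fin 2 × Fin 2 => G 0 x.1 x.2.1 x.2.2) = fun x => g x.1 x.2.1 x.2.2 := by
      funext x
      obtain ⟨j, r, c⟩ := x
      show (if c = 0 then g j r 0 + g j r 1 * 0 else g j r 1) = g j r c
      split_ifs with h
      · rw [h]; ring
      · have : c = 1 := by omega
        rw [this]
    rw [h2] at h1
    exact h1.symm
  set q : Polynomial ℂ := ∏ j, (Polynomial.C (g j 0 0) + Polynomial.C (g j 0 1) * Polynomial.X) with hq
  have hq0 : q ≠ 0 := by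
    refine Finset.prod_ne_zero_iff.2 fun j _ h => ?_
    have c0 := congrArg (fun p => Polynomial.coeff p 0) h
    have c1 := congrArg (fun p => Polynomial.coeff p 1) h
    simp at c0 c1
    have := hg j
    rw [Matrix.det_fin_two, c0, c1] at this
    apply hτ
    rw [← this]
    ring
  obtain ⟨s, hs⟩ : ∃ s, (p * q).eval s ≠ 0 := by
    by_contra hno
    push Not at hno
    exact mul_ne_zero hp0 hq0 (Polynomial.funext fun s => by rw [hno s, Polynomial.eval_zero])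
  rw [Polynomial.eval_mul, hev, hq, Polynomial.eval_prod] at hs
  have hGd : ∀ j, (G s j).det = τ := by
    intro j
    rw [← hg j, Matrix.det_fin_two, Matrix.det_fin_two, hG]
    simp only [if_true, Fin.isValue, one_ne_zero, if_false]
    ring
  have h3 := eval_QT hP hGd
  rw [h0, map_zero] at h3
  rcases mul_eq_zero.1 h3.symm with h4 | h4
  · obtain ⟨j, -, hj⟩ := Finset.prod_eq_zero_iff.1 h4
    refine (right_ne_zero_of_mul hs) (Finset.prod_eq_zero (Finset.mem_univ j) ?_)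
    have h5 : G s j 0 0 = g j 0 0 + g j 0 1 * s := rfl
    simp only [Polynomial.eval_add, Polynomial.eval_mul, Polynomial.eval_C, Polynomial.eval_X]
    rw [← h5]
    exact eq_zero_of_pow_eq_zero hj
  · exact left_ne_zero_of_mul hs h4

/-- the larger space -/
noncomputable def VT (V : Submodule ℚ ℂ) (τ : ℂ) (N : ℕ) : Submodule ℚ ℂ := ((V ⊔ Submodule.span ℚ {τ}) ⊔ 1) ^ N

lemma VT_dim (V : Submodule ℚ ℂ) [Module.Finite ℚ V] (τ : ℂ) (N : ℕ) {D : ℕ} (hV : finrank ℚ V ≤ D) :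
    Module.Finite ℚ (VT V τ N) ∧ finrank ℚ (VT V τ N) ≤ (D + 1 + 1) ^ N := by
  have hf1 : Module.Finite ℚ (V ⊔ Submodule.span ℚ {τ} : Submodule ℚ ℂ) := Submodule.finite_sup V _
  have h1 : finrank ℚ (V ⊔ Submodule.span ℚ {τ} : Submodule ℚ ℂ) ≤ D + 1 := by
    have h3 := Submodule.finrank_add_le_finrank_add_finrank V (Submodule.span ℚ {τ})
    have h4 : finrank ℚ (Submodule.span ℚ {τ}) ≤ 1 := by
      refine (finrank_span_le_card _).trans ?_
      simp
    omega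
  exact Y916.NF.big h1 N

/-- **Elimination.** -/
theorem relL_torsor {τ : ℂ} (hτ : τ ≠ 0) {k δ d : ℕ} {V : Submodule ℚ ℂ} [Module.Finite ℚ V] (K : IntermediateField ℚ ℂ)
    (hK : FiniteDimensional ℚ K) (hKd : finrank ℚ K ≤ d) {P : MvPolynomial (Fin k × Fin 2 × Fin 2) ℂ} (hP : P.totalDegree ≤ δ)
    (hPc : ∀ e, P.coeff e ∈ Submodule.span K (V : Set ℂ)) {Pi : Fin k → Matrix (Fin 2) (Fin 2) ℂ} (hPi : ∀ j, (Pi j).det = τ)
    (hPv : MvPolynomial.aeval (fun x : Fin k × Fin 2 × Fin 2 => Pi x.1 x.2.1 x.2.2) P = 0)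
    {g : Fin k → Matrix (Fin 2) (Fin 2) ℂ} (hg : ∀ j, (g j).det = τ)
    (hgv : MvPolynomial.aeval (fun x : Fin k × Fin 2 × Fin 2 => g x.1 x.2.1 x.2.2) P ≠ 0) :
    RelL (1 + (k + 1) * δ) d (VT V τ (1 + (k + 1) * δ)) (e3 Pi) := by
  classical
  set N := 1 + (k + 1) * δ with hN
  set S₁ : Set ℂ := (((V ⊔ Submodule.span ℚ {τ}) ⊔ 1 : Submodule ℚ ℂ) : Set ℂ) with hS₁
  set V' : Submodule K ℂ := Submodule.span K S₁ with hV'
  have h1V : (1 : ℂ) ∈ V' := Submodule.subset_span (Submodule.mem_sup_right (Submodule.one_le.1 le_rfl))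
  have hτV : τ ∈ V' := Submodule.subset_span (Submodule.mem_sup_left (Submodule.mem_sup_right (Submodule.mem_span_singleton_self _)))
  have hVV : ∀ c ∈ Submodule.span K (V : Set ℂ), c ∈ V' := fun c hc =>
    Submodule.span_mono (fun z hz => Submodule.mem_sup_left (Submodule.mem_sup_left hz)) hc
  have hok := QT_ok (V := V') h1V hτV hP fun e => hVV _ (hPc e)
  refine ⟨K, hK, hKd, QT τ δ P, QT_ne hτ hP hg hgv, hok.2.1, fun e => ?_, ?_⟩
  · have hc := hok.2.2 e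
    have hc' : (QT τ δ P).coeff e ∈ V' ^ N := hc
    rw [hV', Submodule.span_pow] at hc'
    refine Submodule.span_mono ?_ hc'
    exact Submodule.pow_subset_pow (R := ℚ) (M := ((V ⊔ Submodule.span ℚ {τ}) ⊔ 1 : Submodule ℚ ℂ)) (n := N)
  · have h3 := eval_QT hP hPi
    have h4 : MvPolynomial.eval (fun x : Fin k × Fin 2 × Fin 2 => Pi x.1 x.2.1 x.2.2) P = 0 := hPv
    rw [h4, mul_zero] at h3
    exact h3

end Pool.Agent.Y124.GE
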